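import Pool.Agent.Helper13.DH.GoodL

/-!
# MP_6ad661_an, block DH-G : the base functionals

`Aav m x = sup { ∑ q_i x_i : 0 ≤ q_i ≤ 1/m, ∑ q_i ≤ 1 }`,
`Hb B x = max_{1 ≤ l ≤ B²} 2 (l/B²) Aav (B^(3^l)) x`.

`good_Aav`: domination along `f` (injective on the support of `x`): for weights `q` on `ι` put
`q' k = ∑' i, if f i = k ∧ x i ≠ 0 then q i else 0` (at most one term); monotone convergence for
`cont` (`ENNReal.tsum_iSup_eq`-like statements: for fixed `q` and `x_n` increasing,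
`∑' i, q i * ⨆ n, x n i = ⨆ n, ∑' i, q i * x n i`; e.g. via `MeasureTheory.lintegral_iSup` for the
counting measure or via finite partial sums and `ENNReal.finsetSum_iSup_of_monotone`).
-/

open scoped ENNReal NNReal
open Function

namespace DHsp

noncomputable def Aav (m : ℕ) : SFun := fun ι x =>
  ⨆ (q : ι → ℝ≥0∞) (_ : (∀ i, q i ≤ (m : ℝ≥0∞)⁻¹) ∧ ∑' i, q i ≤ 1), ∑' i, q i * x i

noncomputable def Hb (B : ℕ) : SFun := fun ι x =>
  ⨆ l ∈ Finset.Icc 1 (B ^ 2), 2 * ((l : ℝ≥0∞) / (B : ℝ≥0∞) ^ 2) * Aav (B ^ 3 ^ l) ι x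

theorem Aav_ge {m : ℕ} {ι : Type} (x q : ι → ℝ≥0∞) (hq : ∀ i, q i ≤ (m : ℝ≥0∞)⁻¹)
    (hs : ∑' i, q i ≤ 1) : ∑' i, q i * x i ≤ Aav m ι x :=
  le_iSup₂_of_le (f := fun (q : ι → ℝ≥0∞)
    (_ : (∀ i, q i ≤ (m : ℝ≥0∞)⁻¹) ∧ ∑' i, q i ≤ 1) => ∑' i, q i * x i) q ⟨hq, hs⟩ le_rfl

theorem Aav_le {m : ℕ} {ι : Type} {x : ι → ℝ≥0∞} {c : ℝ≥0∞}
    (h : ∀ q : ι → ℝ≥0∞, (∀ i, q i ≤ (m : ℝ≥0∞)⁻¹) → ∑' i, q i ≤ 1 → ∑' i, q i * x i ≤ c) :
    Aav m ι x ≤ c :=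
  iSup₂_le fun q hq => h q hq.1 hq.2

theorem tsum_mul_iSup {ι : Type} (q : ι → ℝ≥0∞) (x : ℕ → ι → ℝ≥0∞) (hx : Monotone x) :
    ∑' i, q i * (⨆ n, x n i) = ⨆ n, ∑' i, q i * x n i := by
  simp only [ENNReal.mul_iSup]
  simp only [ENNReal.tsum_eq_iSup_sum]
  rw [iSup_comm]
  refine iSup_congr fun s => ?_
  rw [ENNReal.finsetSum_iSup_of_monotone]
  intro i a b hab
  exact mul_le_mul_right (hx hab i) _

theorem good_Aav (m : ℕ) : Good (Aav m) where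
  mono := fun {ι κ x y} f hf hx => by
    refine Aav_le fun q hq hs => ?_
    let s : Set ι := {i | x i ≠ 0}
    let g : s → κ := fun i => f i
    have hg : Injective g := fun i j hij => Subtype.ext (hf i.2 j.2 hij)
    let q' : κ → ℝ≥0∞ := Function.extend g (fun i : s => q i) 0
    have hq'1 : ∀ i : s, q' (g i) = q i := fun i => hg.extend_apply _ _ i
    have hq'0 : ∀ k, k ∉ Set.range g → q' k = 0 := fun k hk => by
      have := Function.extend_apply' (f := g) (fun i : s => q i) (0 : κ → ℝ≥0∞) k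
        (fun ⟨a, ha⟩ => hk ⟨a, ha⟩)
      simpa [q'] using this
    have h1 : ∀ z : κ → ℝ≥0∞, ∑' k, q' k * z k = ∑' i : s, q i * z (g i) := by
      intro z
      rw [← hg.tsum_eq (f := fun k => q' k * z k)]
      · exact tsum_congr fun i => by rw [hq'1]
      · intro k hk
        by_contra hk'
        exact hk (by simp [hq'0 k hk'])
    have h2 : ∑' k, q' k ≤ 1 := by
      have := h1 (fun _ => 1)
      simp only [mul_one] at this
      rw [this]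
      exact (ENNReal.tsum_comp_le_tsum_of_injective Subtype.val_injective q).trans hs
    have h3 : ∀ k, q' k ≤ (m : ℝ≥0∞)⁻¹ := by
      intro k
      by_cases hk : k ∈ Set.range g
      · obtain ⟨i, rfl⟩ := hk
        rw [hq'1]
        exact hq i
      · rw [hq'0 k hk]
        exact zero_le
    refine le_trans ?_ (Aav_ge y q' h3 h2)
    rw [h1]
    have h4 : ∑' i, q i * x i = ∑' i : s, q i * x i := by
      rw [← Subtype.val_injective.tsum_eq (f := fun i => q i * x i) (g := (Subtype.val : s → ι))]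
      intro i hi
      rw [Subtype.range_coe]
      exact fun h0 => hi (by simp [h0])
    rw [h4]
    exact ENNReal.tsum_le_tsum fun i => mul_le_mul_right (hx i) _
  add := fun {ι} x y => by
    refine Aav_le fun q hq hs => ?_
    simp only [mul_add]
    rw [ENNReal.tsum_add]
    exact add_le_add (Aav_ge x q hq hs) (Aav_ge y q hq hs)
  smul_le := fun {ι c} x hc => by
    refine Aav_le fun q hq hs => ?_
    have : ∀ i, q i * (c * x i) = c * (q i * x i) := fun i => by ring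
    simp only [this]
    rw [ENNReal.tsum_mul_left]
    gcongr
    exact Aav_ge x q hq hs
  cont := fun {ι} x hx => by
    refine Aav_le fun q hq hs => ?_
    rw [tsum_mul_iSup q x hx]
    exact iSup_mono fun n => Aav_ge (x n) q hq hs

theorem Aav_le_sup (m : ℕ) {ι : Type} (x : ι → ℝ≥0∞) : Aav m ι x ≤ ⨆ i, x i := by
  refine Aav_le fun q hq hs => ?_
  calc ∑' i, q i * x i ≤ ∑' i, q i * (⨆ i, x i) :=
        ENNReal.tsum_le_tsum fun i => mul_le_mul_right (le_iSup x i) _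
    _ = (∑' i, q i) * (⨆ i, x i) := ENNReal.tsum_mul_right
    _ ≤ 1 * (⨆ i, x i) := mul_le_mul_left hs _
    _ = ⨆ i, x i := one_mul _

theorem Aav_le_l1 (m : ℕ) {ι : Type} (x : ι → ℝ≥0∞) :
    Aav m ι x ≤ (m : ℝ≥0∞)⁻¹ * ∑' i, x i := by
  refine Aav_le fun q hq hs => ?_
  rw [← ENNReal.tsum_mul_left]
  exact ENNReal.tsum_le_tsum fun i => mul_le_mul_left (hq i) _

/-- Any weights bounded by `1/m` with total mass `Q` (not necessarily `≤ 1`) give at most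
`Q * Aav m x` provided `Q ≥ ...`: if `q i ≤ Q / m` and `∑ q = Q ≠ 0, ⊤`, then
`∑ q_i x_i ≤ Q * Aav m x`. -/
theorem Aav_scaled {m : ℕ} {ι : Type} (x q : ι → ℝ≥0∞) {Q : ℝ≥0∞} (hQ : ∑' i, q i ≤ Q)
    (hQt : Q ≠ ⊤) (hq : ∀ i, q i ≤ Q * (m : ℝ≥0∞)⁻¹) : ∑' i, q i * x i ≤ Q * Aav m ι x := by
  rcases eq_or_ne Q 0 with rfl | hQ0
  · have h0 : ∀ i, q i = 0 := fun i => by
      have := (ENNReal.le_tsum i).trans hQ
      exact le_antisymm this zero_le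
    simp [h0]
  · have h1 : ∀ i, q i = Q * (Q⁻¹ * q i) := fun i => by
      rw [← mul_assoc, ENNReal.mul_inv_cancel hQ0 hQt, one_mul]
    have h2 : ∑' i, q i * x i = Q * ∑' i, (Q⁻¹ * q i) * x i := by
      rw [← ENNReal.tsum_mul_left]
      refine tsum_congr fun i => ?_
      rw [← mul_assoc, ← h1]
    rw [h2]
    gcongr
    refine Aav_ge x (fun i => Q⁻¹ * q i) (fun i => ?_) ?_
    · calc Q⁻¹ * q i ≤ Q⁻¹ * (Q * (m : ℝ≥0∞)⁻¹) := mul_le_mul_right (hq i) _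
        _ = (m : ℝ≥0∞)⁻¹ := by
          rw [← mul_assoc, ENNReal.inv_mul_cancel hQ0 hQt, one_mul]
    · rw [ENNReal.tsum_mul_left]
      calc Q⁻¹ * ∑' i, q i ≤ Q⁻¹ * Q := mul_le_mul_right hQ _
        _ = 1 := ENNReal.inv_mul_cancel hQ0 hQt

theorem Aav_ones {m : ℕ} (hm : 1 ≤ m) : 1 ≤ Aav m (Fin m) (fun _ => 1) := by
  have h1 : ∑' _ : Fin m, (m : ℝ≥0∞)⁻¹ = 1 := by
    rw [tsum_fintype]
    simp only [Finset.sum_const, Finset.card_univ, Fintype.card_fin, nsmul_eq_mul]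
    exact ENNReal.mul_inv_cancel (by exact_mod_cast (by omega : m ≠ 0)) (ENNReal.natCast_ne_top m)
  refine le_trans ?_ (Aav_ge (fun _ => 1) (fun _ => (m : ℝ≥0∞)⁻¹) (fun _ => le_rfl) h1.le)
  simp only [mul_one]
  exact h1.ge

theorem good_Hb (B : ℕ) : Good (Hb B) :=
  Good.iSup fun l => Good.iSup fun _ => Good.const_mul (good_Aav (B ^ 3 ^ l)) _

theorem Hb_coef {B l : ℕ} (hB : 1 ≤ B) (hl : l ∈ Finset.Icc 1 (B ^ 2)) :
    (l : ℝ≥0∞) / (B : ℝ≥0∞) ^ 2 ≤ 1 := by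
  apply ENNReal.div_le_of_le_mul
  rw [one_mul]
  exact_mod_cast (Finset.mem_Icc.1 hl).2

theorem Hb_le_sup {B : ℕ} (hB : 1 ≤ B) {ι : Type} (x : ι → ℝ≥0∞) : Hb B ι x ≤ 2 * ⨆ i, x i := by
  refine iSup₂_le fun l hl => ?_
  calc 2 * ((l : ℝ≥0∞) / (B : ℝ≥0∞) ^ 2) * Aav (B ^ 3 ^ l) ι x
      ≤ 2 * 1 * ⨆ i, x i := by
        gcongr
        · exact Hb_coef hB hl
        · exact Aav_le_sup _ x
    _ = 2 * ⨆ i, x i := by rw [mul_one]

/-- `m_l = B^(3^l) ≥ B`. -/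
theorem Hb_le_l1 {B : ℕ} (hB : 1 ≤ B) {ι : Type} (x : ι → ℝ≥0∞) :
    Hb B ι x ≤ 2 / B * ∑' i, x i := by
  refine iSup₂_le fun l hl => ?_
  have h1 : (((B ^ 3 ^ l : ℕ) : ℝ≥0∞))⁻¹ ≤ (B : ℝ≥0∞)⁻¹ := by
    rw [ENNReal.inv_le_inv]
    have : B ≤ B ^ 3 ^ l := Nat.le_self_pow (by positivity) B
    exact_mod_cast this
  calc 2 * ((l : ℝ≥0∞) / (B : ℝ≥0∞) ^ 2) * Aav (B ^ 3 ^ l) ι x
      ≤ 2 * 1 * ((B : ℝ≥0∞)⁻¹ * ∑' i, x i) := by
        gcongr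
        · exact Hb_coef hB hl
        · exact (Aav_le_l1 _ x).trans (mul_le_mul_left h1 _)
    _ = 2 / B * ∑' i, x i := by rw [mul_one, ← mul_assoc, div_eq_mul_inv]

theorem Hb_ones {B : ℕ} (hB : 1 ≤ B) : ∃ n : ℕ, 2 ≤ Hb B (Fin n) (fun _ => 1) := by
  refine ⟨B ^ 3 ^ (B ^ 2), ?_⟩
  have hl : B ^ 2 ∈ Finset.Icc 1 (B ^ 2) := Finset.mem_Icc.2 ⟨Nat.one_le_pow _ _ hB, le_rfl⟩
  refine le_iSup₂_of_le (f := fun (l : ℕ) (_ : l ∈ Finset.Icc 1 (B ^ 2)) =>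
    2 * ((l : ℝ≥0∞) / (B : ℝ≥0∞) ^ 2) *
      Aav (B ^ 3 ^ l) (Fin (B ^ 3 ^ (B ^ 2))) (fun _ => 1)) (B ^ 2) hl ?_
  have h1 : ((B ^ 2 : ℕ) : ℝ≥0∞) / (B : ℝ≥0∞) ^ 2 = 1 := by
    have h0 : (B : ℝ≥0∞) ^ 2 ≠ 0 := by
      have : (B : ℝ≥0∞) ≠ 0 := by exact_mod_cast (by omega : B ≠ 0)
      exact pow_ne_zero 2 this
    push_cast
    exact ENNReal.div_self h0 (ENNReal.pow_ne_top (ENNReal.natCast_ne_top B))
  have h2 : 1 ≤ Aav (B ^ 3 ^ (B ^ 2)) (Fin (B ^ 3 ^ (B ^ 2))) (fun _ => 1) :=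
    Aav_ones (Nat.one_le_pow _ _ hB)
  calc (2 : ℝ≥0∞) = 2 * 1 * 1 := by norm_num
    _ ≤ _ := by
      rw [h1]
      gcongr

end DHsp
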