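import Pool.Agent.Helper13.DH.Base

/-!
# MP_6ad661_an, block DH-H : the splitting property of the base functionals

`Aav_split`.  Put `v = top b δ a`.  Let `q` be weights on `β ⊕ (K × I)`, `q ≤ 1/m`, `∑ q ≤ 1`, and
`m = m' ^ 3` (`1 ≤ m'`).  Block masses `Q_k = ∑_i q (k,i)`.  Let `K₁ = {k : Q_k ≥ m'/m}`.  For
`k ∈ K₁`: `q (k,i) ≤ 1/m ≤ Q_k / m'`, so `∑_i q(k,i) d_k(i) ≤ Q_k Aav m' d_k` (`Aav_scaled`).  The
rest is `≤ ∑_u ρ_u v_u` with `ρ_b = q_b ≤ 1/m`, `ρ_k = Q_k < m'/m` (`k ∉ K₁`), `ρ_k = 0`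
(`k ∈ K₁`).  Let `Qs = ∑ ρ_u`.  If `Qs ≥ m'^2/m` then `ρ_u ≤ m'/m ≤ Qs/m'` and
`∑ ρ_u v_u ≤ Qs Aav m' v`; otherwise `∑ ρ_u v_u ≤ (m'^2/m) sup v`.  Since
`∑_{K₁} Q_k + Qs ≤ 1`, the total is
`≤ max (Aav m' v) (sup_k a_k Aav m' d_k) + (m'^2/m) sup v`, `m'^2/m = 1/m'`.

`Hb_split`.  `l ≤ B`: `2 (l/B²) Aav m_l x ≤ (2/B) sup x ≤ (2/B) sup v` (`x = blk b a d ≤ v`
coordinatewise through the block map).  `l ≥ B+1` (so `l ≥ 2`): `Aav_split` with `m' = m_{l-1}`,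
`m = m_l = m'^3`, and
`2 (l/B²) = (l/(l-1)) 2 ((l-1)/B²) ≤ (1+1/B) 2 ((l-1)/B²)`; `1/m' ≤ 1/B`, `2 (l/B²) ≤ 2`.
-/

open scoped ENNReal NNReal
open Function

namespace DHsp

theorem tsum_sum_enn {β γ : Type} (f : β ⊕ γ → ℝ≥0∞) :
    ∑' u, f u = ∑' b, f (Sum.inl b) + ∑' k, f (Sum.inr k) :=
  Summable.tsum_sum ENNReal.summable ENNReal.summable

theorem tsum_le_mul_sup {ι : Type} (ρ x : ι → ℝ≥0∞) :
    ∑' u, ρ u * x u ≤ (∑' u, ρ u) * ⨆ u, x u := by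
  rw [← ENNReal.tsum_mul_right]
  refine ENNReal.tsum_le_tsum fun u => ?_
  gcongr
  exact le_iSup x u

theorem blk_le_top_sup {β K I : Type} (b : β → ℝ≥0∞) (a : K → ℝ≥0∞)
    (d : K → I → ℝ≥0∞) (δ : ℝ≥0∞) (hd : ∀ k i, d k i ≤ δ) :
    (⨆ u, blk b a d u) ≤ ⨆ u, top b δ a u := by
  refine iSup_le fun u => ?_
  rcases u with u | ⟨k, i⟩
  · exact le_iSup (top b δ a) (Sum.inl u)
  · refine le_trans ?_ (le_iSup (top b δ a) (Sum.inr k))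
    simp only [blk, top, Sum.elim_inr]
    rw [mul_comm]
    gcongr
    exact hd k i

/-- the top level part -/
theorem Aav_topPart {m' : ℕ} {ι : Type} (v ρ : ι → ℝ≥0∞)
    (hρ1 : ∑' u, ρ u ≤ 1) (hρ : ∀ u, ρ u ≤ (m' : ℝ≥0∞)⁻¹ * (m' : ℝ≥0∞)⁻¹) :
    ∑' u, ρ u * v u ≤ (∑' u, ρ u) * Aav m' ι v + (m' : ℝ≥0∞)⁻¹ * ⨆ u, v u := by
  rcases le_or_gt (m' : ℝ≥0∞)⁻¹ (∑' u, ρ u) with h | h
  · refine le_trans (Aav_scaled v ρ (Q := ∑' u, ρ u) le_rfl (ne_top_of_le_ne_top ENNReal.one_ne_top hρ1)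
      fun u => (hρ u).trans (by gcongr)) ?_
    exact le_self_add
  · refine (tsum_le_mul_sup ρ v).trans ?_
    refine le_trans ?_ le_add_self
    gcongr

theorem Aav_split {m' : ℕ} (hm' : 1 ≤ m') {β K I : Type} (b : β → ℝ≥0∞) (a : K → ℝ≥0∞)
    (d : K → I → ℝ≥0∞) (δ : ℝ≥0∞) (hd : ∀ k i, d k i ≤ δ) :
    Aav (m' ^ 3) _ (blk b a d) ≤ max (Aav m' _ (top b δ a)) (⨆ k, a k * Aav m' _ (d k))
      + (m' : ℝ≥0∞)⁻¹ * ⨆ u, top b δ a u := by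
  classical
  set M : ℝ≥0∞ := max (Aav m' _ (top b δ a)) (⨆ k, a k * Aav m' _ (d k)) with hM
  set s : ℝ≥0∞ := (m' : ℝ≥0∞)⁻¹ with hs
  have hs1 : s ≤ 1 := by
    rw [hs, ENNReal.inv_le_one]
    exact_mod_cast hm'
  refine iSup₂_le fun q hq => ?_
  obtain ⟨hq1, hq2⟩ := hq
  have hm3 : (((m' ^ 3 : ℕ) : ℝ≥0∞))⁻¹ = s * s * s := by
    rw [hs, Nat.cast_pow, pow_succ, pow_two,
      ENNReal.mul_inv (Or.inr (by simp)) (Or.inl (by finiteness)),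
      ENNReal.mul_inv (Or.inr (by simp)) (Or.inl (by finiteness))]
  rw [hm3] at hq1
  set Qk : K → ℝ≥0∞ := fun k => ∑' i, q (Sum.inr (k, i)) with hQk
  have hqs : ∑' u, q u = ∑' x, q (Sum.inl x) + ∑' k, Qk k := by
    rw [tsum_sum_enn, ENNReal.tsum_prod']
  have hQk1 : ∀ k, Qk k ≤ 1 := fun k =>
    (ENNReal.le_tsum k).trans (le_add_self.trans (hqs ▸ hq2))
  set ρ : β ⊕ K → ℝ≥0∞ := Sum.elim (fun x => q (Sum.inl x)) (fun k => if s * s ≤ Qk k then 0 else Qk k)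
    with hρ
  set ρ' : K → ℝ≥0∞ := fun k => if s * s ≤ Qk k then Qk k else 0 with hρ'
  have hmass : ∑' u, ρ u + ∑' k, ρ' k ≤ 1 := by
    refine le_trans (le_of_eq ?_) hq2
    rw [hqs, tsum_sum_enn, add_assoc, ← ENNReal.tsum_add]
    congr 1
    refine tsum_congr fun k => ?_
    simp only [hρ, hρ', Sum.elim_inr]
    split_ifs <;> simp
  have htop := Aav_topPart (m' := m') (top b δ a) ρ (le_self_add.trans hmass) (by
    rintro (x | k)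
    · refine (hq1 (Sum.inl x)).trans ?_
      calc s * s * s ≤ s * s * 1 := by gcongr
        _ = s * s := mul_one _
    · simp only [hρ, Sum.elim_inr]
      split_ifs with h
      · exact zero_le
      · exact (not_le.1 h).le)
  have hblock : ∀ k, ∑' i, q (Sum.inr (k, i)) * (a k * d k i) ≤
      ρ (Sum.inr k) * top b δ a (Sum.inr k) + ρ' k * (a k * Aav m' _ (d k)) := by
    intro k
    have h0 : ∑' i, q (Sum.inr (k, i)) * (a k * d k i) = a k * ∑' i, q (Sum.inr (k, i)) * d k i := by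
      rw [← ENNReal.tsum_mul_left]
      exact tsum_congr fun i => by ring
    rw [h0]
    simp only [hρ, hρ', top, Sum.elim_inr]
    split_ifs with h
    · have h1 := Aav_scaled (m := m') (d k) (fun i => q (Sum.inr (k, i))) (Q := Qk k) le_rfl
        (ne_top_of_le_ne_top ENNReal.one_ne_top (hQk1 k)) (fun i => (hq1 _).trans (by gcongr))
      calc a k * ∑' i, q (Sum.inr (k, i)) * d k i ≤ a k * (Qk k * Aav m' _ (d k)) := by gcongr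
        _ = 0 * (δ * a k) + Qk k * (a k * Aav m' _ (d k)) := by ring
    · have h1 : ∑' i, q (Sum.inr (k, i)) * d k i ≤ Qk k * δ := by
        rw [hQk, ← ENNReal.tsum_mul_right]
        refine ENNReal.tsum_le_tsum fun i => ?_
        gcongr
        exact hd k i
      calc a k * ∑' i, q (Sum.inr (k, i)) * d k i ≤ a k * (Qk k * δ) := by gcongr
        _ = Qk k * (δ * a k) + 0 * (a k * Aav m' _ (d k)) := by ring
  calc ∑' u, q u * blk b a d u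
      = ∑' x, q (Sum.inl x) * b x + ∑' k, ∑' i, q (Sum.inr (k, i)) * (a k * d k i) := by
        rw [tsum_sum_enn, ENNReal.tsum_prod']
        rfl
    _ ≤ ∑' x, q (Sum.inl x) * b x +
        ∑' k, (ρ (Sum.inr k) * top b δ a (Sum.inr k) + ρ' k * (a k * Aav m' _ (d k))) := by
        gcongr with k
        exact hblock k
    _ = ∑' u, ρ u * top b δ a u + ∑' k, ρ' k * (a k * Aav m' _ (d k)) := by
        rw [ENNReal.tsum_add, ← add_assoc, tsum_sum_enn]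
        rfl
    _ ≤ ((∑' u, ρ u) * Aav m' _ (top b δ a) + s * ⨆ u, top b δ a u) +
        (∑' k, ρ' k) * ⨆ k, a k * Aav m' _ (d k) := by
        gcongr
        exact tsum_le_mul_sup _ _
    _ ≤ ((∑' u, ρ u) * M + s * ⨆ u, top b δ a u) + (∑' k, ρ' k) * M := by
        gcongr
        · exact le_max_left _ _
        · exact le_max_right _ _
    _ = (∑' u, ρ u + ∑' k, ρ' k) * M + s * ⨆ u, top b δ a u := by ring
    _ ≤ 1 * M + s * ⨆ u, top b δ a u := by gcongr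
    _ = M + s * ⨆ u, top b δ a u := by rw [one_mul]

theorem Hb_split {B : ℕ} (hB : 1 ≤ B) {β K I : Type} (b : β → ℝ≥0∞) (a : K → ℝ≥0∞)
    (d : K → I → ℝ≥0∞) (δ : ℝ≥0∞) (hd : ∀ k i, d k i ≤ δ) :
    Hb B _ (blk b a d) ≤ (1 + 1 / B) * max (Hb B _ (top b δ a)) (⨆ k, a k * Hb B _ (d k))
      + 2 / B * ⨆ u, top b δ a u := by
  have hB0 : (B : ℝ≥0∞) ≠ 0 := by exact_mod_cast (by omega : B ≠ 0)
  have hBt : (B : ℝ≥0∞) ≠ ⊤ := ENNReal.natCast_ne_top B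
  refine iSup₂_le fun l hl => ?_
  rw [Finset.mem_Icc] at hl
  rcases le_or_gt l B with hlB | hlB
  · refine le_trans ?_ le_add_self
    have h1 : 2 * ((l : ℝ≥0∞) / (B : ℝ≥0∞) ^ 2) ≤ 2 / B := by
      rw [div_eq_mul_inv, div_eq_mul_inv, pow_two, ENNReal.mul_inv (Or.inl hB0) (Or.inl hBt)]
      gcongr
      calc (l : ℝ≥0∞) * ((B : ℝ≥0∞)⁻¹ * (B : ℝ≥0∞)⁻¹) ≤ (B : ℝ≥0∞) * ((B : ℝ≥0∞)⁻¹ * (B : ℝ≥0∞)⁻¹) := by
            gcongr
        _ = (B : ℝ≥0∞)⁻¹ := by rw [← mul_assoc, ENNReal.mul_inv_cancel hB0 hBt, one_mul]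
    gcongr
    exact (Aav_le_sup _ _).trans (blk_le_top_sup b a d δ hd)
  · obtain ⟨l', rfl⟩ : ∃ l', l = l' + 1 := ⟨l - 1, by omega⟩
    have hpow : B ^ 3 ^ (l' + 1) = (B ^ 3 ^ l') ^ 3 := by
      rw [← pow_mul, ← pow_succ]
    have hm1 : B ≤ B ^ 3 ^ l' := by
      calc B = B ^ 1 := (pow_one B).symm
        _ ≤ B ^ 3 ^ l' := Nat.pow_le_pow_right hB (Nat.one_le_pow _ _ (by norm_num))
    have hinv : ((B ^ 3 ^ l' : ℕ) : ℝ≥0∞)⁻¹ ≤ (B : ℝ≥0∞)⁻¹ := by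
      apply ENNReal.inv_le_inv.2
      exact_mod_cast hm1
    have hsplit := Aav_split (m' := B ^ 3 ^ l') (hB.trans hm1) b a d δ hd
    have hl'Icc : l' ∈ Finset.Icc 1 (B ^ 2) := by
      rw [Finset.mem_Icc]
      omega
    have hc2 : 2 * (((l' + 1 : ℕ) : ℝ≥0∞) / (B : ℝ≥0∞) ^ 2) ≤ 2 := by
      calc 2 * (((l' + 1 : ℕ) : ℝ≥0∞) / (B : ℝ≥0∞) ^ 2) ≤ 2 * 1 := by
            gcongr
            apply ENNReal.div_le_of_le_mul
            rw [one_mul]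
            exact_mod_cast hl.2
        _ = 2 := mul_one _
    have hc1 : 2 * (((l' + 1 : ℕ) : ℝ≥0∞) / (B : ℝ≥0∞) ^ 2) ≤
        (1 + 1 / B) * (2 * ((l' : ℝ≥0∞) / (B : ℝ≥0∞) ^ 2)) := by
      have h1 : ((l' + 1 : ℕ) : ℝ≥0∞) ≤ (1 + 1 / B) * l' := by
        rw [add_mul, one_mul, Nat.cast_add, Nat.cast_one]
        gcongr
        rw [one_div]
        calc (1 : ℝ≥0∞) = (B : ℝ≥0∞)⁻¹ * B := (ENNReal.inv_mul_cancel hB0 hBt).symm
          _ ≤ (B : ℝ≥0∞)⁻¹ * l' := by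
              gcongr
              omega
      calc 2 * (((l' + 1 : ℕ) : ℝ≥0∞) / (B : ℝ≥0∞) ^ 2)
          ≤ 2 * ((1 + 1 / B) * l' / (B : ℝ≥0∞) ^ 2) := by gcongr
        _ = (1 + 1 / B) * (2 * ((l' : ℝ≥0∞) / (B : ℝ≥0∞) ^ 2)) := by
            simp only [div_eq_mul_inv]
            ring
    set W : ℝ≥0∞ := ⨆ u, top b δ a u with hW
    have hle : ∀ {ι : Type} (x : ι → ℝ≥0∞),
        2 * ((l' : ℝ≥0∞) / (B : ℝ≥0∞) ^ 2) * Aav (B ^ 3 ^ l') ι x ≤ Hb B ι x := fun x =>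
      le_iSup₂_of_le (f := fun l (_ : l ∈ Finset.Icc 1 (B ^ 2)) =>
        2 * ((l : ℝ≥0∞) / (B : ℝ≥0∞) ^ 2) * Aav (B ^ 3 ^ l) _ x) l' hl'Icc le_rfl
    rw [hpow]
    set L : ℝ≥0∞ := 2 * ((l' : ℝ≥0∞) / (B : ℝ≥0∞) ^ 2) with hL
    set L1 : ℝ≥0∞ := 2 * (((l' + 1 : ℕ) : ℝ≥0∞) / (B : ℝ≥0∞) ^ 2) with hL1
    calc L1 * Aav ((B ^ 3 ^ l') ^ 3) _ (blk b a d)
        ≤ L1 * (max (Aav (B ^ 3 ^ l') _ (top b δ a)) (⨆ k, a k * Aav (B ^ 3 ^ l') _ (d k))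
          + ((B ^ 3 ^ l' : ℕ) : ℝ≥0∞)⁻¹ * W) := by gcongr
      _ = L1 * max (Aav (B ^ 3 ^ l') _ (top b δ a)) (⨆ k, a k * Aav (B ^ 3 ^ l') _ (d k))
          + L1 * ((B ^ 3 ^ l' : ℕ) : ℝ≥0∞)⁻¹ * W := by ring
      _ ≤ (1 + 1 / B) * L * max (Aav (B ^ 3 ^ l') _ (top b δ a)) (⨆ k, a k * Aav (B ^ 3 ^ l') _ (d k))
          + 2 * (B : ℝ≥0∞)⁻¹ * W := by gcongr
      _ ≤ _ := by
          rw [← div_eq_mul_inv, mul_assoc]
          gcongr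
          rw [mul_max]
          refine max_le_max (hle _) ?_
          rw [ENNReal.mul_iSup]
          refine iSup_mono fun k => ?_
          calc L * (a k * Aav (B ^ 3 ^ l') _ (d k)) = a k * (L * Aav (B ^ 3 ^ l') _ (d k)) := by ring
            _ ≤ a k * Hb B _ (d k) := by
                gcongr
                exact hle _

end DHsp
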