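import Pool.Agent.Helper13.DH.Defs

/-!
# MP_6ad661_an, block DH-A : elementary facts on `Fam`, `Q`, `P`, `TT`

`Q_eq`: the functionals `Qf n J` do not depend on `n` as soon as `J.2 - J.1 ≤ n`: prove by induction
on `n` that `J.2 - J.1 ≤ n → n ≤ m → S.Qf n J = S.Qf m J` (all `J`, `m`); in the step, `PP Q i R`
only uses the values `Q J'` with `J' ∈ F ∈ Fam i R`, for which `J'.2 - J'.1 < R - i`.  Then unfold
`S.Q (j,R) = S.Qf R (j,R)` for `R = n+1` and replace `S.Qf n J'` by `S.Q J'` for the relevant `J'`.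
-/

open scoped ENNReal NNReal
open Function

namespace DHsp

theorem Fam_mono {j j' R R' : ℕ} (hj : j' ≤ j) (hR : R ≤ R') : Fam j R ⊆ Fam j' R' := by
  intro F hF
  refine ⟨fun J hJ => ?_, hF.2⟩
  have := hF.1 J hJ
  omega

theorem Fam_empty (j R : ℕ) : (∅ : Set (ℕ × ℕ)) ∈ Fam j R := by
  refine ⟨fun J hJ => absurd hJ (by simp), fun J hJ => absurd hJ (by simp)⟩

theorem Fam_subset {j R : ℕ} {F G : Set (ℕ × ℕ)} (hF : F ∈ Fam j R) (hG : G ⊆ F) : G ∈ Fam j R :=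
  ⟨fun J hJ => hF.1 J (hG hJ), fun J hJ J' hJ' => hF.2 J (hG hJ) J' (hG hJ')⟩

theorem Fam_finite {j R : ℕ} {F : Set (ℕ × ℕ)} (hF : F ∈ Fam j R) : F.Finite := by
  apply Set.Finite.subset ((Finset.range (R + 1) ×ˢ Finset.range (R + 1)).finite_toSet)
  intro J hJ
  have := hF.1 J hJ
  simp only [Finset.coe_product, Finset.coe_range, Set.mem_prod, Set.mem_Iio]
  omega

/-- Different members have different left endpoints. -/
theorem Fam_fst_inj {j R : ℕ} {F : Set (ℕ × ℕ)} (hF : F ∈ Fam j R) : Set.InjOn Prod.fst F := by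
  intro J hJ J' hJ' h
  by_contra hne
  have h1 := hF.1 J hJ
  have h2 := hF.1 J' hJ'
  rcases hF.2 J hJ J' hJ' hne with h3 | h3 <;> omega

theorem Tr_apply (Q : ℕ × ℕ → SFun) (j R : ℕ) (Φ : SFun) {ι : Type} (x : ι → ℝ≥0∞) :
    Tr Q j R Φ ι x = ⨆ F ∈ Fam j R, Φ (ι ⊕ (ℕ × ℕ)) (Tv Q F x) := rfl

theorem Tr_congr {Q Q' : ℕ × ℕ → SFun} {j R : ℕ}
    (h : ∀ J : ℕ × ℕ, j < J.1 → J.1 < J.2 → J.2 ≤ R → Q J = Q' J) (Φ : SFun) :
    Tr Q j R Φ = Tr Q' j R Φ := by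
  funext ι x
  simp only [Tr_apply]
  refine iSup_congr fun F => iSup_congr fun hF => ?_
  congr 1
  funext u
  rcases u with i | J
  · rfl
  · simp only [Tv, Sum.elim_inr]
    split_ifs with hJ
    · have := hF.1 J hJ
      rw [h J this.1 this.2.1 this.2.2]
    · rfl

theorem Tr_iter_congr {Q Q' : ℕ × ℕ → SFun} {j R : ℕ}
    (h : ∀ J : ℕ × ℕ, j < J.1 → J.1 < J.2 → J.2 ≤ R → Q J = Q' J) (Φ : SFun) (r : ℕ) :
    (Tr Q j R)^[r] Φ = (Tr Q' j R)^[r] Φ := by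
  induction r generalizing Φ with
  | zero => rfl
  | succ r ih => rw [iterate_succ_apply, iterate_succ_apply, Tr_congr h, ih]

namespace Sys

variable (S : Sys)

theorem PP_congr {Q Q' : ℕ × ℕ → SFun} {j R : ℕ}
    (h : ∀ J : ℕ × ℕ, j < J.1 → J.1 < J.2 → J.2 ≤ R → Q J = Q' J) :
    S.PP Q j R = S.PP Q' j R := by
  funext ι x
  simp only [PP]
  refine iSup_congr fun r => iSup_congr fun _ => ?_
  rw [Tr_iter_congr h]

theorem Qf_stable : ∀ (n m : ℕ) (J : ℕ × ℕ), J.2 - J.1 ≤ n → n ≤ m → S.Qf n J = S.Qf m J := by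
  intro n
  induction n with
  | zero =>
    intro m J hJ _
    cases m with
    | zero => rfl
    | succ m =>
      funext ι x
      have : Finset.Ico J.1 J.2 = ∅ := by
        rw [Finset.Ico_eq_empty_iff]; omega
      simp [Qf, this]
  | succ n ih =>
    intro m J hJ hm
    obtain ⟨m, rfl⟩ : ∃ k, m = k + 1 := ⟨m - 1, by omega⟩
    funext ι x
    simp only [Qf]
    refine iSup_congr fun i => iSup_congr fun hi => ?_
    rw [Finset.mem_Ico] at hi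
    rw [S.PP_congr (Q := S.Qf n) (Q' := S.Qf m)]
    intro J' h1 h2 h3
    exact ih m J' (by omega) (by omega)

theorem Q_eq (j R : ℕ) {ι : Type} (x : ι → ℝ≥0∞) :
    S.Q (j, R) ι x = ⨆ i ∈ Finset.Ico j R, S.P i R ι x := by
  cases R with
  | zero => simp [Q, Qf]
  | succ n =>
    simp only [Q, Qf, P]
    refine iSup_congr fun i => iSup_congr fun hi => ?_
    rw [Finset.mem_Ico] at hi
    rw [S.PP_congr (Q := S.Qf n) (Q' := fun J => S.Qf J.2 J)]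
    · rfl
    intro J' h1 h2 h3
    by_cases h4 : J'.2 ≤ n
    · exact (S.Qf_stable J'.2 n J' (by omega) h4).symm
    · have : J'.2 = n + 1 := by omega
      rw [this]
      exact S.Qf_stable n (n + 1) J' (by omega) (by omega)

theorem Q_self {j R : ℕ} (h : R ≤ j) {ι : Type} (x : ι → ℝ≥0∞) : S.Q (j, R) ι x = 0 := by
  rw [Q_eq]
  have : Finset.Ico j R = ∅ := by rw [Finset.Ico_eq_empty_iff]; omega
  simp [this]

theorem P_le_Q {j i R : ℕ} (h1 : j ≤ i) (h2 : i < R) {ι : Type} (x : ι → ℝ≥0∞) :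
    S.P i R ι x ≤ S.Q (j, R) ι x := by
  rw [Q_eq]
  exact le_iSup₂_of_le i (Finset.mem_Ico.2 ⟨h1, h2⟩) le_rfl

theorem Q_le {j R : ℕ} {ι : Type} {x : ι → ℝ≥0∞} {c : ℝ≥0∞}
    (h : ∀ i, j ≤ i → i < R → S.P i R ι x ≤ c) : S.Q (j, R) ι x ≤ c := by
  rw [Q_eq]
  exact iSup₂_le fun i hi => h i (Finset.mem_Ico.1 hi).1 (Finset.mem_Ico.1 hi).2

theorem Q_succ {j R : ℕ} (h : j < R) {ι : Type} (x : ι → ℝ≥0∞) :
    S.Q (j, R) ι x = max (S.P j R ι x) (S.Q (j + 1, R) ι x) := by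
  apply le_antisymm
  · apply S.Q_le
    intro i hi hR
    rcases Nat.eq_or_lt_of_le hi with rfl | hlt
    · exact le_max_left _ _
    · exact (S.P_le_Q hlt hR x).trans (le_max_right _ _)
  · apply max_le (S.P_le_Q le_rfl h x)
    apply S.Q_le
    intro i hi hR
    exact S.P_le_Q (by omega) hR x

theorem le_P {i R r : ℕ} (h : r ≤ S.q i) {ι : Type} (x : ι → ℝ≥0∞) :
    S.κ i ^ (r + 1) * ((S.TT i R)^[r] (S.H i)) ι x ≤ S.P i R ι x := by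
  simp only [P, PP]
  exact le_iSup₂_of_le r (Finset.mem_range.2 (by omega)) le_rfl

theorem P_le {i R : ℕ} {ι : Type} {x : ι → ℝ≥0∞} {c : ℝ≥0∞}
    (h : ∀ r ≤ S.q i, S.κ i ^ (r + 1) * ((S.TT i R)^[r] (S.H i)) ι x ≤ c) : S.P i R ι x ≤ c := by
  simp only [P, PP]
  exact iSup₂_le fun r hr => h r (by have := Finset.mem_range.1 hr; omega)

theorem exists_of_lt_P {i R : ℕ} {ι : Type} {x : ι → ℝ≥0∞} {c : ℝ≥0∞} (h : c < S.P i R ι x) :
    ∃ r ≤ S.q i, c < S.κ i ^ (r + 1) * ((S.TT i R)^[r] (S.H i)) ι x := by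
  by_contra hcon
  push Not at hcon
  exact absurd (S.P_le hcon) (not_le.2 h)

theorem exists_of_lt_Q {j R : ℕ} {ι : Type} {x : ι → ℝ≥0∞} {c : ℝ≥0∞} (h : c < S.Q (j, R) ι x) :
    ∃ i, j ≤ i ∧ i < R ∧ c < S.P i R ι x := by
  by_contra hcon
  push Not at hcon
  exact absurd (S.Q_le hcon) (not_le.2 h)

theorem TT_apply (j R : ℕ) (Φ : SFun) {ι : Type} (x : ι → ℝ≥0∞) :
    S.TT j R Φ ι x = ⨆ F ∈ Fam j R, Φ (ι ⊕ (ℕ × ℕ)) (S.T F x) := rfl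

@[simp] theorem T_inl (F : Set (ℕ × ℕ)) {ι : Type} (x : ι → ℝ≥0∞) (i : ι) :
    S.T F x (Sum.inl i) = x i := rfl

theorem T_inr_mem {F : Set (ℕ × ℕ)} {ι : Type} (x : ι → ℝ≥0∞) {J : ℕ × ℕ} (h : J ∈ F) :
    S.T F x (Sum.inr J) = S.Q J ι x := by
  simp [T, Tv, h]

theorem T_inr_not_mem {F : Set (ℕ × ℕ)} {ι : Type} (x : ι → ℝ≥0∞) {J : ℕ × ℕ} (h : J ∉ F) :
    S.T F x (Sum.inr J) = 0 := by
  simp [T, Tv, h]

/-- Outer form of the iteration. -/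
theorem TT_iter (j R r : ℕ) (Φ : SFun) {ι : Type} (x : ι → ℝ≥0∞) :
    ((S.TT j R)^[r + 1] Φ) ι x = ⨆ F ∈ Fam j R, ((S.TT j R)^[r] Φ) _ (S.T F x) := by
  rw [iterate_succ_apply']
  rfl

theorem le_TT {j R : ℕ} {F : Set (ℕ × ℕ)} (hF : F ∈ Fam j R) (Φ : SFun) {ι : Type}
    (x : ι → ℝ≥0∞) : Φ _ (S.T F x) ≤ S.TT j R Φ ι x :=
  le_iSup₂_of_le (f := fun F (_ : F ∈ Fam j R) => Φ (ι ⊕ (ℕ × ℕ)) (S.T F x)) F hF le_rfl

theorem le_TT_iter {j R r : ℕ} {F : Set (ℕ × ℕ)} (hF : F ∈ Fam j R) (Φ : SFun) {ι : Type}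
    (x : ι → ℝ≥0∞) : ((S.TT j R)^[r] Φ) _ (S.T F x) ≤ ((S.TT j R)^[r + 1] Φ) ι x := by
  rw [TT_iter]
  exact le_iSup₂_of_le (f := fun F (_ : F ∈ Fam j R) => ((S.TT j R)^[r] Φ) _ (S.T F x)) F hF le_rfl

theorem TT_mono {j R : ℕ} {Φ Ψ : SFun} (h : ∀ (ι : Type) (x : ι → ℝ≥0∞), Φ ι x ≤ Ψ ι x)
    (ι : Type) (x : ι → ℝ≥0∞) : S.TT j R Φ ι x ≤ S.TT j R Ψ ι x := by
  simp only [TT_apply]
  exact iSup₂_mono fun F _ => h _ _

theorem TT_iter_mono {j R : ℕ} {Φ Ψ : SFun} (h : ∀ (ι : Type) (x : ι → ℝ≥0∞), Φ ι x ≤ Ψ ι x)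
    (r : ℕ) (ι : Type) (x : ι → ℝ≥0∞) : ((S.TT j R)^[r] Φ) ι x ≤ ((S.TT j R)^[r] Ψ) ι x := by
  induction r generalizing ι x with
  | zero => exact h ι x
  | succ r ih =>
    simp only [TT_iter]
    exact iSup₂_mono fun F _ => ih _ _

theorem TT_iter_max {j R : ℕ} (Φ Ψ : SFun) (r : ℕ) (ι : Type) (x : ι → ℝ≥0∞) :
    ((S.TT j R)^[r] (fun ι x => max (Φ ι x) (Ψ ι x))) ι x
      = max (((S.TT j R)^[r] Φ) ι x) (((S.TT j R)^[r] Ψ) ι x) := by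
  induction r generalizing ι x with
  | zero => rfl
  | succ r ih =>
    simp only [TT_iter, ih]
    rw [← iSup_sup_eq]
    refine iSup_congr fun F => ?_
    rw [← iSup_sup_eq]

theorem TT_iter_biSup {j R : ℕ} {α : Type} (A : Set α) (Φ : α → SFun) (r : ℕ) (ι : Type)
    (x : ι → ℝ≥0∞) :
    ((S.TT j R)^[r] (fun ι x => ⨆ a ∈ A, Φ a ι x)) ι x = ⨆ a ∈ A, ((S.TT j R)^[r] (Φ a)) ι x := by
  induction r generalizing ι x with
  | zero => rfl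
  | succ r ih =>
    simp only [TT_iter, ih]
    exact iSup₂_comm _

theorem TT_iter_add {j R : ℕ} (Φ Ψ : SFun) (r : ℕ) (ι : Type) (x : ι → ℝ≥0∞) :
    ((S.TT j R)^[r] (fun ι x => Φ ι x + Ψ ι x)) ι x
      ≤ ((S.TT j R)^[r] Φ) ι x + ((S.TT j R)^[r] Ψ) ι x := by
  induction r generalizing ι x with
  | zero => exact le_rfl
  | succ r ih =>
    simp only [TT_iter]
    refine iSup₂_le fun F hF => (ih _ _).trans ?_
    gcongr
    · exact le_iSup₂_of_le (f := fun F (_ : F ∈ Fam j R) => ((S.TT j R)^[r] Φ) _ (S.T F x)) F hF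
        le_rfl
    · exact le_iSup₂_of_le (f := fun F (_ : F ∈ Fam j R) => ((S.TT j R)^[r] Ψ) _ (S.T F x)) F hF
        le_rfl

theorem TT_iter_mul {j R : ℕ} (c : ℝ≥0∞) (Φ : SFun) (r : ℕ) (ι : Type) (x : ι → ℝ≥0∞) :
    ((S.TT j R)^[r] (fun ι x => c * Φ ι x)) ι x = c * ((S.TT j R)^[r] Φ) ι x := by
  induction r generalizing ι x with
  | zero => rfl
  | succ r ih =>
    simp only [TT_iter, ih]
    simp only [ENNReal.mul_iSup]

end Sys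

end DHsp
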