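import Pool.Agent.Helper13.DH.Lem2

/-!
# MP_6ad661_an, block DH-L : crude bounds

`N_step`: if `t ≤ i` then `Q (i,t) = 0`, `N i t = sup ≤ 4 N (i+1) t`.  Otherwise
`Q (i,t) = max (P i t) (Q (i+1,t))`, and
`κ_i^{r+1} 𝒯_i^r H_i ≤ 2 𝒯_i^r |·|_∞ ≤ 2 𝒯_i^r N(i+1,t) ≤ 2 ν_i N(i+1,t) ≤ 4 N(i+1,t)` by `lem2`
(`r ≤ q_i ≤ 2 q_i`).  The others follow by iteration, since `N t t = sup` and by `Q_l1`.
-/

open scoped ENNReal NNReal
open Function

namespace DHsp

variable {S : Sys}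

theorem N_step (p : Par S) (i t : ℕ) {ι : Type} (x : ι → ℝ≥0∞) :
    S.N i t ι x ≤ 4 * S.N (i + 1) t ι x := by
  have h4 : S.N (i + 1) t ι x ≤ 4 * S.N (i + 1) t ι x := by
    calc S.N (i + 1) t ι x = 1 * S.N (i + 1) t ι x := (one_mul _).symm
      _ ≤ 4 * S.N (i + 1) t ι x := by gcongr; norm_num
  have hsup : (⨆ u, x u) ≤ 4 * S.N (i + 1) t ι x := (sup_le_N S (i + 1) t x).trans h4
  rcases Nat.lt_or_ge i t with hlt | hge
  · apply max_le hsup
    rw [S.Q_succ hlt]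
    apply max_le _ ((Q_le_N S (i + 1) t x).trans h4)
    apply S.P_le
    intro r hr
    have h1 : ((S.TT i t)^[r] (S.H i)) ι x ≤ 2 * ((S.TT i t)^[r] (S.N (i + 1) t)) ι x := by
      rw [← S.TT_iter_mul]
      refine S.TT_iter_mono (fun κ y => (p.H_sup i y).trans ?_) r ι x
      gcongr
      exact sup_le_N S (i + 1) t y
    have h2 : ((S.TT i t)^[r] (S.N (i + 1) t)) ι x ≤ 2 * S.N (i + 1) t ι x :=
      (lem2 p i t (by omega) x).trans (by gcongr; exact p.ν_two i)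
    calc S.κ i ^ (r + 1) * ((S.TT i t)^[r] (S.H i)) ι x
        ≤ 1 * (2 * (2 * S.N (i + 1) t ι x)) := by
          gcongr
          · exact pow_le_one₀ bot_le (p.κ_le i)
          · exact h1.trans (by gcongr)
      _ = 4 * S.N (i + 1) t ι x := by ring
  · apply max_le hsup
    rw [S.Q_self hge]
    exact bot_le

/-- Comparison of `N 1 t` with `N j t`. -/
theorem N_comp (p : Par S) {j : ℕ} (hj : 1 ≤ j) (t : ℕ) {ι : Type} (x : ι → ℝ≥0∞) :
    S.N 1 t ι x ≤ 4 ^ (j - 1) * S.N j t ι x := by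
  induction j, hj using Nat.le_induction with
  | base => simp
  | succ j hj ih =>
    refine ih.trans ?_
    calc (4 : ℝ≥0∞) ^ (j - 1) * S.N j t ι x ≤ 4 ^ (j - 1) * (4 * S.N (j + 1) t ι x) := by
          gcongr; exact N_step p j t x
      _ = 4 ^ (j + 1 - 1) * S.N (j + 1) t ι x := by
          rw [← mul_assoc, ← pow_succ]
          congr 2
          omega

theorem N_le_sup (p : Par S) (t : ℕ) {ι : Type} (x : ι → ℝ≥0∞) :
    S.N 1 t ι x ≤ 4 ^ t * ⨆ i, x i := by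
  rcases Nat.eq_zero_or_pos t with rfl | ht
  · apply max_le
    · simp
    · rw [S.Q_self (by omega)]
      exact bot_le
  · refine (N_comp p ht t x).trans ?_
    have h1 : S.N t t ι x ≤ ⨆ i, x i := by
      apply max_le le_rfl
      rw [S.Q_self le_rfl]
      exact bot_le
    gcongr
    · norm_num
    · omega

theorem NN_comp (p : Par S) {j : ℕ} (hj : 1 ≤ j) {ι : Type} (x : ι → ℝ≥0∞) :
    S.NN ι x ≤ 4 ^ (j - 1) * max (⨆ i, x i) (2 * p.η j * ∑' i, x i) := by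
  refine iSup_le fun R => (N_comp p hj R x).trans ?_
  gcongr
  exact max_le_max le_rfl (Q_l1 p j R x)

end DHsp
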