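import Pool.Agent.Helper13.DH.Lem2

/-!
# MP_6ad661_an, block DH-I : the inductive step of the splitting lemma

Write `σ = σ'_{j+1}`, `D₀ = D_{j+1}`.  Facts used for `s > j`: `σ'_s ≤ σ` (from `σ_cond`, `σ_one`,
`σ'_one`: `σ'` is antitone), `D_s ≤ D₀` (from `D_cond`), `∑_{s>j} ε'_s ≤ E_j`.

Induction on `r`, for all `β, K, I, b, a, d, δ, D`.
`r = 0`: `d k i ≤ N(j+1,R;d_k) ≤ δ ≤ D`, use `H_split` and monotonicity (`top b δ a ≤ top b D a`).

`r → r+1`: use `TT_iter`: fix `F ∈ Fam j R` and bound `𝒯^r H_j (T_F x)`, `x = blk b a d`.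
For `J = (s,t) ∈ F`, `SplitAt` at `(s,t)` (note `N(s,t;d_k) ≤ N(j+1,R;d_k) ≤ δ`, `D_s δ ≤ D`) gives
`Q J x ≤ σ max(Q J (top b D a), sup_k a_k Q J d_k) + ε'_s W`, `W = N(j+1,R; top b D a)`.
Choose (K finite; if K is empty the sup is 0) for every `J` either level 0, if
`sup_k a_k Q J d_k ≤ Q J (top b D a)`, or a `k` that attains the sup: `g J : Option K`.
Put `F₀ = {J ∈ F | g J = none}`, `F_k = {J ∈ F | g J = some k}`, and on the index types
`β' = β ⊕ (ℕ×ℕ)`, `I' = I ⊕ (ℕ×ℕ)`: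
`b' = b ⊕ (σ Q J (top b D a))_{J ∈ F₀}`, `d'_k = d_k ⊕ (σ Q J d_k)_{J ∈ F_k}`.
The map `inl (inl i) ↦ inl (inl i)`, `inl (inr (k,i)) ↦ inr (k, inl i)`,
`inr J ↦ inl (inr J)` if `g J = none`, `inr J ↦ inr (k, inr J)` if `g J = some k` is injective and
shows `T_F x ≤ (blk b' a d') + e`, where `e` has values `ε'_{J.1} W` (`J ∈ F`) so `|e|_1 ≤ E_j W`.
So `𝒯^r H_j(T_F x) ≤ 𝒯^r H_j(blk b' a d') + 2 η_j E_j W` (`TT_l1`, `r ≤ 2 q_j`).
Apply the induction hypothesis to `b', a, d'`, `δ' = σ δ`, the same `D`: indeed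
`𝒯^l N(j+1,R)(d'_k) ≤ σ 𝒯^l N(j+1,R)(T_{F_k} d_k) ≤ σ 𝒯^{l+1}N(j+1,R)(d_k) ≤ σ δ` for `l ≤ r`
(`d'_k ≤ σ T_{F_k} d_k` pointwise, `1 ≤ σ`, homogeneity), `D₀ (σδ) σ^r = D₀ δ σ^{r+1} ≤ D`.
Finally `top b' D a ≤ σ T_{F₀}(top b D a)` (domination by `inl (inl i) ↦ inl (inl i)`,
`inl (inr J) ↦ inr J`, `inr k ↦ inl (inr k)`), so that every functional `𝒯^l Φ` at `top b' D a` is
`≤ σ 𝒯^{l+1}Φ (top b D a)`.  Collect the terms.
-/

open scoped ENNReal NNReal
open Function

namespace DHsp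

variable {S : Sys}

theorem σ'_anti (p : Par S) : Antitone p.σ' := by
  apply antitone_nat_of_succ_le
  intro n
  have h1 : p.σ' (n + 1) ≤ p.σ' (n + 1) ^ S.q n :=
    le_self_pow₀ (p.σ'_one _) (by have := p.q_pos n; omega)
  have h2 : p.σ' (n + 1) ^ S.q n ≤ p.σ n * p.σ' (n + 1) ^ S.q n :=
    le_mul_of_one_le_left (zero_le) (p.σ_one n)
  exact h1.trans (h2.trans (p.σ_cond n))

theorem D_anti (p : Par S) : Antitone p.D := by
  apply antitone_nat_of_succ_le
  intro n
  have h1 : p.D (n + 1) ≤ p.D (n + 1) * p.ν n := le_mul_of_one_le_right (zero_le) (p.ν_one n)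
  have h2 : p.D (n + 1) * p.ν n ≤ p.D (n + 1) * p.ν n * p.σ' (n + 1) ^ S.q n :=
    le_mul_of_one_le_right (zero_le) (one_le_pow₀ (p.σ'_one _))
  exact h1.trans (h2.trans (p.D_cond n))

theorem top_mono {β K : Type} (b : β → ℝ≥0∞) {c c' : ℝ≥0∞} (h : c ≤ c') (a : K → ℝ≥0∞)
    (u : β ⊕ K) : top b c a u ≤ top b c' a u := by
  rcases u with i | k
  · exact le_rfl
  · simp only [top, Sum.elim_inr]
    gcongr

/-- the choice of the level for one interval -/
theorem exists_level {K : Type} [Finite K] (A : ℝ≥0∞) (B : K → ℝ≥0∞) :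
    ∃ g : Option K, max A (⨆ k, B k) ≤ (match g with
      | none => A
      | some k => B k) := by
  by_cases h : (⨆ k, B k) ≤ A
  · exact ⟨none, max_le le_rfl h⟩
  · push Not at h
    have hne : Nonempty K := by
      by_contra hK
      rw [not_nonempty_iff] at hK
      rw [iSup_of_empty] at h
      exact absurd h (by simp)
    obtain ⟨k, hk⟩ := Finite.exists_max B
    refine ⟨some k, max_le ?_ (iSup_le hk)⟩
    exact h.le.trans (iSup_le hk)

/-- the bound for one new coordinate -/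
theorem coord_bound (p : Par S) (j R : ℕ)
    (hS : ∀ s t, j < s → s < t → t ≤ R → SplitAt S p s t) {β K I : Type} [Finite K]
    (b : β → ℝ≥0∞) (a : K → ℝ≥0∞) (d : K → I → ℝ≥0∞) (δ D : ℝ≥0∞)
    (hd : ∀ k, S.N (j + 1) R I (d k) ≤ δ) (hD : p.D (j + 1) * δ ≤ D) (J : ℕ × ℕ)
    (h1 : j < J.1) (h2 : J.1 < J.2) (h3 : J.2 ≤ R) :
    S.Q J _ (blk b a d) ≤ p.σ' (j + 1) * max (S.Q J _ (top b D a)) (⨆ k, a k * S.Q J I (d k))
      + p.ε' J.1 * S.N (j + 1) R _ (top b D a) := by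
  obtain ⟨s, t⟩ := J
  simp only at h1 h2 h3 ⊢
  have h := hS s t h1 h2 h3 b a d δ (fun k => (N_mono (by omega) h3 _).trans (hd k))
  have hDs : p.D s * δ ≤ D := by
    refine le_trans ?_ hD
    gcongr
    exact D_anti p (by omega)
  have hσ : p.σ' s ≤ p.σ' (j + 1) := σ'_anti p (by omega)
  refine h.trans ?_
  gcongr
  · exact (good_Q p (s, t)).le (top_mono b hDs a)
  · exact ((good_N p s t).le (top_mono b hDs a)).trans (N_mono (by omega) h3 _)

/-- the sum of the errors -/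
theorem err_sum (p : Par S) {j R : ℕ} {F : Set (ℕ × ℕ)} (hF : F ∈ Fam j R) (W : ℝ≥0∞)
    [DecidablePred (· ∈ F)] (ι : Type) :
    ∑' u : ι ⊕ (ℕ × ℕ), (Sum.elim (fun _ => 0) (fun J => if J ∈ F then p.ε' J.1 * W else 0) u :
      ℝ≥0∞) ≤ p.E j * W := by
  have e1 : ∑' u : ι ⊕ (ℕ × ℕ), (Sum.elim (fun _ => 0)
      (fun J => if J ∈ F then p.ε' J.1 * W else 0) u : ℝ≥0∞) =
      ∑' J : ℕ × ℕ, (if J ∈ F then p.ε' J.1 * W else 0) := by
    rw [ENNReal.summable.tsum_sum ENNReal.summable]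
    simp
  have e2 : ∑' J : ℕ × ℕ, (if J ∈ F then p.ε' J.1 * W else 0) = ∑' J : F, p.ε' J.1.1 * W := by
    rw [tsum_subtype F (fun J => p.ε' J.1 * W)]
    congr 1
    funext J
    simp [Set.indicator_apply]
  rw [e1, e2, ENNReal.tsum_mul_right]
  gcongr
  refine le_trans ?_ (p.E_cond j)
  have hinj : Function.Injective (fun J : F => J.1.1 - (j + 1)) := by
    intro J J' h
    simp only at h
    have a1 := hF.1 J.1 J.2
    have a2 := hF.1 J'.1 J'.2
    have : J.1.1 = J'.1.1 := by omega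
    exact Subtype.ext (Fam_fst_inj hF J.2 J'.2 this)
  refine le_trans (le_of_eq ?_) (ENNReal.tsum_comp_le_tsum_of_injective hinj
    (fun s => p.ε' (j + 1 + s)))
  congr 1
  funext J
  have a1 := hF.1 J.1 J.2
  congr 1
  omega

open Classical in
/-- the new top vector -/
noncomputable def nb (S : Sys) (c : ℝ≥0∞) (F : Set (ℕ × ℕ)) {β κ : Type} (b : β → ℝ≥0∞)
    (y : κ → ℝ≥0∞) : β ⊕ (ℕ × ℕ) → ℝ≥0∞ :=
  Sum.elim b (fun J => if J ∈ F then c * S.Q J κ y else 0)

theorem nb_le_T (S : Sys) {c : ℝ≥0∞} (hc : 1 ≤ c) (F : Set (ℕ × ℕ)) {I : Type} (d : I → ℝ≥0∞)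
    (u : I ⊕ (ℕ × ℕ)) : nb S c F d d u ≤ c * S.T F d u := by
  rcases u with i | J
  · simp only [nb, Sum.elim_inl, Sys.T_inl]
    exact le_mul_of_one_le_left zero_le hc
  · simp only [nb, Sum.elim_inr]
    split_ifs with h
    · rw [S.T_inr_mem d h]
    · exact zero_le

/-- The map used for the comparison of the top levels. -/
def mapTop {β K : Type} : (β ⊕ (ℕ × ℕ)) ⊕ K → (β ⊕ K) ⊕ (ℕ × ℕ)
  | Sum.inl (Sum.inl i) => Sum.inl (Sum.inl i)
  | Sum.inl (Sum.inr J) => Sum.inr J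
  | Sum.inr k => Sum.inl (Sum.inr k)

theorem mapTop_inj {β K : Type} : Function.Injective (mapTop (β := β) (K := K)) := by
  rintro ((i | J) | k) ((i' | J') | k') h <;> simp_all [mapTop]

theorem top_le {Ψ : SFun} (hΨ : Good Ψ) (S : Sys) {c : ℝ≥0∞} (hc : 1 ≤ c) (hct : c ≠ ⊤)
    (F : Set (ℕ × ℕ)) {β K : Type} (b : β → ℝ≥0∞) (D : ℝ≥0∞) (a : K → ℝ≥0∞) :
    Ψ _ (top (nb S c F b (top b D a)) D a) ≤ c * Ψ _ (S.T F (top b D a)) := by
  refine hΨ.mono_mul hct mapTop mapTop_inj.injOn ?_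
  rintro ((i | J) | k)
  · simp only [top, nb, mapTop, Sum.elim_inl, Sys.T_inl]
    exact le_mul_of_one_le_left zero_le hc
  · simp only [top, Sum.elim_inl, nb, Sum.elim_inr, mapTop]
    split_ifs with h
    · rw [S.T_inr_mem _ h]
    · exact zero_le
  · simp only [top, mapTop, Sum.elim_inr, Sys.T_inl]
    exact le_mul_of_one_le_left zero_le hc

/-- The map used for the comparison of `T_F x` with the new vector. -/
def mapBlk {β K I : Type} (g : ℕ × ℕ → Option K) :
    (β ⊕ (K × I)) ⊕ (ℕ × ℕ) → (β ⊕ (ℕ × ℕ)) ⊕ (K × (I ⊕ (ℕ × ℕ)))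
  | Sum.inl (Sum.inl i) => Sum.inl (Sum.inl i)
  | Sum.inl (Sum.inr (k, i)) => Sum.inr (k, Sum.inl i)
  | Sum.inr J => match g J with
    | none => Sum.inl (Sum.inr J)
    | some k => Sum.inr (k, Sum.inr J)

theorem mapBlk_inj {β K I : Type} (g : ℕ × ℕ → Option K) :
    Function.Injective (mapBlk (β := β) (I := I) g) := by
  rintro ((i | ⟨k, i⟩) | J) ((i' | ⟨k', i'⟩) | J') h
  · simpa [mapBlk] using h
  · simp [mapBlk] at h
  · simp only [mapBlk] at h
    split at h <;> simp at h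
  · simp [mapBlk] at h
  · simpa [mapBlk] using h
  · simp only [mapBlk] at h
    split at h <;> simp at h
  · simp only [mapBlk] at h
    split at h <;> simp at h
  · simp only [mapBlk] at h
    split at h <;> simp at h
  · simp only [mapBlk] at h
    split at h <;> split at h <;> simp at h
    · rw [h]
    · rw [h.2]

/-- one step: `T_F x` is dominated by the new block vector plus an error -/
theorem step_dom (p : Par S) (j R : ℕ)
    (hS : ∀ s t, j < s → s < t → t ≤ R → SplitAt S p s t) {β K I : Type} [Finite K]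
    (b : β → ℝ≥0∞) (a : K → ℝ≥0∞) (d : K → I → ℝ≥0∞) (δ D : ℝ≥0∞)
    (hd : ∀ k, S.N (j + 1) R I (d k) ≤ δ) (hD : p.D (j + 1) * δ ≤ D)
    {F : Set (ℕ × ℕ)} (hF : F ∈ Fam j R) {Ψ : SFun} (hΨ : Good Ψ) {e : ℝ≥0∞}
    (hl : ∀ {ι : Type} (x : ι → ℝ≥0∞), Ψ ι x ≤ e * ∑' i, x i) :
    ∃ (F₀ : Set (ℕ × ℕ)) (G : K → Set (ℕ × ℕ)), F₀ ∈ Fam j R ∧ (∀ k, G k ∈ Fam j R) ∧
      Ψ _ (S.T F (blk b a d)) ≤
        Ψ _ (blk (nb S (p.σ' (j + 1)) F₀ b (top b D a)) a
          (fun k => nb S (p.σ' (j + 1)) (G k) (d k) (d k)))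
        + e * (p.E j * S.N (j + 1) R _ (top b D a)) := by
  classical
  set y := top b D a with hy
  set W := S.N (j + 1) R _ y with hW
  set c := p.σ' (j + 1) with hc
  choose g hg using fun J : ℕ × ℕ => exists_level (S.Q J _ y) (fun k => a k * S.Q J I (d k))
  refine ⟨{J | J ∈ F ∧ g J = none}, fun k => {J | J ∈ F ∧ g J = some k},
    Fam_subset hF (fun J hJ => hJ.1), fun k => Fam_subset hF (fun J hJ => hJ.1), ?_⟩
  set x' := blk (nb S c {J | J ∈ F ∧ g J = none} b y) a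
          (fun k => nb S c {J | J ∈ F ∧ g J = some k} (d k) (d k)) with hx'
  set er : (β ⊕ (K × I)) ⊕ (ℕ × ℕ) → ℝ≥0∞ :=
    Sum.elim (fun _ => 0) (fun J => if J ∈ F then p.ε' J.1 * W else 0) with her
  have hdom : ∀ u, S.T F (blk b a d) u ≤ x' (mapBlk g u) + er u := by
    rintro ((i | ⟨k, i⟩) | J)
    · simp [mapBlk, hx', blk, nb, her]
    · simp [mapBlk, hx', blk, nb, her]
    · by_cases hJ : J ∈ F
      · rw [S.T_inr_mem _ hJ]
        have h1 := coord_bound p j R hS b a d δ D hd hD J (hF.1 J hJ).1 (hF.1 J hJ).2.1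
          (hF.1 J hJ).2.2
        refine h1.trans ?_
        have h2 : er (Sum.inr J) = p.ε' J.1 * W := by simp [her, hJ]
        rw [h2]
        gcongr
        have h3 := hg J
        rcases hgJ : g J with _ | k
        · rw [hgJ] at h3
          simp only at h3
          have h4 : x' (mapBlk g (Sum.inr J)) = c * S.Q J _ y := by
            simp [mapBlk, hgJ, hx', blk, nb, hJ]
          rw [h4]
          gcongr
        · rw [hgJ] at h3
          simp only at h3
          have h4 : x' (mapBlk g (Sum.inr J)) = c * (a k * S.Q J _ (d k)) := by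
            simp only [mapBlk, hgJ, hx', blk, nb, hJ, Sum.elim_inr, Set.mem_ofPred_eq, and_self,
              if_true]
            ring
          rw [h4]
          gcongr
      · rw [S.T_inr_not_mem _ hJ]
        exact zero_le
  refine (hΨ.le_add hdom).trans ?_
  gcongr
  · exact hΨ.mono (mapBlk g) (mapBlk_inj g).injOn fun u => le_rfl
  · refine (hl er).trans ?_
    gcongr
    exact err_sum p hF W _

theorem Cq (p : Par S) (j R : ℕ)
    (hS : ∀ s t, j < s → s < t → t ≤ R → SplitAt S p s t) (r : ℕ) (hr : r ≤ 2 * S.q j) :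
    ∀ {β K I : Type} [Finite K] (b : β → ℝ≥0∞) (a : K → ℝ≥0∞) (d : K → I → ℝ≥0∞) (δ D : ℝ≥0∞),
      (∀ k, ∀ l ≤ r, ((S.TT j R)^[l] (S.N (j + 1) R)) I (d k) ≤ δ) →
      p.D (j + 1) * δ * p.σ' (j + 1) ^ r ≤ D →
      ((S.TT j R)^[r] (S.H j)) _ (blk b a d) ≤
        p.σ j * p.σ' (j + 1) ^ r * max (((S.TT j R)^[r] (S.H j)) _ (top b D a))
            (⨆ k, a k * ((S.TT j R)^[r] (S.H j)) I (d k))
          + p.σ' (j + 1) ^ r * (p.ε j + 2 * r * p.η j * p.E j)
            * ⨆ l ∈ Finset.range (r + 1), ((S.TT j R)^[l] (S.N (j + 1) R)) _ (top b D a) := by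
  induction r with
  | zero =>
    intro β K I _ b a d δ D hd hD
    simp only [pow_zero, mul_one, Function.iterate_zero, id_eq, one_mul, Nat.cast_zero, mul_zero,
      zero_mul, add_zero, zero_add, Finset.range_one, Finset.mem_singleton, iSup_iSup_eq_left] at *
    have hδD : δ ≤ D := (le_mul_of_one_le_left zero_le (p.D_one (j + 1))).trans hD
    have h1 : ∀ k i, d k i ≤ δ := fun k i =>
      ((le_iSup (d k) i).trans (sup_le_N S (j + 1) R (d k))).trans (hd k 0 le_rfl)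
    refine (p.H_split j b a d δ h1).trans ?_
    gcongr
    · exact (p.good j).le (top_mono b hδD a)
    · exact (iSup_mono (top_mono b hδD a)).trans (sup_le_N S (j + 1) R _)
  | succ r ih =>
    intro β K I _ b a d δ D hd hD
    set c := p.σ' (j + 1) with hc
    have hc1 : 1 ≤ c := p.σ'_one _
    have hct : c ≠ ⊤ := p.σ'_top _
    have hr' : r ≤ 2 * S.q j := by omega
    set Φ := (S.TT j R)^[r] (S.H j) with hΦ
    have hΦg : Good Φ := good_TT_iter p j R (p.good j) r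
    have hN : ∀ l, Good ((S.TT j R)^[l] (S.N (j + 1) R)) := fun l =>
      good_TT_iter p j R (good_N p _ _) l
    set M := ⨆ l ∈ Finset.range (r + 1 + 1), ((S.TT j R)^[l] (S.N (j + 1) R)) _ (top b D a)
      with hM
    have hMl : ∀ l, l ≤ r + 1 → ((S.TT j R)^[l] (S.N (j + 1) R)) _ (top b D a) ≤ M := fun l hl =>
      le_iSup₂_of_le (f := fun l (_ : l ∈ Finset.range (r + 1 + 1)) =>
        ((S.TT j R)^[l] (S.N (j + 1) R)) _ (top b D a)) l (Finset.mem_range.2 (by omega)) le_rfl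
    have hd0 : ∀ k, S.N (j + 1) R I (d k) ≤ δ := fun k => by
      have := hd k 0 (by omega)
      simpa using this
    have hD0 : p.D (j + 1) * δ ≤ D :=
      (le_mul_of_one_le_right zero_le (one_le_pow₀ hc1)).trans hD
    rw [S.TT_iter j R r (S.H j) (blk b a d)]
    refine iSup₂_le fun F hF => ?_
    obtain ⟨F₀, G, hF₀, hG, hstep⟩ := step_dom p j R hS b a d δ D hd0 hD0 hF hΦg
      (e := 2 * p.η j) (fun x => TT_l1 p hr' x)
    refine hstep.trans ?_
    rw [← hc]
    -- the induction hypothesis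
    have ih' := ih hr' (nb S c F₀ b (top b D a)) a (fun k => nb S c (G k) (d k) (d k))
      (c * δ) D (by
        intro k l hl
        refine ((hN l).le_mul hct (nb_le_T S hc1 (G k) (d k))).trans ?_
        gcongr
        exact (S.le_TT_iter (hG k) _ _).trans (hd k (l + 1) (by omega))) (by
        refine le_trans (le_of_eq ?_) hD
        rw [pow_succ]; ring)
    have hE : p.E j * S.N (j + 1) R _ (top b D a) ≤ p.E j * M := by
      gcongr
      have := hMl 0 (by omega)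
      simpa using this
    have t1 : Φ _ (top (nb S c F₀ b (top b D a)) D a) ≤
        c * ((S.TT j R)^[r + 1] (S.H j)) _ (top b D a) := by
      refine (top_le hΦg S hc1 hct F₀ b D a).trans ?_
      gcongr
      exact S.le_TT_iter hF₀ _ _
    have t2 : (⨆ k, a k * Φ _ (nb S c (G k) (d k) (d k))) ≤
        c * ⨆ k, a k * ((S.TT j R)^[r + 1] (S.H j)) I (d k) := by
      refine iSup_le fun k => ?_
      have h1 : Φ _ (nb S c (G k) (d k) (d k)) ≤ c * ((S.TT j R)^[r + 1] (S.H j)) I (d k) := by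
        refine (hΦg.le_mul hct (nb_le_T S hc1 (G k) (d k))).trans ?_
        gcongr
        exact S.le_TT_iter (hG k) _ _
      calc a k * Φ _ (nb S c (G k) (d k) (d k))
          ≤ a k * (c * ((S.TT j R)^[r + 1] (S.H j)) I (d k)) := by gcongr
        _ = c * (a k * ((S.TT j R)^[r + 1] (S.H j)) I (d k)) := by ring
        _ ≤ _ := by
          gcongr
          exact le_iSup (fun k => a k * ((S.TT j R)^[r + 1] (S.H j)) I (d k)) k
    have t3 : (⨆ l ∈ Finset.range (r + 1), ((S.TT j R)^[l] (S.N (j + 1) R)) _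
        (top (nb S c F₀ b (top b D a)) D a)) ≤ c * M := by
      refine iSup₂_le fun l hl => ?_
      rw [Finset.mem_range] at hl
      refine (top_le (hN l) S hc1 hct F₀ b D a).trans ?_
      gcongr
      exact (S.le_TT_iter hF₀ _ _).trans (hMl (l + 1) (by omega))
    have hmax : max (Φ _ (top (nb S c F₀ b (top b D a)) D a))
        (⨆ k, a k * Φ _ (nb S c (G k) (d k) (d k))) ≤
        c * max (((S.TT j R)^[r + 1] (S.H j)) _ (top b D a))
          (⨆ k, a k * ((S.TT j R)^[r + 1] (S.H j)) I (d k)) := by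
      apply max_le
      · refine t1.trans ?_
        gcongr
        exact le_max_left _ _
      · refine t2.trans ?_
        gcongr
        exact le_max_right _ _
    set X := max (((S.TT j R)^[r + 1] (S.H j)) _ (top b D a))
          (⨆ k, a k * ((S.TT j R)^[r + 1] (S.H j)) I (d k)) with hX
    calc _ ≤ (p.σ j * c ^ r * (c * X) + c ^ r * (p.ε j + 2 * r * p.η j * p.E j) * (c * M))
          + 2 * p.η j * (p.E j * M) := by
          refine add_le_add (ih'.trans ?_) (by gcongr)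
          refine add_le_add ?_ ?_
          · gcongr
          · gcongr
      _ = p.σ j * c ^ (r + 1) * X + (c ^ (r + 1) * (p.ε j + 2 * r * p.η j * p.E j) * M
          + 1 * (2 * p.η j * p.E j * M)) := by rw [pow_succ]; ring
      _ ≤ p.σ j * c ^ (r + 1) * X + (c ^ (r + 1) * (p.ε j + 2 * r * p.η j * p.E j) * M
          + c ^ (r + 1) * (2 * p.η j * p.E j * M)) := by
          gcongr
          exact one_le_pow₀ hc1
      _ = p.σ j * c ^ (r + 1) * X
          + c ^ (r + 1) * (p.ε j + 2 * ((r + 1 : ℕ) : ℝ≥0∞) * p.η j * p.E j) * M := by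
          push_cast
          ring

end DHsp
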