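import Mathlib

/-!
# MP_6ad661_an : definitions

Symmetric functionals defined for all index types, the interval families, the operator `Tr`, the
recursively defined functionals `Q`, and the list of numerical conditions (`Par`).
-/

open scoped ENNReal NNReal
open Function

namespace DHsp

/-- A functional defined for nonnegative extended vectors over an arbitrary index type. -/
abbrev SFun := ∀ ι : Type, (ι → ℝ≥0∞) → ℝ≥0∞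

/-- Monotone under domination along maps that are injective on the support, subadditive,
homogeneous, and continuous from below. -/
structure Good (Φ : SFun) : Prop where
  mono : ∀ {ι κ : Type} {x : ι → ℝ≥0∞} {y : κ → ℝ≥0∞} (f : ι → κ),
    Set.InjOn f {i | x i ≠ 0} → (∀ i, x i ≤ y (f i)) → Φ ι x ≤ Φ κ y
  add : ∀ {ι : Type} (x y : ι → ℝ≥0∞), Φ ι (fun i => x i + y i) ≤ Φ ι x + Φ ι y
  smul_le : ∀ {ι : Type} {c : ℝ≥0∞} (x : ι → ℝ≥0∞), c ≠ ⊤ → Φ ι (fun i => c * x i) ≤ c * Φ ι x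
  cont : ∀ {ι : Type} (x : ℕ → ι → ℝ≥0∞), Monotone x →
    Φ ι (fun i => ⨆ n, x n i) ≤ ⨆ n, Φ ι (x n)

/-- Families of pairwise disjoint intervals `(s,t)` with `j < s < t ≤ R`. -/
def Fam (j R : ℕ) : Set (Set (ℕ × ℕ)) :=
  {F | (∀ J ∈ F, j < J.1 ∧ J.1 < J.2 ∧ J.2 ≤ R) ∧
    ∀ J ∈ F, ∀ J' ∈ F, J ≠ J' → J.2 ≤ J'.1 ∨ J'.2 ≤ J.1}

open Classical in
/-- `x` together with the new coordinates `Q J x`, `J ∈ F`. -/
noncomputable def Tv (Q : ℕ × ℕ → SFun) (F : Set (ℕ × ℕ)) {ι : Type} (x : ι → ℝ≥0∞) :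
    ι ⊕ (ℕ × ℕ) → ℝ≥0∞ :=
  Sum.elim x (fun J => if J ∈ F then Q J ι x else 0)

/-- The operator `𝒯_{j,R}` on functionals. -/
noncomputable def Tr (Q : ℕ × ℕ → SFun) (j R : ℕ) (Φ : SFun) : SFun :=
  fun ι x => ⨆ F ∈ Fam j R, Φ (ι ⊕ (ℕ × ℕ)) (Tv Q F x)

/-- The data of the construction: base functionals, damping factors, numbers of iterations. -/
structure Sys where
  H : ℕ → SFun
  κ : ℕ → ℝ≥0∞
  q : ℕ → ℕ

namespace Sys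

/-- The functional of type `i` on the scale `R`, made from the functionals `Q`. -/
noncomputable def PP (S : Sys) (Q : ℕ × ℕ → SFun) (i R : ℕ) : SFun :=
  fun ι x => ⨆ r ∈ Finset.range (S.q i + 1), S.κ i ^ (r + 1) * ((Tr Q i R)^[r] (S.H i)) ι x

/-- Recursion (on a fuel parameter). -/
noncomputable def Qf (S : Sys) : ℕ → ℕ × ℕ → SFun
  | 0 => fun _ _ _ => 0
  | n + 1 => fun J ι x => ⨆ i ∈ Finset.Ico J.1 J.2, S.PP (S.Qf n) i J.2 ι x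

/-- The functional `Q(J) = max_{J.1 ≤ i < J.2} P(i, J.2)`. -/
noncomputable def Q (S : Sys) (J : ℕ × ℕ) : SFun := S.Qf J.2 J

/-- The functional of type `i` on the scale `R`. -/
noncomputable def P (S : Sys) (i R : ℕ) : SFun := S.PP S.Q i R

/-- The vector `T_F x`. -/
noncomputable def T (S : Sys) (F : Set (ℕ × ℕ)) {ι : Type} (x : ι → ℝ≥0∞) :
    ι ⊕ (ℕ × ℕ) → ℝ≥0∞ := Tv S.Q F x

/-- The operator `𝒯_{j,R}`. -/
noncomputable def TT (S : Sys) (j R : ℕ) : SFun → SFun := Tr S.Q j R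

/-- `N(j,R;x) = max(|x|_∞, Q(j,R;x))`. -/
noncomputable def N (S : Sys) (j R : ℕ) : SFun := fun ι x => max (⨆ i, x i) (S.Q (j, R) ι x)

/-- The norm. -/
noncomputable def NN (S : Sys) : SFun := fun ι x => ⨆ R, S.N 1 R ι x

end Sys

/-- The vector `b ⊕ a∘d`. -/
noncomputable def blk {β K I : Type} (b : β → ℝ≥0∞) (a : K → ℝ≥0∞) (d : K → I → ℝ≥0∞) : β ⊕ (K × I) → ℝ≥0∞ :=
  Sum.elim b (fun u => a u.1 * d u.1 u.2)

/-- The vector `b ⊕ c·a`. -/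
noncomputable def top {β K : Type} (b : β → ℝ≥0∞) (c : ℝ≥0∞) (a : K → ℝ≥0∞) : β ⊕ K → ℝ≥0∞ :=
  Sum.elim b (fun k => c * a k)

/-- All numerical conditions. -/
structure Par (S : Sys) where
  η : ℕ → ℝ≥0∞
  σ : ℕ → ℝ≥0∞
  ε : ℕ → ℝ≥0∞
  σ' : ℕ → ℝ≥0∞
  ε' : ℕ → ℝ≥0∞
  E : ℕ → ℝ≥0∞
  D : ℕ → ℝ≥0∞
  ν : ℕ → ℝ≥0∞
  ν' : ℕ → ℝ≥0∞
  ζ : ℕ → ℝ≥0∞
  -- the base functionals
  good : ∀ j, Good (S.H j)
  H_sup : ∀ j {ι : Type} (x : ι → ℝ≥0∞), S.H j ι x ≤ 2 * ⨆ i, x i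
  H_l1 : ∀ j {ι : Type} (x : ι → ℝ≥0∞), S.H j ι x ≤ η j * ∑' i, x i
  H_split : ∀ j {β K I : Type} (b : β → ℝ≥0∞) (a : K → ℝ≥0∞) (d : K → I → ℝ≥0∞) (δ : ℝ≥0∞),
    (∀ k i, d k i ≤ δ) →
    S.H j _ (blk b a d) ≤ σ j * max (S.H j _ (top b δ a)) (⨆ k, a k * S.H j _ (d k))
      + ε j * ⨆ u, top b δ a u
  H_ones : ∀ j, ∃ n : ℕ, 2 ≤ S.H j (Fin n) (fun _ => 1)
  -- damping factors and numbers of iterations
  κ_le : ∀ j, S.κ j ≤ 1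
  κ_mono : Monotone S.κ
  κ_one : 3 / 2 ≤ 2 * S.κ 1 ^ 2
  q_zero : S.q 0 = 1
  q_pos : ∀ j, 1 ≤ S.q j
  q_two : ∀ j i, j < i → 2 * S.q j ≤ S.q i
  -- the small numbers `η`
  η_anti : Antitone η
  ζ_le : ∀ j, ∑' s, 2 * η (j + 1 + s) ≤ ζ j
  ζ_pow : ∀ j, (1 + ζ j) ^ (2 * S.q j) ≤ 2
  η_small : ∀ j, 16 * S.q j * ν 0 ^ (S.q j) * η j < 1
  η_growth : ∀ j, 4 ^ (j ^ 2) * η j ≤ 1
  -- the constants `ν`
  ν_one : ∀ j, 1 ≤ ν j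
  ν_two : ∀ j, ν j ≤ 2
  ν'_one : ∀ j i, j < i → 1 ≤ ν' j * S.κ i ^ (2 * S.q j)
  ν_cond : ∀ j i, j < i → ν' j + 4 * i * η i * S.q j * ν j ≤ ν j
  κ_cond : ∀ j i, j < i → S.κ i ^ (S.q i - 2 * S.q j) * (2 * ν i) ≤ 1
  -- the constants of the splitting lemma
  σ_one : ∀ j, 1 ≤ σ j
  σ'_top : ∀ j, σ' j ≠ ⊤
  σ_cond : ∀ j, σ j * σ' (j + 1) ^ S.q j ≤ σ' j
  σ'_one : ∀ j, 1 ≤ σ' j
  D_one : ∀ j, 1 ≤ D j
  D_top : ∀ j, D j ≠ ⊤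
  D_cond : ∀ j, D (j + 1) * ν j * σ' (j + 1) ^ S.q j ≤ D j
  ε'_anti : Antitone ε'
  ε'_top : ∀ j, ε' j ≠ ⊤
  E_cond : ∀ j, ∑' s, ε' (j + 1 + s) ≤ E j
  ε_cond : ∀ j, ν j * (σ' (j + 1) ^ S.q j * (ε j + 2 * S.q j * η j * E j)) ≤ ε' j

/-- The splitting lemma at `(j,R)`. -/
def SplitAt (S : Sys) (p : Par S) (j R : ℕ) : Prop :=
  ∀ {β K I : Type} [Finite K] (b : β → ℝ≥0∞) (a : K → ℝ≥0∞) (d : K → I → ℝ≥0∞) (δ : ℝ≥0∞),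
    (∀ k, S.N j R I (d k) ≤ δ) →
    S.Q (j, R) _ (blk b a d) ≤
      p.σ' j * max (S.Q (j, R) _ (top b (p.D j * δ) a)) (⨆ k, a k * S.Q (j, R) I (d k))
        + p.ε' j * S.N j R _ (top b (p.D j * δ) a)

/-- Some subsequence of `v` satisfies a lower estimate. -/
def HasLower (Φ : SFun) {I : Type} (v : ℕ → I → ℝ≥0∞) : Prop :=
  ∃ c : ℝ≥0∞, c ≠ 0 ∧ ∃ φ : ℕ → ℕ, StrictMono φ ∧
    ∀ a : ℕ → ℝ≥0∞, (∀ m, a m ≠ ⊤) → {m | a m ≠ 0}.Finite →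
      c * Φ ℕ a ≤ Φ (ℕ × I) (fun u => a u.1 * v (φ u.1) u.2)

/-- Functionals that give norms of sequence spaces with normalised unit vectors. -/
structure NormF (Φ : SFun) : Prop extends Good Φ where
  sup_le : ∀ {ι : Type} (x : ι → ℝ≥0∞), (⨆ i, x i) ≤ Φ ι x
  unit : Φ Unit (fun _ => 1) ≤ 1

/-- Upper estimate for all finite tuples. -/
def UpperEst (Φ : SFun) : Prop :=
  ∃ C : ℝ≥0∞, C ≠ ⊤ ∧ ∀ {K I : Type} [Finite K] (a : K → ℝ≥0∞) (d : K → I → ℝ≥0∞),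
    (∀ k, Φ I (d k) ≤ 1) → Φ (K × I) (fun u => a u.1 * d u.1 u.2) ≤ C * Φ K a

/-- Lower estimate along a subsequence, for all seminormalised sequences. -/
def LowerEst (Φ : SFun) : Prop :=
  ∀ {I : Type} (v : ℕ → I → ℝ≥0∞), (∀ n, Φ I (v n) ≤ 1) → (∀ n, 1 / 2 ≤ Φ I (v n)) → HasLower Φ v

end DHsp
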