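import Pool.Agent.Helper13.DH.L1

/-!
# MP_6ad661_an, block DH-E : the drop lemma

`F ∈ Fam j R`, `G = {J ∈ F | i < J.1} ∈ Fam i R`.  `T_F x ≤ T_G x + r` pointwise, where `r` is
supported in `{inr J : J ∈ F, J.1 ≤ i}`; these are at most `i` coordinates (`Fam_fst_inj`,
`1 ≤ J.1 ≤ i`), and each value is `Q J x ≤ Q (j+1,R) x` by `Q_mono`.  So
`Φ(T_F x) ≤ Φ(T_G x) + Φ r ≤ 𝒯_{i,R}Φ x + c * (i * Q (j+1,R) x)`.
-/

open scoped ENNReal NNReal
open Function

namespace DHsp

variable {S : Sys}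

theorem drop (p : Par S) {j i R : ℕ} (hji : j < i) {Φ : SFun} (hΦ : Good Φ) {c : ℝ≥0∞}
    (hc : ∀ {ι : Type} (x : ι → ℝ≥0∞), Φ ι x ≤ c * ∑' i, x i) {ι : Type} (x : ι → ℝ≥0∞) :
    S.TT j R Φ ι x ≤ S.TT i R Φ ι x + c * i * S.Q (j + 1, R) ι x := by
  classical
  rw [S.TT_apply]
  refine iSup₂_le fun F hF => ?_
  have hG : {J | J ∈ F ∧ i < J.1} ∈ Fam i R := by
    refine ⟨fun J hJ => ⟨hJ.2, (hF.1 J hJ.1).2⟩, fun J hJ J' hJ' h => hF.2 J hJ.1 J' hJ'.1 h⟩
  set G : Set (ℕ × ℕ) := {J | J ∈ F ∧ i < J.1} with hGdef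
  let r : ι ⊕ (ℕ × ℕ) → ℝ≥0∞ :=
    Sum.elim (fun _ => 0) (fun J => if J ∈ F ∧ J.1 ≤ i then S.Q J ι x else 0)
  have hdom : ∀ u, S.T F x u ≤ S.T G x u + r u := by
    rintro (k | J)
    · simp [r]
    · by_cases hJ : J ∈ F
      · rw [S.T_inr_mem x hJ]
        by_cases hi : i < J.1
        · have hJG : J ∈ G := ⟨hJ, hi⟩
          rw [S.T_inr_mem x hJG]
          exact le_self_add
        · have hr : r (Sum.inr J) = S.Q J ι x := by
            simp only [r, Sum.elim_inr]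
            rw [if_pos ⟨hJ, not_lt.1 hi⟩]
          rw [hr]
          exact le_add_self
      · rw [S.T_inr_not_mem x hJ]
        exact zero_le
  have hΦr : Φ _ r ≤ c * (i * S.Q (j + 1, R) ι x) := by
    refine (hc r).trans ?_
    gcongr
    have hB : {J | J ∈ F ∧ J.1 ≤ i}.Finite := (Fam_finite hF).subset fun J hJ => hJ.1
    have hcard : hB.toFinset.card ≤ i := by
      have h1 : hB.toFinset.card ≤ (Finset.Icc 1 i).card := by
        apply Finset.card_le_card_of_injOn Prod.fst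
        · intro J hJ
          have hJ' : J ∈ F ∧ J.1 ≤ i := by simpa using hJ
          have := (hF.1 J hJ'.1).1
          simp only [Finset.coe_Icc, Set.mem_Icc]
          exact ⟨by omega, hJ'.2⟩
        · intro J hJ J' hJ' h
          have h1 : J ∈ F ∧ J.1 ≤ i := by simpa using hJ
          have h2 : J' ∈ F ∧ J'.1 ≤ i := by simpa using hJ'
          exact Fam_fst_inj hF h1.1 h2.1 h
      simpa using h1
    have hsum : ∑' u, r u = ∑ u ∈ hB.toFinset.map ⟨Sum.inr, Sum.inr_injective⟩, r u := by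
      apply tsum_eq_sum
      rintro (k | J) hu
      · simp [r]
      · have hJ : ¬ (J ∈ F ∧ J.1 ≤ i) := by
          intro h
          apply hu
          simp only [Finset.mem_map, Set.Finite.mem_toFinset, Function.Embedding.coeFn_mk]
          exact ⟨J, h, rfl⟩
        simp only [r, Sum.elim_inr]
        rw [if_neg hJ]
    rw [hsum, Finset.sum_map]
    calc ∑ J ∈ hB.toFinset, r ((⟨Sum.inr, Sum.inr_injective⟩ : (ℕ × ℕ) ↪ ι ⊕ (ℕ × ℕ)) J)
        ≤ ∑ J ∈ hB.toFinset, S.Q (j + 1, R) ι x := by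
          refine Finset.sum_le_sum fun J hJ => ?_
          have hJ' : J ∈ F ∧ J.1 ≤ i := by simpa using hJ
          have h3 := hF.1 J hJ'.1
          simp only [Function.Embedding.coeFn_mk, r, Sum.elim_inr]
          rw [if_pos hJ']
          exact Q_mono (s := J.1) (t := J.2) (by omega) h3.2.2 x
      _ = (hB.toFinset.card : ℝ≥0∞) * S.Q (j + 1, R) ι x := by
          rw [Finset.sum_const, nsmul_eq_mul]
      _ ≤ i * S.Q (j + 1, R) ι x := by
          gcongr
  calc Φ _ (S.T F x) ≤ Φ _ (S.T G x) + Φ _ r := hΦ.le_add hdom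
    _ ≤ S.TT i R Φ ι x + c * (i * S.Q (j + 1, R) ι x) := by
        gcongr
        exact S.le_TT hG Φ x
    _ = S.TT i R Φ ι x + c * i * S.Q (j + 1, R) ι x := by rw [mul_assoc]

end DHsp
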