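import Pool.Agent.Helper13.DH.CL

/-!
# MP_6ad661_an, block DH-P : growth of the fundamental function

`growA`.  Claim (induction on `k`): for every `s ≥ 1` there are `t > s` and `n` with
`(3/2)^k ≤ Q (s,t) (1_n)` (`1_n` the all ones vector on `Fin n`).  `k = 0`: `t = s+1`,
`κ_s^1 H_s(1_n) ≥ κ_s * 2 ≥ 1` (`H_ones`; `κ_s ≥ κ_1 ≥ κ_1^2 ≥ 3/4` by `κ_mono`, `κ_one`).  Step:
let `n₀` be from `H_ones s`.  Choose successively `n₀` intervals `(s_i,t_i)`,
`s < s_0 < t_0 ≤ s_1 < t_1 ≤ ...` and numbers `n_i` with `(3/2)^k ≤ Q (s_i,t_i) (1_{n_i})`; let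
`n = max n_i`, `R = max t_i`, `F` the family of these intervals, `F ∈ Fam s R`.  `T_F 1_n`
dominates `(3/2)^k 1_{n₀}`, so `𝒯_{s,R} H_s (1_n) ≥ (3/2)^k H_s(1_{n₀}) ≥ 2 (3/2)^k` and
`Q (s,R) (1_n) ≥ P s R ≥ κ_s^2 2 (3/2)^k ≥ (3/2)^{k+1}` (`q_s ≥ 1`).

`growB`.  For every `j ≥ 1`: `NN (1_n) ≤ 4^{j-1} max(1, 2 η_j n)` (`NN_comp`), `η_j ≤ 4^{-j²}`.
Given `k, M` choose `j₀ ≥ 1` such that `M (4^j)^k * 2 ≤ 4^{j²}` for all `j ≥ j₀`, and
`n₀ = 4^{j₀²}`.  For `n ≥ n₀` let `j ≥ j₀` be maximal with `4^{j²} ≤ n`; then `n < 4^{(j+1)²}`, so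
`NN (1_n) ≤ 4^j max(1, 2) = 2 * 4^j`; choose `j₀` such that `M (2 * 4^j)^k ≤ 4^{j²}` for `j ≥ j₀`.
-/

open scoped ENNReal NNReal
open Function Filter

namespace DHsp

variable {S : Sys}

/-- `(3/2)/2 ≤ κ_s²`. -/
theorem grow_kappa (p : Par S) {s : ℕ} (hs : 1 ≤ s) : 3 / 2 ≤ 2 * S.κ s ^ 2 := by
  refine p.κ_one.trans ?_
  gcongr
  exact p.κ_mono hs

/-- `1 ≤ 2 κ_s`. -/
theorem grow_kappa' (p : Par S) {s : ℕ} (hs : 1 ≤ s) : 1 ≤ 2 * S.κ s := by
  have h1 : (1 : ℝ≥0∞) ≤ 3 / 2 := by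
    rw [ENNReal.le_div_iff_mul_le (by simp) (by simp)]
    norm_num
  refine h1.trans ((grow_kappa p hs).trans ?_)
  rw [pow_two]
  gcongr
  calc S.κ s * S.κ s ≤ S.κ s * 1 := by gcongr; exact p.κ_le s
    _ = S.κ s := mul_one _

/-- The main claim for `growA`. -/
theorem grow_claim (p : Par S) (k : ℕ) : ∀ s : ℕ, 1 ≤ s → ∃ t n : ℕ, s < t ∧
    (3 / 2 : ℝ≥0∞) ^ k ≤ S.Q (s, t) (Fin n) (fun _ => 1) := by
  induction k with
  | zero =>
    intro s hs
    obtain ⟨n, hn⟩ := p.H_ones s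
    refine ⟨s + 1, n, by omega, ?_⟩
    have h1 := S.P_le_Q (j := s) (i := s) (R := s + 1) le_rfl (by omega) (fun _ : Fin n => 1)
    refine le_trans ?_ h1
    have h2 := S.le_P (i := s) (R := s + 1) (r := 0) (by omega) (fun _ : Fin n => 1)
    refine le_trans ?_ h2
    simp only [zero_add, pow_one, iterate_zero, id_eq, pow_zero]
    calc (1 : ℝ≥0∞) ≤ 2 * S.κ s := grow_kappa' p hs
      _ = S.κ s * 2 := mul_comm _ _
      _ ≤ S.κ s * S.H s (Fin n) (fun _ => 1) := by gcongr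
  | succ k ih =>
    intro s hs
    obtain ⟨n₀, hn₀⟩ := p.H_ones s
    choose! t n ht hn using ih
    -- the endpoints
    let st : ℕ → ℕ := fun i => Nat.rec (s + 1) (fun _ x => t x) i
    have hst0 : st 0 = s + 1 := rfl
    have hsts : ∀ i, st (i + 1) = t (st i) := fun i => rfl
    have hst1 : ∀ i, s + 1 ≤ st i := by
      intro i
      induction i with
      | zero => exact le_rfl
      | succ i ih =>
        rw [hsts]
        exact ih.trans (ht (st i) (by omega)).le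
    have hlt : ∀ i, st i < st (i + 1) := by
      intro i
      rw [hsts]
      exact ht (st i) (by have := hst1 i; omega)
    have hmono : StrictMono st := strictMono_nat_of_lt_succ hlt
    let F : Set (ℕ × ℕ) := {J | ∃ i < n₀, J = (st i, st (i + 1))}
    have hF : F ∈ Fam s (st n₀) := by
      refine ⟨?_, ?_⟩
      · rintro J ⟨i, hi, rfl⟩
        have h5 : st (i + 1) ≤ st n₀ := hmono.monotone (Nat.succ_le_of_lt hi)
        have h6 := hst1 i
        exact ⟨by simp only; omega, hlt i, h5⟩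
      · rintro J ⟨i, hi, rfl⟩ J' ⟨i', hi', rfl⟩ hne
        rcases lt_trichotomy i i' with h | h | h
        · left
          have h5 : st (i + 1) ≤ st i' := hmono.monotone (Nat.succ_le_of_lt h)
          exact h5
        · subst h
          exact absurd rfl hne
        · right
          have h5 : st (i' + 1) ≤ st i := hmono.monotone (Nat.succ_le_of_lt h)
          exact h5
    let N := (Finset.range n₀).sup fun i => n (st i)
    refine ⟨st n₀, N, ?_, ?_⟩
    · have := hst1 n₀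
      omega
    · -- lower bound for `𝒯 H`
      have hc : ((3 / 2 : ℝ≥0∞) ^ k) ≠ ⊤ := by
        apply ENNReal.pow_ne_top
        exact ENNReal.div_ne_top (by simp) (by simp)
      have h1 : (3 / 2 : ℝ≥0∞) ^ k * S.H s (Fin n₀) (fun _ => 1)
          ≤ S.H s _ (S.T F (fun _ : Fin N => (1 : ℝ≥0∞))) := by
        rw [← (p.good s).smul _ hc]
        refine (p.good s).mono (fun i : Fin n₀ => Sum.inr (st i, st (i + 1))) ?_ ?_
        · intro i _ i' _ h
          simp only [Sum.inr.injEq, Prod.mk.injEq] at h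
          exact Fin.ext (hmono.injective h.1)
        · intro i
          have hmem : (st (i : ℕ), st ((i : ℕ) + 1)) ∈ F := ⟨i, i.2, rfl⟩
          rw [S.T_inr_mem _ hmem, mul_one]
          refine (hn (st i) (by have := hst1 i; omega)).trans ?_
          rw [← hsts]
          have hle : n (st i) ≤ N :=
            Finset.le_sup (f := fun i => n (st i)) (Finset.mem_range.2 i.2)
          exact (good_Q p _).mono (Fin.castLE hle) (Fin.castLE_injective hle).injOn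
            fun _ => le_rfl
      have h2 := S.P_le_Q (j := s) (i := s) (R := st n₀) le_rfl
        (by have := hst1 n₀; omega) (fun _ : Fin N => (1 : ℝ≥0∞))
      refine le_trans ?_ h2
      have h3 := S.le_P (i := s) (R := st n₀) (r := 1) (p.q_pos s) (fun _ : Fin N => (1 : ℝ≥0∞))
      refine le_trans ?_ h3
      rw [iterate_one]
      have h4 := S.le_TT hF (S.H s) (fun _ : Fin N => (1 : ℝ≥0∞))
      calc (3 / 2 : ℝ≥0∞) ^ (k + 1) = (3 / 2) ^ k * (3 / 2) := pow_succ _ _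
        _ ≤ (3 / 2) ^ k * (2 * S.κ s ^ 2) := by gcongr; exact grow_kappa p hs
        _ = S.κ s ^ (1 + 1) * ((3 / 2) ^ k * 2) := by ring
        _ ≤ S.κ s ^ (1 + 1) * ((3 / 2) ^ k * S.H s (Fin n₀) (fun _ => 1)) := by gcongr
        _ ≤ S.κ s ^ (1 + 1) * S.TT s (st n₀) (S.H s) (Fin N) (fun _ => 1) := by
            gcongr
            exact h1.trans h4

theorem growA (p : Par S) (M : ℕ) : ∃ n : ℕ, (M : ℝ≥0∞) ≤ S.NN (Fin n) (fun _ => 1) := by
  obtain ⟨k, hk⟩ : ∃ k : ℕ, (M : ℝ) < (3 / 2 : ℝ) ^ k := pow_unbounded_of_one_lt _ (by norm_num)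
  obtain ⟨t, n, _, hn⟩ := grow_claim p k 1 le_rfl
  refine ⟨n, ?_⟩
  have h1 : (M : ℝ≥0∞) ≤ (3 / 2 : ℝ≥0∞) ^ k := by
    have h2 : ((M : ℝ≥0) : ℝ≥0∞) ≤ (((3 / 2 : ℝ≥0) ^ k : ℝ≥0) : ℝ≥0∞) := by
      rw [ENNReal.coe_le_coe, ← NNReal.coe_le_coe]
      push_cast
      exact hk.le
    have h3 : (((3 / 2 : ℝ≥0) ^ k : ℝ≥0) : ℝ≥0∞) = (3 / 2 : ℝ≥0∞) ^ k := by
      rw [ENNReal.coe_pow, ENNReal.coe_div (by norm_num)]
      norm_num
    rw [← h3]
    simpa using h2
  exact h1.trans (hn.trans (Q_le_NN S le_rfl t _))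

/-- Bound of the fundamental function. -/
theorem grow_NN (p : Par S) {j : ℕ} (hj : 1 ≤ j) {n : ℕ} (hn : n ≤ 4 ^ (j ^ 2)) :
    S.NN (Fin n) (fun _ => 1) ≤ 4 ^ (j - 1) * 2 := by
  refine (NN_comp p hj _).trans ?_
  gcongr
  apply max_le
  · exact iSup_le fun _ => by norm_num
  · have h1 : ∑' _ : Fin n, (1 : ℝ≥0∞) = n := by
      rw [tsum_fintype]
      simp
    rw [h1]
    have h2 : (n : ℝ≥0∞) ≤ 4 ^ (j ^ 2) := by
      exact_mod_cast hn
    calc 2 * p.η j * n ≤ 2 * p.η j * 4 ^ (j ^ 2) := by gcongr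
      _ = 2 * (4 ^ (j ^ 2) * p.η j) := by ring
      _ ≤ 2 * 1 := by gcongr; exact p.η_growth j
      _ = 2 := mul_one _

theorem growB (p : Par S) (k M : ℕ) :
    ∃ n₀ : ℕ, ∀ n ≥ n₀, (M : ℝ≥0∞) * S.NN (Fin n) (fun _ => 1) ^ k ≤ n := by
  refine ⟨4 ^ ((M + 2 * k + 1) ^ 2), fun n hn => ?_⟩
  have hn0 : n ≠ 0 := by
    have : 0 < 4 ^ ((M + 2 * k + 1) ^ 2) := by positivity
    omega
  set j := Nat.sqrt (Nat.log 4 n) with hj
  have hj0 : M + 2 * k + 1 ≤ j := by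
    rw [hj, Nat.le_sqrt']
    exact Nat.le_log_of_pow_le (by norm_num) hn
  have hj1 : 4 ^ (j ^ 2) ≤ n := by
    refine (Nat.pow_le_pow_right (by norm_num) ?_).trans (Nat.pow_log_le_self 4 hn0)
    exact Nat.sqrt_le' _
  have hj2 : n ≤ 4 ^ ((j + 1) ^ 2) := by
    refine (Nat.lt_pow_succ_log_self (b := 4) (by norm_num) n).le.trans ?_
    refine Nat.pow_le_pow_right (by norm_num) ?_
    exact Nat.succ_le_succ_sqrt' _
  have h1 := grow_NN p (j := j + 1) (by omega) hj2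
  rw [Nat.add_sub_cancel] at h1
  have h2 : M * (4 ^ j * 2) ^ k ≤ n := by
    refine le_trans ?_ hj1
    have hM : M ≤ 4 ^ M := (Nat.lt_pow_self (by norm_num)).le
    calc M * (4 ^ j * 2) ^ k ≤ 4 ^ M * (4 ^ j * 4) ^ k := by gcongr; norm_num
      _ = 4 ^ (M + (j + 1) * k) := by rw [← pow_succ, ← pow_mul, ← pow_add]
      _ ≤ 4 ^ (j ^ 2) := by
        refine Nat.pow_le_pow_right (by norm_num) ?_
        nlinarith [Nat.zero_le M, Nat.zero_le k]
  calc (M : ℝ≥0∞) * S.NN (Fin n) (fun _ => 1) ^ k ≤ M * (4 ^ j * 2) ^ k := by gcongr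
    _ = ((M * (4 ^ j * 2) ^ k : ℕ) : ℝ≥0∞) := by push_cast; ring
    _ ≤ n := by exact_mod_cast h2

theorem normF_NN (p : Par S) : NormF S.NN where
  toGood := good_NN p
  sup_le := fun x => sup_le_NN S x
  unit := by
    refine (NN_comp p (j := 1) le_rfl _).trans ?_
    simp only [Nat.sub_self, pow_zero, one_mul]
    apply max_le
    · exact iSup_le fun _ => le_rfl
    · rw [tsum_fintype]
      simp only [Finset.univ_unique, Finset.sum_const, Finset.card_singleton, one_smul, mul_one]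
      have h1 := p.η_growth 1
      refine le_trans ?_ h1
      gcongr
      norm_num

end DHsp
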