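import Pool.Agent.Helper13.DH.LB

/-!
# MP_6ad661_an, block DH-O : the lower estimate

Let `NN (v n) ≤ 1`, `1/2 ≤ NN (v n)`.  If `1/8 ≤ |v n|_∞` for infinitely many `n`: done by
`hasLower_of_sup'`.  Otherwise, after passing to a tail (`hasLower_comp`), `|v n|_∞ < 1/8` for all
`n`; since `1/4 < NN (v n)`, there are `R n`, `i_n`, `r_n` with `1 ≤ i_n < R n`, `r_n ≤ q_{i_n}`,
`1/4 < Q (1,R n) (v n)`, `1/4 < P i_n (R n) (v n)`,
`1/4 < κ^{r_n+1} 𝒯_{i_n}^{r_n} H_{i_n} (v n) ≤ 𝒯_{i_n}^{r_n} H_{i_n} (v n)`.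
Either `i_n` is unbounded on ... : if for every `M` the set `{n | i_n ≤ M}` is finite then
`lowerA` (with `c = 1/4`, `P ≤ Q (i_n, R n)`).  Otherwise for some `M` the set `{n | i_n ≤ M}` is
infinite and by the pigeonhole principle there are `i`, `r` such that `{n | i_n = i, r_n = r}` is
infinite (`r_n ≤ q_{i_n}` is bounded); take the subsequence and use `lowerB` with `C = 1`,
`c₀ = 1/4`: `4 r η_i ν_0^r < 1/4` by `η_small`.
-/

open scoped ENNReal NNReal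
open Function Filter

namespace DHsp

variable {S : Sys}

/-- the data of a flat vector of large norm -/
theorem low_data (p : Par S) {I : Type} (x : I → ℝ≥0∞) (h1 : (⨆ i, x i) < 1 / 8)
    (h2 : 1 / 2 ≤ S.NN I x) : ∃ R i r : ℕ, 1 ≤ i ∧ i < R ∧ r ≤ S.q i ∧ 1 / 4 < S.P i R I x ∧
      1 / 4 < ((S.TT i R)^[r] (S.H i)) I x := by
  have h3 : (1 / 4 : ℝ≥0∞) < 1 / 2 := by
    rw [one_div, one_div]
    exact ENNReal.inv_lt_inv.2 (by norm_num)
  have h4 : (1 / 8 : ℝ≥0∞) < 1 / 4 := by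
    rw [one_div, one_div]
    exact ENNReal.inv_lt_inv.2 (by norm_num)
  have h5 : 1 / 4 < S.NN I x := lt_of_lt_of_le h3 h2
  obtain ⟨R, hR⟩ := lt_iSup_iff.1 h5
  have h6 : 1 / 4 < S.Q (1, R) I x := by
    rcases lt_max_iff.1 hR with h | h
    · exact absurd (h.trans h1) (not_lt.2 h4.le)
    · exact h
  obtain ⟨i, hi1, hiR, hP⟩ := S.exists_of_lt_Q h6
  obtain ⟨r, hr, hT⟩ := S.exists_of_lt_P hP
  refine ⟨R, i, r, hi1, hiR, hr, hP, lt_of_lt_of_le hT ?_⟩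
  calc S.κ i ^ (r + 1) * ((S.TT i R)^[r] (S.H i)) I x ≤ 1 * ((S.TT i R)^[r] (S.H i)) I x := by
        gcongr
        exact pow_le_one₀ (by simp) (p.κ_le i)
    _ = _ := one_mul _

theorem low_flat (p : Par S) {I : Type} (w : ℕ → I → ℝ≥0∞) (hw1 : ∀ n, S.NN I (w n) ≤ 1)
    (hw2 : ∀ n, 1 / 2 ≤ S.NN I (w n)) (hs : ∀ n, (⨆ i, w n i) < 1 / 8) : HasLower S.NN w := by
  choose R i r hi1 hiR hr hP hT using fun n => low_data p (w n) (hs n) (hw2 n)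
  by_cases hA : ∀ M, ∃ n₀, ∀ n ≥ n₀, M ≤ i n
  · exact lowerA p w i R (c := 1 / 4) (by simp) hA (fun n => ⟨hi1 n, hiR n⟩)
      (fun n => (hP n).le.trans (S.P_le_Q le_rfl (hiR n) _))
  push Not at hA
  obtain ⟨M, hM⟩ := hA
  have hinf : Infinite {n | i n < M} := by
    rw [Set.infinite_coe_iff]
    exact Nat.frequently_atTop_iff_infinite.1 (frequently_atTop.2 hM)
  let f : {n | i n < M} → Σ a : Fin M, Fin (S.q a + 1) := fun n =>
    ⟨⟨i n.1, n.2⟩, ⟨r n.1, Nat.lt_succ_of_le (hr n.1)⟩⟩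
  obtain ⟨⟨a, b⟩, hy⟩ := Finite.exists_infinite_fiber f
  have hab : ∀ n : {n | i n < M}, f n = ⟨a, b⟩ → i n.1 = a ∧ r n.1 = b := by
    intro n hn
    have e1 : i n.1 = a := by
      have := congrArg (fun y => (y.1 : ℕ)) hn
      exact this
    have e2 : r n.1 = b := by
      have := congrArg (fun y : (Σ a : Fin M, Fin (S.q a + 1)) => (y.2 : ℕ)) hn
      exact this
    exact ⟨e1, e2⟩
  have hset : {n | i n = a ∧ r n = b}.Infinite := by
    have h1 : (f ⁻¹' {⟨a, b⟩}).Infinite := Set.infinite_coe_iff.1 hy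
    have h2 := h1.image (f := Subtype.val) (Subtype.val_injective.injOn)
    refine h2.mono ?_
    rintro _ ⟨n, hn, rfl⟩
    exact hab n hn
  obtain ⟨φ, hφ, hφ2⟩ := extraction_of_frequently_atTop (Nat.frequently_atTop_iff_infinite.2 hset)
  refine hasLower_comp hφ ?_
  have ha1 : 1 ≤ (a : ℕ) := by rw [← (hφ2 0).1]; exact hi1 _
  have hb1 : (b : ℕ) ≤ S.q a := Nat.lt_succ_iff.1 b.2
  refine lowerB p a ha1 b hb1 (fun n => w (φ n)) (fun n => R (φ n)) 1 (1 / 4) (by simp)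
    (fun n => hw1 _) ?_ ?_
  · have h1 := p.η_small a
    have h2 : 4 * (b : ℝ≥0∞) * p.η a * p.ν 0 ^ (b : ℕ) * 1 * 4 ≤ 16 * S.q a * p.ν 0 ^ (S.q a) * p.η a := by
      have hbq : ((b : ℕ) : ℝ≥0∞) ≤ (S.q a : ℝ≥0∞) := by exact_mod_cast hb1
      have hν : p.ν 0 ^ (b : ℕ) ≤ p.ν 0 ^ (S.q a) := pow_le_pow_right₀ (p.ν_one 0) hb1
      calc 4 * (b : ℝ≥0∞) * p.η a * p.ν 0 ^ (b : ℕ) * 1 * 4
          ≤ 4 * (S.q a : ℝ≥0∞) * p.η a * p.ν 0 ^ (S.q a) * 1 * 4 := by gcongr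
        _ = 16 * S.q a * p.ν 0 ^ (S.q a) * p.η a := by ring
    rw [ENNReal.lt_div_iff_mul_lt (by simp) (by simp)]
    exact lt_of_le_of_lt h2 h1
  · intro n
    have h1 := hT (φ n)
    rw [(hφ2 n).1, (hφ2 n).2] at h1
    exact h1

theorem lower (p : Par S) : LowerEst S.NN := by
  intro I v hv1 hv2
  by_cases h : ∀ n, ∃ m ≥ n, 1 / 8 ≤ ⨆ i, v m i
  · exact hasLower_of_sup' p v (c := 1 / 8) (by simp) h
  push Not at h
  obtain ⟨n₀, hn₀⟩ := h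
  refine hasLower_comp (φ := fun n => n₀ + n) (fun a b hab => Nat.add_lt_add_left hab n₀) ?_
  exact low_flat p _ (fun n => hv1 _) (fun n => hv2 _) (fun n => hn₀ _ (Nat.le_add_right _ _))

end DHsp
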