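import Pool.Agent.Helper13.DH.BaseH

/-!
# MP_6ad661_an, block DH-R : choice of the parameters

`q 0 = 1`, `q (j+1) = 24 * 2^j * q j`, `κ_i = exp(-3/q_i)`, `ν_j = 1 + 2^{-j}`,
`ν'_j = 1 + 2^{-j-1}`, `σ'_j = 1 + u_j` with `u_j = 1/U_j`, `U_0 = 1`, `U_{j+1} = 8 q_j U_j`,
`D_j = exp(8 * 2^{-j})`, `ε'_j = E_j = 2^{-j}`, `ζ_j = 1/(4 q_j)`, `η_j = ε_j = 2/B_j`,
`σ_j = 1 + 1/B_j`, `B_j = 64 (j+1) 2^j 4^{j²} q_j 2^{q_j} U_j`.
The functionals are `H j = Hb (B j)`.
-/

open scoped ENNReal NNReal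
open Function

namespace DHsp

namespace ParC

/-- numbers of iterations -/
def q : ℕ → ℕ
  | 0 => 1
  | j + 1 => 24 * 2 ^ j * q j

/-- the reciprocals of `u` -/
def U : ℕ → ℕ
  | 0 => 1
  | j + 1 => 8 * q j * U j

def B (j : ℕ) : ℕ := 64 * (j + 1) * 2 ^ j * 4 ^ (j ^ 2) * q j * 2 ^ (q j) * U j

theorem q_pos (j : ℕ) : 0 < q j := by
  induction j with
  | zero => simp [q]
  | succ j ih => simp only [q]; positivity

theorem U_pos (j : ℕ) : 0 < U j := by
  induction j with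
  | zero => simp [U]
  | succ j ih => have := q_pos j; simp only [U]; positivity

theorem q_mono : Monotone q := by
  apply monotone_nat_of_le_succ
  intro j
  simp only [q]
  exact Nat.le_mul_of_pos_left _ (by positivity)

theorem U_mono : Monotone U := by
  apply monotone_nat_of_le_succ
  intro j
  have := q_pos j
  simp only [U]
  exact Nat.le_mul_of_pos_left _ (by positivity)

theorem q_lt {j i : ℕ} (h : j < i) : 24 * 2 ^ j * q j ≤ q i := q_mono (Nat.succ_le_of_lt h)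

theorem q_lt' {j i : ℕ} (h : j < i) : 24 * q j ≤ q i := by
  refine le_trans ?_ (q_lt h)
  have : 1 ≤ 2 ^ j := Nat.one_le_two_pow
  nlinarith [q_pos j]

theorem U_ge (j : ℕ) : 2 ^ j ≤ U j := by
  induction j with
  | zero => simp [U]
  | succ j ih =>
    have := q_pos j
    simp only [U]
    calc 2 ^ (j + 1) = 2 * 2 ^ j := by ring
      _ ≤ (8 * q j) * U j := Nat.mul_le_mul (by omega) ih

theorem B_pos (j : ℕ) : 0 < B j := by
  have := q_pos j
  have := U_pos j
  unfold B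
  positivity

theorem B_mono : Monotone B := by
  intro i j h
  have h1 := q_mono h
  have h2 := U_mono h
  unfold B
  gcongr <;> norm_num

theorem B_ge1 (j : ℕ) : 64 * (j + 1) * 2 ^ j * q j ≤ B j := by
  have := q_pos j
  have := U_pos j
  have h : B j = (64 * (j + 1) * 2 ^ j * q j) * (4 ^ (j ^ 2) * 2 ^ (q j) * U j) := by
    unfold B; ring
  rw [h]
  exact Nat.le_mul_of_pos_right _ (by positivity)

theorem B_ge2 (j : ℕ) : 64 * q j * 2 ^ (q j) ≤ B j := by
  have := q_pos j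
  have := U_pos j
  have h : B j = (64 * q j * 2 ^ (q j)) * ((j + 1) * 2 ^ j * 4 ^ (j ^ 2) * U j) := by
    unfold B; ring
  rw [h]
  exact Nat.le_mul_of_pos_right _ (by positivity)

theorem B_ge3 (j : ℕ) : 64 * 4 ^ (j ^ 2) ≤ B j := by
  have := q_pos j
  have := U_pos j
  have h : B j = (64 * 4 ^ (j ^ 2)) * ((j + 1) * 2 ^ j * q j * 2 ^ (q j) * U j) := by
    unfold B; ring
  rw [h]
  exact Nat.le_mul_of_pos_right _ (by positivity)

theorem B_ge4 (j : ℕ) : 64 * U j ≤ B j := by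
  have := q_pos j
  have := U_pos j
  have h : B j = (64 * U j) * ((j + 1) * 2 ^ j * q j * 2 ^ (q j) * 4 ^ (j ^ 2)) := by
    unfold B; ring
  rw [h]
  exact Nat.le_mul_of_pos_right _ (by positivity)

theorem B_ge5 (j : ℕ) : 64 * 2 ^ j * q j ≤ B j := by
  refine le_trans ?_ (B_ge1 j)
  have : 64 * (j + 1) * 2 ^ j * q j = (64 * 2 ^ j * q j) * (j + 1) := by ring
  rw [this]
  exact Nat.le_mul_of_pos_right _ (by positivity)

/-! ### real inequalities -/

noncomputable def hf (j : ℕ) : ℝ := (1 / 2) ^ j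
noncomputable def ur (j : ℕ) : ℝ := 1 / U j

theorem hf_pos (j : ℕ) : 0 < hf j := by unfold hf; positivity
theorem hf_le (j : ℕ) : hf j ≤ 1 := by
  unfold hf; exact pow_le_one₀ (by norm_num) (by norm_num)
theorem hf_mul (j : ℕ) : hf j * 2 ^ j = 1 := by
  unfold hf; rw [← mul_pow]; norm_num
theorem ur_pos (j : ℕ) : 0 < ur j := by
  have := U_pos j
  unfold ur; positivity
theorem ur_mul (j : ℕ) : ur j * U j = 1 := by
  have : (U j : ℝ) ≠ 0 := by exact_mod_cast (U_pos j).ne'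
  unfold ur; field_simp
theorem ur_le_hf (j : ℕ) : ur j ≤ hf j := by
  have h1 : (2 : ℝ) ^ j ≤ U j := by exact_mod_cast U_ge j
  have h2 : (0 : ℝ) < 2 ^ j := by positivity
  unfold ur hf
  rw [div_pow, one_pow]
  exact one_div_le_one_div_of_le h2 h1
theorem ur_le (j : ℕ) : ur j ≤ 1 := (ur_le_hf j).trans (hf_le j)
theorem ur_succ (j : ℕ) : q j * ur (j + 1) = ur j / 8 := by
  have h1 : (U j : ℝ) ≠ 0 := by exact_mod_cast (U_pos j).ne'
  have h2 : (q j : ℝ) ≠ 0 := by exact_mod_cast (q_pos j).ne'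
  unfold ur
  simp only [U]
  push_cast
  field_simp

theorem pow_ur (j : ℕ) : (1 + ur (j + 1)) ^ q j ≤ 1 + ur j / 4 := by
  have h0 := ur_pos (j + 1)
  have h1 : (1 + ur (j + 1)) ^ q j ≤ Real.exp (ur j / 8) := by
    calc (1 + ur (j + 1)) ^ q j ≤ (Real.exp (ur (j + 1))) ^ q j := by
          gcongr
          linarith [Real.add_one_le_exp (ur (j + 1))]
      _ = Real.exp (ur j / 8) := by rw [← Real.exp_nat_mul, ur_succ]
  have h2 := ur_pos j
  have h3 := ur_le j
  have h4 : |ur j / 8| ≤ 1 := by rw [abs_of_pos (by positivity)]; linarith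
  have h5 := Real.abs_exp_sub_one_sub_id_le h4
  have h6 := (abs_le.1 h5).2
  nlinarith

theorem sigma_cond (j : ℕ) : (1 + 1 / (B j : ℝ)) * (1 + ur (j + 1)) ^ q j ≤ 1 + ur j := by
  have h0 := ur_pos (j + 1)
  have h1 := pow_ur j
  have h2 := ur_pos j
  have h3 := ur_le j
  have h4 : 1 / (B j : ℝ) ≤ ur j / 4 := by
    have hB : (64 : ℝ) * U j ≤ B j := by exact_mod_cast B_ge4 j
    have hU : (0 : ℝ) < U j := by exact_mod_cast U_pos j
    have hB0 : (0 : ℝ) < B j := by exact_mod_cast B_pos j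
    rw [div_le_iff₀ hB0]
    have := ur_mul j
    nlinarith
  calc (1 + 1 / (B j : ℝ)) * (1 + ur (j + 1)) ^ q j ≤ (1 + ur j / 4) * (1 + ur j / 4) := by
        gcongr
    _ ≤ 1 + ur j := by nlinarith

theorem D_cond (j : ℕ) :
    Real.exp (8 * hf (j + 1)) * (1 + hf j) * (1 + ur (j + 1)) ^ q j ≤ Real.exp (8 * hf j) := by
  have h0 := ur_pos (j + 1)
  have h1 := pow_ur j
  have h2 := ur_pos j
  have h3 := ur_le_hf j
  have h4 := hf_pos j
  have h5 : 1 + hf j ≤ Real.exp (hf j) := by linarith [Real.add_one_le_exp (hf j)]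
  have h6 : 1 + ur j / 4 ≤ Real.exp (hf j) := by linarith
  have h7 : hf (j + 1) = hf j / 2 := by unfold hf; rw [pow_succ]; ring
  calc Real.exp (8 * hf (j + 1)) * (1 + hf j) * (1 + ur (j + 1)) ^ q j
      ≤ Real.exp (8 * hf (j + 1)) * Real.exp (hf j) * Real.exp (hf j) := by
        have h8 := h1.trans h6
        gcongr
    _ = Real.exp (8 * hf (j + 1) + hf j + hf j) := by rw [Real.exp_add, Real.exp_add]
    _ ≤ Real.exp (8 * hf j) := by
        apply Real.exp_le_exp.2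
        rw [h7]; linarith

theorem eps_cond (j : ℕ) : (1 + hf j) * ((1 + ur (j + 1)) ^ q j *
    (2 / (B j : ℝ) + 2 * q j * (2 / (B j : ℝ)) * hf j)) ≤ hf j := by
  have h0 := ur_pos (j + 1)
  have h1 := pow_ur j
  have h2 := ur_pos j
  have h3 := ur_le j
  have h4 := hf_pos j
  have h5 := hf_le j
  have h6 : (1 : ℝ) ≤ q j := by exact_mod_cast q_pos j
  have hB : (64 : ℝ) * 2 ^ j * q j ≤ B j := by exact_mod_cast B_ge5 j
  have hB0 : (0 : ℝ) < B j := by exact_mod_cast B_pos j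
  have h7 : 2 / (B j : ℝ) + 2 * q j * (2 / (B j : ℝ)) * hf j ≤ hf j / 8 := by
    have e : 2 / (B j : ℝ) + 2 * q j * (2 / (B j : ℝ)) * hf j = (2 + 4 * q j * hf j) / B j := by
      field_simp
      ring
    rw [e, div_le_iff₀ hB0]
    have h8 : hf j * (64 * 2 ^ j * q j) = 64 * q j := by
      have := hf_mul j
      linear_combination (64 * (q j : ℝ)) * this
    have h9 : hf j * (64 * 2 ^ j * q j) ≤ hf j * B j := by gcongr
    nlinarith
  calc (1 + hf j) * ((1 + ur (j + 1)) ^ q j *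
      (2 / (B j : ℝ) + 2 * q j * (2 / (B j : ℝ)) * hf j)) ≤ (1 + 1) * ((1 + 1) * (hf j / 8)) := by
        gcongr
        linarith
    _ ≤ hf j := by linarith

theorem zeta_pow (j : ℕ) : (1 + 1 / (4 * (q j : ℝ))) ^ (2 * q j) ≤ 2 := by
  have h6 : (0 : ℝ) < q j := by exact_mod_cast q_pos j
  calc (1 + 1 / (4 * (q j : ℝ))) ^ (2 * q j)
      ≤ (Real.exp (1 / (4 * (q j : ℝ)))) ^ (2 * q j) := by
        gcongr
        linarith [Real.add_one_le_exp (1 / (4 * (q j : ℝ)))]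
    _ = Real.exp (1 / 2) := by
        rw [← Real.exp_nat_mul]
        congr 1
        push_cast
        field_simp
        norm_num
    _ ≤ 2 := by
        have h4 : |(1 / 2 : ℝ)| ≤ 1 := by rw [abs_of_pos (by positivity)]; norm_num
        have h5 := Real.abs_exp_sub_one_sub_id_le h4
        have h6 := (abs_le.1 h5).2
        linarith

theorem eta_small (j : ℕ) : 16 * (q j : ℝ) * 2 ^ q j * (2 / (B j : ℝ)) < 1 := by
  have h6 : (0 : ℝ) < q j := by exact_mod_cast q_pos j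
  have hB : (64 : ℝ) * q j * 2 ^ q j ≤ B j := by exact_mod_cast B_ge2 j
  have hB0 : (0 : ℝ) < B j := by exact_mod_cast B_pos j
  have e : 16 * (q j : ℝ) * 2 ^ q j * (2 / (B j : ℝ)) = (32 * q j * 2 ^ q j) / B j := by ring
  rw [e, div_lt_one hB0]
  have : 0 < (q j : ℝ) * 2 ^ q j := by positivity
  nlinarith

theorem eta_growth (j : ℕ) : 4 ^ (j ^ 2) * (2 / (B j : ℝ)) ≤ 1 := by
  have hB : (64 : ℝ) * 4 ^ (j ^ 2) ≤ B j := by exact_mod_cast B_ge3 j
  have hB0 : (0 : ℝ) < B j := by exact_mod_cast B_pos j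
  have e : 4 ^ (j ^ 2) * (2 / (B j : ℝ)) = (2 * 4 ^ (j ^ 2)) / B j := by ring
  rw [e, div_le_one hB0]
  have : 0 < (4 : ℝ) ^ (j ^ 2) := by positivity
  linarith

theorem nu_cond {j i : ℕ} (h : j < i) :
    (1 + hf j / 2) + 4 * i * (2 / (B i : ℝ)) * q j * (1 + hf j) ≤ 1 + hf j := by
  have h4 := hf_pos j
  have h5 := hf_le j
  have h6 : (0 : ℝ) < q j := by exact_mod_cast q_pos j
  have hB : (64 : ℝ) * (i + 1) * 2 ^ i * q i ≤ B i := by exact_mod_cast B_ge1 i
  have hB0 : (0 : ℝ) < B i := by exact_mod_cast B_pos i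
  have hq : (q j : ℝ) ≤ q i := by exact_mod_cast q_mono h.le
  have h2 : (2 : ℝ) ^ j ≤ 2 ^ i := pow_le_pow_right₀ (by norm_num) h.le
  have h7 : 4 * i * (2 / (B i : ℝ)) * q j * (1 + hf j) ≤ hf j / 2 := by
    have e : 4 * i * (2 / (B i : ℝ)) * q j * (1 + hf j) = (8 * i * q j * (1 + hf j)) / B i := by
      ring
    rw [e, div_le_iff₀ hB0]
    have h8 : hf j / 2 * (64 * (i + 1) * 2 ^ j * q j) = 32 * (i + 1) * q j := by
      have := hf_mul j
      linear_combination (32 * (i + 1) * (q j : ℝ)) * this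
    have h9 : hf j / 2 * (64 * (i + 1) * 2 ^ j * q j) ≤ hf j / 2 * B i := by
      have : (64 : ℝ) * (i + 1) * 2 ^ j * q j ≤ 64 * (i + 1) * 2 ^ i * q i := by gcongr
      gcongr
      linarith
    have h10 : 8 * i * q j * (1 + hf j) ≤ 8 * i * q j * (1 + 1) := by gcongr
    have h11 : (0 : ℝ) ≤ i * q j := by positivity
    nlinarith
  linarith

theorem exp_pow {j i : ℕ} (h : j < i) :
    1 - hf j / 4 ≤ (Real.exp (-3 / q i)) ^ (2 * q j) := by
  have h4 := hf_pos j
  have h6 : (0 : ℝ) < q j := by exact_mod_cast q_pos j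
  have h7 : (0 : ℝ) < q i := by exact_mod_cast q_pos i
  have h8 : (24 : ℝ) * 2 ^ j * q j ≤ q i := by exact_mod_cast q_lt h
  rw [← Real.exp_nat_mul]
  have e : ((2 * q j : ℕ) : ℝ) * (-3 / q i) = -(6 * q j / q i) := by
    push_cast
    ring
  rw [e]
  have h9 : 6 * (q j : ℝ) / q i ≤ hf j / 4 := by
    rw [div_le_iff₀ h7]
    have h10 : hf j / 4 * (24 * 2 ^ j * q j) = 6 * q j := by
      have := hf_mul j
      linear_combination (6 * (q j : ℝ)) * this
    have h11 : hf j / 4 * (24 * 2 ^ j * q j) ≤ hf j / 4 * q i := by gcongr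
    linarith
  have h12 := Real.add_one_le_exp (-(6 * (q j : ℝ) / q i))
  linarith

theorem nu_one {j i : ℕ} (h : j < i) :
    1 ≤ (1 + hf j / 2) * (Real.exp (-3 / q i)) ^ (2 * q j) := by
  have h4 := hf_pos j
  have h5 := hf_le j
  have h6 := exp_pow h
  calc (1 : ℝ) ≤ (1 + hf j / 2) * (1 - hf j / 4) := by nlinarith
    _ ≤ _ := by gcongr

theorem kappa_cond {j i : ℕ} (h : j < i) :
    (Real.exp (-3 / q i)) ^ (q i - 2 * q j) * (2 * (1 + hf i)) ≤ 1 := by
  have h4 := hf_pos i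
  have h5 := hf_le i
  have h6 : (0 : ℝ) < q j := by exact_mod_cast q_pos j
  have h7 : (0 : ℝ) < q i := by exact_mod_cast q_pos i
  have h8 := q_lt' h
  have h8' : (24 : ℝ) * q j ≤ q i := by exact_mod_cast h8
  have h9 : (Real.exp (-3 / q i)) ^ (q i - 2 * q j) ≤ Real.exp (-2) := by
    rw [← Real.exp_nat_mul]
    apply Real.exp_le_exp.2
    rw [Nat.cast_sub (by omega)]
    push_cast
    rw [mul_div_assoc', div_le_iff₀ h7]
    nlinarith
  have h10 : Real.exp (-2) ≤ 1 / 4 := by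
    rw [Real.exp_neg]
    have h11 : (2 : ℝ) ≤ Real.exp 1 := by linarith [Real.add_one_le_exp (1 : ℝ)]
    have h12 : (4 : ℝ) ≤ Real.exp 2 := by
      have : Real.exp 2 = Real.exp 1 * Real.exp 1 := by rw [← Real.exp_add]; norm_num
      rw [this]
      nlinarith
    rw [inv_eq_one_div]
    exact one_div_le_one_div_of_le (by norm_num) h12
  calc (Real.exp (-3 / q i)) ^ (q i - 2 * q j) * (2 * (1 + hf i)) ≤ 1 / 4 * (2 * (1 + 1)) := by
        gcongr
        exact h9.trans h10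
    _ = 1 := by norm_num

theorem kappa_one : 3 / 2 ≤ 2 * (Real.exp (-3 / q 1)) ^ 2 := by
  have e : q 1 = 24 := by simp [q]
  rw [e, ← Real.exp_nat_mul]
  have h1 := Real.add_one_le_exp (((2 : ℕ) : ℝ) * (-3 / ((24 : ℕ) : ℝ)))
  have h2 : ((2 : ℕ) : ℝ) * (-3 / ((24 : ℕ) : ℝ)) = -1 / 4 := by norm_num
  rw [h2] at h1 ⊢
  linarith

theorem kappa_le (j : ℕ) : Real.exp (-3 / q j) ≤ 1 := by
  apply Real.exp_le_one_iff.2
  apply div_nonpos_of_nonpos_of_nonneg (by norm_num) (by positivity)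

theorem kappa_mono {j i : ℕ} (h : j ≤ i) : Real.exp (-3 / q j) ≤ Real.exp (-3 / q i) := by
  have h6 : (0 : ℝ) < q j := by exact_mod_cast q_pos j
  have h7 : (0 : ℝ) < q i := by exact_mod_cast q_pos i
  have hq : (q j : ℝ) ≤ q i := by exact_mod_cast q_mono h
  apply Real.exp_le_exp.2
  rw [neg_div, neg_div, neg_le_neg_iff]
  gcongr

theorem zeta_term (j s : ℕ) : 2 * (2 / (B (j + 1 + s) : ℝ)) ≤ 1 / (4 * (q j : ℝ)) / 2 / 2 ^ s := by
  have h6 : (0 : ℝ) < q j := by exact_mod_cast q_pos j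
  have hB : (64 : ℝ) * 2 ^ (j + 1 + s) * q (j + 1 + s) ≤ B (j + 1 + s) := by
    exact_mod_cast B_ge5 (j + 1 + s)
  have hB0 : (0 : ℝ) < B (j + 1 + s) := by exact_mod_cast B_pos _
  have hq : (q j : ℝ) ≤ q (j + 1 + s) := by exact_mod_cast q_mono (by omega)
  have e : 1 / (4 * (q j : ℝ)) / 2 / 2 ^ s = 1 / (8 * q j * 2 ^ s) := by
    field_simp
    norm_num
  rw [e, ← mul_div_assoc, div_le_div_iff₀ hB0 (by positivity)]
  have h1 : (2 : ℝ) ^ s ≤ 2 ^ (j + 1 + s) := pow_le_pow_right₀ (by norm_num) (by omega)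
  calc 2 * 2 * (8 * (q j : ℝ) * 2 ^ s) ≤ 64 * 2 ^ s * q j := by
        have : 0 ≤ (q j : ℝ) * 2 ^ s := by positivity
        nlinarith
    _ ≤ 64 * 2 ^ (j + 1 + s) * q (j + 1 + s) := by gcongr
    _ ≤ 1 * (B (j + 1 + s) : ℝ) := by rw [one_mul]; exact hB

theorem tsum_geo (a : ℝ) (ha : 0 ≤ a) : ∑' s : ℕ, ENNReal.ofReal (a / 2 / 2 ^ s) = ENNReal.ofReal a := by
  rw [← ENNReal.ofReal_tsum_of_nonneg (fun s => by positivity) (hasSum_geometric_two' a).summable,
    (hasSum_geometric_two' a).tsum_eq]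

/-! ### the parameters in `ℝ≥0` -/

noncomputable def κ (j : ℕ) : ℝ≥0 := ⟨Real.exp (-3 / q j), (Real.exp_pos _).le⟩
noncomputable def u (j : ℕ) : ℝ≥0 := ⟨ur j, (ur_pos j).le⟩
noncomputable def h (j : ℕ) : ℝ≥0 := ⟨hf j, (hf_pos j).le⟩
noncomputable def D (j : ℕ) : ℝ≥0 := ⟨Real.exp (8 * hf j), (Real.exp_pos _).le⟩
noncomputable def η (j : ℕ) : ℝ≥0 := 2 / B j

theorem coe_κ (j : ℕ) : (κ j : ℝ) = Real.exp (-3 / q j) := rfl
theorem coe_u (j : ℕ) : (u j : ℝ) = ur j := rfl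
theorem coe_h (j : ℕ) : (h j : ℝ) = hf j := rfl
theorem coe_D (j : ℕ) : (D j : ℝ) = Real.exp (8 * hf j) := rfl
theorem coe_η (j : ℕ) : (η j : ℝ) = 2 / B j := by unfold η; push_cast; rfl

theorem coe_η' (j : ℕ) : ((η j : ℝ≥0) : ℝ≥0∞) = 2 / (B j : ℝ≥0∞) := by
  unfold η
  rw [ENNReal.coe_div (by exact_mod_cast (B_pos j).ne')]
  norm_cast

end ParC

open ParC in
theorem exists_par : ∃ S : Sys, Nonempty (Par S) := by
  refine ⟨⟨fun j => Hb (B j), fun j => (κ j : ℝ≥0∞), q⟩, ⟨{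
    η := fun j => (η j : ℝ≥0∞)
    σ := fun j => 1 + 1 / (B j : ℝ≥0∞)
    ε := fun j => (η j : ℝ≥0∞)
    σ' := fun j => ((1 + u j : ℝ≥0) : ℝ≥0∞)
    ε' := fun j => (h j : ℝ≥0∞)
    E := fun j => (h j : ℝ≥0∞)
    D := fun j => (D j : ℝ≥0∞)
    ν := fun j => ((1 + h j : ℝ≥0) : ℝ≥0∞)
    ν' := fun j => ((1 + h j / 2 : ℝ≥0) : ℝ≥0∞)
    ζ := fun j => ((1 / (4 * q j) : ℝ≥0) : ℝ≥0∞)
    good := fun j => good_Hb (B j)
    H_sup := fun j _ x => Hb_le_sup (B_pos j) x
    H_l1 := fun j _ x => by rw [coe_η']; exact Hb_le_l1 (B_pos j) x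
    H_split := fun j _ _ _ b a d δ hd => by rw [coe_η']; exact Hb_split (B_pos j) b a d δ hd
    H_ones := fun j => Hb_ones (B_pos j)
    κ_le := ?_
    κ_mono := ?_
    κ_one := ?_
    q_zero := rfl
    q_pos := q_pos
    q_two := ?_
    η_anti := ?_
    ζ_le := ?_
    ζ_pow := ?_
    η_small := ?_
    η_growth := ?_
    ν_one := ?_
    ν_two := ?_
    ν'_one := ?_
    ν_cond := ?_
    κ_cond := ?_
    σ_one := ?_
    σ'_top := ?_
    σ_cond := ?_
    σ'_one := ?_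
    D_one := ?_
    D_top := ?_
    D_cond := ?_
    ε'_anti := ?_
    ε'_top := ?_
    E_cond := ?_
    ε_cond := ?_ }⟩⟩
  · intro j
    have : κ j ≤ 1 := by
      rw [← NNReal.coe_le_coe, coe_κ]; exact kappa_le j
    try dsimp only
    exact_mod_cast this
  · intro j i hji
    have : κ j ≤ κ i := by
      rw [← NNReal.coe_le_coe, coe_κ, coe_κ]; exact kappa_mono hji
    try dsimp only
    exact_mod_cast this
  · have : (3 : ℝ≥0) / 2 ≤ 2 * κ 1 ^ 2 := by
      rw [← NNReal.coe_le_coe]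
      push_cast
      rw [coe_κ]
      exact kappa_one
    have h2 : (((3 : ℝ≥0) / 2 : ℝ≥0) : ℝ≥0∞) ≤ ((2 * κ 1 ^ 2 : ℝ≥0) : ℝ≥0∞) := by
      exact_mod_cast this
    rw [ENNReal.coe_div (by norm_num)] at h2
    push_cast at h2
    exact h2
  · intro j i hji
    have := q_lt' hji
    have := q_pos j
    show 2 * q j ≤ q i
    omega
  · intro j i hji
    have : η i ≤ η j := by
      rw [← NNReal.coe_le_coe, coe_η, coe_η]
      have hB0 : (0 : ℝ) < B j := by exact_mod_cast B_pos _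
      have h2 : (B j : ℝ) ≤ B i := by exact_mod_cast B_mono hji
      gcongr
    try dsimp only
    exact_mod_cast this
  · intro j
    have e : ((1 / (4 * q j) : ℝ≥0) : ℝ≥0∞) = ENNReal.ofReal (1 / (4 * (q j : ℝ))) := by
      rw [← ENNReal.ofReal_coe_nnreal]
      push_cast
      rfl
    show ∑' s, 2 * (η (j + 1 + s) : ℝ≥0∞) ≤ ((1 / (4 * q j) : ℝ≥0) : ℝ≥0∞)
    rw [e, ← tsum_geo _ (by positivity)]
    apply ENNReal.tsum_le_tsum
    intro s
    have h1 : (2 : ℝ≥0∞) * (η (j + 1 + s) : ℝ≥0∞) = ENNReal.ofReal (2 * (2 / (B (j + 1 + s) : ℝ))) := by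
      rw [← coe_η, ENNReal.ofReal_mul (by norm_num), ENNReal.ofReal_coe_nnreal]
      norm_num
    rw [h1]
    exact ENNReal.ofReal_le_ofReal (zeta_term j s)
  · intro j
    have : (1 + 1 / (4 * q j) : ℝ≥0) ^ (2 * q j) ≤ 2 := by
      rw [← NNReal.coe_le_coe]
      push_cast
      exact zeta_pow j
    try dsimp only
    exact_mod_cast this
  · intro j
    have : (16 : ℝ≥0) * q j * (1 + h 0) ^ q j * η j < 1 := by
      rw [← NNReal.coe_lt_coe]
      push_cast
      rw [coe_h, coe_η]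
      have e : (1 + hf 0) = 2 := by norm_num [hf]
      rw [e]
      exact eta_small j
    try dsimp only
    exact_mod_cast this
  · intro j
    have : (4 : ℝ≥0) ^ (j ^ 2) * η j ≤ 1 := by
      rw [← NNReal.coe_le_coe]
      push_cast
      rw [coe_η]
      exact eta_growth j
    try dsimp only
    exact_mod_cast this
  · intro j
    have : (1 : ℝ≥0) ≤ 1 + h j := by simp
    try dsimp only
    exact_mod_cast this
  · intro j
    have : (1 + h j : ℝ≥0) ≤ 2 := by
      rw [← NNReal.coe_le_coe]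
      push_cast
      rw [coe_h]
      linarith [hf_le j]
    try dsimp only
    exact_mod_cast this
  · intro j i hji
    have : (1 : ℝ≥0) ≤ (1 + h j / 2) * κ i ^ (2 * q j) := by
      rw [← NNReal.coe_le_coe]
      push_cast
      rw [coe_h, coe_κ]
      exact nu_one hji
    try dsimp only
    exact_mod_cast this
  · intro j i hji
    have : (1 + h j / 2 : ℝ≥0) + 4 * i * η i * q j * (1 + h j) ≤ 1 + h j := by
      rw [← NNReal.coe_le_coe]
      push_cast
      rw [coe_h, coe_η]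
      exact nu_cond hji
    try dsimp only
    exact_mod_cast this
  · intro j i hji
    have : κ i ^ (q i - 2 * q j) * (2 * (1 + h i)) ≤ 1 := by
      rw [← NNReal.coe_le_coe]
      push_cast
      rw [coe_h, coe_κ]
      exact kappa_cond hji
    try dsimp only
    exact_mod_cast this
  · intro j
    exact le_self_add
  · intro j
    exact ENNReal.coe_ne_top
  · intro j
    have e : (1 + 1 / (B j : ℝ≥0∞)) = ((1 + 1 / (B j : ℝ≥0) : ℝ≥0) : ℝ≥0∞) := by
      rw [ENNReal.coe_add, ENNReal.coe_div (by exact_mod_cast (B_pos j).ne')]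
      norm_cast
    have : (1 + 1 / (B j : ℝ≥0)) * (1 + u (j + 1)) ^ q j ≤ 1 + u j := by
      rw [← NNReal.coe_le_coe]
      push_cast
      rw [coe_u, coe_u]
      exact sigma_cond j
    show (1 + 1 / (B j : ℝ≥0∞)) * ((1 + u (j + 1) : ℝ≥0) : ℝ≥0∞) ^ q j ≤ ((1 + u j : ℝ≥0) : ℝ≥0∞)
    rw [e]
    try dsimp only
    exact_mod_cast this
  · intro j
    have : (1 : ℝ≥0) ≤ 1 + u j := by simp
    try dsimp only
    exact_mod_cast this
  · intro j
    have : (1 : ℝ≥0) ≤ D j := by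
      rw [← NNReal.coe_le_coe]
      push_cast
      rw [coe_D]
      have := hf_pos j
      exact Real.one_le_exp (by positivity)
    try dsimp only
    exact_mod_cast this
  · intro j
    exact ENNReal.coe_ne_top
  · intro j
    have : D (j + 1) * (1 + h j) * (1 + u (j + 1)) ^ q j ≤ D j := by
      rw [← NNReal.coe_le_coe]
      push_cast
      rw [coe_u, coe_h, coe_D, coe_D]
      exact D_cond j
    try dsimp only
    exact_mod_cast this
  · intro j i hji
    have : h i ≤ h j := by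
      rw [← NNReal.coe_le_coe, coe_h, coe_h]
      unfold hf
      exact pow_le_pow_of_le_one (by norm_num) (by norm_num) hji
    try dsimp only
    exact_mod_cast this
  · intro j
    exact ENNReal.coe_ne_top
  · intro j
    have e : (h j : ℝ≥0∞) = ENNReal.ofReal (hf j) := by
      rw [← coe_h, ENNReal.ofReal_coe_nnreal]
    show ∑' s, (h (j + 1 + s) : ℝ≥0∞) ≤ (h j : ℝ≥0∞)
    rw [e, ← tsum_geo _ (hf_pos j).le]
    apply ENNReal.tsum_le_tsum
    intro s
    rw [← ENNReal.ofReal_coe_nnreal, coe_h]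
    apply ENNReal.ofReal_le_ofReal
    apply le_of_eq
    unfold hf
    rw [pow_add, pow_add]
    simp only [one_div, inv_pow, pow_one]
    ring
  · intro j
    have : (1 + h j) * ((1 + u (j + 1)) ^ q j * (η j + 2 * q j * η j * h j)) ≤ h j := by
      rw [← NNReal.coe_le_coe]
      push_cast
      rw [coe_u, coe_h, coe_η]
      exact eps_cond j
    try dsimp only
    exact_mod_cast this

end DHsp
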