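import Pool.Agent.Helper13.DH.Upper
import Pool.Agent.Helper13.DH.Low
import Pool.Agent.Helper13.DH.Grow
import Pool.Agent.Helper13.DH.Param

/-!
# MP_6ad661_an : the functional part, assembled
-/

open scoped ENNReal NNReal
open Function

namespace DHsp

theorem exists_functional : ∃ Φ : SFun, NormF Φ ∧ UpperEst Φ ∧ LowerEst Φ ∧
    (∀ M : ℕ, ∃ n : ℕ, (M : ℝ≥0∞) ≤ Φ (Fin n) (fun _ => 1)) ∧
    (∀ k M : ℕ, ∃ n₀ : ℕ, ∀ n ≥ n₀, (M : ℝ≥0∞) * Φ (Fin n) (fun _ => 1) ^ k ≤ n) := by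
  obtain ⟨S, ⟨p⟩⟩ := exists_par
  exact ⟨S.NN, normF_NN p, upper p, lower p, growA p, growB p⟩

end DHsp
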