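import Pool.Agent.Helper13.DH.Basic

/-!
# MP_6ad661_an, block DH-B : all functionals are `Good`
-/

open scoped ENNReal NNReal
open Function

namespace DHsp

namespace Good

variable {Φ : SFun}

theorem le (h : Good Φ) {ι : Type} {x y : ι → ℝ≥0∞} (hxy : ∀ i, x i ≤ y i) : Φ ι x ≤ Φ ι y :=
  h.mono id (Set.injOn_id _) hxy

theorem zero (h : Good Φ) {ι : Type} : Φ ι (fun _ => 0) = 0 := by
  have := h.smul_le (c := 0) (fun _ : ι => (0 : ℝ≥0∞)) (by simp)
  simpa using this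

theorem eq_zero (h : Good Φ) {ι : Type} {x : ι → ℝ≥0∞} (hx : ∀ i, x i = 0) : Φ ι x = 0 := by
  have : x = fun _ => 0 := funext hx
  rw [this, h.zero]

theorem smul (h : Good Φ) {ι : Type} {c : ℝ≥0∞} (x : ι → ℝ≥0∞) (hc : c ≠ ⊤) :
    Φ ι (fun i => c * x i) = c * Φ ι x := by
  rcases eq_or_ne c 0 with rfl | h0
  · simp [h.zero]
  apply le_antisymm (h.smul_le x hc)
  have h1 : Φ ι x ≤ c⁻¹ * Φ ι (fun i => c * x i) := by
    have := h.smul_le (c := c⁻¹) (fun i => c * x i) (ENNReal.inv_ne_top.2 h0)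
    refine le_trans (le_of_eq ?_) this
    congr 1
    funext i
    rw [← mul_assoc, ENNReal.inv_mul_cancel h0 hc, one_mul]
  calc c * Φ ι x ≤ c * (c⁻¹ * Φ ι (fun i => c * x i)) := by gcongr
    _ = Φ ι (fun i => c * x i) := by rw [← mul_assoc, ENNReal.mul_inv_cancel h0 hc, one_mul]

theorem le_add (h : Good Φ) {ι : Type} {x y z : ι → ℝ≥0∞} (hx : ∀ i, x i ≤ y i + z i) :
    Φ ι x ≤ Φ ι y + Φ ι z := (h.le hx).trans (h.add y z)

theorem le_mul (h : Good Φ) {ι : Type} {x y : ι → ℝ≥0∞} {c : ℝ≥0∞} (hc : c ≠ ⊤)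
    (hx : ∀ i, x i ≤ c * y i) : Φ ι x ≤ c * Φ ι y := (h.le hx).trans (h.smul_le y hc)

/-- Domination together with a scalar factor. -/
theorem mono_mul (h : Good Φ) {ι κ : Type} {x : ι → ℝ≥0∞} {y : κ → ℝ≥0∞} {c : ℝ≥0∞} (hc : c ≠ ⊤)
    (f : ι → κ) (hf : Set.InjOn f {i | x i ≠ 0}) (hx : ∀ i, x i ≤ c * y (f i)) :
    Φ ι x ≤ c * Φ κ y :=
  (h.mono (y := fun k => c * y k) f hf hx).trans (h.smul_le y hc)

theorem sum (h : Good Φ) {ι α : Type} (s : Finset α) (x : α → ι → ℝ≥0∞) :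
    Φ ι (fun i => ∑ a ∈ s, x a i) ≤ ∑ a ∈ s, Φ ι (x a) := by
  classical
  induction s using Finset.induction_on with
  | empty => simp [h.zero]
  | insert a s ha ih =>
    simp only [Finset.sum_insert ha]
    exact (h.add _ _).trans (by gcongr)

theorem congr_equiv (h : Good Φ) {ι κ : Type} (e : ι ≃ κ) (y : κ → ℝ≥0∞) :
    Φ ι (fun i => y (e i)) = Φ κ y := by
  apply le_antisymm
  · exact h.mono e e.injective.injOn fun i => le_rfl
  · exact h.mono e.symm e.symm.injective.injOn fun i => by simp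

/-- Countable subadditivity. -/
theorem tsum_le (h : Good Φ) {ι : Type} (x : ℕ → ι → ℝ≥0∞) :
    Φ ι (fun i => ∑' n, x n i) ≤ ∑' n, Φ ι (x n) := by
  have h1 : (fun i => ∑' n, x n i) = fun i => ⨆ n, ∑ a ∈ Finset.range n, x a i := by
    funext i
    rw [ENNReal.tsum_eq_iSup_nat]
  rw [h1]
  refine (h.cont (fun n i => ∑ a ∈ Finset.range n, x a i) ?_).trans ?_
  · intro m n hmn i
    exact Finset.sum_le_sum_of_subset (Finset.range_mono hmn)
  · refine iSup_le fun n => (h.sum _ _).trans ?_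
    exact ENNReal.sum_le_tsum _

theorem iSup {α : Sort*} {Φ : α → SFun} (h : ∀ a, Good (Φ a)) : Good (fun ι x => ⨆ a, Φ a ι x) where
  mono := fun f hf hx => iSup_mono fun a => (h a).mono f hf hx
  add := fun x y => by
    refine iSup_le fun a => ((h a).add x y).trans ?_
    gcongr
    · exact le_iSup (fun a => Φ a _ x) a
    · exact le_iSup (fun a => Φ a _ y) a
  smul_le := fun x hc => by
    refine iSup_le fun a => ((h a).smul_le x hc).trans ?_
    gcongr
    exact le_iSup (fun a => Φ a _ x) a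
  cont := fun x hx => by
    refine iSup_le fun a => ((h a).cont x hx).trans ?_
    exact iSup_mono fun n => le_iSup (fun a => Φ a _ (x n)) a

theorem const_mul {Φ : SFun} (h : Good Φ) (c : ℝ≥0∞) : Good (fun ι x => c * Φ ι x) where
  mono := fun f hf hx => by gcongr; exact h.mono f hf hx
  add := fun x y => by
    rw [← mul_add]
    gcongr
    exact h.add x y
  smul_le := fun {ι} {c'} x hc => by
    calc c * Φ ι (fun i => c' * x i) ≤ c * (c' * Φ ι x) := by gcongr; exact h.smul_le x hc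
      _ = c' * (c * Φ ι x) := by ring
  cont := fun x hx => by
    rw [← ENNReal.mul_iSup]
    gcongr
    exact h.cont x hx

theorem max {Φ Ψ : SFun} (h : Good Φ) (h' : Good Ψ) : Good (fun ι x => max (Φ ι x) (Ψ ι x)) where
  mono := fun f hf hx => max_le_max (h.mono f hf hx) (h'.mono f hf hx)
  add := fun x y => by
    apply max_le
    · exact (h.add x y).trans (by gcongr <;> exact le_max_left _ _)
    · exact (h'.add x y).trans (by gcongr <;> exact le_max_right _ _)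
  smul_le := fun x hc => by
    apply max_le
    · exact (h.smul_le x hc).trans (by gcongr; exact le_max_left _ _)
    · exact (h'.smul_le x hc).trans (by gcongr; exact le_max_right _ _)
  cont := fun x hx => by
    apply max_le
    · exact (h.cont x hx).trans (iSup_mono fun n => le_max_left _ _)
    · exact (h'.cont x hx).trans (iSup_mono fun n => le_max_right _ _)

end Good

theorem good_zero : Good (fun _ _ => 0) where
  mono := fun _ _ _ => le_rfl
  add := fun _ _ => by simp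
  smul_le := fun _ _ => by simp
  cont := fun _ _ => by simp

theorem good_sup : Good (fun _ x => ⨆ i, x i) where
  mono := fun {ι κ x y} f hf hx => iSup_le fun i => (hx i).trans (le_iSup y (f i))
  add := fun x y => iSup_le fun i => add_le_add (le_iSup x i) (le_iSup y i)
  smul_le := fun x hc => by rw [ENNReal.mul_iSup]
  cont := fun x hx => by rw [iSup_comm]

section

variable {Q : ℕ × ℕ → SFun} {ι κ : Type}

theorem Tv_injOn (hQ : ∀ J, Good (Q J)) (F : Set (ℕ × ℕ)) {x : ι → ℝ≥0∞} {f : ι → κ}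
    (hf : Set.InjOn f {i | x i ≠ 0}) : Set.InjOn (Sum.map f id) {u | Tv Q F x u ≠ 0} := by
  rintro (i | J) hi (i' | J') hi' h
  · simp only [Sum.map_inl, Sum.inl.injEq] at h
    exact congrArg _ (hf hi hi' h)
  · simp at h
  · simp at h
  · simpa using h

theorem Tv_dom (hQ : ∀ J, Good (Q J)) (F : Set (ℕ × ℕ)) {x : ι → ℝ≥0∞} {y : κ → ℝ≥0∞}
    {f : ι → κ} (hf : Set.InjOn f {i | x i ≠ 0}) (hx : ∀ i, x i ≤ y (f i)) (u : ι ⊕ (ℕ × ℕ)) :
    Tv Q F x u ≤ Tv Q F y (Sum.map f id u) := by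
  rcases u with i | J
  · exact hx i
  · simp only [Tv, Sum.elim_inr, Sum.map_inr, id_eq]
    split_ifs
    · exact (hQ J).mono f hf hx
    · exact le_rfl

theorem Tv_add (hQ : ∀ J, Good (Q J)) (F : Set (ℕ × ℕ)) (x y : ι → ℝ≥0∞) (u : ι ⊕ (ℕ × ℕ)) :
    Tv Q F (fun i => x i + y i) u ≤ Tv Q F x u + Tv Q F y u := by
  rcases u with i | J
  · exact le_rfl
  · simp only [Tv, Sum.elim_inr]
    split_ifs
    · exact (hQ J).add x y
    · simp

theorem Tv_smul (hQ : ∀ J, Good (Q J)) (F : Set (ℕ × ℕ)) {c : ℝ≥0∞} (hc : c ≠ ⊤) (x : ι → ℝ≥0∞)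
    (u : ι ⊕ (ℕ × ℕ)) : Tv Q F (fun i => c * x i) u ≤ c * Tv Q F x u := by
  rcases u with i | J
  · exact le_rfl
  · simp only [Tv, Sum.elim_inr]
    split_ifs
    · exact (hQ J).smul_le x hc
    · simp

theorem Tv_mono (hQ : ∀ J, Good (Q J)) (F : Set (ℕ × ℕ)) {x y : ι → ℝ≥0∞}
    (hx : ∀ i, x i ≤ y i) (u : ι ⊕ (ℕ × ℕ)) : Tv Q F x u ≤ Tv Q F y u := by
  rcases u with i | J
  · exact hx i
  · simp only [Tv, Sum.elim_inr]
    split_ifs
    · exact (hQ J).le hx
    · exact le_rfl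

theorem good_Tr (hQ : ∀ J, Good (Q J)) (j R : ℕ) {Φ : SFun} (h : Good Φ) : Good (Tr Q j R Φ) where
  mono := fun f hf hx => by
    simp only [Tr_apply]
    exact iSup₂_mono fun F _ => h.mono (Sum.map f id) (Tv_injOn hQ F hf) (Tv_dom hQ F hf hx)
  add := fun {ι} x y => by
    simp only [Tr_apply]
    refine iSup₂_le fun F hF => (h.le_add (Tv_add hQ F x y)).trans ?_
    gcongr
    · exact le_iSup₂_of_le (f := fun F (_ : F ∈ Fam j R) => Φ _ (Tv Q F x)) F hF le_rfl
    · exact le_iSup₂_of_le (f := fun F (_ : F ∈ Fam j R) => Φ _ (Tv Q F y)) F hF le_rfl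
  smul_le := fun {ι c} x hc => by
    simp only [Tr_apply]
    refine iSup₂_le fun F hF => (h.le_mul hc (Tv_smul hQ F hc x)).trans ?_
    gcongr
    exact le_iSup₂_of_le (f := fun F (_ : F ∈ Fam j R) => Φ _ (Tv Q F x)) F hF le_rfl
  cont := fun {ι} x hx => by
    simp only [Tr_apply]
    refine iSup₂_le fun F hF => ?_
    have h1 : ∀ u, Tv Q F (fun i => ⨆ n, x n i) u ≤ ⨆ n, Tv Q F (x n) u := by
      rintro (i | J)
      · exact le_rfl
      · simp only [Tv, Sum.elim_inr]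
        split_ifs
        · exact (hQ J).cont x hx
        · simp
    refine (h.le h1).trans ((h.cont (fun n => Tv Q F (x n)) ?_).trans ?_)
    · intro m n hmn u
      exact Tv_mono hQ F (hx hmn) u
    · exact iSup_mono fun n =>
        le_iSup₂_of_le (f := fun F (_ : F ∈ Fam j R) => Φ _ (Tv Q F (x n))) F hF le_rfl

theorem good_Tr_iter (hQ : ∀ J, Good (Q J)) (j R : ℕ) {Φ : SFun} (h : Good Φ) (r : ℕ) :
    Good ((Tr Q j R)^[r] Φ) := by
  induction r with
  | zero => exact h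
  | succ r ih => rw [iterate_succ_apply']; exact good_Tr hQ j R ih

end

variable {S : Sys}

theorem good_PP (p : Par S) {Q : ℕ × ℕ → SFun} (hQ : ∀ J, Good (Q J)) (i R : ℕ) :
    Good (S.PP Q i R) :=
  Good.iSup fun r => Good.iSup fun _ => Good.const_mul (good_Tr_iter hQ i R (p.good i) r) _

theorem good_Qf (p : Par S) : ∀ (n : ℕ) (J : ℕ × ℕ), Good (S.Qf n J) := by
  intro n
  induction n with
  | zero => exact fun J => good_zero
  | succ n ih => exact fun J => Good.iSup fun i => Good.iSup fun _ => good_PP p ih i J.2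

theorem good_Q (p : Par S) (J : ℕ × ℕ) : Good (S.Q J) := good_Qf p J.2 J

theorem good_P (p : Par S) (i R : ℕ) : Good (S.P i R) := good_PP p (good_Q p) i R

theorem good_TT (p : Par S) (j R : ℕ) {Φ : SFun} (h : Good Φ) : Good (S.TT j R Φ) :=
  good_Tr (good_Q p) j R h

theorem good_TT_iter (p : Par S) (j R : ℕ) {Φ : SFun} (h : Good Φ) (r : ℕ) :
    Good ((S.TT j R)^[r] Φ) := good_Tr_iter (good_Q p) j R h r

theorem good_N (p : Par S) (j R : ℕ) : Good (S.N j R) := Good.max good_sup (good_Q p (j, R))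

theorem good_NN (p : Par S) : Good S.NN := Good.iSup fun R => good_N p 1 R

section

variable {ι κ : Type}

theorem T_injOn (p : Par S) (F : Set (ℕ × ℕ)) {x : ι → ℝ≥0∞} {f : ι → κ}
    (hf : Set.InjOn f {i | x i ≠ 0}) : Set.InjOn (Sum.map f id) {u | S.T F x u ≠ 0} :=
  Tv_injOn (good_Q p) F hf

theorem T_dom (p : Par S) (F : Set (ℕ × ℕ)) {x : ι → ℝ≥0∞} {y : κ → ℝ≥0∞}
    {f : ι → κ} (hf : Set.InjOn f {i | x i ≠ 0}) (hx : ∀ i, x i ≤ y (f i)) (u : ι ⊕ (ℕ × ℕ)) :
    S.T F x u ≤ S.T F y (Sum.map f id u) := Tv_dom (good_Q p) F hf hx u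

theorem T_mono (p : Par S) (F : Set (ℕ × ℕ)) {x y : ι → ℝ≥0∞}
    (hx : ∀ i, x i ≤ y i) (u : ι ⊕ (ℕ × ℕ)) : S.T F x u ≤ S.T F y u := Tv_mono (good_Q p) F hx u

/-- `Φ ≤ 𝒯Φ`. -/
theorem le_TT_self (p : Par S) (j R : ℕ) {Φ : SFun} (h : Good Φ) (x : ι → ℝ≥0∞) :
    Φ ι x ≤ S.TT j R Φ ι x := by
  refine le_trans ?_ (S.le_TT (Fam_empty j R) Φ x)
  exact h.mono Sum.inl Sum.inl_injective.injOn fun i => le_rfl

end

end DHsp
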