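import Pool.Agent.Helper13.DH.Mon

/-!
# MP_6ad661_an, block DH-C : the `ℓ¹` bounds

Strong induction on `R - j`.  Suppose `Q_l1` holds for all `(s,t)` with `j < s < t ≤ R`.  For
`F ∈ Fam j R` the members of `F` have different first entries `s > j` (`Fam_fst_inj`), so
`∑_{J ∈ F} Q J x ≤ ∑_{s > j} 2 η_s |x|_1 ≤ ζ_j |x|_1`, that is `|T_F x|_1 ≤ (1+ζ_j)|x|_1`.
By induction on `r`: `𝒯^r H_j x ≤ η_j (1+ζ_j)^r |x|_1` (all `r`), hence `≤ 2 η_j |x|_1` for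
`r ≤ 2 q_j` by `ζ_pow`.  So `P j R x ≤ 2 η_j |x|_1` (`κ ≤ 1`, `q_j ≤ 2 q_j`), and
`Q (j,R) = max_{j ≤ i < R} P i R x ≤ 2 η_j |x|_1` because `η` is antitone.
-/

open scoped ENNReal NNReal
open Function

namespace DHsp

variable {S : Sys}

/-- The `ℓ¹` bound for `T_F x`, from the `ℓ¹` bounds for the functionals `Q (s,t)`. -/
theorem T_l1_aux (p : Par S) {j R : ℕ}
    (IH : ∀ s t, j < s → s < t → t ≤ R → ∀ (ι : Type) (x : ι → ℝ≥0∞),
      S.Q (s, t) ι x ≤ 2 * p.η s * ∑' i, x i)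
    {F : Set (ℕ × ℕ)} (hF : F ∈ Fam j R) {ι : Type} (x : ι → ℝ≥0∞) :
    ∑' u, S.T F x u ≤ (1 + p.ζ j) * ∑' i, x i := by
  classical
  have h1 : ∑' u, S.T F x u = (∑' i, S.T F x (Sum.inl i)) + ∑' J, S.T F x (Sum.inr J) := by
    apply HasSum.tsum_eq
    exact HasSum.sum (f := S.T F x) ENNReal.summable.hasSum ENNReal.summable.hasSum
  rw [h1, add_mul, one_mul]
  gcongr ?_ + ?_
  · exact le_rfl
  have h2 : ∑' J, S.T F x (Sum.inr J) = ∑' J : F, S.Q J ι x := by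
    rw [tsum_subtype F (fun J => S.Q J ι x)]
    refine tsum_congr fun J => ?_
    by_cases hJ : J ∈ F
    · rw [S.T_inr_mem x hJ, Set.indicator_of_mem hJ]
    · rw [S.T_inr_not_mem x hJ, Set.indicator_of_notMem hJ]
  rw [h2]
  let g : F → ℕ := fun J => J.1.1 - (j + 1)
  have hg : Injective g := by
    intro J J' h
    have h3 := hF.1 J.1 J.2
    have h4 := hF.1 J'.1 J'.2
    have h5 : J.1.1 = J'.1.1 := by
      have h6 : J.1.1 - (j + 1) = J'.1.1 - (j + 1) := h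
      omega
    exact Subtype.ext (Fam_fst_inj hF J.2 J'.2 h5)
  calc ∑' J : F, S.Q J ι x ≤ ∑' J : F, 2 * p.η (j + 1 + g J) * ∑' i, x i := by
        refine ENNReal.tsum_le_tsum fun J => ?_
        have h3 := hF.1 J.1 J.2
        have h4 : j + 1 + g J = J.1.1 := by
          show j + 1 + (J.1.1 - (j + 1)) = J.1.1
          omega
        rw [h4]
        exact IH J.1.1 J.1.2 h3.1 h3.2.1 h3.2.2 ι x
    _ ≤ ∑' s : ℕ, 2 * p.η (j + 1 + s) * ∑' i, x i :=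
        ENNReal.tsum_comp_le_tsum_of_injective hg fun s => 2 * p.η (j + 1 + s) * ∑' i, x i
    _ = (∑' s : ℕ, 2 * p.η (j + 1 + s)) * ∑' i, x i := ENNReal.tsum_mul_right
    _ ≤ p.ζ j * ∑' i, x i := by
        gcongr
        exact p.ζ_le j

theorem TT_l1_aux (p : Par S) {j R : ℕ}
    (IH : ∀ s t, j < s → s < t → t ≤ R → ∀ (ι : Type) (x : ι → ℝ≥0∞),
      S.Q (s, t) ι x ≤ 2 * p.η s * ∑' i, x i) (r : ℕ) (ι : Type) (x : ι → ℝ≥0∞) :
    ((S.TT j R)^[r] (S.H j)) ι x ≤ p.η j * (1 + p.ζ j) ^ r * ∑' i, x i := by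
  induction r generalizing ι x with
  | zero => simpa using p.H_l1 j x
  | succ r ih =>
    rw [S.TT_iter]
    refine iSup₂_le fun F hF => (ih _ _).trans ?_
    calc p.η j * (1 + p.ζ j) ^ r * ∑' u, S.T F x u
        ≤ p.η j * (1 + p.ζ j) ^ r * ((1 + p.ζ j) * ∑' i, x i) := by
          gcongr
          exact T_l1_aux p IH hF x
      _ = p.η j * (1 + p.ζ j) ^ (r + 1) * ∑' i, x i := by ring

theorem TT_l1_aux' (p : Par S) {j R : ℕ}
    (IH : ∀ s t, j < s → s < t → t ≤ R → ∀ (ι : Type) (x : ι → ℝ≥0∞),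
      S.Q (s, t) ι x ≤ 2 * p.η s * ∑' i, x i) {r : ℕ} (hr : r ≤ 2 * S.q j) (ι : Type)
    (x : ι → ℝ≥0∞) :
    ((S.TT j R)^[r] (S.H j)) ι x ≤ 2 * p.η j * ∑' i, x i := by
  refine (TT_l1_aux p IH r ι x).trans ?_
  have h1 : (1 + p.ζ j) ^ r ≤ 2 :=
    (pow_le_pow_right₀ (by simp) hr).trans (p.ζ_pow j)
  calc p.η j * (1 + p.ζ j) ^ r * ∑' i, x i ≤ p.η j * 2 * ∑' i, x i := by gcongr
    _ = 2 * p.η j * ∑' i, x i := by ring

theorem Q_l1_aux (p : Par S) (n : ℕ) : ∀ j R : ℕ, R - j ≤ n → ∀ (ι : Type) (x : ι → ℝ≥0∞),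
    S.Q (j, R) ι x ≤ 2 * p.η j * ∑' i, x i := by
  induction n with
  | zero =>
    intro j R h ι x
    rw [S.Q_self (by omega)]
    exact bot_le
  | succ n ih =>
    intro j R h ι x
    apply S.Q_le
    intro i hi hR
    apply S.P_le
    intro r hr
    have h1 : S.κ i ^ (r + 1) ≤ 1 := pow_le_one₀ bot_le (p.κ_le i)
    calc S.κ i ^ (r + 1) * ((S.TT i R)^[r] (S.H i)) ι x
        ≤ 1 * ((S.TT i R)^[r] (S.H i)) ι x := by gcongr
      _ = ((S.TT i R)^[r] (S.H i)) ι x := one_mul _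
      _ ≤ 2 * p.η i * ∑' i, x i := by
          apply TT_l1_aux' p _ (by omega) ι x
          intro s t hs hst ht
          exact ih s t (by omega)
      _ ≤ 2 * p.η j * ∑' i, x i := by
          gcongr
          exact p.η_anti hi

theorem Q_l1 (p : Par S) (j R : ℕ) {ι : Type} (x : ι → ℝ≥0∞) :
    S.Q (j, R) ι x ≤ 2 * p.η j * ∑' i, x i :=
  Q_l1_aux p (R - j) j R le_rfl ι x

theorem T_l1 (p : Par S) {j R : ℕ} {F : Set (ℕ × ℕ)} (hF : F ∈ Fam j R) {ι : Type}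
    (x : ι → ℝ≥0∞) : ∑' u, S.T F x u ≤ (1 + p.ζ j) * ∑' i, x i :=
  T_l1_aux p (fun s t _ _ _ _ x => Q_l1 p s t x) hF x

theorem TT_l1 (p : Par S) {j R r : ℕ} (hr : r ≤ 2 * S.q j) {ι : Type} (x : ι → ℝ≥0∞) :
    ((S.TT j R)^[r] (S.H j)) ι x ≤ 2 * p.η j * ∑' i, x i :=
  TT_l1_aux' p (fun s t _ _ _ _ x => Q_l1 p s t x) hr ι x

end DHsp
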