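import Pool.Agent.Helper13.DH.Lem2

/-!
# MP_6ad661_an, block DH-M : the lower estimate, easy cases

`hasLower_comp`: compose the subsequences.

`hasLower_of_sup`: choose `i_n` with `v n i_n > c/2`... (e.g. `lt_iSup_iff` with `c/2 < c ≤ sup`;
for `c = ⊤` first replace `c` by `1`).  With `φ = id`, constant `c/2`: `(c/2) a` on `ℕ` is dominated
by `a∘v` on `ℕ × I` through `m ↦ (m, i_m)`; homogeneity of `NN` (`good_NN`).

`lowerA`: `j_n → ∞`.  Choose `φ` strictly increasing with `R (φ m) ≤ j (φ (m+1))` (recursion), so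
that `R (φ m) ≤ j (φ m')` for `m < m'`.  For `a` with finite support `A`:
`F = {(j (φ m), R (φ m)) : m ∈ A} ∈ Fam 0 R₀` for `R₀ = max R (φ m)`.  Then
`NN (T_F (a∘v)) ≤ ν_0 NN (a∘v)` (`NN_T`), and `c a` on `ℕ` is dominated by `T_F (a∘v)` via
`m ↦ inr (j (φ m), R (φ m))` (injective), because
`Q J (a∘v) ≥ Q J (a_m v (φ m)) = a_m Q J (v (φ m)) ≥ c a_m` (domination by `i ↦ (m,i)`,
homogeneity, `a_m ≠ ⊤`).  So `c NN a = NN (c a) ≤ ν_0 NN (a∘v)`; the constant is `c/ν_0` (if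
`c = ⊤` replace `c` by `1`).
-/

open scoped ENNReal NNReal
open Function Filter

namespace DHsp

variable {S : Sys}

theorem hasLower_comp {Φ : SFun} {I : Type} {v : ℕ → I → ℝ≥0∞} {φ : ℕ → ℕ} (hφ : StrictMono φ)
    (h : HasLower Φ (fun n => v (φ n))) : HasLower Φ v := by
  obtain ⟨c, hc, ψ, hψ, h⟩ := h
  exact ⟨c, hc, φ ∘ ψ, hφ.comp hψ, h⟩

theorem hasLower_of_sup (p : Par S) {I : Type} (v : ℕ → I → ℝ≥0∞) {c : ℝ≥0∞} (hc : c ≠ 0)
    (h : ∀ n, c ≤ ⨆ i, v n i) : HasLower S.NN v := by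
  have hc0 : min c 1 ≠ 0 := by
    rcases min_choice c 1 with h1 | h1 <;> rw [h1]
    · exact hc
    · exact one_ne_zero
  have hct : min c 1 ≠ ⊤ := ne_top_of_le_ne_top ENNReal.one_ne_top (min_le_right _ _)
  have hlt : min c 1 / 2 < min c 1 := ENNReal.half_lt_self hc0 hct
  have hex : ∀ n, ∃ i, min c 1 / 2 < v n i := fun n =>
    lt_iSup_iff.1 (hlt.trans_le ((min_le_left _ _).trans (h n)))
  choose i hi using hex
  refine ⟨min c 1 / 2, (ENNReal.half_pos hc0).ne', id, strictMono_id, fun a ha _ => ?_⟩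
  have hdt : min c 1 / 2 ≠ ⊤ := ne_top_of_lt hlt
  rw [← (good_NN p).smul a hdt]
  refine (good_NN p).mono (fun m => (m, i m)) ?_ ?_
  · intro m _ m' _ hmm
    exact congrArg Prod.fst hmm
  · intro m
    simp only [id]
    rw [mul_comm]
    gcongr
    exact (hi m).le

/-- Only infinitely many `n` are needed. -/
theorem hasLower_of_sup' (p : Par S) {I : Type} (v : ℕ → I → ℝ≥0∞) {c : ℝ≥0∞} (hc : c ≠ 0)
    (h : ∀ n, ∃ m ≥ n, c ≤ ⨆ i, v m i) : HasLower S.NN v := by
  have h' : ∀ N, ∃ n > N, c ≤ ⨆ i, v n i := fun N => by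
    obtain ⟨m, hm, h1⟩ := h (N + 1)
    exact ⟨m, by omega, h1⟩
  obtain ⟨φ, hφ, hP⟩ := Nat.exists_strictMono_subsequence h'
  exact hasLower_comp hφ (hasLower_of_sup p (fun n => v (φ n)) hc hP)

theorem lowerA (p : Par S) {I : Type} (v : ℕ → I → ℝ≥0∞) (j R : ℕ → ℕ) {c : ℝ≥0∞} (hc : c ≠ 0)
    (hj : ∀ M, ∃ n₀, ∀ n ≥ n₀, M ≤ j n) (hjR : ∀ n, 1 ≤ j n ∧ j n < R n)
    (hv : ∀ n, c ≤ S.Q (j n, R n) I (v n)) : HasLower S.NN v := by
  choose n₀ hn₀ using hj
  let φ : ℕ → ℕ := fun m => Nat.rec 0 (fun _ k => max (k + 1) (n₀ (R k))) m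
  have hφs : ∀ m, φ (m + 1) = max (φ m + 1) (n₀ (R (φ m))) := fun m => rfl
  have hφm : StrictMono φ := strictMono_nat_of_lt_succ fun m => by
    rw [hφs]
    exact lt_of_lt_of_le (Nat.lt_succ_self _) (le_max_left _ _)
  have hstep : ∀ m, R (φ m) ≤ j (φ (m + 1)) := fun m => by
    apply hn₀
    rw [hφs]
    exact le_max_right _ _
  have hsep : ∀ m m', m < m' → R (φ m) ≤ j (φ m') := by
    intro m m' hmm
    induction m' with
    | zero => omega
    | succ k ih =>
      rcases Nat.lt_succ_iff_lt_or_eq.1 hmm with h1 | h1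
      · exact (ih h1).trans ((hjR (φ k)).2.le.trans (hstep k))
      · rw [h1]
        exact hstep k
  have hc0 : min c 1 ≠ 0 := by
    rcases min_choice c 1 with h1 | h1 <;> rw [h1]
    · exact hc
    · exact one_ne_zero
  have hct : min c 1 ≠ ⊤ := ne_top_of_le_ne_top ENNReal.one_ne_top (min_le_right _ _)
  refine ⟨min c 1 / 2, (ENNReal.half_pos hc0).ne', φ, hφm, fun a ha hfin => ?_⟩
  set w : ℕ × I → ℝ≥0∞ := fun u => a u.1 * v (φ u.1) u.2 with hw
  set A : Finset ℕ := hfin.toFinset with hA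
  set F : Set (ℕ × ℕ) := (fun m => (j (φ m), R (φ m))) '' (A : Set ℕ) with hF
  have hFam : F ∈ Fam 0 (A.sup fun m => R (φ m)) := by
    refine ⟨?_, ?_⟩
    · rintro J ⟨m, hm, rfl⟩
      exact ⟨(hjR (φ m)).1, (hjR (φ m)).2, Finset.le_sup (f := fun m => R (φ m)) hm⟩
    · rintro J ⟨m, hm, rfl⟩ J' ⟨m', hm', rfl⟩ hne
      rcases lt_trichotomy m m' with h1 | h1 | h1
      · exact Or.inl (hsep m m' h1)
      · exact absurd (by rw [h1]) hne
      · exact Or.inr (hsep m' m h1)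
  have h1 : min c 1 * S.NN ℕ a ≤ S.NN _ (S.T F w) := by
    rw [← (good_NN p).smul a hct]
    refine (good_NN p).mono (fun m => Sum.inr (j (φ m), R (φ m))) ?_ ?_
    · intro m _ m' _ hmm
      simp only [Sum.inr.injEq, Prod.mk.injEq] at hmm
      rcases lt_trichotomy m m' with h2 | h2 | h2
      · have := hsep m m' h2
        have := (hjR (φ m)).2
        omega
      · exact h2
      · have := hsep m' m h2
        have := (hjR (φ m')).2
        omega
    · intro m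
      rcases eq_or_ne (a m) 0 with h0 | h0
      · rw [h0, mul_zero]
        exact zero_le
      · have hmF : (j (φ m), R (φ m)) ∈ F := ⟨m, by simpa [hA] using h0, rfl⟩
        rw [S.T_inr_mem w hmF]
        have h2 : a m * S.Q (j (φ m), R (φ m)) I (v (φ m)) ≤ S.Q (j (φ m), R (φ m)) (ℕ × I) w := by
          rw [← (good_Q p (j (φ m), R (φ m))).smul (v (φ m)) (ha m)]
          refine (good_Q p (j (φ m), R (φ m))).mono (fun i => (m, i)) ?_ ?_
          · intro i _ i' _ hii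
            exact congrArg Prod.snd hii
          · intro i
            exact le_rfl
        refine le_trans ?_ h2
        rw [mul_comm]
        gcongr
        exact (min_le_left _ _).trans (hv (φ m))
  have h2 : min c 1 * S.NN ℕ a ≤ 2 * S.NN (ℕ × I) w :=
    h1.trans ((NN_T p hFam w).trans (by gcongr; exact p.ν_two 0))
  calc min c 1 / 2 * S.NN ℕ a = 2⁻¹ * (min c 1 * S.NN ℕ a) := by
        rw [div_eq_mul_inv]; ring
    _ ≤ 2⁻¹ * (2 * S.NN (ℕ × I) w) := by gcongr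
    _ = S.NN (ℕ × I) w := by
        rw [← mul_assoc, ENNReal.inv_mul_cancel two_ne_zero ENNReal.ofNat_ne_top, one_mul]

end DHsp
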