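import Pool.Agent.Helper13.DH.LA
import Pool.Agent.Helper13.DH.CL

/-!
# MP_6ad661_an, block DH-N : the lower estimate, case of a fixed type

Induction on `r`, for all `I, v, R, C, c₀`.

`r = 0`: `c₀ < H_j (v n) ≤ 2 |v n|_∞`, so `c₀/2 ≤ |v n|_∞` and `hasLower_of_sup`.

`r+1`: if `|v n|_∞` does not tend to `0`, i.e. there is `c > 0` with `c ≤ |v n|_∞` for infinitely
many `n`, use `hasLower_of_sup'`.  Otherwise (for every `c > 0` eventually `|v n|_∞ < c`):
choose `F_n ∈ Fam j (R n)` with `c₀ < 𝒯_{j,R n}^r H_j (T_{F_n} (v n))` (`TT_iter`, `lt_iSup_iff`).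
Choose `φ` strictly increasing by recursion together with
`L_m = max (R (φ 0), ..., R (φ (m-1)))` (`L_0 = 0`, nondecreasing, `R (φ m) ≤ L_{m+1}`) such that
`L_m * 4^{L_m} * |v (φ m)|_∞ ≤ C` -- here we may assume `C ≠ 0` (if `C = 0` then `v n = 0` and
`𝒯^{r+1}H_j (v n) = 0`, contradiction with `c₀ <`).
Put `G_m = {J ∈ F_{φ m} | L_m ≤ J.1}`, `v' m = T_{G_m} (v (φ m))` on `I ⊕ (ℕ×ℕ)`.
`T_{F} v ≤ T_{G} v + e` with `|e|_1 ≤ 2C`: the members of `F_{φ m}` with `J.1 < L_m`: those with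
`J.2 ≤ L_m` are at most `L_m` many, with `Q J v ≤ N 1 L_m v ≤ 4^{L_m}|v|_∞` (`N_le_sup`); at most
one has `J.1 < L_m < J.2`, with value `≤ NN v ≤ C`.
Hence `c₀ < 𝒯^r H_j (v' m) + 2 η_j (2 C)` (`TT_l1`), so `c₀ - 4 η_j C < 𝒯^r H_j (v' m)`.
`NN (v' m) ≤ ν_0 C` (`NN_T`, `G_m ∈ Fam 0 (R (φ m))`).  Induction hypothesis with `ν_0 C` and
`c₀' = c₀ - 4 η_j C`: `4 r η_j ν_0^r (ν_0 C) < c₀ - 4 η_j C` because
`4 (r+1) η_j ν_0^{r+1} C < c₀` and `1 ≤ ν_0`.  This gives `ψ`, `c` with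
`c NN a ≤ NN (a∘v'(ψ))`; for `a` of finite support `A` the family `F = ⋃_{m∈A} G_{ψ m}` is in
`Fam 0 R₀` (members of `G_m` lie in `[L_m, L_{m+1}]`), and `a∘v'(ψ)` on `ℕ × (I ⊕ (ℕ×ℕ))` is
dominated by `T_F (a∘v(φψ))` on `(ℕ × I) ⊕ (ℕ×ℕ)` via `(m, inl i) ↦ inl (m,i)`,
`(m, inr J) ↦ inr J` (injective on the support).  With `NN_T`: `c NN a ≤ ν_0 NN (a∘v(φψ))`.
-/

open scoped ENNReal NNReal
open Function Filter

namespace DHsp

variable {S : Sys}

namespace LBaux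

/-- Choice of the subsequence. -/
theorem exists_phi (R : ℕ → ℕ) {C : ℝ≥0∞} (hC0 : C ≠ 0) (s : ℕ → ℝ≥0∞)
    (h : ∀ c : ℝ≥0∞, c ≠ 0 → ∃ n₀, ∀ m ≥ n₀, s m < c) :
    ∃ φ : ℕ → ℕ, StrictMono φ ∧ ∃ L : ℕ → ℕ, Monotone L ∧ (∀ m, R (φ m) ≤ L (m + 1)) ∧
      ∀ m, (L m : ℝ≥0∞) * 4 ^ (L m) * s (φ m) ≤ C := by
  have h1 : ∀ M : ℕ, ∃ g : ℕ, ∀ m ≥ g, (M : ℝ≥0∞) * 4 ^ M * s m ≤ C := by
    intro M
    have hD : (M : ℝ≥0∞) * 4 ^ M + 1 ≠ ⊤ := by
      refine ENNReal.add_ne_top.2 ⟨ENNReal.mul_ne_top (ENNReal.natCast_ne_top M)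
        (ENNReal.pow_ne_top (by norm_num)), by norm_num⟩
    have hD0 : (M : ℝ≥0∞) * 4 ^ M + 1 ≠ 0 := by simp
    obtain ⟨n₀, hn₀⟩ := h (C / ((M : ℝ≥0∞) * 4 ^ M + 1)) (ENNReal.div_ne_zero.2 ⟨hC0, hD⟩)
    refine ⟨n₀, fun m hm => ?_⟩
    calc (M : ℝ≥0∞) * 4 ^ M * s m
        ≤ ((M : ℝ≥0∞) * 4 ^ M + 1) * (C / ((M : ℝ≥0∞) * 4 ^ M + 1)) := by
          gcongr
          · exact le_self_add
          · exact (hn₀ m hm).le
      _ = C := ENNReal.mul_div_cancel hD0 hD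
  choose g hg using h1
  let R' : ℕ → ℕ := fun n => ∑ i ∈ Finset.range (n + 1), R i
  have hR' : Monotone R' := by
    intro m n hmn
    exact Finset.sum_le_sum_of_subset (Finset.range_mono (by omega))
  have hRR' : ∀ n, R n ≤ R' n := fun n =>
    Finset.single_le_sum (f := R) (fun _ _ => Nat.zero_le _) (Finset.mem_range.2 (Nat.lt_succ_self n))
  let φ : ℕ → ℕ := fun m => (fun x => max (x + 1) (g (R' x)))^[m] 0
  have hφs : ∀ m, φ (m + 1) = max (φ m + 1) (g (R' (φ m))) := by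
    intro m
    simp only [φ, iterate_succ_apply']
  have hφ : StrictMono φ := strictMono_nat_of_lt_succ fun m => by
    rw [hφs]
    exact lt_of_lt_of_le (Nat.lt_succ_self _) (le_max_left _ _)
  let L : ℕ → ℕ := fun m => Nat.casesOn m 0 (fun k => R' (φ k))
  refine ⟨φ, hφ, L, ?_, ?_, ?_⟩
  · apply monotone_nat_of_le_succ
    intro m
    cases m with
    | zero => exact Nat.zero_le _
    | succ m => exact hR' (hφ.monotone (Nat.le_succ m))
  · intro m
    exact hRR' (φ m)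
  · intro m
    cases m with
    | zero => simp [L]
    | succ m =>
      exact hg (R' (φ m)) (φ (m + 1)) (by rw [hφs]; exact le_max_right _ _)

/-- The dropped members are small. -/
theorem sum_small (p : Par S) {j R L : ℕ} (hj : 1 ≤ j) {F : Set (ℕ × ℕ)} (hF : F ∈ Fam j R)
    {I : Type} (x : I → ℝ≥0∞) {C : ℝ≥0∞} (hC : S.NN I x ≤ C)
    (hL : (L : ℝ≥0∞) * 4 ^ L * (⨆ i, x i) ≤ C) :
    ∑' J : ℕ × ℕ, (open Classical in if J ∈ F ∧ J.1 < L then S.Q J I x else 0) ≤ 2 * C := by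
  classical
  have hfin : {J | J ∈ F ∧ J.1 < L}.Finite := (Fam_finite hF).subset fun J hJ => hJ.1
  have h1 : ∑' J : ℕ × ℕ, (if J ∈ F ∧ J.1 < L then S.Q J I x else 0)
      = ∑ J ∈ hfin.toFinset, S.Q J I x := by
    rw [tsum_eq_sum (s := hfin.toFinset)]
    · refine Finset.sum_congr rfl fun J hJ => ?_
      have : J ∈ F ∧ J.1 < L := by simpa using hJ
      simp [this]
    · intro J hJ
      have : ¬ (J ∈ F ∧ J.1 < L) := by simpa using hJ
      simp [this]
  have h1' : ∑' J : ℕ × ℕ, (open Classical in if J ∈ F ∧ J.1 < L then S.Q J I x else 0)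
      = ∑ J ∈ hfin.toFinset, S.Q J I x := by
    convert h1
  rw [h1', ← Finset.sum_filter_add_sum_filter_not _ (fun J : ℕ × ℕ => J.2 ≤ L), two_mul]
  refine add_le_add ?_ ?_
  · -- members inside `[0,L]`
    have hcard : (hfin.toFinset.filter (fun J : ℕ × ℕ => J.2 ≤ L)).card ≤ L := by
      have h2 : (hfin.toFinset.filter (fun J : ℕ × ℕ => J.2 ≤ L)).card ≤ (Finset.range L).card := by
        refine Finset.card_le_card_of_injOn Prod.fst ?_ ?_
        · intro J hJ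
          simp only [Finset.coe_filter, Set.Finite.mem_toFinset, Set.mem_setOf_eq] at hJ
          simpa using hJ.1.2
        · intro J hJ J' hJ' h
          simp only [Finset.coe_filter, Set.Finite.mem_toFinset, Set.mem_setOf_eq] at hJ hJ'
          exact Fam_fst_inj hF hJ.1.1 hJ'.1.1 h
      simpa using h2
    calc ∑ J ∈ hfin.toFinset.filter (fun J : ℕ × ℕ => J.2 ≤ L), S.Q J I x
        ≤ ∑ J ∈ hfin.toFinset.filter (fun J : ℕ × ℕ => J.2 ≤ L), (4 ^ L * ⨆ i, x i) := by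
          refine Finset.sum_le_sum fun J hJ => ?_
          simp only [Finset.mem_filter, Set.Finite.mem_toFinset, Set.mem_setOf_eq] at hJ
          have h3 := hF.1 J hJ.1.1
          have h4 : S.Q J I x ≤ S.Q (1, L) I x := Q_mono (by omega) hJ.2 x
          exact h4.trans ((Q_le_N S 1 L x).trans (N_le_sup p L x))
      _ = (hfin.toFinset.filter (fun J : ℕ × ℕ => J.2 ≤ L)).card * (4 ^ L * ⨆ i, x i) := by
          rw [Finset.sum_const, nsmul_eq_mul]
      _ ≤ L * (4 ^ L * ⨆ i, x i) := by gcongr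
      _ = L * 4 ^ L * (⨆ i, x i) := by ring
      _ ≤ C := hL
  · -- at most one member contains `L`
    have hcard : (hfin.toFinset.filter (fun J : ℕ × ℕ => ¬ J.2 ≤ L)).card ≤ 1 := by
      rw [Finset.card_le_one]
      intro J hJ J' hJ'
      simp only [Finset.mem_filter, Set.Finite.mem_toFinset, Set.mem_setOf_eq] at hJ hJ'
      by_contra hne
      rcases hF.2 J hJ.1.1 J' hJ'.1.1 hne with h5 | h5 <;> omega
    calc ∑ J ∈ hfin.toFinset.filter (fun J : ℕ × ℕ => ¬ J.2 ≤ L), S.Q J I x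
        ≤ ∑ J ∈ hfin.toFinset.filter (fun J : ℕ × ℕ => ¬ J.2 ≤ L), C := by
          refine Finset.sum_le_sum fun J hJ => ?_
          simp only [Finset.mem_filter, Set.Finite.mem_toFinset, Set.mem_setOf_eq] at hJ
          have h3 := hF.1 J hJ.1.1
          exact (Q_le_NN S (by omega) J.2 x).trans hC
      _ = (hfin.toFinset.filter (fun J : ℕ × ℕ => ¬ J.2 ≤ L)).card * C := by
          rw [Finset.sum_const, nsmul_eq_mul]
      _ ≤ (1 : ℕ) * C := by gcongr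
      _ = C := by simp

/-- Passing from `F` to `G = {J ∈ F | L ≤ J.1}`. -/
theorem step_G (p : Par S) {j R L r : ℕ} (hj : 1 ≤ j) (hr : r ≤ 2 * S.q j) {F : Set (ℕ × ℕ)}
    (hF : F ∈ Fam j R) {I : Type} (x : I → ℝ≥0∞) {C : ℝ≥0∞} (hC : S.NN I x ≤ C)
    (hL : (L : ℝ≥0∞) * 4 ^ L * (⨆ i, x i) ≤ C) {R' : ℕ} :
    ((S.TT j R')^[r] (S.H j)) _ (S.T F x)
      ≤ ((S.TT j R')^[r] (S.H j)) _ (S.T {J ∈ F | L ≤ J.1} x) + 4 * p.η j * C := by
  classical
  have hgood : Good ((S.TT j R')^[r] (S.H j)) := good_TT_iter p j R' (p.good j) r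
  let e : I ⊕ (ℕ × ℕ) → ℝ≥0∞ := Sum.elim (fun _ => 0)
    (fun J => if J ∈ F ∧ J.1 < L then S.Q J I x else 0)
  have h1 : ∀ u, S.T F x u ≤ S.T {J ∈ F | L ≤ J.1} x u + e u := by
    rintro (i | J)
    · simp
    · by_cases hJ : J ∈ F
      · rw [S.T_inr_mem x hJ]
        by_cases hJL : L ≤ J.1
        · rw [S.T_inr_mem x (show J ∈ {J ∈ F | L ≤ J.1} from ⟨hJ, hJL⟩)]
          exact le_self_add
        · have : e (Sum.inr J) = S.Q J I x := by
            simp only [e, Sum.elim_inr]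
            rw [if_pos ⟨hJ, by omega⟩]
          rw [this]
          exact le_add_self
      · rw [S.T_inr_not_mem x hJ]
        exact zero_le
  refine (hgood.le_add h1).trans ?_
  gcongr
  refine (TT_l1 p hr e).trans ?_
  have h2 : ∑' u, e u ≤ 2 * C := by
    have h3 : ∑' u, e u = ∑' J : ℕ × ℕ, e (Sum.inr J) := by
      rw [← (Sum.inr_injective (α := I) (β := ℕ × ℕ)).tsum_eq]
      intro u hu
      rcases u with i | J
      · simp [e] at hu
      · exact ⟨J, rfl⟩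
    rw [h3]
    refine le_trans (le_of_eq ?_) (sum_small p hj hF x hC hL)
    refine tsum_congr fun J => ?_
    simp only [e, Sum.elim_inr]
  calc 2 * p.η j * ∑' u, e u ≤ 2 * p.η j * (2 * C) := by gcongr
    _ = 4 * p.η j * C := by ring

end LBaux

open LBaux in
theorem lowerB (p : Par S) (j : ℕ) (hj : 1 ≤ j) (r : ℕ) (hr : r ≤ S.q j) :
    ∀ {I : Type} (v : ℕ → I → ℝ≥0∞) (R : ℕ → ℕ) (C c₀ : ℝ≥0∞), C ≠ ⊤ →
      (∀ n, S.NN I (v n) ≤ C) → 4 * r * p.η j * p.ν 0 ^ r * C < c₀ →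
      (∀ n, c₀ < ((S.TT j (R n))^[r] (S.H j)) I (v n)) → HasLower S.NN v := by
  classical
  induction r with
  | zero =>
    intro I v R C c₀ _ _ hc₀ hv
    have hc : c₀ ≠ 0 := by
      rintro rfl
      simp at hc₀
    refine hasLower_of_sup p v (c := c₀ / 2) (by simp [hc]) fun n => ?_
    have h1 : c₀ ≤ 2 * ⨆ i, v n i := (hv n).le.trans (p.H_sup j (v n))
    rw [ENNReal.div_le_iff (by norm_num) (by norm_num), mul_comm]
    exact h1
  | succ r ih =>
    intro I v R C c₀ hCtop hNN hc₀ hv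
    by_cases hsup : ∃ c : ℝ≥0∞, c ≠ 0 ∧ ∀ n, ∃ m ≥ n, c ≤ ⨆ i, v m i
    · obtain ⟨c, hc, h⟩ := hsup
      exact hasLower_of_sup' p v hc h
    push Not at hsup
    have hC0 : C ≠ 0 := by
      rintro rfl
      have h1 : ∀ i, v 0 i = 0 := by
        intro i
        have h2 : v 0 i ≤ 0 := (le_iSup (v 0) i).trans ((sup_le_NN S (v 0)).trans (hNN 0))
        exact le_antisymm h2 zero_le
      have h3 : ((S.TT j (R 0))^[r + 1] (S.H j)) I (v 0) = 0 :=
        (good_TT_iter p j (R 0) (p.good j) (r + 1)).eq_zero h1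
      have h4 := hv 0
      rw [h3] at h4
      exact absurd h4 (by simp)
    have hF : ∀ n, ∃ F ∈ Fam j (R n), c₀ < ((S.TT j (R n))^[r] (S.H j)) _ (S.T F (v n)) := by
      intro n
      have h1 := hv n
      rw [Sys.TT_iter] at h1
      obtain ⟨F, h2⟩ := lt_iSup_iff.1 h1
      obtain ⟨hF, h3⟩ := lt_iSup_iff.1 h2
      exact ⟨F, hF, h3⟩
    choose F hF hF' using hF
    obtain ⟨φ, hφ, L, hLmono, hRL, hLs⟩ := exists_phi R hC0 (fun n => ⨆ i, v n i) hsup
    let G : ℕ → Set (ℕ × ℕ) := fun m => {J ∈ F (φ m) | L m ≤ J.1}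
    have hG : ∀ m, G m ∈ Fam j (R (φ m)) := fun m => Fam_subset (hF (φ m)) fun J hJ => hJ.1
    let v' : ℕ → I ⊕ (ℕ × ℕ) → ℝ≥0∞ := fun m => S.T (G m) (v (φ m))
    have hν : 1 ≤ p.ν 0 := p.ν_one 0
    have hν2 : p.ν 0 ≤ 2 := p.ν_two 0
    have hkey : 4 * (r : ℝ≥0∞) * p.η j * p.ν 0 ^ r * (p.ν 0 * C) + 4 * p.η j * C < c₀ := by
      refine lt_of_le_of_lt ?_ hc₀
      have h1 : 4 * p.η j * C ≤ 4 * p.η j * p.ν 0 ^ (r + 1) * C := by
        calc 4 * p.η j * C = 4 * p.η j * 1 * C := by ring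
          _ ≤ 4 * p.η j * p.ν 0 ^ (r + 1) * C := by
            gcongr
            exact one_le_pow₀ hν
      calc 4 * (r : ℝ≥0∞) * p.η j * p.ν 0 ^ r * (p.ν 0 * C) + 4 * p.η j * C
          ≤ 4 * (r : ℝ≥0∞) * p.η j * p.ν 0 ^ r * (p.ν 0 * C)
            + 4 * p.η j * p.ν 0 ^ (r + 1) * C := by gcongr
        _ = 4 * ((r + 1 : ℕ) : ℝ≥0∞) * p.η j * p.ν 0 ^ (r + 1) * C := by push_cast; ring
    have hle : 4 * p.η j * C ≤ c₀ := (le_add_self.trans hkey.le)
    have hlow : HasLower S.NN v' := by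
      refine ih (by omega) v' (fun m => R (φ m)) (p.ν 0 * C) (c₀ - 4 * p.η j * C)
        (ENNReal.mul_ne_top (ne_top_of_le_ne_top (by norm_num) hν2) hCtop) ?_ ?_ ?_
      · intro m
        refine (NN_T p (Fam_mono (Nat.zero_le j) le_rfl (hG m)) (v (φ m))).trans ?_
        gcongr
        exact hNN (φ m)
      · exact lt_tsub_iff_right.2 hkey
      · intro m
        refine ENNReal.sub_lt_of_lt_add hle ?_
        refine lt_of_lt_of_le (hF' (φ m)) ?_
        exact step_G p hj (by omega) (hF (φ m)) (v (φ m)) (hNN (φ m)) (hLs m)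
    obtain ⟨c, hc, ψ, hψ, hlow⟩ := hlow
    refine ⟨c / 2, by simp [hc], fun m => φ (ψ m), hφ.comp hψ, fun a ha hfin => ?_⟩
    have h1 := hlow a ha hfin
    let x : ℕ × I → ℝ≥0∞ := fun u => a u.1 * v (φ (ψ u.1)) u.2
    let FF : Set (ℕ × ℕ) := {J | ∃ m, a m ≠ 0 ∧ J ∈ G (ψ m)}
    let R₀ : ℕ := ∑ m ∈ hfin.toFinset, R (φ (ψ m))
    have hR₀ : ∀ m, a m ≠ 0 → R (φ (ψ m)) ≤ R₀ := fun m hm =>
      Finset.single_le_sum (f := fun m => R (φ (ψ m))) (fun _ _ => Nat.zero_le _)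
        (by simpa using hm)
    have hdisj : ∀ m m' : ℕ, m < m' → ∀ J ∈ G (ψ m), ∀ J' ∈ G (ψ m'), J.2 ≤ J'.1 := by
      intro m m' hmm J hJ J' hJ'
      have h2 := (hG (ψ m)).1 J hJ
      have h3 : ψ m + 1 ≤ ψ m' := hψ hmm
      have h4 : L (ψ m + 1) ≤ L (ψ m') := hLmono h3
      have h5 := hRL (ψ m)
      have h6 : L (ψ m') ≤ J'.1 := hJ'.2
      omega
    have hFF : FF ∈ Fam 0 R₀ := by
      refine ⟨?_, ?_⟩
      · rintro J ⟨m, hm, hJ⟩
        have h2 := (hG (ψ m)).1 J hJ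
        have h3 := hR₀ m hm
        omega
      · rintro J ⟨m, hm, hJ⟩ J' ⟨m', hm', hJ'⟩ hne
        rcases lt_trichotomy m m' with h2 | h2 | h2
        · exact Or.inl (hdisj m m' h2 J hJ J' hJ')
        · subst h2
          exact (hG (ψ m)).2 J hJ J' hJ' hne
        · exact Or.inr (hdisj m' m h2 J' hJ' J hJ)
    let f : ℕ × (I ⊕ (ℕ × ℕ)) → (ℕ × I) ⊕ (ℕ × ℕ) := fun u =>
      Sum.elim (fun i => Sum.inl (u.1, i)) (fun J => Sum.inr J) u.2
    have h2 : S.NN _ (fun u : ℕ × (I ⊕ (ℕ × ℕ)) => a u.1 * v' (ψ u.1) u.2)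
        ≤ S.NN _ (S.T FF x) := by
      refine (good_NN p).mono f ?_ ?_
      · rintro ⟨m, i | J⟩ hu ⟨m', i' | J'⟩ hu' h
        · simp only [f, Sum.elim_inl, Sum.inl.injEq, Prod.mk.injEq] at h
          rw [h.1, h.2]
        · simp [f] at h
        · simp [f] at h
        · simp only [f, Sum.elim_inr, Sum.inr.injEq] at h
          subst h
          have hmem : ∀ m, a m * v' (ψ m) (Sum.inr J) ≠ 0 → J ∈ G (ψ m) := by
            intro m hm
            by_contra hcon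
            apply hm
            simp only [v']
            rw [S.T_inr_not_mem _ hcon, mul_zero]
          have hJ1 := hmem m hu
          have hJ2 := hmem m' hu'
          have h3 := (hG (ψ m)).1 J hJ1
          rcases lt_trichotomy m m' with h4 | h4 | h4
          · have := hdisj m m' h4 J hJ1 J hJ2
            omega
          · rw [h4]
          · have := hdisj m' m h4 J hJ2 J hJ1
            omega
      · rintro ⟨m, i | J⟩
        · exact le_rfl
        · simp only [f, Sum.elim_inr]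
          by_cases ham : a m = 0
          · simp [ham]
          by_cases hJ : J ∈ G (ψ m)
          · have hJF : J ∈ FF := ⟨m, ham, hJ⟩
            rw [S.T_inr_mem _ hJF]
            simp only [v']
            rw [S.T_inr_mem _ hJ, ← (good_Q p J).smul (v (φ (ψ m))) (ha m)]
            refine (good_Q p J).mono (fun i => (m, i)) ?_ fun i => le_rfl
            intro i _ i' _ h
            exact (Prod.mk.inj h).2
          · simp only [v']
            rw [S.T_inr_not_mem _ hJ, mul_zero]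
            exact zero_le
    have h3 : c * S.NN ℕ a ≤ 2 * S.NN _ x := by
      refine h1.trans (h2.trans ((NN_T p hFF x).trans ?_))
      gcongr
    calc c / 2 * S.NN ℕ a = c * S.NN ℕ a / 2 := by
          rw [div_eq_mul_inv, div_eq_mul_inv]; ring
      _ ≤ S.NN _ x := by
          rw [ENNReal.div_le_iff (by norm_num) (by norm_num), mul_comm (S.NN _ x)]
          exact h3

end DHsp
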