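import Pool.Agent.Helper13.DH.Drop

/-!
# MP_6ad661_an, block DH-F : Lemma 2, `𝒯_{j,R}^m N(j+1,R) ≤ ν_j N(j+1,R)` for `m ≤ 2 q_j`

Strong induction on `R - j`; so the lemma may be used for all `i` with `j < i < R`.  Inner
induction on `m`: suppose that `𝒯_j^l N(j+1,R) ≤ ν_j N(j+1,R)` for all `l < m`, `1 ≤ m ≤ 2 q_j`
(`m = 0` is trivial as `1 ≤ ν_j`).  `N(j+1,R) = max(|·|_∞, max_{j<i<R} P i R)` and iterates of `𝒯`
commute with (finite) maxima (`TT_iter_max`, `TT_iter_biSup`), so three estimates are needed.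

(a) `𝒯_j^m |·|_∞ = 𝒯_j^{m-1}(𝒯_j |·|_∞)` and `𝒯_j |·|_∞ ≤ N(j+1,R)` (the new coordinates of
`T_F x` are `Q J x ≤ Q (j+1,R) x`), so this is `≤ 𝒯_j^{m-1} N(j+1,R) ≤ ν_j N(j+1,R)`.

(b) For `j < i < R`, `r ≤ q_i`: by `drop` (for `Φ = 𝒯_i^{r+l} H_i`, `l < m`, `r + l ≤ 2 q_i`,
`c = 2 η_i` from `TT_l1`) and `TT_iter_add`, `TT_iter_mul`:
`𝒯_j^m 𝒯_i^r H_i ≤ 𝒯_i^{r+m} H_i + 2 η_i i ∑_{l<m} 𝒯_j^l Q(j+1,R) ≤ 𝒯_i^{r+m} H_i
  + 2 η_i i m ν_j N(j+1,R)`.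
(Induction on the number of steps; every `𝒯_j^l Q(j+1,R) ≤ 𝒯_j^l N(j+1,R) ≤ ν_j N(j+1,R)`, `l<m`.)

(c) If `r + m ≤ q_i`: `κ_i^{r+1} 𝒯_i^{r+m} H_i ≤ ν'_j κ_i^{m+r+1} 𝒯_i^{r+m}H_i ≤ ν'_j P i R
≤ ν'_j N(j+1,R)` (`ν'_one`, `κ ≤ 1`, `m ≤ 2 q_j`).
If `r + m > q_i`: `H_i ≤ 2 |·|_∞ ≤ 2 N(i+1,R)`, so by Lemma 2 for `i` (`r + m ≤ 2 q_i` as
`2 q_j ≤ q_i`): `𝒯_i^{r+m} H_i ≤ 2 ν_i N(i+1,R) ≤ 2 ν_i N(j+1,R)`, and `κ_i^{r+1} ≤
κ_i^{q_i - 2 q_j}`; by `κ_cond` the product is `≤ N(j+1,R) ≤ ν'_j N(j+1,R)`.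
In both cases `κ_i^{r+1} 𝒯_j^m 𝒯_i^r H_i ≤ (ν'_j + 2 η_i i (2 q_j) ν_j) N(j+1,R) ≤ ν_j N(j+1,R)`
by `ν_cond`.
-/

open scoped ENNReal NNReal
open Function

namespace DHsp

variable {S : Sys}

theorem lem2_sup (j R : ℕ) {ι : Type} (x : ι → ℝ≥0∞) :
    S.TT j R (fun _ x => ⨆ i, x i) ι x ≤ S.N (j + 1) R ι x := by
  rw [S.TT_apply]
  refine iSup₂_le fun F hF => iSup_le fun u => ?_
  rcases u with i | J
  · exact (le_iSup x i).trans (sup_le_N S _ _ x)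
  · by_cases hJ : J ∈ F
    · rw [S.T_inr_mem x hJ]
      have h := hF.1 J hJ
      exact (Q_mono (s := J.1) (t := J.2) (by omega) h.2.2 x).trans (Q_le_N S _ _ x)
    · rw [S.T_inr_not_mem x hJ]
      exact zero_le

theorem lem2_drop (p : Par S) {j i R m : ℕ} (hji : j < i)
    (hlow : ∀ l < m, ∀ (ι : Type) (x : ι → ℝ≥0∞),
      ((S.TT j R)^[l] (S.N (j + 1) R)) ι x ≤ p.ν j * S.N (j + 1) R ι x) :
    ∀ l ≤ m, ∀ r, r + l ≤ 2 * S.q i → ∀ (ι : Type) (x : ι → ℝ≥0∞),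
      ((S.TT j R)^[l] ((S.TT i R)^[r] (S.H i))) ι x ≤
        ((S.TT i R)^[r + l] (S.H i)) ι x
          + l * (2 * p.η i * i * (p.ν j * S.N (j + 1) R ι x)) := by
  intro l
  induction l with
  | zero =>
    intro _ r _ ι x
    simp
  | succ l ih =>
    intro hl r hr ι x
    rw [iterate_succ_apply]
    have h1 : ∀ (ι : Type) (x : ι → ℝ≥0∞), S.TT j R ((S.TT i R)^[r] (S.H i)) ι x ≤
        ((S.TT i R)^[r + 1] (S.H i)) ι x + 2 * p.η i * i * S.Q (j + 1, R) ι x := by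
      intro ι x
      rw [iterate_succ_apply']
      exact drop p hji (good_TT_iter p i R (p.good i) r)
        (fun {ι} x => TT_l1 p (by omega) x) x
    have h2 := S.TT_iter_mono (j := j) (R := R) h1 l ι x
    refine h2.trans ?_
    refine (S.TT_iter_add (j := j) (R := R) ((S.TT i R)^[r + 1] (S.H i))
      (fun ι x => 2 * p.η i * i * S.Q (j + 1, R) ι x) l ι x).trans ?_
    have h3 := ih (by omega) (r + 1) (by omega) ι x
    have h4 : ((S.TT j R)^[l] (fun ι x => 2 * p.η i * i * S.Q (j + 1, R) ι x)) ι x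
        ≤ 2 * p.η i * i * (p.ν j * S.N (j + 1) R ι x) := by
      rw [S.TT_iter_mul]
      gcongr
      exact (S.TT_iter_mono (fun ι x => Q_le_N S (j + 1) R x) l ι x).trans
        (hlow l (by omega) ι x)
    refine (add_le_add h3 h4).trans (le_of_eq ?_)
    rw [show r + 1 + l = r + (l + 1) by ring, add_assoc]
    congr 1
    push_cast
    ring

theorem lem2_PP (p : Par S) {j i R m : ℕ} (hji : j < i) (hiR : i < R) (hm : m ≤ 2 * S.q j)
    (hlow : ∀ l < m, ∀ (ι : Type) (x : ι → ℝ≥0∞),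
      ((S.TT j R)^[l] (S.N (j + 1) R)) ι x ≤ p.ν j * S.N (j + 1) R ι x)
    (hi : ∀ m ≤ 2 * S.q i, ∀ (ι : Type) (x : ι → ℝ≥0∞),
      ((S.TT i R)^[m] (S.N (i + 1) R)) ι x ≤ p.ν i * S.N (i + 1) R ι x)
    {r : ℕ} (hr : r ≤ S.q i) (ι : Type) (x : ι → ℝ≥0∞) :
    S.κ i ^ (r + 1) * ((S.TT j R)^[m] ((S.TT i R)^[r] (S.H i))) ι x
      ≤ p.ν j * S.N (j + 1) R ι x := by
  have hq := p.q_two j i hji
  have h1 := lem2_drop p hji hlow m le_rfl r (by omega) ι x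
  have hν' : 1 ≤ p.ν' j * S.κ i ^ (2 * S.q j) := p.ν'_one j i hji
  have hν1 : 1 ≤ p.ν' j := by
    refine hν'.trans ?_
    calc p.ν' j * S.κ i ^ (2 * S.q j) ≤ p.ν' j * 1 := by
          gcongr
          exact pow_le_one₀ zero_le (p.κ_le i)
      _ = p.ν' j := mul_one _
  have hκm : 1 ≤ p.ν' j * S.κ i ^ m := by
    exact hν'.trans (mul_le_mul_right (pow_le_pow_of_le_one zero_le (p.κ_le i) hm) _)
  -- main term
  have h2 : S.κ i ^ (r + 1) * ((S.TT i R)^[r + m] (S.H i)) ι x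
      ≤ p.ν' j * S.N (j + 1) R ι x := by
    by_cases hrm : r + m ≤ S.q i
    · calc S.κ i ^ (r + 1) * ((S.TT i R)^[r + m] (S.H i)) ι x
          = 1 * (S.κ i ^ (r + 1) * ((S.TT i R)^[r + m] (S.H i)) ι x) := (one_mul _).symm
        _ ≤ (p.ν' j * S.κ i ^ m) * (S.κ i ^ (r + 1) * ((S.TT i R)^[r + m] (S.H i)) ι x) := by
            gcongr
        _ = p.ν' j * (S.κ i ^ (r + m + 1) * ((S.TT i R)^[r + m] (S.H i)) ι x) := by ring
        _ ≤ p.ν' j * S.N (j + 1) R ι x := by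
            gcongr
            exact (S.le_P hrm x).trans ((S.P_le_Q (j := j + 1) (by omega) hiR x).trans
              (Q_le_N S _ _ x))
    · have h3 : ((S.TT i R)^[r + m] (S.H i)) ι x ≤ 2 * (p.ν i * S.N (j + 1) R ι x) := by
        have h4 : ∀ (ι : Type) (x : ι → ℝ≥0∞), S.H i ι x ≤ 2 * S.N (i + 1) R ι x := by
          intro ι x
          refine (p.H_sup i x).trans ?_
          gcongr
          exact sup_le_N S _ _ x
        refine (S.TT_iter_mono h4 (r + m) ι x).trans ?_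
        rw [S.TT_iter_mul]
        gcongr
        refine (hi (r + m) (by omega) ι x).trans ?_
        gcongr
        exact N_mono (by omega) le_rfl x
      calc S.κ i ^ (r + 1) * ((S.TT i R)^[r + m] (S.H i)) ι x
          ≤ S.κ i ^ (S.q i - 2 * S.q j) * (2 * (p.ν i * S.N (j + 1) R ι x)) := by
            gcongr ?_ * ?_
            exact pow_le_pow_of_le_one zero_le (p.κ_le i) (by omega)
        _ = (S.κ i ^ (S.q i - 2 * S.q j) * (2 * p.ν i)) * S.N (j + 1) R ι x := by ring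
        _ ≤ 1 * S.N (j + 1) R ι x := by
            gcongr
            exact p.κ_cond j i hji
        _ ≤ p.ν' j * S.N (j + 1) R ι x := by gcongr
  calc S.κ i ^ (r + 1) * ((S.TT j R)^[m] ((S.TT i R)^[r] (S.H i))) ι x
      ≤ S.κ i ^ (r + 1) * (((S.TT i R)^[r + m] (S.H i)) ι x
          + m * (2 * p.η i * i * (p.ν j * S.N (j + 1) R ι x))) := by gcongr
    _ = S.κ i ^ (r + 1) * ((S.TT i R)^[r + m] (S.H i)) ι x
          + S.κ i ^ (r + 1) * (m * (2 * p.η i * i * (p.ν j * S.N (j + 1) R ι x))) := by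
        rw [mul_add]
    _ ≤ p.ν' j * S.N (j + 1) R ι x
          + 1 * (((2 * S.q j : ℕ) : ℝ≥0∞) * (2 * p.η i * i * (p.ν j * S.N (j + 1) R ι x))) := by
        gcongr
        exact pow_le_one₀ zero_le (p.κ_le i)
    _ = (p.ν' j + 4 * i * p.η i * S.q j * p.ν j) * S.N (j + 1) R ι x := by
        push_cast
        ring
    _ ≤ p.ν j * S.N (j + 1) R ι x := by
        gcongr
        exact p.ν_cond j i hji

theorem lem2_N_eq (j R : ℕ) : S.N j R = fun ι x =>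
    max (⨆ i, x i) (⨆ i ∈ {i | j ≤ i ∧ i < R}, ⨆ r ∈ {r | r ≤ S.q i},
      S.κ i ^ (r + 1) * ((S.TT i R)^[r] (S.H i)) ι x) := by
  funext ι x
  simp only [Sys.N]
  congr 1
  apply le_antisymm
  · refine S.Q_le fun i h1 h2 => S.P_le fun r hr => ?_
    refine le_iSup₂_of_le (f := fun i (_ : i ∈ {i | j ≤ i ∧ i < R}) => ⨆ r ∈ {r | r ≤ S.q i},
      S.κ i ^ (r + 1) * ((S.TT i R)^[r] (S.H i)) ι x) i ⟨h1, h2⟩ ?_
    exact le_iSup₂_of_le (f := fun r (_ : r ∈ {r | r ≤ S.q i}) =>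
      S.κ i ^ (r + 1) * ((S.TT i R)^[r] (S.H i)) ι x) r hr le_rfl
  · refine iSup₂_le fun i hi => iSup₂_le fun r hr => ?_
    exact (S.le_P hr x).trans (S.P_le_Q hi.1 hi.2 x)

theorem lem2_aux (p : Par S) (R : ℕ) : ∀ (n j : ℕ), R - j = n → ∀ m ≤ 2 * S.q j,
    ∀ (ι : Type) (x : ι → ℝ≥0∞),
    ((S.TT j R)^[m] (S.N (j + 1) R)) ι x ≤ p.ν j * S.N (j + 1) R ι x := by
  intro n
  induction n using Nat.strong_induction_on with
  | _ n IH =>
    intro j hj m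
    induction m using Nat.strong_induction_on with
    | _ m ih =>
      intro hm ι x
      rcases m with _ | m
      · calc ((S.TT j R)^[0] (S.N (j + 1) R)) ι x = 1 * S.N (j + 1) R ι x := (one_mul _).symm
          _ ≤ p.ν j * S.N (j + 1) R ι x := by gcongr; exact p.ν_one j
      · have hlow : ∀ l < m + 1, ∀ (ι : Type) (x : ι → ℝ≥0∞),
            ((S.TT j R)^[l] (S.N (j + 1) R)) ι x ≤ p.ν j * S.N (j + 1) R ι x :=
          fun l hl ι x => ih l hl (by omega) ι x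
        conv_lhs => rw [lem2_N_eq (S := S) (j + 1) R]
        rw [S.TT_iter_max (fun _ x => ⨆ i, x i)
          (fun ι x => ⨆ i ∈ {i | j + 1 ≤ i ∧ i < R}, ⨆ r ∈ {r | r ≤ S.q i},
            S.κ i ^ (r + 1) * ((S.TT i R)^[r] (S.H i)) ι x)]
        apply max_le
        · rw [iterate_succ_apply]
          exact (S.TT_iter_mono (fun ι x => lem2_sup j R x) m ι x).trans (hlow m (by omega) ι x)
        · rw [S.TT_iter_biSup {i | j + 1 ≤ i ∧ i < R}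
            (fun i ι x => ⨆ r ∈ {r | r ≤ S.q i},
              S.κ i ^ (r + 1) * ((S.TT i R)^[r] (S.H i)) ι x)]
          refine iSup₂_le fun i hi => ?_
          obtain ⟨hi1, hi2⟩ := hi
          rw [S.TT_iter_biSup {r | r ≤ S.q i}
            (fun r ι x => S.κ i ^ (r + 1) * ((S.TT i R)^[r] (S.H i)) ι x)]
          refine iSup₂_le fun r hr => ?_
          rw [S.TT_iter_mul]
          exact lem2_PP p (by omega) hi2 hm hlow
            (fun m hm => IH (R - i) (by omega) i rfl m hm) hr ι x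

theorem lem2 (p : Par S) (j R : ℕ) {m : ℕ} (hm : m ≤ 2 * S.q j) {ι : Type} (x : ι → ℝ≥0∞) :
    ((S.TT j R)^[m] (S.N (j + 1) R)) ι x ≤ p.ν j * S.N (j + 1) R ι x :=
  lem2_aux p R (R - j) j rfl m hm ι x

/-- Special case `j = 0`, `m = 1`. -/
theorem N_T (p : Par S) {R : ℕ} {F : Set (ℕ × ℕ)} (hF : F ∈ Fam 0 R) {ι : Type}
    (x : ι → ℝ≥0∞) : S.N 1 R _ (S.T F x) ≤ p.ν 0 * S.N 1 R ι x := by
  have h := lem2 p 0 R (m := 1) (by rw [p.q_zero]; norm_num) x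
  exact (S.le_TT hF (S.N 1 R) x).trans h

/-- The same for the norm `NN`. -/
theorem NN_T (p : Par S) {R : ℕ} {F : Set (ℕ × ℕ)} (hF : F ∈ Fam 0 R) {ι : Type}
    (x : ι → ℝ≥0∞) : S.NN _ (S.T F x) ≤ p.ν 0 * S.NN ι x := by
  refine iSup_le fun R' => ?_
  have h1 : F ∈ Fam 0 (max R R') := Fam_mono le_rfl (le_max_left _ _) hF
  refine (N_mono le_rfl (le_max_right R R') _).trans ((N_T p h1 x).trans ?_)
  gcongr
  exact N_le_NN S le_rfl _ x

end DHsp
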