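import Pool.Agent.Helper13.DH.GoodL

/-!
# MP_6ad661_an, block DH-D : monotonicity in the interval
-/

open scoped ENNReal NNReal
open Function

namespace DHsp

variable {S : Sys}

theorem TT_mono' {j j' R R' : ℕ} (hj : j' ≤ j) (hR : R ≤ R') {Φ Ψ : SFun}
    (h : ∀ (ι : Type) (x : ι → ℝ≥0∞), Φ ι x ≤ Ψ ι x) (ι : Type) (x : ι → ℝ≥0∞) :
    S.TT j R Φ ι x ≤ S.TT j' R' Ψ ι x := by
  simp only [Sys.TT_apply]
  refine iSup₂_le fun F hF => (h _ _).trans ?_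
  exact le_iSup₂_of_le (f := fun F (_ : F ∈ Fam j' R') => Ψ _ (S.T F x)) F
    (Fam_mono hj hR hF) le_rfl

theorem TT_iter_mono' {j j' R R' : ℕ} (hj : j' ≤ j) (hR : R ≤ R') {Φ Ψ : SFun}
    (h : ∀ (ι : Type) (x : ι → ℝ≥0∞), Φ ι x ≤ Ψ ι x) (r : ℕ) (ι : Type) (x : ι → ℝ≥0∞) :
    ((S.TT j R)^[r] Φ) ι x ≤ ((S.TT j' R')^[r] Ψ) ι x := by
  induction r generalizing ι x with
  | zero => exact h ι x
  | succ r ih =>
    rw [iterate_succ_apply', iterate_succ_apply']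
    exact TT_mono' hj hR ih ι x

theorem P_mono {i R R' : ℕ} (hR : R ≤ R') {ι : Type} (x : ι → ℝ≥0∞) :
    S.P i R ι x ≤ S.P i R' ι x := by
  apply S.P_le
  intro r hr
  refine le_trans ?_ (S.le_P hr x)
  gcongr
  exact TT_iter_mono' le_rfl hR (fun _ _ => le_rfl) r ι x

theorem Q_mono {s t s' t' : ℕ} (hs : s' ≤ s) (ht : t ≤ t') {ι : Type} (x : ι → ℝ≥0∞) :
    S.Q (s, t) ι x ≤ S.Q (s', t') ι x := by
  apply S.Q_le
  intro i h1 h2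
  exact (P_mono ht x).trans (S.P_le_Q (by omega) (by omega) x)

theorem N_mono {s t s' t' : ℕ} (hs : s' ≤ s) (ht : t ≤ t') {ι : Type} (x : ι → ℝ≥0∞) :
    S.N s t ι x ≤ S.N s' t' ι x := max_le_max le_rfl (Q_mono hs ht x)

theorem sup_le_N (S : Sys) (j R : ℕ) {ι : Type} (x : ι → ℝ≥0∞) : (⨆ i, x i) ≤ S.N j R ι x :=
  le_max_left _ _

theorem Q_le_N (S : Sys) (j R : ℕ) {ι : Type} (x : ι → ℝ≥0∞) : S.Q (j, R) ι x ≤ S.N j R ι x :=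
  le_max_right _ _

theorem N_le_NN (S : Sys) {j : ℕ} (hj : 1 ≤ j) (R : ℕ) {ι : Type} (x : ι → ℝ≥0∞) :
    S.N j R ι x ≤ S.NN ι x := (N_mono hj le_rfl x).trans (le_iSup (fun R => S.N 1 R ι x) R)

theorem Q_le_NN (S : Sys) {j : ℕ} (hj : 1 ≤ j) (R : ℕ) {ι : Type} (x : ι → ℝ≥0∞) :
    S.Q (j, R) ι x ≤ S.NN ι x := (Q_le_N S j R x).trans (N_le_NN S hj R x)

theorem sup_le_NN (S : Sys) {ι : Type} (x : ι → ℝ≥0∞) : (⨆ i, x i) ≤ S.NN ι x :=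
  (sup_le_N S 1 0 x).trans (N_le_NN S le_rfl 0 x)

end DHsp
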