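import Pool.Agent.Helper13.DH.SpDefs

/-!
# MP_6ad661_an, block DH-S1 : the unit vectors

`norm_e`: `Φ ℕ (1_{n}) = Φ Unit 1 = 1` (domination both ways, `unit`, `sup_le`).
`tail_tendsto`: `‖x - ∑_{k<n} x_k e_k‖ = (Φ (tl n x)).toReal → 0`.
`perm`: for a permutation `π` the map `x ↦ x ∘ π⁻¹` is a linear isometry; it maps the tail space to
itself: use that the sequences with finite support are dense (`tail_tendsto`), or directly: for
every `n` there is `m` with `π⁻¹ i < n → i < m`, so `tl m (x∘π⁻¹)` is dominated by `tl n x` through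
`π⁻¹`.
-/

open scoped ENNReal NNReal Topology
open Function Filter

namespace DHsp

namespace ESp

variable {Φ : SFun} {h : NormF Φ}

theorem single_le (h : NormF Φ) (n : ℕ) :
    Φ ℕ (fun i => ‖(Pi.single n (1 : ℝ) : ℕ → ℝ) i‖ₑ) ≤ 1 := by
  refine le_trans ?_ h.unit
  refine h.toGood.mono (fun _ => ()) ?_ ?_
  · intro i hi j hj _
    have h1 : i = n := by
      by_contra hne
      exact hi (by simp [Pi.single_eq_of_ne hne])
    have h2 : j = n := by
      by_contra hne
      exact hj (by simp [Pi.single_eq_of_ne hne])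
    rw [h1, h2]
  · intro i
    by_cases hi : i = n
    · subst hi; simp
    · simp [Pi.single_eq_of_ne hi]

theorem single_tl (h : NormF Φ) (n : ℕ) :
    Tendsto (fun m => Φ ℕ (tl m (Pi.single n (1 : ℝ)))) atTop (𝓝 0) := by
  refine tendsto_const_nhds.congr' ?_
  filter_upwards [eventually_gt_atTop n] with m hm
  symm
  apply h.toGood.eq_zero
  intro i
  unfold tl
  split_ifs with hi
  · have : i ≠ n := by omega
    simp [Pi.single_eq_of_ne this]
  · rfl

/-- The unit vector. -/
noncomputable def e (n : ℕ) : ESp Φ h :=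
  mk (Pi.single n 1)
    (by
      exact ne_top_of_le_ne_top ENNReal.one_ne_top (single_le h n))
    (by
      exact single_tl h n)

@[simp] theorem co_e (n : ℕ) : co (e n : ESp Φ h) = Pi.single n 1 := rfl

theorem norm_e (n : ℕ) : ‖(e n : ESp Φ h)‖ = 1 := by
  have h1 : ‖(e n : ESp Φ h)‖ₑ = 1 := by
    rw [enorm_def, co_e]
    apply le_antisymm (single_le h n)
    refine le_trans ?_ (h.sup_le _)
    refine le_trans ?_ (le_iSup (fun i => ‖(Pi.single n (1 : ℝ) : ℕ → ℝ) i‖ₑ) n)
    simp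
  rw [← toReal_enorm, h1]
  simp

theorem co_sum (s : Finset ℕ) (f : ℕ → ESp Φ h) (i : ℕ) :
    co (∑ k ∈ s, f k) i = ∑ k ∈ s, co (f k) i := by
  rw [map_sum, Finset.sum_apply]

theorem co_smul (c : ℝ) (x : ESp Φ h) (i : ℕ) : co (c • x) i = c * co x i := by
  rw [map_smul]; rfl

theorem co_sum_e (a : ℕ → ℝ) (s : Finset ℕ) (i : ℕ) :
    co (∑ k ∈ s, a k • (e k : ESp Φ h)) i = if i ∈ s then a i else 0 := by
  rw [co_sum]
  simp only [co_smul, co_e, Pi.single_apply, mul_ite, mul_one, mul_zero]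
  rw [Finset.sum_ite_eq]

theorem enorm_sub_sum (x : ESp Φ h) (n : ℕ) :
    ‖x - ∑ k ∈ Finset.range n, co x k • (e k : ESp Φ h)‖ₑ = Φ ℕ (tl n (co x)) := by
  rw [enorm_def]
  congr 1
  funext i
  rw [map_sub, Pi.sub_apply, co_sum_e]
  unfold tl
  by_cases hi : i < n
  · rw [if_pos (Finset.mem_range.2 hi), if_neg (by omega)]
    simp
  · rw [if_neg (by simpa using hi), if_pos (by omega)]
    simp

theorem tail_tendsto (x : ESp Φ h) :
    Tendsto (fun n => ∑ k ∈ Finset.range n, co x k • (e k : ESp Φ h)) atTop (𝓝 x) := by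
  rw [tendsto_iff_edist_tendsto_0]
  refine (co_tl x).congr fun n => ?_
  rw [edist_comm, edist_eq_enorm_sub, enorm_sub_sum]

theorem perm_fin (π : Equiv.Perm ℕ) (x : ESp Φ h) :
    Φ ℕ (fun i => ‖co x (π i)‖ₑ) = Φ ℕ (fun i => ‖co x i‖ₑ) :=
  h.toGood.congr_equiv π fun i => ‖co x i‖ₑ

theorem perm_tl (π : Equiv.Perm ℕ) (x : ESp Φ h) :
    Tendsto (fun n => Φ ℕ (tl n (fun i => co x (π i)))) atTop (𝓝 0) := by
  rw [ENNReal.tendsto_nhds_zero]
  intro ε hε
  obtain ⟨N, hN⟩ := ((ENNReal.tendsto_nhds_zero.1 (co_tl x)) ε hε).exists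
  obtain ⟨M, hM⟩ : ∃ M : ℕ, ∀ i, M ≤ i → N ≤ π i := by
    refine ⟨(Finset.range N).sup (fun j => π.symm j) + 1, fun i hi => ?_⟩
    by_contra hlt
    push Not at hlt
    have h1 : π.symm (π i) ≤ (Finset.range N).sup (fun j => π.symm j) :=
      Finset.le_sup (f := fun j => π.symm j) (Finset.mem_range.2 hlt)
    rw [Equiv.symm_apply_apply] at h1
    omega
  filter_upwards [eventually_ge_atTop M] with m hm
  refine le_trans ?_ hN
  refine h.toGood.mono π π.injective.injOn fun i => ?_
  unfold tl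
  split_ifs with h1 h2 h2
  · exact le_rfl
  · exact absurd (hM i (hm.trans h1)) h2
  · exact zero_le
  · exact le_rfl

/-- Permutation of the coordinates. -/
noncomputable def perm (π : Equiv.Perm ℕ) : ESp Φ h ≃ₗᵢ[ℝ] ESp Φ h where
  toFun x := mk (fun n => co x (π.symm n))
    (by
      rw [perm_fin π.symm x]
      exact co_fin x)
    (by
      exact perm_tl π.symm x)
  invFun x := mk (fun n => co x (π n))
    (by
      rw [perm_fin π x]
      exact co_fin x)
    (by
      exact perm_tl π x)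
  map_add' x y := by
    ext n
    simp
  map_smul' c x := by
    ext n
    simp
  left_inv x := by
    ext n
    simp
  right_inv x := by
    ext n
    simp
  norm_map' x := by
    rw [norm_def, norm_def]
    congr 1
    exact perm_fin π.symm x

theorem perm_e (π : Equiv.Perm ℕ) (n : ℕ) : perm π (e n : ESp Φ h) = e (π n) := by
  ext m
  change (Pi.single n (1 : ℝ) : ℕ → ℝ) (π.symm m) = (Pi.single (π n) (1 : ℝ) : ℕ → ℝ) m
  rw [Pi.single_apply, Pi.single_apply]
  congr 1
  rw [Equiv.symm_apply_eq]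

end ESp

end DHsp
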