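import Pool.Agent.Helper13.DH.SpWeak

/-!
# MP_6ad661_an, block DH-S6 : not isomorphic to `c₀`

`c0_add`: `g` vanishes at infinity: `|g i| < ε` outside a finite set `A`; eventually
`|f n i| < ε` for `i ∈ A`; so `‖g + f n‖ ≤ max ‖g‖ C + ε`.
`c0_sub`: choose the subsequence recursively: `‖∑_{k<K+1} f (n_k)‖ ≤ max (‖∑_{k<K}‖) C + 2^{-K}`,
so all the norms are `≤ C + 2`.
`not_c0`: `T : ESp ≃L C₀(ℕ,ℝ)`; `f n = T (e n)` is bounded by `‖T‖` and coordinatewise null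
(`weak_null` for `x ↦ T x i`).  So `‖∑_{k<K} e (n_k)‖ ≤ ‖T⁻¹‖ (‖T‖+2)` for all `K`, but it is
`(Φ (Fin K) 1).toReal`, which is unbounded (first growth hypothesis).
-/

open scoped ENNReal NNReal Topology ZeroAtInfty
open Function Filter

namespace DHsp

theorem c0_norm_apply_le (f : C₀(ℕ, ℝ)) (i : ℕ) : ‖f i‖ ≤ ‖f‖ := by
  rw [← ZeroAtInftyContinuousMap.norm_toBCF_eq_norm]
  exact f.toBCF.norm_coe_le_norm i

theorem c0_norm_le (f : C₀(ℕ, ℝ)) {c : ℝ} (hc : 0 ≤ c) (h : ∀ i, ‖f i‖ ≤ c) : ‖f‖ ≤ c := by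
  rw [← ZeroAtInftyContinuousMap.norm_toBCF_eq_norm]
  exact (BoundedContinuousFunction.norm_le hc).2 h

theorem c0_add (g : C₀(ℕ, ℝ)) (f : ℕ → C₀(ℕ, ℝ)) (C : ℝ) (hC : ∀ n, ‖f n‖ ≤ C)
    (hf : ∀ i, Tendsto (fun n => f n i) atTop (𝓝 0)) {ε : ℝ} (hε : 0 < ε) :
    ∀ᶠ n in atTop, ‖g + f n‖ ≤ max ‖g‖ C + ε := by
  have hg : Tendsto g atTop (𝓝 0) := by
    have := g.zero_at_infty'
    rwa [cocompact_eq_cofinite, Nat.cofinite_eq_atTop] at this
  have hg' : ∀ᶠ i in atTop, ‖g i‖ < ε := by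
    have := (tendsto_zero_iff_norm_tendsto_zero.1 hg).eventually (gt_mem_nhds hε)
    exact this
  obtain ⟨N, hN⟩ := eventually_atTop.1 hg'
  have h1 : ∀ᶠ n in atTop, ∀ i ∈ Finset.range N, ‖f n i‖ < ε := by
    rw [eventually_all_finset]
    intro i _
    exact (tendsto_zero_iff_norm_tendsto_zero.1 (hf i)).eventually (gt_mem_nhds hε)
  filter_upwards [h1] with n hn
  have hm : 0 ≤ max ‖g‖ C := (norm_nonneg g).trans (le_max_left _ _)
  refine c0_norm_le _ (by linarith) fun i => ?_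
  rw [ZeroAtInftyContinuousMap.add_apply]
  refine (norm_add_le _ _).trans ?_
  by_cases hi : i < N
  · exact add_le_add ((c0_norm_apply_le g i).trans (le_max_left _ _))
      (hn i (Finset.mem_range.2 hi)).le
  · have h2 := hN i (not_lt.1 hi)
    have h3 := ((c0_norm_apply_le (f n) i).trans (hC n)).trans (le_max_right ‖g‖ C)
    linarith

theorem c0_sub (f : ℕ → C₀(ℕ, ℝ)) (C : ℝ) (hC : ∀ n, ‖f n‖ ≤ C)
    (hf : ∀ i, Tendsto (fun n => f n i) atTop (𝓝 0)) :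
    ∃ φ : ℕ → ℕ, StrictMono φ ∧ ∀ K, ‖∑ k ∈ Finset.range K, f (φ k)‖ ≤ C + 2 := by
  have hstep : ∀ (K : ℕ) (st : ℕ × C₀(ℕ, ℝ)), ∃ n, st.1 < n ∧
      ‖st.2 + f n‖ ≤ max ‖st.2‖ C + (1 / 2 : ℝ) ^ K := by
    intro K st
    exact ((eventually_gt_atTop st.1).and
      (c0_add st.2 f C hC hf (by positivity : (0 : ℝ) < (1 / 2 : ℝ) ^ K))).exists
  choose nx hnx1 hnx2 using hstep
  let st : ℕ → ℕ × C₀(ℕ, ℝ) := fun K =>
    Nat.rec (0, 0) (fun K s => (nx K s, s.2 + f (nx K s))) K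
  have hst : ∀ K, st (K + 1) = (nx K (st K), (st K).2 + f (nx K (st K))) := fun K => rfl
  have hst0 : st 0 = (0, 0) := rfl
  let φ : ℕ → ℕ := fun K => (st (K + 1)).1
  have hφ : ∀ K, φ K = nx K (st K) := fun K => rfl
  have hsum : ∀ K, ∑ k ∈ Finset.range K, f (φ k) = (st K).2 := by
    intro K
    induction K with
    | zero => simp [hst0]
    | succ K ih => rw [Finset.sum_range_succ, ih, hst, hφ]
  have hC0 : 0 ≤ C := (norm_nonneg _).trans (hC 0)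
  have hb : ∀ K, ‖(st K).2‖ ≤ C + ∑ k ∈ Finset.range K, (1 / 2 : ℝ) ^ k := by
    intro K
    induction K with
    | zero => simp [hst0, hC0]
    | succ K ih =>
      rw [hst, Finset.sum_range_succ]
      refine (hnx2 K (st K)).trans ?_
      have h1 : 0 ≤ ∑ k ∈ Finset.range K, (1 / 2 : ℝ) ^ k :=
        Finset.sum_nonneg fun _ _ => by positivity
      have h2 : max ‖(st K).2‖ C ≤ C + ∑ k ∈ Finset.range K, (1 / 2 : ℝ) ^ k :=
        max_le ih (by linarith)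
      linarith
  refine ⟨φ, strictMono_nat_of_lt_succ fun K => ?_, fun K => ?_⟩
  · rw [hφ (K + 1)]
    exact hnx1 (K + 1) (st (K + 1))
  · rw [hsum]
    refine (hb K).trans ?_
    have h3 : ∑ k ∈ Finset.range K, (1 / 2 : ℝ) ^ k ≤ 2 := by
      have := Summable.sum_le_tsum (Finset.range K) (fun k _ => by positivity)
        (summable_geometric_two : Summable fun n : ℕ => (1 / 2 : ℝ) ^ n)
      rwa [tsum_geometric_two] at this
    linarith

namespace ESp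

variable {Φ : SFun} {h : NormF Φ}

theorem not_c0 (hA : ∀ M : ℕ, ∃ n : ℕ, (M : ℝ≥0∞) ≤ Φ (Fin n) (fun _ => 1))
    (hG : ∀ k M : ℕ, ∃ n₀ : ℕ, ∀ n ≥ n₀, (M : ℝ≥0∞) * Φ (Fin n) (fun _ => 1) ^ k ≤ n) :
    IsEmpty (ESp Φ h ≃L[ℝ] C₀(ℕ, ℝ)) := by
  constructor
  intro T
  let T' : ESp Φ h →L[ℝ] C₀(ℕ, ℝ) := T
  let S' : C₀(ℕ, ℝ) →L[ℝ] ESp Φ h := T.symm
  let f : ℕ → C₀(ℕ, ℝ) := fun n => T' (e n)
  have hC : ∀ n, ‖f n‖ ≤ ‖T'‖ := by
    intro n
    have := T'.le_opNorm (e n : ESp Φ h)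
    rwa [norm_e, mul_one] at this
  have hf : ∀ i, Tendsto (fun n => f n i) atTop (𝓝 0) := by
    intro i
    let L : ESp Φ h →ₗ[ℝ] ℝ :=
      { toFun := fun x => T' x i
        map_add' := fun x y => by rw [map_add]; rfl
        map_smul' := fun c x => by rw [map_smul]; rfl }
    let g : ESp Φ h →L[ℝ] ℝ := L.mkContinuous ‖T'‖ fun x =>
      (c0_norm_apply_le _ i).trans (T'.le_opNorm x)
    exact weak_null hG g
  obtain ⟨φ, hφ, hb⟩ := c0_sub f ‖T'‖ hC hf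
  obtain ⟨M, hM⟩ := exists_nat_gt (‖S'‖ * (‖T'‖ + 2))
  obtain ⟨n, hn⟩ := hA M
  have h1 : ‖∑ k ∈ Finset.range n, (e (φ k) : ESp Φ h)‖ ≤ ‖S'‖ * (‖T'‖ + 2) := by
    have h2 : ∑ k ∈ Finset.range n, (e (φ k) : ESp Φ h)
        = S' (∑ k ∈ Finset.range n, f (φ k)) := by
      rw [map_sum]
      refine Finset.sum_congr rfl fun k _ => ?_
      exact (T.symm_apply_apply _).symm
    rw [h2]
    exact (S'.le_opNorm _).trans (mul_le_mul_of_nonneg_left (hb n) (norm_nonneg _))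
  have h3 := enorm_sum_e_card (Φ := Φ) (h := h) (fun _ => 1) (Finset.range n) hφ.injective
    (by simp)
  have h5 : ∀ m : ℕ, m = n → Φ (Fin m) (fun _ => 1) = Φ (Fin n) (fun _ => 1) := by
    rintro _ rfl
    rfl
  rw [h5 _ (Finset.card_range n)] at h3
  simp only [one_smul] at h3
  rw [← h3] at hn
  have h4 : ((M : ℝ) : ℝ) ≤ ‖∑ k ∈ Finset.range n, (e (φ k) : ESp Φ h)‖ := by
    rw [← ofReal_norm, ← ENNReal.ofReal_natCast, ENNReal.ofReal_le_ofReal_iff (norm_nonneg _)] at hn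
    exact hn
  linarith

end ESp

end DHsp
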