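import Pool.Agent.Helper13.DH.SpRefl1

/-!
# Block DR-C : spreading models of arbitrary sequences, up to isomorphism

`iso_of_equiv`: the map `∑ a_i e_i ↦ ∑ a_i f_i` is well defined on the span of `e` (by the
inequality), bounded, with bounded inverse; extend to the closures (both spaces are complete).

`exists_coord_limit`: diagonal argument (or Tychonoff / `isCompact_univ_pi` in the first countable
space `ℕ → ℝ`, `IsCompact.tendsto_subseq`): a subsequence converges coordinatewise to some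
`z : ℕ → ℝ`; `‖∑_{k<N} z_k e_k‖ ≤ C` by continuity of finite sums (`‖∑_{k<N} co x k • e k‖ ≤ ‖x‖`);
`bddComplete`.

`dense_e`, `dense_f`: `tail_tendsto`; for `f_i = e_0 + e_{i+1}`:
`(1/n) ∑_{i<n} f_i = e_0 + (1/n) ∑_{i<n} e_{i+1} → e_0` because `lam n / n → 0` (`growB 1`).

`shift_norm`: `∑ a_i f_i = (∑ a_i) e_0 + ∑ a_i e_{i+1}`, solidity.

`spreading_iso`: see the proof in words in the README (`h13_DR_README.md`).
-/

open scoped ENNReal NNReal Topology
open Function Filter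

namespace DHsp

namespace ESp

variable {Φ : SFun} {h : NormF Φ}

theorem norm_trunc_le68 (x : ESp Φ h) (N : ℕ) :
    ‖∑ k ∈ Finset.range N, co x k • (e k : ESp Φ h)‖ ≤ ‖x‖ := by
  apply HasSolidNorm.solid
  rw [le_iff]
  intro i
  rw [co_abs, co_abs, co_sum_e]
  split_ifs
  · exact le_rfl
  · rw [abs_zero]
    exact abs_nonneg _

theorem exists_coord_limit (H : Hyp Φ) (x : ℕ → ESp Φ h) (C : ℝ) (hx : ∀ n, ‖x n‖ ≤ C) :
    ∃ φ : ℕ → ℕ, StrictMono φ ∧ ∃ z : ESp Φ h,
      ∀ i, Tendsto (fun n => co (x (φ n)) i) atTop (𝓝 (co z i)) := by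
  have hK : IsCompact (Set.pi Set.univ (fun _ : ℕ => Set.Icc (-C) C)) :=
    isCompact_univ_pi fun _ => isCompact_Icc
  have hmem : ∀ n, co (x n) ∈ Set.pi Set.univ (fun _ : ℕ => Set.Icc (-C) C) := by
    intro n i _
    exact abs_le.1 ((abs_co_le (x n) i).trans (hx n))
  obtain ⟨z, -, φ, hφ, hlim⟩ := hK.tendsto_subseq hmem
  have hlim' : ∀ i, Tendsto (fun n => co (x (φ n)) i) atTop (𝓝 (z i)) := by
    intro i
    exact (tendsto_pi_nhds.1 hlim) i
  have hbound : ∀ N : ℕ, ‖∑ k ∈ Finset.range N, z k • (e k : ESp Φ h)‖ ≤ C := by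
    intro N
    have ht : Tendsto (fun n => ∑ k ∈ Finset.range N, co (x (φ n)) k • (e k : ESp Φ h)) atTop
        (𝓝 (∑ k ∈ Finset.range N, z k • (e k : ESp Φ h))) :=
      tendsto_finsetSum _ fun k _ => (hlim' k).smul_const _
    exact le_of_tendsto' ht.norm fun n => (norm_trunc_le68 (x (φ n)) N).trans (hx (φ n))
  obtain ⟨w, hw⟩ := bddComplete H z C hbound
  refine ⟨φ, hφ, w, fun i => ?_⟩
  rw [hw]
  exact hlim' i

end ESp

end DHsp
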