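import Pool.Agent.Helper13.DH.SpSM1

/-!
# Block DR-C : spreading models of arbitrary sequences, up to isomorphism

`iso_of_equiv`: the map `∑ a_i e_i ↦ ∑ a_i f_i` is well defined on the span of `e` (by the
inequality), bounded, with bounded inverse; extend to the closures (both spaces are complete).

`exists_coord_limit`: diagonal argument (or Tychonoff / `isCompact_univ_pi` in the first countable
space `ℕ → ℝ`, `IsCompact.tendsto_subseq`): a subsequence converges coordinatewise to some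
`z : ℕ → ℝ`; `‖∑_{k<N} z_k e_k‖ ≤ C` by continuity of finite sums (`‖∑_{k<N} co x k • e k‖ ≤ ‖x‖`);
`bddComplete`.

`dense_e`, `dense_f`: `tail_tendsto`; for `f_i = e_0 + e_{i+1}`:
`(1/n) ∑_{i<n} f_i = e_0 + (1/n) ∑_{i<n} e_{i+1} → e_0` because `lam n / n → 0` (`growB 1`).

`shift_norm`: `∑ a_i f_i = (∑ a_i) e_0 + ∑ a_i e_{i+1}`, solidity.

`spreading_iso`: see the proof in words in the README (`h13_DR_README.md`).
-/

open scoped ENNReal NNReal Topology
open Function Filter

namespace DHsp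

namespace ESp

variable {Φ : SFun} {h : NormF Φ}

theorem dense_e : (Submodule.span ℝ (Set.range (e : ℕ → ESp Φ h))).topologicalClosure = ⊤ := by
  rw [eq_top_iff]
  intro x _
  have h1 : ∀ n, ∑ k ∈ Finset.range n, co x k • (e k : ESp Φ h)
      ∈ Submodule.span ℝ (Set.range (e : ℕ → ESp Φ h)) := fun n =>
    Submodule.sum_mem _ fun k _ =>
      Submodule.smul_mem _ _ (Submodule.subset_span (Set.mem_range_self k))
  exact mem_closure_of_tendsto (tail_tendsto x) (Eventually.of_forall h1)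

theorem norm_avg_h1 (H : Hyp Φ) :
    Tendsto (fun n : ℕ => (n : ℝ)⁻¹ • ∑ i ∈ Finset.range n, (e (i + 1) : ESp Φ h)) atTop
      (𝓝 0) := by
  rw [tendsto_zero_iff_norm_tendsto_zero, Metric.tendsto_atTop]
  intro ε hε
  obtain ⟨M, hM⟩ := exists_nat_gt (1 / ε)
  have hM0 : (0 : ℝ) < M := lt_trans (by positivity) hM
  obtain ⟨n₀, hn₀⟩ := H.growB 1 M
  refine ⟨max n₀ 1, fun n hn => ?_⟩
  have hn1 : n₀ ≤ n := le_trans (le_max_left _ _) hn
  have hn2 : 1 ≤ n := le_trans (le_max_right _ _) hn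
  have hnpos : (0 : ℝ) < n := by exact_mod_cast hn2
  have h2 := hn₀ n hn1
  rw [pow_one] at h2
  have h3 : ‖∑ i ∈ Finset.range n, (e (i + 1) : ESp Φ h)‖ₑ ≤ Φ (Fin n) (fun _ => 1) := by
    have h4 := enorm_sum_e (Φ := Φ) (h := h) (fun _ => (1 : ℝ)) (Finset.range n)
      (φ := fun i => i + 1) (fun a b hab => by simpa using hab)
    simp only [one_smul] at h4
    rw [h4]
    classical
    by_cases hn0 : n = 0
    · omega
    have : Nonempty (Fin n) := ⟨⟨0, by omega⟩⟩
    refine h.toGood.mono (fun k => if hk : k < n then (⟨k, hk⟩ : Fin n) else ⟨0, by omega⟩)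
      ?_ ?_
    · intro i hi j hj hij
      have hi' : i < n := by
        by_contra hcon
        apply hi
        simp only [Finset.mem_range]
        rw [if_neg hcon]
      have hj' : j < n := by
        by_contra hcon
        apply hj
        simp only [Finset.mem_range]
        rw [if_neg hcon]
      simp only [dif_pos hi', dif_pos hj', Fin.mk.injEq] at hij
      exact hij
    · intro i
      split_ifs <;> simp
  have h5 : (M : ℝ) * ‖∑ i ∈ Finset.range n, (e (i + 1) : ESp Φ h)‖ ≤ n := by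
    have h6 : (M : ℝ≥0∞) * ‖∑ i ∈ Finset.range n, (e (i + 1) : ESp Φ h)‖ₑ ≤ (n : ℝ≥0∞) :=
      le_trans (by gcongr) h2
    have h7 := ENNReal.toReal_mono (ENNReal.natCast_ne_top n) h6
    rw [ENNReal.toReal_mul] at h7
    simpa using h7
  rw [Real.dist_eq, sub_zero, abs_of_nonneg (norm_nonneg _), norm_smul, norm_inv,
    Real.norm_of_nonneg hnpos.le]
  rw [inv_mul_lt_iff₀ hnpos]
  have h8 : ‖∑ i ∈ Finset.range n, (e (i + 1) : ESp Φ h)‖ ≤ n / M := by
    rw [le_div_iff₀ hM0]; linarith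
  refine lt_of_le_of_lt h8 ?_
  rw [div_lt_iff₀ hM0]
  have h9 : 1 < M * ε := by
    rw [div_lt_iff₀ hε] at hM
    exact hM
  nlinarith

theorem dense_f (H : Hyp Φ) : (Submodule.span ℝ (Set.range
    (fun i : ℕ => (e 0 + e (i + 1) : ESp Φ h)))).topologicalClosure = ⊤ := by
  set W := (Submodule.span ℝ (Set.range
    (fun i : ℕ => (e 0 + e (i + 1) : ESp Φ h)))) with hW
  have hf : ∀ i : ℕ, (e 0 + e (i + 1) : ESp Φ h) ∈ W := fun i =>
    Submodule.subset_span ⟨i, rfl⟩
  have h0 : (e 0 : ESp Φ h) ∈ W.topologicalClosure := by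
    have h1 : Tendsto (fun n : ℕ => ((n : ℝ)⁻¹ • ∑ i ∈ Finset.range n,
        (e 0 + e (i + 1) : ESp Φ h))) atTop (𝓝 (e 0)) := by
      have h2 : Tendsto (fun n : ℕ => (e 0 : ESp Φ h)
          + (n : ℝ)⁻¹ • ∑ i ∈ Finset.range n, (e (i + 1) : ESp Φ h)) atTop (𝓝 (e 0 + 0)) :=
        tendsto_const_nhds.add (norm_avg_h1 H)
      rw [add_zero] at h2
      refine h2.congr' ?_
      filter_upwards [eventually_ge_atTop 1] with n hn
      have hn' : (n : ℝ) ≠ 0 := by positivity
      rw [Finset.sum_add_distrib, smul_add, Finset.sum_const, Finset.card_range,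
        ← Nat.cast_smul_eq_nsmul ℝ, smul_smul, inv_mul_cancel₀ hn', one_smul]
    refine mem_closure_of_tendsto h1 (Eventually.of_forall fun n => ?_)
    exact W.smul_mem _ (Submodule.sum_mem _ fun i _ => hf i)
  have h1 : ∀ n : ℕ, (e n : ESp Φ h) ∈ W.topologicalClosure := by
    intro n
    rcases n with _ | n
    · exact h0
    · have h2 := W.topologicalClosure.sub_mem (W.le_topologicalClosure (hf n)) h0
      simpa using h2
  have h2 : Submodule.span ℝ (Set.range (e : ℕ → ESp Φ h)) ≤ W.topologicalClosure := by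
    rw [Submodule.span_le]
    rintro _ ⟨n, rfl⟩
    exact h1 n
  rw [eq_top_iff, ← dense_e (Φ := Φ) (h := h)]
  exact Submodule.topologicalClosure_minimal _ h2 W.isClosed_topologicalClosure

theorem shift_norm {k : ℕ} (a : Fin k → ℝ) :
    ‖∑ i, a i • (e 0 + e (i.val + 1) : ESp Φ h)‖
        ≤ |∑ i, a i| + ‖∑ i, a i • (e i.val : ESp Φ h)‖ ∧
      |∑ i, a i| + ‖∑ i, a i • (e i.val : ESp Φ h)‖
        ≤ 2 * ‖∑ i, a i • (e 0 + e (i.val + 1) : ESp Φ h)‖ := by
  have h1 : ∑ i, a i • (e 0 + e (i.val + 1) : ESp Φ h)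
      = (∑ i, a i) • (e 0 : ESp Φ h) + ∑ i, a i • (e (i.val + 1) : ESp Φ h) := by
    rw [Finset.sum_smul, ← Finset.sum_add_distrib]
    exact Finset.sum_congr rfl fun i _ => smul_add _ _ _
  have h2 : ‖∑ i, a i • (e (i.val + 1) : ESp Φ h)‖ = ‖∑ i, a i • (e i.val : ESp Φ h)‖ :=
    sum_fin_e a (fun i => i.val + 1) (fun i j hij => by
      simp only at hij
      exact Fin.ext (by omega))
  have hco : ∀ m, co (∑ i, a i • (e (i.val + 1) : ESp Φ h)) m
      = ∑ i : Fin k, a i * (Pi.single (i.val + 1) (1 : ℝ) : ℕ → ℝ) m := by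
    intro m
    rw [map_sum, Finset.sum_apply]
    exact Finset.sum_congr rfl fun i _ => by rw [co_smul, co_e]
  have hco0 : co (∑ i, a i • (e (i.val + 1) : ESp Φ h)) 0 = 0 := by
    rw [hco]
    apply Finset.sum_eq_zero
    intro i _
    rw [Pi.single_apply, if_neg (by omega), mul_zero]
  constructor
  · rw [h1, ← h2]
    refine (norm_add_le _ _).trans ?_
    rw [norm_smul, norm_e, mul_one, Real.norm_eq_abs]
  · rw [← h2]
    have h3 : |∑ i, a i| ≤ ‖∑ i, a i • (e 0 + e (i.val + 1) : ESp Φ h)‖ := by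
      have h4 := abs_co_le (∑ i, a i • (e 0 + e (i.val + 1) : ESp Φ h)) 0
      rw [h1, map_add, Pi.add_apply, hco0, add_zero, co_smul, co_e, Pi.single_eq_same,
        mul_one] at h4
      rw [h1]
      exact h4
    have h5 : ‖∑ i, a i • (e (i.val + 1) : ESp Φ h)‖
        ≤ ‖∑ i, a i • (e 0 + e (i.val + 1) : ESp Φ h)‖ := by
      refine norm_le_norm_of_abs_le_abs ?_
      intro m
      rw [co_abs, co_abs, h1, map_add, Pi.add_apply, co_smul, co_e]
      rcases Nat.eq_zero_or_pos m with rfl | hm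
      · rw [hco0]; simp
      · rw [Pi.single_eq_of_ne (by omega : m ≠ 0)]
        simp
    linarith

end ESp

end DHsp
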