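import Pool.Agent.Helper13.DH.SpSM1

/-!
# Block DR-C : spreading models of arbitrary sequences, up to isomorphism

`iso_of_equiv`: the map `∑ a_i e_i ↦ ∑ a_i f_i` is well defined on the span of `e` (by the
inequality), bounded, with bounded inverse; extend to the closures (both spaces are complete).

`exists_coord_limit`: diagonal argument (or Tychonoff / `isCompact_univ_pi` in the first countable
space `ℕ → ℝ`, `IsCompact.tendsto_subseq`): a subsequence converges coordinatewise to some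
`z : ℕ → ℝ`; `‖∑_{k<N} z_k e_k‖ ≤ C` by continuity of finite sums (`‖∑_{k<N} co x k • e k‖ ≤ ‖x‖`);
`bddComplete`.

`dense_e`, `dense_f`: `tail_tendsto`; for `f_i = e_0 + e_{i+1}`:
`(1/n) ∑_{i<n} f_i = e_0 + (1/n) ∑_{i<n} e_{i+1} → e_0` because `lam n / n → 0` (`growB 1`).

`shift_norm`: `∑ a_i f_i = (∑ a_i) e_0 + ∑ a_i e_{i+1}`, solidity.

`spreading_iso`: see the proof in words in the README (`h13_DR_README.md`).
-/

open scoped ENNReal NNReal Topology
open Function Filter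

namespace DHsp

namespace ESp

variable {Φ : SFun} {h : NormF Φ}

namespace H48

theorem exists_sub (y : ℕ → ℝ) (hy : Tendsto y atTop (𝓝 0)) (δ : ℝ) (hδ : 0 < δ) :
    ∃ φ : ℕ → ℕ, StrictMono φ ∧ ∀ k, |y (φ k)| ≤ δ / 2 / 2 ^ k := by
  refine Filter.extraction_forall_of_eventually' (P := fun n k => |y k| ≤ δ / 2 / 2 ^ n) fun n => ?_
  have hpos : 0 < δ / 2 / 2 ^ n := by positivity
  have h1 := (Metric.tendsto_atTop.1 hy) _ hpos
  obtain ⟨N, hN⟩ := h1
  refine ⟨N, fun k hk => ?_⟩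
  have h2 := hN k hk
  rw [Real.dist_eq, sub_zero] at h2
  exact h2.le

theorem sum_geom {k : ℕ} (m : Fin k → ℕ) (hm : Injective m) (δ : ℝ) (hδ : 0 < δ) :
    ∑ i, δ / 2 / 2 ^ (m i) ≤ δ := by
  have h1 : ∑ i, δ / 2 / 2 ^ (m i) = ∑ j ∈ Finset.univ.map ⟨m, hm⟩, δ / 2 / (2 : ℝ) ^ j := by
    rw [Finset.sum_map]
    rfl
  rw [h1]
  calc _ ≤ ∑' j : ℕ, δ / 2 / (2 : ℝ) ^ j :=
        (summable_geometric_two' δ).sum_le_tsum _ fun j _ => by positivity
    _ = δ := tsum_geometric_two' δ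

end H48

/-- The asymptotic norm of a sequence `z + y_n`, with `y_n` equivalent to the basis. -/
theorem sum_plus (z : ESp Φ h) (hz : z ≠ 0) (y : ℕ → ESp Φ h) (A : ℝ) (hA : 0 < A)
    (h3 : ∀ i, Tendsto (fun n => co (y n) i) atTop (𝓝 0))
    (h4 : ∀ (a : ℕ → ℝ) (s : Finset ℕ),
      ‖∑ k ∈ s, a k • y k‖ ≤ A * ‖∑ k ∈ s, a k • (e k : ESp Φ h)‖ ∧
      ‖∑ k ∈ s, a k • (e k : ESp Φ h)‖ ≤ A * ‖∑ k ∈ s, a k • y k‖) :
    ∃ φ : ℕ → ℕ, StrictMono φ ∧ ∃ B : ℝ, 0 < B ∧ ∀ (k : ℕ) (a : Fin k → ℝ) (m : Fin k → ℕ),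
      StrictMono m →
      |∑ i, a i| + ‖∑ i, a i • (e i.val : ESp Φ h)‖
          ≤ B * ‖∑ i, a i • (z + y (φ (m i)))‖ ∧
        ‖∑ i, a i • (z + y (φ (m i)))‖
          ≤ B * (|∑ i, a i| + ‖∑ i, a i • (e i.val : ESp Φ h)‖) := by
  classical
  obtain ⟨i₀, hi₀⟩ : ∃ i₀, co z i₀ ≠ 0 := by
    by_contra hcon
    push Not at hcon
    apply hz
    ext n
    rw [hcon n]
    simp
  set c : ℝ := |co z i₀| with hc
  have hc0 : 0 < c := abs_pos.2 hi₀
  set δ : ℝ := min (1 / A) (c / 2 / (A * (‖z‖ + 1))) with hδ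
  have hδ0 : 0 < δ := lt_min (by positivity) (by positivity)
  have hδ1 : δ * A ≤ 1 := by
    have h1 : δ ≤ 1 / A := min_le_left _ _
    calc δ * A ≤ 1 / A * A := mul_le_mul_of_nonneg_right h1 hA.le
      _ = 1 := by field_simp
  have hδ2 : δ * A * ‖z‖ ≤ c / 2 := by
    have h1 : δ ≤ c / 2 / (A * (‖z‖ + 1)) := min_le_right _ _
    have h2 : δ * (A * (‖z‖ + 1)) ≤ c / 2 := by
      rwa [le_div_iff₀ (by positivity)] at h1
    nlinarith [mul_pos hδ0 hA]
  obtain ⟨φ, hφ, hφy⟩ := H48.exists_sub (fun n => co (y n) i₀) (h3 i₀) δ hδ0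
  refine ⟨φ, hφ, 4 / c + A * (1 + 4 / c * ‖z‖) + ‖z‖ + A, by positivity, fun k a m hm => ?_⟩
  set n : Fin k → ℕ := fun i => φ (m i) with hn
  have hninj : Injective n := hφ.injective.comp hm.injective
  set S : ℝ := ∑ i, a i with hS
  set Y : ESp Φ h := ∑ i, a i • y (n i) with hY
  set E : ℝ := ‖∑ i, a i • (e i.val : ESp Φ h)‖ with hE
  have hsplit : ∑ i, a i • (z + y (φ (m i))) = S • z + Y := by
    simp only [smul_add, Finset.sum_add_distrib, ← Finset.sum_smul]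
    rfl
  have hEn : ‖∑ i, a i • (e (n i) : ESp Φ h)‖ = E := sum_fin_e a n hninj
  -- the two-sided estimate for `Y`
  have hext : ∀ u : ℕ → ESp Φ h,
      ∑ j ∈ Finset.univ.image n, Function.extend n a 0 j • u j = ∑ i, a i • u (n i) := by
    intro u
    rw [Finset.sum_image (fun i _ j _ hij => hninj hij)]
    refine Finset.sum_congr rfl fun i _ => ?_
    rw [hninj.extend_apply]
  obtain ⟨h5, h6⟩ := h4 (Function.extend n a 0) (Finset.univ.image n)
  rw [hext y, hext (fun j => e j), hEn] at h5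
  rw [hext y, hext (fun j => e j), hEn] at h6
  -- coefficients are bounded by `E`
  have hEnn : 0 ≤ E := norm_nonneg _
  have haE : ∀ i, |a i| ≤ E := by
    intro i
    have h7 := abs_co_le (∑ i, a i • (e i.val : ESp Φ h)) i.val
    have h8 : co (∑ i, a i • (e i.val : ESp Φ h)) i.val = a i := by
      rw [map_sum, Finset.sum_apply]
      rw [Finset.sum_eq_single i]
      · rw [map_smul, Pi.smul_apply, co_e, Pi.single_eq_same, smul_eq_mul, mul_one]
      · intro j _ hj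
        rw [map_smul, Pi.smul_apply, co_e, Pi.single_eq_of_ne, smul_zero]
        intro hij
        exact hj (Fin.ext hij.symm)
      · intro hi
        exact absurd (Finset.mem_univ i) hi
    rw [h8] at h7
    exact h7
  have hcoY : |co Y i₀| ≤ E * δ := by
    have h9 : co Y i₀ = ∑ i, a i * co (y (n i)) i₀ := by
      rw [hY, map_sum, Finset.sum_apply]
      refine Finset.sum_congr rfl fun i _ => ?_
      rw [map_smul, Pi.smul_apply, smul_eq_mul]
    rw [h9]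
    calc |∑ i, a i * co (y (n i)) i₀| ≤ ∑ i, |a i * co (y (n i)) i₀| := Finset.abs_sum_le_sum_abs _ _
      _ ≤ ∑ i, E * (δ / 2 / 2 ^ (m i)) := by
          refine Finset.sum_le_sum fun i _ => ?_
          rw [abs_mul]
          exact mul_le_mul (haE i) (hφy (m i)) (abs_nonneg _) hEnn
      _ = E * ∑ i, δ / 2 / 2 ^ (m i) := by rw [Finset.mul_sum]
      _ ≤ E * δ := mul_le_mul_of_nonneg_left (H48.sum_geom m hm.injective δ hδ0) hEnn
  set W : ℝ := ‖S • z + Y‖ with hW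
  have hW0 : 0 ≤ W := norm_nonneg _
  have hYW : ‖Y‖ ≤ W + |S| * ‖z‖ := by
    have h10 : Y = (S • z + Y) - S • z := by abel
    calc ‖Y‖ = ‖(S • z + Y) - S • z‖ := by rw [← h10]
      _ ≤ ‖S • z + Y‖ + ‖S • z‖ := norm_sub_le _ _
      _ = W + |S| * ‖z‖ := by rw [norm_smul, Real.norm_eq_abs]
  have hSc : |S| * c ≤ W + E * δ := by
    have h11 := abs_co_le (S • z + Y) i₀
    have h12 : co (S • z + Y) i₀ = S * co z i₀ + co Y i₀ := by
      rw [map_add, Pi.add_apply, map_smul, Pi.smul_apply, smul_eq_mul]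
    rw [h12] at h11
    have h13 : |S * co z i₀| ≤ |S * co z i₀ + co Y i₀| + |co Y i₀| := by
      have := abs_sub (S * co z i₀ + co Y i₀) (co Y i₀)
      rwa [add_sub_cancel_right] at this
    rw [abs_mul] at h13
    linarith
  have hS1 : |S| ≤ 4 / c * W := by
    have h14 : E * δ ≤ δ * A * ‖Y‖ := by nlinarith
    have h15 : δ * A * ‖Y‖ ≤ δ * A * (W + |S| * ‖z‖) :=
      mul_le_mul_of_nonneg_left hYW (by positivity)
    have h16 : δ * A * W ≤ 1 * W := mul_le_mul_of_nonneg_right hδ1 hW0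
    have h17 : δ * A * ‖z‖ * |S| ≤ c / 2 * |S| := mul_le_mul_of_nonneg_right hδ2 (abs_nonneg _)
    have h18 : |S| * (c / 2) ≤ 2 * W := by nlinarith
    rw [div_mul_eq_mul_div, le_div_iff₀ hc0]
    linarith
  have hY1 : ‖Y‖ ≤ (1 + 4 / c * ‖z‖) * W := by
    have h19 : |S| * ‖z‖ ≤ 4 / c * W * ‖z‖ := mul_le_mul_of_nonneg_right hS1 (norm_nonneg _)
    nlinarith
  rw [hsplit]
  constructor
  · have h20 : E ≤ A * ((1 + 4 / c * ‖z‖) * W) := h6.trans (mul_le_mul_of_nonneg_left hY1 hA.le)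
    have h21 : 0 ≤ (‖z‖ + A) * W := by positivity
    calc |S| + E ≤ 4 / c * W + A * ((1 + 4 / c * ‖z‖) * W) := add_le_add hS1 h20
      _ ≤ 4 / c * W + A * ((1 + 4 / c * ‖z‖) * W) + (‖z‖ + A) * W := by linarith
      _ = (4 / c + A * (1 + 4 / c * ‖z‖) + ‖z‖ + A) * W := by ring
  · have h22 : W ≤ |S| * ‖z‖ + ‖Y‖ := by
      calc W ≤ ‖S • z‖ + ‖Y‖ := norm_add_le _ _
        _ = |S| * ‖z‖ + ‖Y‖ := by rw [norm_smul, Real.norm_eq_abs]
    have hzn : 0 ≤ ‖z‖ := norm_nonneg z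
    have hSn : 0 ≤ |S| := abs_nonneg S
    have h23 : 0 ≤ (4 / c + A * (1 + 4 / c * ‖z‖)) * (|S| + E) := by positivity
    have h24 : 0 ≤ A * |S| := by positivity
    have h25 : 0 ≤ ‖z‖ * E := by positivity
    calc W ≤ |S| * ‖z‖ + A * E := h22.trans (by linarith)
      _ ≤ (4 / c + A * (1 + 4 / c * ‖z‖)) * (|S| + E) + (‖z‖ + A) * (|S| + E) := by nlinarith
      _ = (4 / c + A * (1 + 4 / c * ‖z‖) + ‖z‖ + A) * (|S| + E) := by ring

end ESp

end DHsp
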