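import Pool.Agent.Helper13.DH.SpBasis

/-!
# Block DR-N : coordinatewise null sequences

`gliding`: choose `φ` and `p_0 < p_1 < ...` recursively: given `p_n`, choose `φ n` (large) such that
`‖P_{p_n} y_{φ n}‖ ≤ δ_n/2` (finitely many coordinates tend to 0), and `p_{n+1} > p_n` such that
`‖y_{φ n} - P_{p_{n+1}} y_{φ n}‖ ≤ δ_n/2` (`tail_tendsto`).
`u_n = ∑_{k ∈ [p_n,p_{n+1})} co (y_{φ n}) k • e k`.

`two_sided_null`: `gliding` with `δ_n = (c/4) 2^{-n}`; `c/2 ≤ ‖u_n‖ ≤ 2 C` (`C ≥ c`); `two_sided`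
for `u_n/‖u_n‖` gives `ψ` and `A`.  Upper bound: `‖∑ a_k y_{φψ k}‖ ≤ ‖∑ a_k u_{ψ k}‖ +
∑ |a_k| δ_{ψ k} ≤ A ‖∑ a_k ‖u_{ψ k}‖ e_k‖ + (c/2) max |a_k| ≤ (2 A C + c/2) ‖∑ a_k e_k‖`
(`|a_k| ≤ ‖∑ a_k e_k‖` by `abs_co_le`, solidity of the norm).  Lower bound: choose `M` such that
`∑_{k≥M} δ_{ψ k} ≤ c/(4A)` and use the subsequence `k ↦ φ (ψ (k + M))`: `‖∑_{k∈s} a_k e_{k+M}‖ =
‖∑_{k∈s} a_k e_k‖` (`enorm_sum_e`), so `‖∑ a_k y‖ ≥ (c/2)/A ‖∑ a_k e_k‖ - c/(4A) max|a_k| ≥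
c/(4A) ‖∑ a_k e_k‖`.
-/

open scoped ENNReal NNReal Topology
open Function Filter

namespace DHsp

namespace ESp

variable {Φ : SFun} {h : NormF Φ}

/-- The initial projection. -/
noncomputable def pr5 (p : ℕ) (x : ESp Φ h) : ESp Φ h := ∑ k ∈ Finset.range p, co x k • e k

theorem co_pr5 (p : ℕ) (x : ESp Φ h) (i : ℕ) : co (pr5 p x) i = if i < p then co x i else 0 := by
  unfold pr5
  rw [co_sum_e]
  simp only [Finset.mem_range]

theorem norm_pr5_le (p : ℕ) (x : ESp Φ h) : ‖pr5 p x‖ ≤ ∑ k ∈ Finset.range p, |co x k| := by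
  unfold pr5
  refine (norm_sum_le _ _).trans (Finset.sum_le_sum fun k _ => ?_)
  rw [norm_smul, norm_e, mul_one, Real.norm_eq_abs]

theorem pr5_tendsto (y : ℕ → ESp Φ h) (hy : ∀ i, Tendsto (fun n => co (y n) i) atTop (𝓝 0))
    (p : ℕ) : Tendsto (fun n => ‖pr5 p (y n)‖) atTop (𝓝 0) := by
  have h1 : Tendsto (fun n => ∑ k ∈ Finset.range p, |co (y n) k|) atTop
      (𝓝 (∑ k ∈ Finset.range p, (0 : ℝ))) := by
    refine tendsto_finsetSum _ fun k _ => ?_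
    simpa using (hy k).abs
  rw [Finset.sum_const_zero] at h1
  exact squeeze_zero (fun n => norm_nonneg _) (fun n => norm_pr5_le p (y n)) h1

theorem step5 (y : ℕ → ESp Φ h) (hy : ∀ i, Tendsto (fun n => co (y n) i) atTop (𝓝 0))
    (ε : ℝ) (hε : 0 < ε) (f p : ℕ) :
    ∃ q : ℕ × ℕ, f < q.1 ∧ p < q.2 ∧ ‖pr5 p (y q.1)‖ ≤ ε / 2 ∧
      ‖y q.1 - pr5 q.2 (y q.1)‖ ≤ ε / 2 := by
  have h1 : ∀ᶠ n in atTop, ‖pr5 p (y n)‖ < ε / 2 :=
    (pr5_tendsto y hy p).eventually_lt_const (half_pos hε)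
  obtain ⟨m, hm1, hm2⟩ := (h1.and (eventually_gt_atTop f)).exists
  have h2 : Tendsto (fun n => ‖y m - pr5 n (y m)‖) atTop (𝓝 0) := by
    have h3 := tail_tendsto (y m)
    have h4 : Tendsto (fun n => y m - pr5 n (y m)) atTop (𝓝 (y m - y m)) :=
      tendsto_const_nhds.sub h3
    rw [sub_self] at h4
    simpa using h4.norm
  have h5 : ∀ᶠ n in atTop, ‖y m - pr5 n (y m)‖ < ε / 2 := h2.eventually_lt_const (half_pos hε)
  obtain ⟨k, hk1, hk2⟩ := (h5.and (eventually_gt_atTop p)).exists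
  exact ⟨(m, k), hm2, hk2, hm1.le, hk1.le⟩

theorem gliding (y : ℕ → ESp Φ h) (hy : ∀ i, Tendsto (fun n => co (y n) i) atTop (𝓝 0))
    (δ : ℕ → ℝ) (hδ : ∀ n, 0 < δ n) :
    ∃ φ : ℕ → ℕ, StrictMono φ ∧ ∃ u : ℕ → ESp Φ h,
      (Pairwise fun m n => |u m| ⊓ |u n| = 0) ∧ ∀ n, ‖y (φ n) - u n‖ ≤ δ n := by
  have hstep : ∀ (n : ℕ) (q0 : ℕ × ℕ), ∃ q : ℕ × ℕ, q0.1 < q.1 ∧ q0.2 < q.2 ∧
      ‖pr5 q0.2 (y q.1)‖ ≤ δ n / 2 ∧ ‖y q.1 - pr5 q.2 (y q.1)‖ ≤ δ n / 2 :=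
    fun n q0 => step5 y hy (δ n) (hδ n) q0.1 q0.2
  choose g hg using hstep
  let s : ℕ → ℕ × ℕ := fun n => Nat.rec (0, 0) (fun n q => g n q) n
  have hs : ∀ n, s (n + 1) = g n (s n) := fun n => rfl
  have hs1 : ∀ n, (s n).1 < (s (n + 1)).1 := fun n => by rw [hs]; exact (hg n (s n)).1
  have hs2 : ∀ n, (s n).2 < (s (n + 1)).2 := fun n => by rw [hs]; exact (hg n (s n)).2.1
  have hs3 : ∀ n, ‖pr5 (s n).2 (y (s (n + 1)).1)‖ ≤ δ n / 2 := fun n => by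
    rw [hs]; exact (hg n (s n)).2.2.1
  have hs4 : ∀ n, ‖y (s (n + 1)).1 - pr5 (s (n + 1)).2 (y (s (n + 1)).1)‖ ≤ δ n / 2 := fun n => by
    rw [hs]; exact (hg n (s n)).2.2.2
  have hp : StrictMono fun n => (s n).2 := strictMono_nat_of_lt_succ hs2
  refine ⟨fun n => (s (n + 1)).1, strictMono_nat_of_lt_succ fun n => hs1 (n + 1),
    fun n => pr5 (s (n + 1)).2 (y (s (n + 1)).1) - pr5 (s n).2 (y (s (n + 1)).1), ?_, ?_⟩
  · have hco : ∀ n i, (i < (s n).2 ∨ (s (n + 1)).2 ≤ i) →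
        co (pr5 (s (n + 1)).2 (y (s (n + 1)).1) - pr5 (s n).2 (y (s (n + 1)).1)) i = 0 := by
      intro n i hi
      rw [map_sub, Pi.sub_apply, co_pr5, co_pr5]
      rcases hi with hi | hi
      · have h6 := hs2 n
        rw [if_pos (by omega), if_pos hi, sub_self]
      · have h6 := hs2 n
        rw [if_neg (by omega), if_neg (by omega), sub_self]
    have key : ∀ m n : ℕ, m < n → ∀ i,
        co (pr5 (s (m + 1)).2 (y (s (m + 1)).1) - pr5 (s m).2 (y (s (m + 1)).1)) i = 0 ∨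
        co (pr5 (s (n + 1)).2 (y (s (n + 1)).1) - pr5 (s n).2 (y (s (n + 1)).1)) i = 0 := by
      intro m n hmn i
      have h7 : (s (m + 1)).2 ≤ (s n).2 := hp.monotone hmn
      by_cases hi : i < (s n).2
      · exact Or.inr (hco n i (Or.inl hi))
      · exact Or.inl (hco m i (Or.inr (by omega)))
    intro m n hmn
    rw [disj_iff]
    intro i
    rcases lt_or_gt_of_ne hmn with h8 | h8
    · exact key m n h8 i
    · exact (key n m h8 i).symm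
  · intro n
    have h9 : y (s (n + 1)).1 - (pr5 (s (n + 1)).2 (y (s (n + 1)).1) - pr5 (s n).2 (y (s (n + 1)).1))
        = (y (s (n + 1)).1 - pr5 (s (n + 1)).2 (y (s (n + 1)).1)) + pr5 (s n).2 (y (s (n + 1)).1) := by
      abel
    change ‖y (s (n + 1)).1 - (pr5 (s (n + 1)).2 (y (s (n + 1)).1)
      - pr5 (s n).2 (y (s (n + 1)).1))‖ ≤ δ n
    rw [h9]
    refine (norm_add_le _ _).trans ?_
    have := hs3 n
    have := hs4 n
    linarith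

end ESp

end DHsp
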