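import Pool.Agent.Helper13.DH.SpHyp
import Pool.Agent.Helper13.DH.SpNull1

/-!
# Block DR-N : coordinatewise null sequences

`gliding`: choose `φ` and `p_0 < p_1 < ...` recursively: given `p_n`, choose `φ n` (large) such that
`‖P_{p_n} y_{φ n}‖ ≤ δ_n/2` (finitely many coordinates tend to 0), and `p_{n+1} > p_n` such that
`‖y_{φ n} - P_{p_{n+1}} y_{φ n}‖ ≤ δ_n/2` (`tail_tendsto`).
`u_n = ∑_{k ∈ [p_n,p_{n+1})} co (y_{φ n}) k • e k`.

`two_sided_null`: `gliding` with `δ_n = (c/4) 2^{-n}`; `c/2 ≤ ‖u_n‖ ≤ 2 C` (`C ≥ c`); `two_sided`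
for `u_n/‖u_n‖` gives `ψ` and `A`.  Upper bound: `‖∑ a_k y_{φψ k}‖ ≤ ‖∑ a_k u_{ψ k}‖ +
∑ |a_k| δ_{ψ k} ≤ A ‖∑ a_k ‖u_{ψ k}‖ e_k‖ + (c/2) max |a_k| ≤ (2 A C + c/2) ‖∑ a_k e_k‖`
(`|a_k| ≤ ‖∑ a_k e_k‖` by `abs_co_le`, solidity of the norm).  Lower bound: choose `M` such that
`∑_{k≥M} δ_{ψ k} ≤ c/(4A)` and use the subsequence `k ↦ φ (ψ (k + M))`: `‖∑_{k∈s} a_k e_{k+M}‖ =
‖∑_{k∈s} a_k e_k‖` (`enorm_sum_e`), so `‖∑ a_k y‖ ≥ (c/2)/A ‖∑ a_k e_k‖ - c/(4A) max|a_k| ≥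
c/(4A) ‖∑ a_k e_k‖`.
-/

open scoped ENNReal NNReal Topology
open Function Filter

namespace DHsp

namespace ESp

variable {Φ : SFun} {h : NormF Φ}

theorem norm_sum_e_le22 (a b : ℕ → ℝ) (s : Finset ℕ) {K : ℝ} (hK : 0 ≤ K)
    (hab : ∀ k ∈ s, |a k| ≤ K * |b k|) :
    ‖∑ k ∈ s, a k • (e k : ESp Φ h)‖ ≤ K * ‖∑ k ∈ s, b k • (e k : ESp Φ h)‖ := by
  have h1 : ‖∑ k ∈ s, a k • (e k : ESp Φ h)‖ ≤ ‖K • ∑ k ∈ s, b k • (e k : ESp Φ h)‖ := by
    apply HasSolidNorm.solid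
    intro i
    rw [co_abs, co_abs, co_smul, co_sum_e, co_sum_e]
    split_ifs with hi
    · rw [abs_mul, abs_of_nonneg hK]
      exact hab i hi
    · simp
  rwa [norm_smul, Real.norm_eq_abs, abs_of_nonneg hK] at h1

theorem abs_le_norm_sum_e22 (a : ℕ → ℝ) (s : Finset ℕ) {k : ℕ} (hk : k ∈ s) :
    |a k| ≤ ‖∑ k ∈ s, a k • (e k : ESp Φ h)‖ := by
  have h1 := abs_co_le (∑ k ∈ s, a k • (e k : ESp Φ h)) k
  rwa [co_sum_e, if_pos hk] at h1

theorem norm_shift22 (a : ℕ → ℝ) (s : Finset ℕ) (M : ℕ) :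
    ‖∑ k ∈ s, a k • (e (k + M) : ESp Φ h)‖ = ‖∑ k ∈ s, a k • (e k : ESp Φ h)‖ := by
  rw [← toReal_enorm, ← toReal_enorm, enorm_sum_e (φ := fun k => k + M) a s
    (fun i j hij => by simpa using hij), enorm_sum_e (φ := fun k => k) a s (fun _ _ hij => hij)]

theorem sum_geo22 (s : Finset ℕ) : ∑ k ∈ s, (1 / 2 : ℝ) ^ k ≤ 2 := by
  have h1 := summable_geometric_two
  have h2 := h1.sum_le_tsum s (fun k _ => by positivity)
  rwa [tsum_geometric_two] at h2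

theorem two_sided_null (H : Hyp Φ) (y : ℕ → ESp Φ h) (c C : ℝ) (hc : 0 < c)
    (h1 : ∀ n, c ≤ ‖y n‖) (h2 : ∀ n, ‖y n‖ ≤ C)
    (h3 : ∀ i, Tendsto (fun n => co (y n) i) atTop (𝓝 0)) :
    ∃ φ : ℕ → ℕ, StrictMono φ ∧ ∃ A : ℝ, 0 < A ∧ ∀ (a : ℕ → ℝ) (s : Finset ℕ),
      ‖∑ k ∈ s, a k • y (φ k)‖ ≤ A * ‖∑ k ∈ s, a k • (e k : ESp Φ h)‖ ∧
      ‖∑ k ∈ s, a k • (e k : ESp Φ h)‖ ≤ A * ‖∑ k ∈ s, a k • y (φ k)‖ := by
  have hcC : c ≤ C := (h1 0).trans (h2 0)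
  have hC : 0 < C := hc.trans_le hcC
  obtain ⟨φ, hφ, u, hu, hyu⟩ := gliding y h3 (fun n => c / 8 * (1 / 2) ^ n) (fun n => by positivity)
  have hδ : ∀ n, c / 8 * (1 / 2 : ℝ) ^ n ≤ c / 8 := fun n => by
    have : (1 / 2 : ℝ) ^ n ≤ 1 := pow_le_one₀ (by norm_num) (by norm_num)
    nlinarith
  have hlow : ∀ n, c / 2 ≤ ‖u n‖ := fun n => by
    have h4 := norm_sub_norm_le (y (φ n)) (u n)
    have h5 := hyu n
    have h6 := h1 (φ n)
    have h7 := hδ n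
    linarith
  have hup : ∀ n, ‖u n‖ ≤ 2 * C := fun n => by
    have h4 : ‖u n‖ ≤ ‖y (φ n)‖ + ‖y (φ n) - u n‖ := by
      have h5 := norm_sub_le (y (φ n)) (y (φ n) - u n)
      rwa [sub_sub_cancel] at h5
    have h5 := hyu n
    have h6 := h2 (φ n)
    have h7 := hδ n
    linarith
  have hupos : ∀ n, 0 < ‖u n‖ := fun n => lt_of_lt_of_le (by positivity) (hlow n)
  set x : ℕ → ESp Φ h := fun n => (‖u n‖)⁻¹ • u n with hx
  have hxn : ∀ n, ‖x n‖ = 1 := fun n => by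
    rw [hx]
    simp only [norm_smul, norm_inv, norm_norm]
    exact inv_mul_cancel₀ (hupos n).ne'
  have hxd : Pairwise fun m n => |x m| ⊓ |x n| = 0 := by
    intro m n hmn
    rw [disj_iff]
    intro i
    rcases (disj_iff (u m) (u n)).1 (hu hmn) i with h4 | h4
    · left
      simp only [hx, co_smul, h4, mul_zero]
    · right
      simp only [hx, co_smul, h4, mul_zero]
  have hux : ∀ n, u n = ‖u n‖ • x n := fun n => by
    simp only [hx, smul_smul]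
    rw [mul_inv_cancel₀ (hupos n).ne', one_smul]
  obtain ⟨ψ, hψ, A, hA, hAb⟩ := two_sided H.upper H.lower x hxn hxd
  obtain ⟨M, hM⟩ : ∃ M : ℕ, (1 / 2 : ℝ) ^ M < 1 / A :=
    exists_pow_lt_of_lt_one (by positivity) (by norm_num)
  refine ⟨fun k => φ (ψ (k + M)), fun i j hij => hφ (hψ (by omega)),
    2 * A * C + c / (4 * A) + 4 * A / c, by positivity, fun a s => ?_⟩
  set T : ℝ := ‖∑ k ∈ s, a k • (e k : ESp Φ h)‖ with hT
  have hT0 : 0 ≤ T := norm_nonneg _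
  set w : ℕ → ESp Φ h := fun k => u (ψ (k + M)) with hw
  set b : ℕ → ℝ := fun k => a k * ‖w k‖ with hb
  -- the difference
  have hdiff : ‖∑ k ∈ s, a k • y (φ (ψ (k + M))) - ∑ k ∈ s, a k • w k‖ ≤ T * (c / (4 * A)) := by
    rw [← Finset.sum_sub_distrib]
    calc ‖∑ k ∈ s, (a k • y (φ (ψ (k + M))) - a k • w k)‖
        ≤ ∑ k ∈ s, ‖a k • y (φ (ψ (k + M))) - a k • w k‖ := norm_sum_le _ _
      _ ≤ ∑ k ∈ s, T * (c / 8 * (1 / 2) ^ M) * (1 / 2) ^ k := by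
          refine Finset.sum_le_sum fun k hk => ?_
          rw [← smul_sub, norm_smul, Real.norm_eq_abs]
          have h4 : |a k| ≤ T := abs_le_norm_sum_e22 a s hk
          have h5 : ‖y (φ (ψ (k + M))) - w k‖ ≤ c / 8 * (1 / 2) ^ (k + M) := by
            refine (hyu (ψ (k + M))).trans ?_
            gcongr ?_ * ?_
            exact pow_le_pow_of_le_one (by norm_num) (by norm_num) (hψ.id_le _)
          calc |a k| * ‖y (φ (ψ (k + M))) - w k‖ ≤ T * (c / 8 * (1 / 2) ^ (k + M)) := by gcongr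
            _ = T * (c / 8 * (1 / 2) ^ M) * (1 / 2) ^ k := by rw [pow_add]; ring
      _ = T * (c / 8 * (1 / 2) ^ M) * ∑ k ∈ s, (1 / 2 : ℝ) ^ k := by rw [Finset.mul_sum]
      _ ≤ T * (c / 8 * (1 / 2) ^ M) * 2 := by
          gcongr
          exact sum_geo22 s
      _ ≤ T * (c / 8 * (1 / A)) * 2 := by gcongr
      _ = T * (c / (4 * A)) := by
          field_simp
          ring
  -- the disjoint sum
  have hws : ∑ k ∈ s, a k • w k = ∑ j ∈ s.map (addRightEmbedding M), b (j - M) • x (ψ j) := by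
    rw [Finset.sum_map]
    refine Finset.sum_congr rfl fun k _ => ?_
    simp only [addRightEmbedding_apply, Nat.add_sub_cancel, hb, hw]
    conv_lhs => rw [hux (ψ (k + M))]
    rw [smul_smul]
  have hes : ‖∑ j ∈ s.map (addRightEmbedding M), b (j - M) • (e j : ESp Φ h)‖ =
      ‖∑ k ∈ s, b k • (e k : ESp Φ h)‖ := by
    rw [Finset.sum_map]
    simp only [addRightEmbedding_apply, Nat.add_sub_cancel]
    exact norm_shift22 b s M
  have hAs := hAb (fun j => b (j - M)) (s.map (addRightEmbedding M))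
  rw [← hws, hes] at hAs
  have hbT : ‖∑ k ∈ s, b k • (e k : ESp Φ h)‖ ≤ 2 * C * T := by
    refine norm_sum_e_le22 b a s (by positivity) fun k _ => ?_
    simp only [hb, abs_mul, abs_norm]
    rw [mul_comm]
    gcongr
    exact hup _
  have hTb : T ≤ 2 / c * ‖∑ k ∈ s, b k • (e k : ESp Φ h)‖ := by
    refine norm_sum_e_le22 a b s (by positivity) fun k _ => ?_
    simp only [hb, abs_mul, abs_norm]
    have h4 : c / 2 ≤ ‖w k‖ := hlow _
    calc |a k| = 2 / c * (|a k| * (c / 2)) := by field_simp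
      _ ≤ 2 / c * (|a k| * ‖w k‖) := by gcongr
  constructor
  · calc ‖∑ k ∈ s, a k • y (φ (ψ (k + M)))‖
        ≤ ‖∑ k ∈ s, a k • w k‖ + ‖∑ k ∈ s, a k • y (φ (ψ (k + M))) - ∑ k ∈ s, a k • w k‖ := by
          have h4 := norm_add_le (∑ k ∈ s, a k • w k)
            (∑ k ∈ s, a k • y (φ (ψ (k + M))) - ∑ k ∈ s, a k • w k)
          rwa [add_sub_cancel] at h4
      _ ≤ A * (2 * C * T) + T * (c / (4 * A)) := by
          refine add_le_add (hAs.1.trans ?_) hdiff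
          gcongr
      _ ≤ (2 * A * C + c / (4 * A) + 4 * A / c) * T := by
          have h4 : 0 ≤ 4 * A / c * T := by positivity
          linarith
  · set Z : ℝ := ‖∑ k ∈ s, a k • y (φ (ψ (k + M)))‖ with hZ
    have hZ0 : 0 ≤ Z := norm_nonneg _
    have h4 : ‖∑ k ∈ s, a k • w k‖ ≤ Z + T * (c / (4 * A)) := by
      have h5 := norm_sub_le (∑ k ∈ s, a k • y (φ (ψ (k + M))))
        (∑ k ∈ s, a k • y (φ (ψ (k + M))) - ∑ k ∈ s, a k • w k)
      rw [sub_sub_cancel] at h5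
      exact h5.trans (add_le_add le_rfl hdiff)
    have h5 : T ≤ 2 / c * (A * (Z + T * (c / (4 * A)))) := by
      refine hTb.trans ?_
      gcongr
      exact hAs.2.trans (by gcongr)
    have h6 : 2 / c * (A * (Z + T * (c / (4 * A)))) = 2 * A / c * Z + T / 2 := by
      field_simp
      ring
    rw [h6] at h5
    have h7 : T ≤ 4 * A / c * Z := by
      have h8 : 4 * A / c * Z = 2 * (2 * A / c * Z) := by ring
      linarith
    have h8 : 0 ≤ (2 * A * C + c / (4 * A)) * Z := by positivity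
    calc T ≤ 4 * A / c * Z := h7
      _ ≤ (2 * A * C + c / (4 * A) + 4 * A / c) * Z := by
          rw [add_mul _ (4 * A / c)]
          linarith

end ESp

end DHsp
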