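import Pool.Agent.Helper13.DH.SpSM1
import Pool.Agent.Helper13.DH.SpNull

/-!
# Block DR-M : spreading models

`sum_fin_e`: from `enorm_sum_e` (or domination).
`spreading_equiv`: coordinate functionals are continuous (`abs_co_le`), so `x` is coordinatewise
null; `two_sided_null` gives `φ`, `A`.  For `k, a, ε` take `m` from `hN` and the indices
`n i = φ (i + m) ≥ m`; `‖∑ a_i x_{φ(i+m)}‖` is comparable with `‖∑ a_i e_{i+m}‖ = ‖∑ a_i e_i‖`
(write a sum over `Fin k` as a sum over `Finset.range`, or over the image of `i ↦ i+m`, with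
coefficients `a' j = a (j-m)`).  Let `ε → 0`.
`unbounded`: `growA`, `enorm_sum_e_card`.
`not_lp_est`: `k^{1/p} ≤ C lam k` for all `k`, so `k ≤ C^p lam(k)^p ≤ C^p lam(k)^m` with a natural
number `m ≥ p` (`1 ≤ lam k` for `k ≥ 1`), which contradicts `growB m M` for `M > C^p`.
-/

open scoped ENNReal NNReal Topology
open Function Filter

namespace DHsp

namespace ESp

variable {Φ : SFun} {h : NormF Φ}

/-- Coordinate functional (helper67). -/
noncomputable def coord67 (i : ℕ) : ESp Φ h →L[ℝ] ℝ :=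
  LinearMap.mkContinuous ((LinearMap.proj i).comp (co : ESp Φ h →ₗ[ℝ] (ℕ → ℝ))) 1
    (fun x => by
      rw [one_mul, Real.norm_eq_abs]
      exact abs_co_le x i)

theorem coord67_apply (i : ℕ) (x : ESp Φ h) : coord67 i x = co x i := rfl

theorem spreading_equiv (H : Hyp Φ) (x : ℕ → ESp Φ h) (N : ∀ k : ℕ, (Fin k → ℝ) → ℝ)
    (hx : ∀ n, ‖x n‖ = 1) (hw : ∀ f : ESp Φ h →L[ℝ] ℝ, Tendsto (fun n => f (x n)) atTop (𝓝 0))
    (hN : ∀ (k : ℕ) (a : Fin k → ℝ) (ε : ℝ), 0 < ε → ∃ m : ℕ, ∀ n : Fin k → ℕ,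
      StrictMono n → (∀ i, m ≤ n i) → |‖∑ i, a i • x (n i)‖ - N k a| < ε) :
    ∃ C : ℝ, 0 < C ∧ ∀ (k : ℕ) (a : Fin k → ℝ),
      N k a ≤ C * ‖∑ i, a i • (e i.val : ESp Φ h)‖ ∧
      ‖∑ i, a i • (e i.val : ESp Φ h)‖ ≤ C * N k a := by
  have hnull : ∀ i, Tendsto (fun n => co (x n) i) atTop (𝓝 0) := fun i => hw (coord67 i)
  obtain ⟨φ, hφ, A, hA, hest⟩ := two_sided_null H x 1 1 one_pos (fun n => (hx n).ge)
    (fun n => (hx n).le) hnull
  have key : ∀ (k : ℕ) (a : Fin k → ℝ) (m : ℕ),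
      ‖∑ i, a i • x (φ (i.val + m))‖ ≤ A * ‖∑ i, a i • (e i.val : ESp Φ h)‖ ∧
      ‖∑ i, a i • (e i.val : ESp Φ h)‖ ≤ A * ‖∑ i, a i • x (φ (i.val + m))‖ := by
    intro k a m
    let emb : Fin k ↪ ℕ := ⟨fun i => i.val + m, fun i j hij => by
      have h1 : i.val + m = j.val + m := hij
      exact Fin.ext (by omega)⟩
    let a' : ℕ → ℝ := fun j => if hj : j - m < k then a ⟨j - m, hj⟩ else 0
    have ha' : ∀ i : Fin k, a' (emb i) = a i := by
      intro i
      have h1 : emb i - m = i.val := by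
        change i.val + m - m = i.val
        omega
      have h2 : emb i - m < k := by rw [h1]; exact i.isLt
      simp only [a']
      rw [dif_pos h2]
      congr 1
      exact Fin.ext h1
    have h1 : ∑ j ∈ Finset.univ.map emb, a' j • x (φ j) = ∑ i, a i • x (φ (i.val + m)) := by
      rw [Finset.sum_map]
      refine Finset.sum_congr rfl fun i _ => ?_
      rw [ha']
      rfl
    have h2 : ∑ j ∈ Finset.univ.map emb, a' j • (e j : ESp Φ h)
        = ∑ i, a i • (e (emb i) : ESp Φ h) := by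
      rw [Finset.sum_map]
      refine Finset.sum_congr rfl fun i _ => ?_
      rw [ha']
    have h3 : ‖∑ i, a i • (e (emb i) : ESp Φ h)‖ = ‖∑ i, a i • (e i.val : ESp Φ h)‖ :=
      sum_fin_e a (fun i => emb i) emb.injective
    have h4 := hest a' (Finset.univ.map emb)
    rw [h1, h2, h3] at h4
    exact h4
  refine ⟨A, hA, fun k a => ?_⟩
  have happ : ∀ ε : ℝ, 0 < ε → ∃ m : ℕ,
      |‖∑ i, a i • x (φ (i.val + m))‖ - N k a| < ε := by
    intro ε hε
    obtain ⟨m, hm⟩ := hN k a ε hε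
    refine ⟨m, hm (fun i => φ (i.val + m)) ?_ ?_⟩
    · intro i j hij
      apply hφ
      have : i.val < j.val := hij
      omega
    · intro i
      have := hφ.le_apply (x := i.val + m)
      omega
  constructor
  · refine le_of_forall_pos_le_add fun ε hε => ?_
    obtain ⟨m, hm⟩ := happ ε hε
    have h1 := (abs_lt.1 hm).1
    have h2 := (key k a m).1
    linarith
  · refine le_of_forall_pos_le_add fun ε hε => ?_
    obtain ⟨m, hm⟩ := happ (ε / A) (by positivity)
    have h1 := (abs_lt.1 hm).2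
    have h2 := (key k a m).2
    have h3 : A * ‖∑ i, a i • x (φ (i.val + m))‖ ≤ A * (N k a + ε / A) := by
      gcongr
      linarith
    have h4 : A * (N k a + ε / A) = A * N k a + ε := by
      field_simp
    linarith

end ESp

end DHsp
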