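import Pool.Agent.Helper13.DH.SpChain1
import Pool.Agent.Helper13.DH.SpChain2
import Pool.Agent.Helper13.DH.SpChain3
import Pool.Agent.Helper13.DH.SpChain4
import Pool.Agent.Helper13.DH.SpSM

/-!
# Block DR-C : spreading models of arbitrary sequences, up to isomorphism

`iso_of_equiv`: the map `∑ a_i e_i ↦ ∑ a_i f_i` is well defined on the span of `e` (by the
inequality), bounded, with bounded inverse; extend to the closures (both spaces are complete).

`exists_coord_limit`: diagonal argument (or Tychonoff / `isCompact_univ_pi` in the first countable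
space `ℕ → ℝ`, `IsCompact.tendsto_subseq`): a subsequence converges coordinatewise to some
`z : ℕ → ℝ`; `‖∑_{k<N} z_k e_k‖ ≤ C` by continuity of finite sums (`‖∑_{k<N} co x k • e k‖ ≤ ‖x‖`);
`bddComplete`.

`dense_e`, `dense_f`: `tail_tendsto`; for `f_i = e_0 + e_{i+1}`:
`(1/n) ∑_{i<n} f_i = e_0 + (1/n) ∑_{i<n} e_{i+1} → e_0` because `lam n / n → 0` (`growB 1`).

`shift_norm`: `∑ a_i f_i = (∑ a_i) e_0 + ∑ a_i e_{i+1}`, solidity.

`spreading_iso`: see the proof in words in the README (`h13_DR_README.md`).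
-/

open scoped ENNReal NNReal Topology
open Function Filter

namespace DHsp

namespace ESp

variable {Φ : SFun} {h : NormF Φ}

/-- The comparison hypothesis of `spreading_iso`. -/
def h27_Cmp {E F : Type} [NormedAddCommGroup E] [NormedSpace ℝ E] [NormedAddCommGroup F]
    [NormedSpace ℝ F] (x : ℕ → F) (e' : ℕ → E) (A B : ℝ) : Prop :=
  ∀ (k : ℕ) (a : Fin k → ℝ) (ε : ℝ), 0 < ε → ∃ N : ℕ, ∀ m : Fin k → ℕ, StrictMono m →
      (∀ i, N ≤ m i) → ‖∑ i, a i • e' i.val‖ ≤ A * ‖∑ i, a i • x (m i)‖ + ε ∧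
        ‖∑ i, a i • x (m i)‖ ≤ B * ‖∑ i, a i • e' i.val‖ + ε

theorem h27_cmp_comp {E F : Type} [NormedAddCommGroup E] [NormedSpace ℝ E] [NormedAddCommGroup F]
    [NormedSpace ℝ F] {x : ℕ → F} {e' : ℕ → E} {A B : ℝ} (hx : h27_Cmp x e' A B) {φ : ℕ → ℕ}
    (hφ : StrictMono φ) : h27_Cmp (fun n => x (φ n)) e' A B := by
  intro k a ε hε
  obtain ⟨N, hN⟩ := hx k a ε hε
  refine ⟨N, fun m hm hmN => hN (fun i => φ (m i)) (hφ.comp hm) fun i => ?_⟩
  exact (hmN i).trans hφ.le_apply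

/-- The comparison hypothesis with a sequence all of whose subsequences are equivalent to `f`. -/
theorem h27_finish {E F : Type} [NormedAddCommGroup E] [NormedSpace ℝ E]
    [CompleteSpace E] [NormedAddCommGroup F] [NormedSpace ℝ F] [CompleteSpace F]
    (w : ℕ → F) (e' : ℕ → E) (f : ℕ → F) (A B D : ℝ) (hD : 0 < D)
    (hw : h27_Cmp w e' A B)
    (hd : (Submodule.span ℝ (Set.range e')).topologicalClosure = ⊤)
    (hf : (Submodule.span ℝ (Set.range f)).topologicalClosure = ⊤)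
    (hest : ∀ (k : ℕ) (a : Fin k → ℝ) (m : Fin k → ℕ), StrictMono m →
      ‖∑ i, a i • f i.val‖ ≤ D * ‖∑ i, a i • w (m i)‖ ∧
        ‖∑ i, a i • w (m i)‖ ≤ D * ‖∑ i, a i • f i.val‖) :
    Nonempty (E ≃L[ℝ] F) := by
  refine iso_of_equiv e' f hd hf (|A| * D) (D * B) fun k a => ?_
  have hm : ∀ N : ℕ, StrictMono (fun i : Fin k => i.val + N) := by
    intro N i j hij
    have : i.val < j.val := hij
    change i.val + N < j.val + N
    omega
  constructor
  · refine le_of_forall_pos_le_add fun ε hε => ?_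
    obtain ⟨N, hN⟩ := hw k a ε hε
    have h1 := (hN _ (hm N) fun i => by simp).1
    have h2 := (hest k a _ (hm N)).2
    calc ‖∑ i, a i • e' i.val‖ ≤ A * ‖∑ i, a i • w (i.val + N)‖ + ε := h1
      _ ≤ |A| * ‖∑ i, a i • w (i.val + N)‖ + ε := by
          gcongr
          exact le_abs_self A
      _ ≤ |A| * (D * ‖∑ i, a i • f i.val‖) + ε := by gcongr
      _ = |A| * D * ‖∑ i, a i • f i.val‖ + ε := by ring
  · refine le_of_forall_pos_le_add fun ε hε => ?_
    obtain ⟨N, hN⟩ := hw k a (ε / D) (by positivity)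
    have h1 := (hN _ (hm N) fun i => by simp).2
    have h2 := (hest k a _ (hm N)).1
    calc ‖∑ i, a i • f i.val‖ ≤ D * ‖∑ i, a i • w (i.val + N)‖ := h2
      _ ≤ D * (B * ‖∑ i, a i • e' i.val‖ + ε / D) := by gcongr
      _ = D * B * ‖∑ i, a i • e' i.val‖ + ε := by
          field_simp

/-- From finsets to increasing maps. -/
theorem h27_fin (w : ℕ → ESp Φ h) (A : ℝ)
    (hest : ∀ (a : ℕ → ℝ) (s : Finset ℕ),
      ‖∑ k ∈ s, a k • w k‖ ≤ A * ‖∑ k ∈ s, a k • (e k : ESp Φ h)‖ ∧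
      ‖∑ k ∈ s, a k • (e k : ESp Φ h)‖ ≤ A * ‖∑ k ∈ s, a k • w k‖)
    (k : ℕ) (a : Fin k → ℝ) (m : Fin k → ℕ) (hm : StrictMono m) :
    ‖∑ i, a i • (e i.val : ESp Φ h)‖ ≤ A * ‖∑ i, a i • w (m i)‖ ∧
      ‖∑ i, a i • w (m i)‖ ≤ A * ‖∑ i, a i • (e i.val : ESp Φ h)‖ := by
  classical
  let emb : Fin k ↪ ℕ := ⟨m, hm.injective⟩
  let a' : ℕ → ℝ := Function.extend m a 0
  have ha' : ∀ i : Fin k, a' (emb i) = a i := fun i => hm.injective.extend_apply a 0 i
  have h1 : ∑ j ∈ Finset.univ.map emb, a' j • w j = ∑ i, a i • w (m i) := by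
    rw [Finset.sum_map]
    refine Finset.sum_congr rfl fun i _ => ?_
    rw [ha']
    rfl
  have h2 : ∑ j ∈ Finset.univ.map emb, a' j • (e j : ESp Φ h)
      = ∑ i, a i • (e (m i) : ESp Φ h) := by
    rw [Finset.sum_map]
    refine Finset.sum_congr rfl fun i _ => ?_
    rw [ha']
    rfl
  have h3 : ‖∑ i, a i • (e (m i) : ESp Φ h)‖ = ‖∑ i, a i • (e i.val : ESp Φ h)‖ :=
    sum_fin_e a m hm.injective
  have h4 := hest a' (Finset.univ.map emb)
  rw [h1, h2, h3] at h4
  exact ⟨h4.2, h4.1⟩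

theorem spreading_iso (H : Hyp Φ) {E : Type} [NormedAddCommGroup E] [NormedSpace ℝ E]
    [CompleteSpace E] (x : ℕ → ESp Φ h) (e' : ℕ → E) (hli : LinearIndependent ℝ e')
    (hd : (Submodule.span ℝ (Set.range e')).topologicalClosure = ⊤) (A B : ℝ)
    (hcmp : ∀ (k : ℕ) (a : Fin k → ℝ) (ε : ℝ), 0 < ε → ∃ N : ℕ, ∀ m : Fin k → ℕ, StrictMono m →
      (∀ i, N ≤ m i) → ‖∑ i, a i • e' i.val‖ ≤ A * ‖∑ i, a i • x (m i)‖ + ε ∧
        ‖∑ i, a i • x (m i)‖ ≤ B * ‖∑ i, a i • e' i.val‖ + ε) :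
    Nonempty (E ≃L[ℝ] ESp Φ h) := by
  -- pass to a bounded tail
  have hc0 : h27_Cmp x e' A B := hcmp
  obtain ⟨N0, hN0⟩ := hc0 1 (fun _ => 1) 1 one_pos
  have hbd : ∀ n, ‖x (n + N0)‖ ≤ B * ‖e' 0‖ + 1 := by
    intro n
    have h1 := (hN0 (fun _ => n + N0) (Subsingleton.strictMono _) fun _ => by simp).2
    simpa using h1
  have hsh : ∀ N : ℕ, StrictMono (fun n : ℕ => n + N) := fun N i j hij => by
    change i + N < j + N
    omega
  have hc1 := h27_cmp_comp hc0 (hsh N0)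
  -- coordinatewise limit
  obtain ⟨φ, hφ, z, hz⟩ := exists_coord_limit H (fun n => x (n + N0)) _ hbd
  have hc2 := h27_cmp_comp hc1 hφ
  have hbd2 : ∀ n, ‖x (φ n + N0) - z‖ ≤ B * ‖e' 0‖ + 1 + ‖z‖ := fun n =>
    (norm_sub_le _ _).trans (by linarith [hbd (φ n)])
  have hnull2 : ∀ i, Tendsto (fun n => co (x (φ n + N0) - z) i) atTop (𝓝 0) := by
    intro i
    have h1 := (hz i).sub_const (co z i)
    rw [sub_self] at h1
    refine h1.congr fun n => ?_
    rw [map_sub]
    rfl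
  by_cases hA : ∃ c : ℝ, 0 < c ∧ ∃ N : ℕ, ∀ n, N ≤ n → c ≤ ‖x (φ n + N0) - z‖
  · -- Case B
    obtain ⟨c, hc, N1, hN1⟩ := hA
    have hc3 := h27_cmp_comp hc2 (hsh N1)
    obtain ⟨ψ, hψ, A', hA', hest⟩ := two_sided_null H (fun n => x (φ (n + N1) + N0) - z) c _ hc
      (fun n => hN1 _ (by omega)) (fun n => hbd2 _)
      (fun i => (hnull2 i).comp (hsh N1).tendsto_atTop)
    have hc4 := h27_cmp_comp hc3 hψ
    by_cases hz0 : z = 0
    · refine h27_finish _ e' e A B A' hA' hc4 hd dense_e fun k a m hm => ?_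
      have h1 := h27_fin (fun n => x (φ (ψ n + N1) + N0)) A' (fun a s => by
        have h2 := hest a s
        simp only [hz0, sub_zero] at h2
        exact h2) k a m hm
      exact h1
    · obtain ⟨χ, hχ, B', hB', hest'⟩ := sum_plus z hz0 (fun n => x (φ (ψ n + N1) + N0) - z) A' hA'
        (fun i => (hnull2 i).comp ((hsh N1).comp hψ).tendsto_atTop) hest
      have hc5 := h27_cmp_comp hc4 hχ
      refine h27_finish _ e' (fun i : ℕ => (e 0 + e (i + 1) : ESp Φ h)) A B (2 * B')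
        (by positivity) hc5 hd (dense_f H) fun k a m hm => ?_
      have h1 := hest' k a m hm
      simp only [add_sub_cancel] at h1
      have h2 := shift_norm (Φ := Φ) (h := h) a
      constructor
      · calc _ ≤ |∑ i, a i| + ‖∑ i, a i • (e i.val : ESp Φ h)‖ := h2.1
          _ ≤ B' * ‖∑ i, a i • x (φ (ψ (χ (m i)) + N1) + N0)‖ := h1.1
          _ ≤ 2 * B' * ‖∑ i, a i • x (φ (ψ (χ (m i)) + N1) + N0)‖ := by
              gcongr
              linarith
      · calc _ ≤ B' * (|∑ i, a i| + ‖∑ i, a i • (e i.val : ESp Φ h)‖) := h1.2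
          _ ≤ B' * (2 * ‖∑ i, a i • (e 0 + e (i.val + 1) : ESp Φ h)‖) := by
              gcongr
              exact h2.2
          _ = 2 * B' * ‖∑ i, a i • (e 0 + e (i.val + 1) : ESp Φ h)‖ := by ring
  · -- Case A
    exfalso
    push Not at hA
    have key : ∀ ε : ℝ, 0 < ε → ‖e' 0 - e' 1‖ ≤ (|A| * 2 + 1) * ε := by
      intro ε hε
      obtain ⟨N, hN⟩ := hc2 2 ![1, -1] ε hε
      obtain ⟨n1, hn1, hy1⟩ := hA ε hε N
      obtain ⟨n2, hn2, hy2⟩ := hA ε hε (n1 + 1)
      have hm : StrictMono ![n1, n2] := by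
        rw [Fin.strictMono_iff_lt_succ]
        intro i
        fin_cases i
        simp
        omega
      have h1 := (hN ![n1, n2] hm (fun i => by
        fin_cases i
        · simpa using hn1
        · simp
          omega)).1
      simp only [Fin.sum_univ_two, Matrix.cons_val_zero, Matrix.cons_val_one, Fin.val_zero,
        Fin.val_one, one_smul, neg_smul, ← sub_eq_add_neg] at h1
      have h2 : ‖x (φ n1 + N0) - x (φ n2 + N0)‖ ≤ ε + ε := by
        have h3 : x (φ n1 + N0) - x (φ n2 + N0)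
            = (x (φ n1 + N0) - z) - (x (φ n2 + N0) - z) := by abel
        rw [h3]
        exact (norm_sub_le _ _).trans (add_le_add hy1.le hy2.le)
      calc ‖e' 0 - e' 1‖ ≤ A * ‖x (φ n1 + N0) - x (φ n2 + N0)‖ + ε := h1
        _ ≤ |A| * ‖x (φ n1 + N0) - x (φ n2 + N0)‖ + ε := by
            gcongr
            exact le_abs_self A
        _ ≤ |A| * (ε + ε) + ε := by gcongr
        _ = (|A| * 2 + 1) * ε := by ring
    have h0 : ‖e' 0 - e' 1‖ ≤ 0 := by
      refine le_of_forall_pos_le_add fun δ hδ => ?_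
      have h1 := key (δ / (|A| * 2 + 1)) (by positivity)
      have h2 : (|A| * 2 + 1) * (δ / (|A| * 2 + 1)) = δ := by
        field_simp
      linarith
    have h1 : e' 0 = e' 1 := by
      rw [← sub_eq_zero]
      exact norm_le_zero_iff.1 h0
    have h2 := hli.injective h1
    omega

end ESp

end DHsp
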