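import Mathlib

/-!
# Block DR-C : spreading models of arbitrary sequences, up to isomorphism

`iso_of_equiv`: the map `∑ a_i e_i ↦ ∑ a_i f_i` is well defined on the span of `e` (by the
inequality), bounded, with bounded inverse; extend to the closures (both spaces are complete).

`exists_coord_limit`: diagonal argument (or Tychonoff / `isCompact_univ_pi` in the first countable
space `ℕ → ℝ`, `IsCompact.tendsto_subseq`): a subsequence converges coordinatewise to some
`z : ℕ → ℝ`; `‖∑_{k<N} z_k e_k‖ ≤ C` by continuity of finite sums (`‖∑_{k<N} co x k • e k‖ ≤ ‖x‖`);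
`bddComplete`.

`dense_e`, `dense_f`: `tail_tendsto`; for `f_i = e_0 + e_{i+1}`:
`(1/n) ∑_{i<n} f_i = e_0 + (1/n) ∑_{i<n} e_{i+1} → e_0` because `lam n / n → 0` (`growB 1`).

`shift_norm`: `∑ a_i f_i = (∑ a_i) e_0 + ∑ a_i e_{i+1}`, solidity.

`spreading_iso`: see the proof in words in the README (`h13_DR_README.md`).
-/

open scoped ENNReal NNReal Topology
open Function Filter

namespace DHsp

theorem linComb_fin_h14 {E : Type} [NormedAddCommGroup E] [NormedSpace ℝ E] (e : ℕ → E) (c : ℕ →₀ ℝ) :
    Finsupp.linearCombination ℝ e c =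
      ∑ i : Fin (c.support.sup id + 1), c i.val • e i.val := by
  rw [Finsupp.linearCombination_apply, Finsupp.sum, Fin.sum_univ_eq_sum_range (fun i => c i • e i)]
  refine Finset.sum_subset ?_ ?_
  · intro i hi
    rw [Finset.mem_range]
    have h : i ≤ c.support.sup id := Finset.le_sup (f := id) hi
    omega
  · intro i _ hi
    rw [Finsupp.notMem_support_iff.mp hi, zero_smul]

theorem iso_of_equiv {E F : Type} [NormedAddCommGroup E] [NormedSpace ℝ E] [CompleteSpace E]
    [NormedAddCommGroup F] [NormedSpace ℝ F] [CompleteSpace F] (e : ℕ → E) (f : ℕ → F)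
    (hE : (Submodule.span ℝ (Set.range e)).topologicalClosure = ⊤)
    (hF : (Submodule.span ℝ (Set.range f)).topologicalClosure = ⊤) (A B : ℝ)
    (hAB : ∀ (k : ℕ) (a : Fin k → ℝ), ‖∑ i, a i • e i.val‖ ≤ A * ‖∑ i, a i • f i.val‖ ∧
      ‖∑ i, a i • f i.val‖ ≤ B * ‖∑ i, a i • e i.val‖) :
    Nonempty (E ≃L[ℝ] F) := by
  set Te := Finsupp.linearCombination ℝ e with hTe
  set Tf := Finsupp.linearCombination ℝ f with hTf
  have h1 : ∀ c : ℕ →₀ ℝ, ‖Te c‖ ≤ A * ‖Tf c‖ := by
    intro c
    rw [hTe, hTf, linComb_fin_h14 e c, linComb_fin_h14 f c]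
    exact (hAB _ (fun i => c i.val)).1
  have h2 : ∀ c : ℕ →₀ ℝ, ‖Tf c‖ ≤ B * ‖Te c‖ := by
    intro c
    rw [hTe, hTf, linComb_fin_h14 e c, linComb_fin_h14 f c]
    exact (hAB _ (fun i => c i.val)).2
  have dE : DenseRange Te := by
    have h : Set.range Te = (Submodule.span ℝ (Set.range e) : Set E) := by
      rw [hTe, ← Finsupp.range_linearCombination]
      rfl
    rw [DenseRange, h, dense_iff_closure_eq, ← Submodule.topologicalClosure_coe, hE]
    rfl
  have dF : DenseRange Tf := by
    have h : Set.range Tf = (Submodule.span ℝ (Set.range f) : Set F) := by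
      rw [hTf, ← Finsupp.range_linearCombination]
      rfl
    rw [DenseRange, h, dense_iff_closure_eq, ← Submodule.topologicalClosure_coe, hF]
    rfl
  have hS : ∀ c, Tf.extendOfNorm Te (Te c) = Tf c := fun c =>
    LinearMap.extendOfNorm_eq dE ⟨B, h2⟩ c
  have hR : ∀ c, Te.extendOfNorm Tf (Tf c) = Te c := fun c =>
    LinearMap.extendOfNorm_eq dF ⟨A, h1⟩ c
  refine ⟨ContinuousLinearEquiv.equivOfInverse (Tf.extendOfNorm Te) (Te.extendOfNorm Tf) ?_ ?_⟩
  · intro x
    have hc : (fun x => Te.extendOfNorm Tf (Tf.extendOfNorm Te x)) = id := by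
      apply dE.equalizer
      · exact (Te.extendOfNorm Tf).continuous.comp (Tf.extendOfNorm Te).continuous
      · exact continuous_id
      · funext c
        simp only [Function.comp_apply, id]
        rw [hS, hR]
    exact congrFun hc x
  · intro x
    have hc : (fun x => Tf.extendOfNorm Te (Te.extendOfNorm Tf x)) = id := by
      apply dF.equalizer
      · exact (Tf.extendOfNorm Te).continuous.comp (Te.extendOfNorm Tf).continuous
      · exact continuous_id
      · funext c
        simp only [Function.comp_apply, id]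
        rw [hR, hS]
    exact congrFun hc x

end DHsp
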