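import Pool.Agent.Helper13.DH.SpDefs

/-!
# MP_6ad661_an, block DH-S2 : completeness

Absolutely convergent series converge.  Let `∑ ‖u_k‖ < ∞`.  For every `i`, `|co (u_k) i| ≤ ‖u_k‖`,
so `x i = ∑' k, co (u_k) i` converges absolutely.
`|x i - ∑_{k<n} co (u_k) i| ≤ ∑'_{k≥n} |co (u_k) i|`, so by `Good.tsum_le`
`Φ (|x - ∑_{k<n} u_k|) ≤ ∑'_{k≥n} ‖u_k‖ₑ → 0`; in particular `Φ |x| < ⊤` and the tails:
`Φ (tl m x) ≤ Φ (tl m (∑_{k<n} u_k)) + ∑'_{k≥n} ‖u_k‖ₑ`, so `x` is in the space.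
-/

open scoped ENNReal NNReal Topology
open Function Filter

namespace DHsp

namespace ESp

variable {Φ : SFun} {h : NormF Φ}

theorem comp_aux (u : ℕ → ESp Φ h) (hu : Summable fun k => ‖u k‖) :
    ∃ a : ESp Φ h, Tendsto (fun n => ∑ k ∈ Finset.range n, u k) atTop (𝓝 a) := by
  -- coordinates are summable
  have hs : ∀ i, Summable fun k => co (u k) i := fun i =>
    Summable.of_norm_bounded hu fun k => by
      rw [Real.norm_eq_abs]; exact abs_co_le (u k) i
  set x : ℕ → ℝ := fun i => ∑' k, co (u k) i with hx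
  set r : ℕ → ℝ≥0∞ := fun n => ∑' k, ‖u (k + n)‖ₑ with hr
  have hfin : ∑' k, ‖u k‖ₑ ≠ ⊤ := by
    have h1 : ∀ k, ‖u k‖ₑ = ENNReal.ofReal ‖u k‖ := fun k => (ofReal_norm (u k)).symm
    simp only [h1]
    rw [← ENNReal.ofReal_tsum_of_nonneg (fun k => norm_nonneg _) hu]
    exact ENNReal.ofReal_ne_top
  have hr0 : Tendsto r atTop (𝓝 0) := ENNReal.tendsto_sum_nat_add (fun k => ‖u k‖ₑ) hfin
  -- pointwise bound
  have hpt : ∀ n i, ‖x i - co (∑ k ∈ Finset.range n, u k) i‖ₑ ≤ ∑' k, ‖co (u (k + n)) i‖ₑ := by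
    intro n i
    have h1 : co (∑ k ∈ Finset.range n, u k) i = ∑ k ∈ Finset.range n, co (u k) i := by
      rw [map_sum, Finset.sum_apply]
    have h2 : x i - co (∑ k ∈ Finset.range n, u k) i = ∑' k, co (u (k + n)) i := by
      have h3 := (hs i).sum_add_tsum_nat_add n
      rw [h1]
      show (∑' k, co (u k) i) - _ = _
      rw [← h3]
      ring
    rw [h2]
    exact enorm_tsum_le_tsum_enorm
  have hΦ : ∀ n, Φ ℕ (fun i => ‖x i - co (∑ k ∈ Finset.range n, u k) i‖ₑ) ≤ r n := by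
    intro n
    refine (h.toGood.le (hpt n)).trans ((h.toGood.tsum_le fun k i => ‖co (u (k + n)) i‖ₑ).trans ?_)
    exact le_of_eq (tsum_congr fun k => (enorm_def (u (k + n))).symm)
  have hxfin : Φ ℕ (fun i => ‖x i‖ₑ) ≠ ⊤ := by
    have h1 := hΦ 0
    simp only [Finset.range_zero, Finset.sum_empty, map_zero, Pi.zero_apply, sub_zero] at h1
    exact ne_top_of_le_ne_top (by simpa [hr] using hfin) h1
  have hxtl : Tendsto (fun m => Φ ℕ (tl m x)) atTop (𝓝 0) := by
    rw [ENNReal.tendsto_nhds_zero]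
    intro ε hε
    have hε2 : 0 < ε / 2 := ENNReal.half_pos hε.ne'
    obtain ⟨n, hn⟩ := (ENNReal.tendsto_nhds_zero.1 hr0 (ε / 2) hε2).exists
    have h1 := ENNReal.tendsto_nhds_zero.1 (co_tl (∑ k ∈ Finset.range n, u k)) (ε / 2) hε2
    filter_upwards [h1] with m hm
    refine le_trans (h.toGood.le_add (y := tl m (co (∑ k ∈ Finset.range n, u k)))
      (z := fun i => ‖x i - co (∑ k ∈ Finset.range n, u k) i‖ₑ) ?_) ?_
    · intro i
      unfold tl
      split_ifs with h2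
      · calc ‖x i‖ₑ = ‖co (∑ k ∈ Finset.range n, u k) i
              + (x i - co (∑ k ∈ Finset.range n, u k) i)‖ₑ := by rw [add_sub_cancel]
          _ ≤ _ := enorm_add_le _ _
      · exact zero_le
    · calc _ ≤ ε / 2 + ε / 2 := add_le_add hm ((hΦ n).trans hn)
        _ = ε := ENNReal.add_halves ε
  refine ⟨mk x hxfin hxtl, ?_⟩
  rw [tendsto_iff_edist_tendsto_0]
  refine tendsto_of_tendsto_of_tendsto_of_le_of_le tendsto_const_nhds hr0 (fun n => zero_le)
    fun n => ?_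
  show edist (∑ k ∈ Finset.range n, u k) (mk x hxfin hxtl) ≤ r n
  rw [edist_comm, edist_eq_enorm_sub, enorm_def]
  refine le_trans (le_of_eq ?_) (hΦ n)
  congr 1

instance : CompleteSpace (ESp Φ h) :=
  NormedAddCommGroup.completeSpace_of_summable_imp_tendsto comp_aux

end ESp

end DHsp
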