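import Pool.Agent.Helper13.DH.SpSum
import Pool.Agent.Helper13.DH.SpComp

/-!
# MP_6ad661_an, block DH-S4 : equivalence of basic sequences and disjoint homogeneity

`serConv_iff_of_two_sided`: in complete normed spaces, if the finite sums of two sequences have
comparable norms then the series `∑ a_k u_k` and `∑ a_k v_k` converge simultaneously (Cauchy
criterion: `cauchySeq_iff`, sums over `Finset.Ico m n`).
-/

open scoped ENNReal NNReal Topology
open Function Filter

namespace DHsp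

/-- The series `∑ u_k` converges. -/
def SerConv {X : Type*} [NormedAddCommGroup X] (u : ℕ → X) : Prop :=
  ∃ l : X, Tendsto (fun n => ∑ k ∈ Finset.range n, u k) atTop (𝓝 l)

theorem serConv_of_bound {X Y : Type*} [NormedAddCommGroup X] [NormedSpace ℝ X]
    [NormedAddCommGroup Y] [NormedSpace ℝ Y] [CompleteSpace X]
    (u : ℕ → X) (v : ℕ → Y) (C : ℝ) (a : ℕ → ℝ)
    (hC : ∀ s : Finset ℕ, ‖∑ k ∈ s, a k • u k‖ ≤ C * ‖∑ k ∈ s, a k • v k‖)
    (hv : SerConv (fun k => a k • v k)) : SerConv (fun k => a k • u k) := by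
  obtain ⟨l, hl⟩ := hv
  have hcau := hl.cauchySeq
  have hcu : CauchySeq (fun n => ∑ k ∈ Finset.range n, a k • u k) := by
    rw [Metric.cauchySeq_iff'] at hcau ⊢
    intro ε hε
    obtain ⟨N, hN⟩ := hcau (ε / (|C| + 1)) (by positivity)
    refine ⟨N, fun n hn => ?_⟩
    have h1 := hN n hn
    rw [dist_eq_norm, ← Finset.sum_Ico_eq_sub _ hn] at h1 ⊢
    calc ‖∑ k ∈ Finset.Ico N n, a k • u k‖ ≤ C * ‖∑ k ∈ Finset.Ico N n, a k • v k‖ := hC _
      _ ≤ (|C| + 1) * ‖∑ k ∈ Finset.Ico N n, a k • v k‖ := by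
          gcongr
          linarith [le_abs_self C]
      _ < (|C| + 1) * (ε / (|C| + 1)) := by
          gcongr
      _ = ε := by field_simp
  exact cauchySeq_tendsto_of_complete hcu

namespace ESp

variable {Φ : SFun} {h : NormF Φ}

theorem subseq_equiv (hU : UpperEst Φ) (hL : LowerEst Φ) (x : ℕ → ESp Φ h) (hn : ∀ n, ‖x n‖ = 1)
    (hx : Pairwise fun m n => |x m| ⊓ |x n| = 0) :
    ∃ φ : ℕ → ℕ, StrictMono φ ∧ ∀ a : ℕ → ℝ,
      SerConv (fun k => a k • x (φ k)) ↔ SerConv (fun k => a k • (e k : ESp Φ h)) := by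
  obtain ⟨φ, hφ, C, hC, hb⟩ := two_sided hU hL x hn hx
  exact ⟨φ, hφ, fun a =>
    ⟨serConv_of_bound (fun k => (e k : ESp Φ h)) (fun k => x (φ k)) C a fun s => (hb a s).2,
      serConv_of_bound (fun k => x (φ k)) (fun k => (e k : ESp Φ h)) C a fun s => (hb a s).1⟩⟩

/-- The basis is symmetric. -/
theorem symm_equiv (π : Equiv.Perm ℕ) (a : ℕ → ℝ) :
    SerConv (fun k => a k • (e (π k) : ESp Φ h)) ↔ SerConv (fun k => a k • (e k : ESp Φ h)) := by
  have h1 : ∀ s : Finset ℕ, ‖∑ k ∈ s, a k • (e (π k) : ESp Φ h)‖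
      = ‖∑ k ∈ s, a k • (e k : ESp Φ h)‖ := by
    intro s
    rw [← toReal_enorm, ← toReal_enorm, enorm_sum_e (φ := π) a s π.injective,
      enorm_sum_e (φ := fun k => k) a s (fun _ _ hij => hij)]
  exact ⟨serConv_of_bound (fun k => (e k : ESp Φ h)) (fun k => (e (π k) : ESp Φ h)) 1 a
      fun s => by rw [one_mul, h1],
    serConv_of_bound (fun k => (e (π k) : ESp Φ h)) (fun k => (e k : ESp Φ h)) 1 a
      fun s => by rw [one_mul, h1]⟩

end ESp

end DHsp
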