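import Pool.Agent.Helper13.DH.GoodL

/-!
# MP_6ad661_an : the Banach lattice of sequences given by a functional `Φ` with `NormF Φ`
-/

open scoped ENNReal NNReal Topology
open Function Filter

namespace DHsp

theorem Good.abs_add {Φ : SFun} (h : Good Φ) {ι : Type} (x y : ι → ℝ) :
    Φ ι (fun i => ‖x i + y i‖ₑ) ≤ Φ ι (fun i => ‖x i‖ₑ) + Φ ι (fun i => ‖y i‖ₑ) :=
  h.le_add fun i => enorm_add_le (x i) (y i)

theorem Good.abs_smul {Φ : SFun} (h : Good Φ) {ι : Type} (c : ℝ) (x : ι → ℝ) :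
    Φ ι (fun i => ‖c * x i‖ₑ) = ‖c‖ₑ * Φ ι (fun i => ‖x i‖ₑ) := by
  rw [← h.smul _ enorm_ne_top]
  simp only [enorm_mul]

/-- The tail of a vector. -/
noncomputable def tl (n : ℕ) (x : ℕ → ℝ) : ℕ → ℝ≥0∞ := fun i => if n ≤ i then ‖x i‖ₑ else 0

theorem tl_add_le (n : ℕ) (x y : ℕ → ℝ) (i : ℕ) : tl n (x + y) i ≤ tl n x i + tl n y i := by
  unfold tl
  split_ifs
  · exact enorm_add_le _ _
  · simp

theorem tl_smul (n : ℕ) (c : ℝ) (x : ℕ → ℝ) : tl n (c • x) = fun i => ‖c‖ₑ * tl n x i := by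
  funext i
  unfold tl
  split_ifs
  · simp [enorm_mul]
  · simp

theorem tl_anti {m n : ℕ} (h : m ≤ n) (x : ℕ → ℝ) (i : ℕ) : tl n x i ≤ tl m x i := by
  unfold tl
  split_ifs with h1 h2 h2
  · exact le_rfl
  · omega
  · exact zero_le
  · exact le_rfl

/-- The underlying vector space of sequences: finite norm, and the norms of the tails tend to 0. -/
def car (Φ : SFun) (h : NormF Φ) : Submodule ℝ (ℕ → ℝ) where
  carrier := {x | Φ ℕ (fun i => ‖x i‖ₑ) ≠ ⊤ ∧ Tendsto (fun n => Φ ℕ (tl n x)) atTop (𝓝 0)}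
  zero_mem' := by
    refine ⟨?_, ?_⟩
    · simp [h.toGood.zero]
    · have : ∀ n, Φ ℕ (tl n 0) = 0 := fun n => h.toGood.eq_zero fun i => by simp [tl]
      simp [this]
  add_mem' := by
    rintro x y ⟨hx, hx'⟩ ⟨hy, hy'⟩
    refine ⟨?_, ?_⟩
    · exact ne_top_of_le_ne_top (ENNReal.add_ne_top.2 ⟨hx, hy⟩) (h.toGood.abs_add x y)
    · have h0 : Tendsto (fun n => Φ ℕ (tl n x) + Φ ℕ (tl n y)) atTop (𝓝 0) := by
        simpa using hx'.add hy'
      refine tendsto_of_tendsto_of_tendsto_of_le_of_le tendsto_const_nhds h0 (fun n => zero_le)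
        fun n => ?_
      exact h.toGood.le_add (tl_add_le n x y)
  smul_mem' := by
    rintro c x ⟨hx, hx'⟩
    refine ⟨?_, ?_⟩
    · have := h.toGood.abs_smul c x
      simp only [Pi.smul_apply, smul_eq_mul]
      rw [this]
      exact ENNReal.mul_ne_top enorm_ne_top hx
    · have h1 : ∀ n, Φ ℕ (tl n (c • x)) = ‖c‖ₑ * Φ ℕ (tl n x) := fun n => by
        rw [tl_smul, h.toGood.smul _ enorm_ne_top]
      simp only [h1]
      have := ENNReal.Tendsto.const_mul (a := ‖c‖ₑ) hx' (Or.inr enorm_ne_top)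
      simpa using this

/-- The space. -/
def ESp (Φ : SFun) (h : NormF Φ) : Type := car Φ h

namespace ESp

variable {Φ : SFun} {h : NormF Φ}

noncomputable instance : AddCommGroup (ESp Φ h) := inferInstanceAs (AddCommGroup (car Φ h))
noncomputable instance : Module ℝ (ESp Φ h) := inferInstanceAs (Module ℝ (car Φ h))

/-- Coordinates. -/
noncomputable def co : ESp Φ h →ₗ[ℝ] (ℕ → ℝ) := (car Φ h).subtype

theorem co_inj : Injective (co : ESp Φ h →ₗ[ℝ] (ℕ → ℝ)) := Subtype.val_injective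

@[ext] theorem ext' {x y : ESp Φ h} (hxy : ∀ n, co x n = co y n) : x = y := co_inj (funext hxy)

theorem co_fin (x : ESp Φ h) : Φ ℕ (fun i => ‖co x i‖ₑ) ≠ ⊤ := x.2.1

theorem co_tl (x : ESp Φ h) : Tendsto (fun n => Φ ℕ (tl n (co x))) atTop (𝓝 0) := x.2.2

/-- Construct an element from a sequence. -/
noncomputable def mk (x : ℕ → ℝ) (h1 : Φ ℕ (fun i => ‖x i‖ₑ) ≠ ⊤)
    (h2 : Tendsto (fun n => Φ ℕ (tl n x)) atTop (𝓝 0)) : ESp Φ h := ⟨x, h1, h2⟩

@[simp] theorem co_mk (x : ℕ → ℝ) (h1 : Φ ℕ (fun i => ‖x i‖ₑ) ≠ ⊤)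
    (h2 : Tendsto (fun n => Φ ℕ (tl n x)) atTop (𝓝 0)) : co (mk x h1 h2 : ESp Φ h) = x := rfl

/-- The norm as a group norm. -/
noncomputable def gnorm (Φ : SFun) (h : NormF Φ) : AddGroupNorm (ESp Φ h) where
  toFun x := (Φ ℕ (fun i => ‖co x i‖ₑ)).toReal
  map_zero' := by simp [h.toGood.zero]
  add_le' x y := by
    rw [← ENNReal.toReal_add (co_fin x) (co_fin y)]
    apply ENNReal.toReal_mono (ENNReal.add_ne_top.2 ⟨co_fin x, co_fin y⟩)
    rw [map_add]
    exact h.toGood.abs_add (co x) (co y)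
  neg' x := by simp
  eq_zero_of_map_eq_zero' x hx := by
    have h1 : Φ ℕ (fun i => ‖co x i‖ₑ) = 0 := by
      rcases (ENNReal.toReal_eq_zero_iff _).1 hx with h1 | h1
      · exact h1
      · exact absurd h1 (co_fin x)
    ext n
    have h2 : ‖co x n‖ₑ ≤ 0 := by
      rw [← h1]
      exact (le_iSup (fun i => ‖co x i‖ₑ) n).trans (h.sup_le _)
    simpa using h2

noncomputable instance : NormedAddCommGroup (ESp Φ h) := (gnorm Φ h).toNormedAddCommGroup

theorem norm_def (x : ESp Φ h) : ‖x‖ = (Φ ℕ (fun i => ‖co x i‖ₑ)).toReal := rfl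

theorem enorm_def (x : ESp Φ h) : ‖x‖ₑ = Φ ℕ (fun i => ‖co x i‖ₑ) := by
  rw [← ofReal_norm, norm_def, ENNReal.ofReal_toReal (co_fin x)]

noncomputable instance : NormedSpace ℝ (ESp Φ h) where
  norm_smul_le c x := by
    apply le_of_eq
    rw [norm_def, norm_def, map_smul]
    have := h.toGood.abs_smul c (co x)
    simp only [Pi.smul_apply, smul_eq_mul]
    rw [this, ENNReal.toReal_mul]
    simp

/-- Order. -/
noncomputable instance : PartialOrder (ESp Φ h) :=
  PartialOrder.lift (co : ESp Φ h → (ℕ → ℝ)) co_inj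

theorem le_iff {x y : ESp Φ h} : x ≤ y ↔ ∀ n, co x n ≤ co y n := Iff.rfl

theorem mem_of_le {x : ℕ → ℝ} {y z : ESp Φ h} (hx : ∀ n, |x n| ≤ |co y n| + |co z n|) :
    Φ ℕ (fun i => ‖x i‖ₑ) ≠ ⊤ ∧ Tendsto (fun n => Φ ℕ (tl n x)) atTop (𝓝 0) := by
  have h1 : ∀ n, ‖x n‖ₑ ≤ ‖co y n‖ₑ + ‖co z n‖ₑ := by
    intro n
    rw [← ofReal_norm, ← ofReal_norm, ← ofReal_norm, ← ENNReal.ofReal_add (norm_nonneg _)
      (norm_nonneg _)]
    exact ENNReal.ofReal_le_ofReal (hx n)
  refine ⟨ne_top_of_le_ne_top (ENNReal.add_ne_top.2 ⟨co_fin y, co_fin z⟩)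
    (h.toGood.le_add h1), ?_⟩
  have h0 : Tendsto (fun n => Φ ℕ (tl n (co y)) + Φ ℕ (tl n (co z))) atTop (𝓝 0) := by
    simpa using (co_tl y).add (co_tl z)
  refine tendsto_of_tendsto_of_tendsto_of_le_of_le tendsto_const_nhds h0 (fun n => zero_le)
    fun n => h.toGood.le_add fun i => ?_
  unfold tl
  split_ifs
  · exact h1 i
  · simp

theorem sup_mem (x y : ESp Φ h) : ∀ n, |max (co x n) (co y n)| ≤ |co x n| + |co y n| := by
  intro n
  rcases max_cases (co x n) (co y n) with ⟨h1, _⟩ | ⟨h1, _⟩ <;> rw [h1]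
  · linarith [abs_nonneg (co y n)]
  · linarith [abs_nonneg (co x n)]

theorem inf_mem (x y : ESp Φ h) : ∀ n, |min (co x n) (co y n)| ≤ |co x n| + |co y n| := by
  intro n
  rcases min_cases (co x n) (co y n) with ⟨h1, _⟩ | ⟨h1, _⟩ <;> rw [h1]
  · linarith [abs_nonneg (co y n)]
  · linarith [abs_nonneg (co x n)]

noncomputable instance : Lattice (ESp Φ h) where
  sup x y := mk (fun n => max (co x n) (co y n)) (mem_of_le (sup_mem x y)).1
    (mem_of_le (sup_mem x y)).2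
  inf x y := mk (fun n => min (co x n) (co y n)) (mem_of_le (inf_mem x y)).1
    (mem_of_le (inf_mem x y)).2
  le_sup_left x y := fun n => le_max_left _ _
  le_sup_right x y := fun n => le_max_right _ _
  sup_le x y z h1 h2 := fun n => max_le (h1 n) (h2 n)
  inf_le_left x y := fun n => min_le_left _ _
  inf_le_right x y := fun n => min_le_right _ _
  le_inf x y z h1 h2 := fun n => le_min (h1 n) (h2 n)

@[simp] theorem co_sup (x y : ESp Φ h) (n : ℕ) : co (x ⊔ y) n = max (co x n) (co y n) := rfl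

@[simp] theorem co_inf (x y : ESp Φ h) (n : ℕ) : co (x ⊓ y) n = min (co x n) (co y n) := rfl

@[simp] theorem co_abs (x : ESp Φ h) (n : ℕ) : co |x| n = |co x n| := by
  change co (x ⊔ -x) n = _
  rw [co_sup, map_neg]
  rfl

instance : IsOrderedAddMonoid (ESp Φ h) where
  add_le_add_left x y hxy z := by
    intro n
    simpa using hxy n

instance : HasSolidNorm (ESp Φ h) where
  solid x y hxy := by
    rw [norm_def, norm_def]
    apply ENNReal.toReal_mono (co_fin y)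
    apply h.toGood.le
    intro i
    have := hxy i
    rw [co_abs, co_abs] at this
    rw [← ofReal_norm, ← ofReal_norm]
    exact ENNReal.ofReal_le_ofReal this

theorem smul_le_smul' {c : ℝ} (hc : 0 ≤ c) {x y : ESp Φ h} (hxy : x ≤ y) : c • x ≤ c • y := by
  intro n
  simpa using mul_le_mul_of_nonneg_left (hxy n) hc

theorem abs_co_le (x : ESp Φ h) (n : ℕ) : |co x n| ≤ ‖x‖ := by
  have h1 : ‖co x n‖ₑ ≤ ‖x‖ₑ := by
    rw [enorm_def]
    exact (le_iSup (fun i => ‖co x i‖ₑ) n).trans (h.sup_le _)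
  rw [← Real.norm_eq_abs]
  rw [enorm_le_iff_norm_le] at h1
  exact h1

/-- Disjointness means disjoint supports. -/
theorem disj_iff (x y : ESp Φ h) : |x| ⊓ |y| = 0 ↔ ∀ n, co x n = 0 ∨ co y n = 0 := by
  constructor
  · intro hxy n
    have : co (|x| ⊓ |y|) n = 0 := by rw [hxy]; simp
    rw [co_inf, co_abs, co_abs] at this
    rcases min_choice |co x n| |co y n| with h1 | h1 <;> rw [h1] at this
    · left; simpa using this
    · right; simpa using this
  · intro hxy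
    ext n
    rw [co_inf, co_abs, co_abs]
    rcases hxy n with h1 | h1 <;> simp [h1]

end ESp

end DHsp
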