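import Pool.Agent.Helper13.DH.SpSum

/-!
# MP_6ad661_an, block DH-S5 : the unit vectors are weakly null; norms of `∑_{k∈s} e_k`

`norm_sum_e`: `‖∑_{k∈s} e (φ k)‖ = (Φ (Fin #s) 1).toReal`.
`weak_null`: otherwise `|g (e n)| ≥ ε` for infinitely many `n`; choose `k` of them, signs
`s_n = sign (g (e n))`: `k ε ≤ g (∑ s_n e_n) ≤ ‖g‖ Φ(Fin k)(1)`, which contradicts
`M Φ(Fin k)(1) ≤ k` for `k` large, `M > ‖g‖/ε` (growth hypothesis with exponent 1) as
`Φ (Fin k) 1 ≥ 1 > 0`.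
-/

open scoped ENNReal NNReal Topology
open Function Filter

namespace DHsp

namespace ESp

variable {Φ : SFun} {h : NormF Φ}

theorem enorm_sum_e_card (a : ℕ → ℝ) (s : Finset ℕ) {φ : ℕ → ℕ} (hφ : Injective φ)
    (ha : ∀ k ∈ s, |a k| = 1) :
    ‖∑ k ∈ s, a k • (e (φ k) : ESp Φ h)‖ₑ = Φ (Fin s.card) (fun _ => 1) := by
  have ha' : ∀ k ∈ s, ‖a k‖ₑ = 1 := by
    intro k hk
    rw [← ofReal_norm, Real.norm_eq_abs, ha k hk, ENNReal.ofReal_one]
  rw [enorm_sum_e a s hφ]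
  apply le_antisymm
  · by_cases hs : s.Nonempty
    · have hpos : 0 < s.card := Finset.card_pos.2 hs
      refine h.toGood.mono
        (fun k => if hk : k ∈ s then s.equivFin ⟨k, hk⟩ else ⟨0, hpos⟩) ?_ ?_
      · intro k hk l hl hkl
        have hk' : k ∈ s := by
          by_contra hcon
          exact hk (if_neg hcon)
        have hl' : l ∈ s := by
          by_contra hcon
          exact hl (if_neg hcon)
        simp only [dif_pos hk', dif_pos hl'] at hkl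
        have := s.equivFin.injective hkl
        exact congrArg Subtype.val this
      · intro k
        split_ifs with hk
        · rw [ha' k hk]
        · exact zero_le
    · rw [Finset.not_nonempty_iff_eq_empty] at hs
      subst hs
      rw [h.toGood.eq_zero (fun k => by simp)]
      exact zero_le
  · refine h.toGood.mono (fun i => ((s.equivFin.symm i : s) : ℕ)) ?_ ?_
    · intro i _ j _ hij
      exact s.equivFin.symm.injective (Subtype.ext hij)
    · intro i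
      have hm : ((s.equivFin.symm i : s) : ℕ) ∈ s := (s.equivFin.symm i).2
      rw [if_pos hm, ha' _ hm]

theorem weak_null (hG : ∀ k M : ℕ, ∃ n₀ : ℕ, ∀ n ≥ n₀,
      (M : ℝ≥0∞) * Φ (Fin n) (fun _ => 1) ^ k ≤ n) (g : ESp Φ h →L[ℝ] ℝ) :
    Tendsto (fun n => g (e n)) atTop (𝓝 0) := by
  by_contra hcon
  have h1 : ∃ ε > 0, ∃ᶠ n in atTop, ε ≤ |g (e n : ESp Φ h)| := by
    rw [Metric.tendsto_atTop] at hcon
    push Not at hcon
    obtain ⟨ε, hε, hN⟩ := hcon
    refine ⟨ε, hε, ?_⟩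
    rw [Filter.frequently_atTop]
    intro N
    obtain ⟨n, hn, h2⟩ := hN N
    refine ⟨n, hn, ?_⟩
    rwa [Real.dist_eq, sub_zero] at h2
  obtain ⟨ε, hε, hfr⟩ := h1
  obtain ⟨φ, hφ, hφ'⟩ := Filter.extraction_of_frequently_atTop hfr
  obtain ⟨M, hM⟩ := exists_nat_gt (‖g‖ / ε)
  obtain ⟨n₀, hn₀⟩ := hG 1 M
  set a : ℕ → ℝ := fun i => if 0 ≤ g (e (φ i) : ESp Φ h) then 1 else -1 with ha_def
  have ha1 : ∀ i, |a i| = 1 := by
    intro i
    simp only [ha_def]
    split_ifs <;> simp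
  have ha2 : ∀ i, a i * g (e (φ i) : ESp Φ h) = |g (e (φ i) : ESp Φ h)| := by
    intro i
    simp only [ha_def]
    split_ifs with hi
    · rw [one_mul, abs_of_nonneg hi]
    · rw [neg_one_mul, abs_of_neg (not_le.1 hi)]
  set k : ℕ := n₀ + 1 with hk_def
  set x : ESp Φ h := ∑ i ∈ Finset.range k, a i • (e (φ i) : ESp Φ h) with hx_def
  have hxe : ‖x‖ₑ = Φ (Fin k) (fun _ => 1) := by
    have := enorm_sum_e_card (Φ := Φ) (h := h) a (Finset.range k) hφ.injective (fun i _ => ha1 i)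
    rw [Finset.card_range] at this
    exact this
  have hgx : (k : ℝ) * ε ≤ g x := by
    have h2 : g x = ∑ i ∈ Finset.range k, |g (e (φ i) : ESp Φ h)| := by
      rw [hx_def, map_sum]
      refine Finset.sum_congr rfl fun i _ => ?_
      rw [map_smul, smul_eq_mul, ha2]
    rw [h2]
    calc (k : ℝ) * ε = ∑ _i ∈ Finset.range k, ε := by
          rw [Finset.sum_const, Finset.card_range, nsmul_eq_mul]
      _ ≤ _ := Finset.sum_le_sum fun i _ => hφ' i
  have hgx2 : g x ≤ ‖g‖ * ‖x‖ := (le_abs_self _).trans (g.le_opNorm x)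
  have hx1 : 1 ≤ ‖x‖ := by
    have h3 : (1 : ℝ≥0∞) ≤ ‖x‖ₑ := by
      rw [hxe]
      exact (le_iSup (fun _ : Fin k => (1 : ℝ≥0∞)) ⟨0, Nat.succ_pos n₀⟩).trans (h.sup_le _)
    have h4 := ENNReal.toReal_mono enorm_ne_top h3
    rwa [ENNReal.toReal_one, toReal_enorm] at h4
  have hMx : (M : ℝ) * ‖x‖ ≤ k := by
    have h3 := hn₀ k (Nat.le_succ n₀)
    rw [pow_one, ← hxe] at h3
    have h4 := ENNReal.toReal_mono (ENNReal.natCast_ne_top k) h3
    rwa [ENNReal.toReal_mul, ENNReal.toReal_natCast, ENNReal.toReal_natCast, toReal_enorm] at h4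
  have hx0 : 0 < ‖x‖ := by linarith
  have h5 : ‖g‖ < M * ε := by
    rwa [div_lt_iff₀ hε] at hM
  have h6 : (M : ℝ) * ‖x‖ * ε ≤ ‖g‖ * ‖x‖ := by
    calc (M : ℝ) * ‖x‖ * ε ≤ k * ε := mul_le_mul_of_nonneg_right hMx hε.le
      _ ≤ g x := hgx
      _ ≤ ‖g‖ * ‖x‖ := hgx2
  have h7 : ‖g‖ * ‖x‖ < M * ε * ‖x‖ := mul_lt_mul_of_pos_right h5 hx0
  nlinarith

end ESp

end DHsp
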