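import Pool.Agent.Helper13.DH.FunMain
import Pool.Agent.Helper13.DH.SpDH
import Pool.Agent.Helper13.DH.SpWeak

/-!
# The properties of the functional, collected
-/

open scoped ENNReal NNReal Topology
open Function Filter

namespace DHsp

/-- All properties of the functional that are used below. -/
structure Hyp (Φ : SFun) : Prop where
  upper : UpperEst Φ
  lower : LowerEst Φ
  growA : ∀ M : ℕ, ∃ n : ℕ, (M : ℝ≥0∞) ≤ Φ (Fin n) (fun _ => 1)
  growB : ∀ k M : ℕ, ∃ n₀ : ℕ, ∀ n ≥ n₀, (M : ℝ≥0∞) * Φ (Fin n) (fun _ => 1) ^ k ≤ n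

theorem exists_hyp : ∃ Φ : SFun, NormF Φ ∧ Hyp Φ := by
  obtain ⟨Φ, h, hU, hL, hA, hG⟩ := exists_functional
  exact ⟨Φ, h, hU, hL, hA, hG⟩

end DHsp
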