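import Pool.Agent.Helper13.DH.SpWeak

/-!
# MP_6ad661_an, block DH-S7 : not isomorphic to `ℓ^p`, `1 ≤ p < ∞`

`lp_add`: `g ∈ ℓ^p`, `f n` bounded and coordinatewise null in `ℓ^p`.  Then eventually
`‖g + f n‖^p ≥ ‖g‖^p + ‖f n‖^p - ε`.  Proof: choose a finite set `A` such that `g 1_{A^c}` has
small norm `δ`; `f n 1_A → 0` in norm.  With `g' = g 1_A`, `f' = f n 1_{A^c}`:
`‖g' + f'‖^p = ‖g'‖^p + ‖f'‖^p` (disjoint supports), and all of `‖g + f n‖`, `‖g‖`, `‖f n‖` differ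
from the primed quantities by at most `δ + ‖f n 1_A‖`; `t ↦ t^p` is uniformly continuous on bounded
intervals.  (A weaker version with any fixed constants is enough for the application.)

`lp_sub`: `c ≤ ‖f n‖`.  Recursively `‖∑_{k<K+1} f (n_k)‖^p ≥ ‖∑_{k<K} f (n_k)‖^p + c^p / 2`, so
`‖∑_{k<K} f (n_k)‖^p ≥ K c^p/2`.

`not_lp`: `T : ESp ≃L ℓ^p`, `f n = T (e n)`: bounded, `‖f n‖ ≥ c > 0`, coordinatewise null
(`weak_null`).  So `K c^p/2 ≤ (‖T‖ ‖∑_{k<K} e(n_k)‖)^p ≤ (‖T‖ λ(K))^p ≤ ‖T‖^p λ(K)^k` with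
`λ(K) = (Φ (Fin K) 1).toReal ≥ 1` and a natural number `k ≥ p`, which contradicts the growth
hypothesis `M λ(K)^k ≤ K` for `K` large (and `λ(K) < ⊤`, as it is a norm of a vector).
-/

open scoped ENNReal NNReal Topology
open Function Filter

namespace DHsp

theorem lp_add {p : ℝ≥0∞} [Fact (1 ≤ p)] (hp : p ≠ ⊤) (g : lp (fun _ : ℕ => ℝ) p)
    (f : ℕ → lp (fun _ : ℕ => ℝ) p) (C : ℝ) (hC : ∀ n, ‖f n‖ ≤ C)
    (hf : ∀ i, Tendsto (fun n => f n i) atTop (𝓝 0)) {ε : ℝ} (hε : 0 < ε) :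
    ∀ᶠ n in atTop, ‖g‖ ^ p.toReal + ‖f n‖ ^ p.toReal - ε ≤ ‖g + f n‖ ^ p.toReal := by
  classical
  have hP : 0 < p.toReal := ENNReal.toReal_pos (by
    have : (1 : ℝ≥0∞) ≤ p := Fact.out
    exact (lt_of_lt_of_le one_pos this).ne') hp
  set P : ℝ := p.toReal with hPdef
  -- uniform continuity
  have hC0 : 0 ≤ C := (norm_nonneg _).trans (hC 0)
  obtain ⟨δ, hδ, hδ'⟩ : ∃ δ > 0, ∀ x ∈ Set.Icc (0 : ℝ) (‖g‖ + C), ∀ y ∈ Set.Icc (0 : ℝ) (‖g‖ + C),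
      |x - y| < δ → |x ^ P - y ^ P| < ε / 4 := by
    have hcont : ContinuousOn (fun t : ℝ => t ^ P) (Set.Icc (0 : ℝ) (‖g‖ + C)) :=
      (Real.continuous_rpow_const hP.le).continuousOn
    have hu := isCompact_Icc.uniformContinuousOn_of_continuous hcont
    rw [Metric.uniformContinuousOn_iff] at hu
    obtain ⟨δ, hδ, h⟩ := hu (ε / 4) (by positivity)
    refine ⟨δ, hδ, fun x hx y hy hxy => ?_⟩
    have := h x hx y hy (by rw [Real.dist_eq]; exact hxy)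
    rwa [Real.dist_eq] at this
  -- the tails
  let tail : Finset ℕ → lp (fun _ : ℕ => ℝ) p → lp (fun _ : ℕ => ℝ) p :=
    fun A h => h - ∑ i ∈ A, lp.single p i (h i)
  have htail : ∀ A h, ‖tail A h‖ ^ P = ‖h‖ ^ P - ∑ i ∈ A, ‖h i‖ ^ P :=
    fun A h => lp.norm_compl_sum_single hP h A
  have htail_le : ∀ A h, ‖tail A h‖ ≤ ‖h‖ := by
    intro A h
    have h1 : ‖tail A h‖ ^ P ≤ ‖h‖ ^ P := by
      rw [htail]
      have : 0 ≤ ∑ i ∈ A, ‖h i‖ ^ P := Finset.sum_nonneg fun i _ => by positivity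
      linarith
    exact (Real.rpow_le_rpow_iff (norm_nonneg _) (norm_nonneg _) hP).1 h1
  have htail_add : ∀ A h h', tail A (h + h') = tail A h + tail A h' := by
    intro A h h'
    simp only [tail]
    have : ∑ i ∈ A, lp.single p i ((h + h' : lp (fun _ : ℕ => ℝ) p) i)
        = ∑ i ∈ A, lp.single p i (h i) + ∑ i ∈ A, lp.single p i (h' i) := by
      rw [← Finset.sum_add_distrib]
      refine Finset.sum_congr rfl fun i _ => ?_
      rw [lp.coeFn_add, Pi.add_apply]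
      exact lp.single_add p i _ _
    rw [this]
    abel
  -- choice of the finite set
  obtain ⟨A, hA⟩ : ∃ A : Finset ℕ, ‖tail A g‖ ^ P < min (δ ^ P) (ε / 4) := by
    have hs := lp.hasSum_norm hP g
    have hm : 0 < min (δ ^ P) (ε / 4) := by
      have : 0 < δ ^ P := Real.rpow_pos_of_pos hδ P
      have : 0 < ε / 4 := by positivity
      exact lt_min ‹_› ‹_›
    have := (hs.eventually (lt_mem_nhds (a := ‖g‖ ^ P - min (δ ^ P) (ε / 4)) (by linarith))).exists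
    obtain ⟨A, hA⟩ := this
    refine ⟨A, ?_⟩
    rw [htail]
    simp only [] at hA
    linarith
  have hAδ : ‖tail A g‖ < δ :=
    (Real.rpow_lt_rpow_iff (norm_nonneg _) hδ.le hP).1 (hA.trans_le (min_le_left _ _))
  have hAε : ‖tail A g‖ ^ P < ε / 4 := hA.trans_le (min_le_right _ _)
  have hAg : ‖g‖ ^ P - ∑ i ∈ A, ‖g i‖ ^ P < ε / 4 := by rw [← htail]; exact hAε
  -- the finite part
  have hcontP : Continuous fun t : ℝ => ‖t‖ ^ P := continuous_norm.rpow_const fun _ => Or.inr hP.le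
  have h1 : Tendsto (fun n => ∑ i ∈ A, ‖f n i‖ ^ P) atTop (𝓝 0) := by
    have : Tendsto (fun n => ∑ i ∈ A, ‖f n i‖ ^ P) atTop (𝓝 (∑ i ∈ A, ‖(0 : ℝ)‖ ^ P)) :=
      tendsto_finsetSum A fun i _ => (hcontP.tendsto 0).comp (hf i)
    simpa [Real.zero_rpow hP.ne'] using this
  have h2 : Tendsto (fun n => ∑ i ∈ A, ‖g i + f n i‖ ^ P) atTop (𝓝 (∑ i ∈ A, ‖g i‖ ^ P)) := by
    refine tendsto_finsetSum A fun i _ => ?_
    have h3 : Tendsto (fun n => g i + f n i) atTop (𝓝 (g i)) := by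
      simpa using (tendsto_const_nhds (x := g i)).add (hf i)
    exact (hcontP.tendsto (g i)).comp h3
  filter_upwards [h1.eventually (gt_mem_nhds (show (0 : ℝ) < ε / 4 by positivity)),
    h2.eventually (lt_mem_nhds (show (∑ i ∈ A, ‖g i‖ ^ P) - ε / 4 < ∑ i ∈ A, ‖g i‖ ^ P by
      linarith))] with n hn1 hn2
  have h3 : ‖g + f n‖ ^ P = ∑ i ∈ A, ‖g i + f n i‖ ^ P + ‖tail A (g + f n)‖ ^ P := by
    rw [htail]
    simp only [lp.coeFn_add, Pi.add_apply]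
    ring
  have h4 : |‖tail A (g + f n)‖ ^ P - ‖tail A (f n)‖ ^ P| < ε / 4 := by
    apply hδ'
    · refine ⟨norm_nonneg _, (htail_le A _).trans ((norm_add_le _ _).trans ?_)⟩
      linarith [hC n]
    · refine ⟨norm_nonneg _, (htail_le A _).trans ?_⟩
      linarith [hC n, norm_nonneg g]
    · have h5 : |‖tail A (g + f n)‖ - ‖tail A (f n)‖| ≤ ‖tail A (g + f n) - tail A (f n)‖ :=
        abs_norm_sub_norm_le _ _
      have h6 : tail A (g + f n) - tail A (f n) = tail A g := by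
        rw [htail_add]; abel
      rw [h6] at h5
      exact h5.trans_lt hAδ
  have h5 : ‖tail A (f n)‖ ^ P = ‖f n‖ ^ P - ∑ i ∈ A, ‖f n i‖ ^ P := htail A (f n)
  have h6 := (abs_lt.1 h4).1
  rw [h3]
  linarith

theorem lp_sub {p : ℝ≥0∞} [Fact (1 ≤ p)] (hp : p ≠ ⊤)
    (f : ℕ → lp (fun _ : ℕ => ℝ) p) (C c : ℝ) (hc : 0 < c) (hC : ∀ n, ‖f n‖ ≤ C)
    (hc' : ∀ n, c ≤ ‖f n‖) (hf : ∀ i, Tendsto (fun n => f n i) atTop (𝓝 0)) :
    ∃ φ : ℕ → ℕ, StrictMono φ ∧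
      ∀ K : ℕ, K * (c ^ p.toReal / 2) ≤ ‖∑ k ∈ Finset.range K, f (φ k)‖ ^ p.toReal := by
  have hP : 0 < p.toReal := ENNReal.toReal_pos (by
    have : (1 : ℝ≥0∞) ≤ p := Fact.out
    exact (lt_of_lt_of_le one_pos this).ne') hp
  have hcP : 0 < c ^ p.toReal := Real.rpow_pos_of_pos hc _
  have hstep : ∀ st : ℕ × lp (fun _ : ℕ => ℝ) p, ∃ n, st.1 < n ∧
      ‖st.2‖ ^ p.toReal + ‖f n‖ ^ p.toReal - c ^ p.toReal / 2 ≤ ‖st.2 + f n‖ ^ p.toReal := by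
    intro st
    exact ((eventually_gt_atTop st.1).and (lp_add hp st.2 f C hC hf (half_pos hcP))).exists
  choose nx hnx1 hnx2 using hstep
  let st : ℕ → ℕ × lp (fun _ : ℕ => ℝ) p := fun K =>
    Nat.rec (0, 0) (fun _ s => (nx s, s.2 + f (nx s))) K
  have hst : ∀ K, st (K + 1) = (nx (st K), (st K).2 + f (nx (st K))) := fun K => rfl
  have hst0 : st 0 = (0, 0) := rfl
  let φ : ℕ → ℕ := fun K => (st (K + 1)).1
  have hφ : ∀ K, φ K = nx (st K) := fun K => rfl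
  have hsum : ∀ K, ∑ k ∈ Finset.range K, f (φ k) = (st K).2 := by
    intro K
    induction K with
    | zero => simp [hst0]
    | succ K ih => rw [Finset.sum_range_succ, ih, hst, hφ]
  refine ⟨φ, strictMono_nat_of_lt_succ fun K => ?_, fun K => ?_⟩
  · rw [hφ (K + 1)]
    exact hnx1 (st (K + 1))
  · rw [hsum]
    induction K with
    | zero =>
      simp only [Nat.cast_zero, zero_mul]
      positivity
    | succ K ih =>
      rw [hst]
      have h1 := hnx2 (st K)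
      have h2 : c ^ p.toReal ≤ ‖f (nx (st K))‖ ^ p.toReal :=
        Real.rpow_le_rpow hc.le (hc' _) hP.le
      push_cast
      linarith

namespace ESp

variable {Φ : SFun} {h : NormF Φ}

theorem not_lp (hG : ∀ k M : ℕ, ∃ n₀ : ℕ, ∀ n ≥ n₀,
      (M : ℝ≥0∞) * Φ (Fin n) (fun _ => 1) ^ k ≤ n) (p : ℝ≥0∞) [Fact (1 ≤ p)] (hp : p ≠ ⊤) :
    IsEmpty (ESp Φ h ≃L[ℝ] lp (fun _ : ℕ => ℝ) p) := by
  constructor
  intro T
  have hp1 : (1 : ℝ≥0∞) ≤ p := Fact.out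
  have hp0 : p ≠ 0 := (lt_of_lt_of_le one_pos hp1).ne'
  have hP : 0 < p.toReal := ENNReal.toReal_pos hp0 hp
  let T' : ESp Φ h →L[ℝ] lp (fun _ : ℕ => ℝ) p := T
  let S' : lp (fun _ : ℕ => ℝ) p →L[ℝ] ESp Φ h := T.symm
  let f : ℕ → lp (fun _ : ℕ => ℝ) p := fun n => T' (e n)
  have hC : ∀ n, ‖f n‖ ≤ ‖T'‖ := by
    intro n
    have := T'.le_opNorm (e n : ESp Φ h)
    rwa [norm_e, mul_one] at this
  have hS1 : 0 < ‖S'‖ + 1 := by positivity
  have hc' : ∀ n, (‖S'‖ + 1)⁻¹ ≤ ‖f n‖ := by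
    intro n
    have h1 : S' (f n) = (e n : ESp Φ h) := T.symm_apply_apply _
    have h2 := S'.le_opNorm (f n)
    rw [h1, norm_e] at h2
    rw [inv_le_iff_one_le_mul₀ hS1]
    nlinarith [norm_nonneg (f n)]
  have hf : ∀ i, Tendsto (fun n => f n i) atTop (𝓝 0) := by
    intro i
    let L : ESp Φ h →ₗ[ℝ] ℝ :=
      { toFun := fun x => T' x i
        map_add' := fun x y => by rw [map_add]; rfl
        map_smul' := fun c x => by rw [map_smul]; rfl }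
    let g : ESp Φ h →L[ℝ] ℝ := L.mkContinuous ‖T'‖ fun x =>
      (lp.norm_apply_le_norm hp0 _ i).trans (T'.le_opNorm x)
    exact weak_null hG g
  set c : ℝ := (‖S'‖ + 1)⁻¹ with hcdef
  have hc : 0 < c := inv_pos.2 hS1
  have hcP : 0 < c ^ p.toReal := Real.rpow_pos_of_pos hc _
  obtain ⟨φ, hφ, hb⟩ := lp_sub hp f ‖T'‖ c hc hC hc' hf
  -- the exponent
  obtain ⟨k, hk⟩ := exists_nat_ge p.toReal
  obtain ⟨M, hM⟩ := exists_nat_gt (‖T'‖ ^ p.toReal / (c ^ p.toReal / 2))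
  obtain ⟨n₀, hn₀⟩ := hG k M
  have hn := hn₀ (n₀ + 1) (by omega)
  set K : ℕ := n₀ + 1 with hK
  have h3 := enorm_sum_e_card (Φ := Φ) (h := h) (fun _ => 1) (Finset.range K) hφ.injective
    (by simp)
  have h5 : ∀ m : ℕ, m = K → Φ (Fin m) (fun _ => 1) = Φ (Fin K) (fun _ => 1) := by
    rintro _ rfl
    rfl
  rw [h5 _ (Finset.card_range K)] at h3
  simp only [one_smul] at h3
  rw [← h3] at hn
  set E : ESp Φ h := ∑ k ∈ Finset.range K, (e (φ k) : ESp Φ h) with hE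
  have hE1 : 1 ≤ ‖E‖ := by
    have h6 : (1 : ℝ≥0∞) ≤ ‖E‖ₑ := by
      rw [h3]
      have h7 : (1 : ℝ≥0∞) ≤ ⨆ _ : Fin K, (1 : ℝ≥0∞) :=
        le_iSup (fun _ : Fin K => (1 : ℝ≥0∞)) ⟨0, by omega⟩
      exact h7.trans (h.sup_le _)
    rw [← ofReal_norm, ← ENNReal.ofReal_one, ENNReal.ofReal_le_ofReal_iff (norm_nonneg _)] at h6
    exact h6
  have hn' : (M : ℝ) * ‖E‖ ^ k ≤ K := by
    rw [← ofReal_norm, ← ENNReal.ofReal_pow (norm_nonneg _), ← ENNReal.ofReal_natCast M,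
      ← ENNReal.ofReal_natCast K, ← ENNReal.ofReal_mul (Nat.cast_nonneg _),
      ENNReal.ofReal_le_ofReal_iff (Nat.cast_nonneg _)] at hn
    exact hn
  have h8 : (K : ℝ) * (c ^ p.toReal / 2) ≤ ‖T'‖ ^ p.toReal * ‖E‖ ^ k := by
    refine (hb K).trans ?_
    have h9 : ∑ k ∈ Finset.range K, f (φ k) = T' E := by
      rw [hE, map_sum]
    rw [h9]
    calc ‖T' E‖ ^ p.toReal ≤ (‖T'‖ * ‖E‖) ^ p.toReal :=
          Real.rpow_le_rpow (norm_nonneg _) (T'.le_opNorm E) hP.le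
      _ = ‖T'‖ ^ p.toReal * ‖E‖ ^ p.toReal := Real.mul_rpow (norm_nonneg _) (norm_nonneg _)
      _ ≤ ‖T'‖ ^ p.toReal * ‖E‖ ^ k := by
          apply mul_le_mul_of_nonneg_left _ (by positivity)
          rw [← Real.rpow_natCast]
          exact Real.rpow_le_rpow_of_exponent_le hE1 hk
  have hEk : 0 < ‖E‖ ^ k := by positivity
  have h10 : (M : ℝ) * ‖E‖ ^ k * (c ^ p.toReal / 2) ≤ ‖T'‖ ^ p.toReal * ‖E‖ ^ k :=
    (mul_le_mul_of_nonneg_right hn' (by positivity)).trans h8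
  have h11 : (M : ℝ) * (c ^ p.toReal / 2) ≤ ‖T'‖ ^ p.toReal := by
    have : ((M : ℝ) * (c ^ p.toReal / 2)) * ‖E‖ ^ k ≤ ‖T'‖ ^ p.toReal * ‖E‖ ^ k := by
      linarith
    exact le_of_mul_le_mul_right this hEk
  rw [div_lt_iff₀ (by positivity)] at hM
  linarith

end ESp

end DHsp
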