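import Pool.Agent.Helper13.DH.SpHyp

/-!
# Block DR-R : the space is reflexive

`lam k = (Φ (Fin k) 1).toReal` is `‖∑_{i<k} e_i‖` (`enorm_sum_e_card`).

`bddComplete`: let the partial sums of `∑ z_k e_k` be bounded by `C`.  Then `z` is in the space:
`Φ |z| ≤ C` by `Good.cont` (increasing truncations).  If the norms of the tails `Φ (tl n z)` (they
decrease) do not tend to 0 there is `ε > 0` with `ε < Φ (tl n z)` for all `n`; by `Good.cont` there
are successive finite intervals `I_k = [p_k,p_{k+1})` such that `u_k = ∑_{i ∈ I_k} z_i e_i` has norm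
`> ε`; these are pairwise disjoint and every finite sum of them has norm `≤ C` (truncation of `z`).
`x_k = u_k/‖u_k‖` is normalised and disjoint, so by `two_sided` for a subsequence
`ε ‖∑_{k∈s} e_k‖ ≤ ‖∑_{k∈s} ‖u_{φ k}‖ e_k‖ ≤ C₁ ‖∑_{k∈s} u_{φ k}‖ ≤ C₁ C`, for all finite `s`
(unconditionality: `HasSolidNorm`), which contradicts `growA`.

`shrinking`: otherwise there are `ε > 0` and for every `N` a vector `x` with `co x i = 0` for
`i < N`, `‖x‖ = 1`, `|f x| > ε`; replace `f x` by its absolute value (`±x`) and `x` by a finitely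
supported vector (`tail_tendsto`, continuity of `f`; normalise), so there is a disjoint normalised
sequence `x_k` with `f x_k > ε/2`.  By `two_sided` for a subsequence
`K ε/2 ≤ f (∑_{k<K} x_{φ k}) ≤ ‖f‖ C ‖∑_{k<K} e_k‖`, which contradicts `growB 1 M` for `M` large
(`‖∑_{k<K} e_k‖ = lam K`, `M lam K ≤ K`, and `0 < K`).

`reflexive`: let `z_k = φ (e_k^*)`, `e_k^* = coordinate functional`.  For every `f`,
`f (∑_{k<N} z_k e_k) = φ (∑_{k<N} f(e_k) e_k^*) = φ (f ∘ P_N)`, `P_N x = ∑_{k<N} co x k • e k`,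
`‖P_N‖ ≤ 1`, so by Hahn-Banach (`exists_dual_vector` or `NormedSpace.norm_le_dual_bound`)
`‖∑_{k<N} z_k e_k‖ ≤ ‖φ‖`.  `bddComplete` gives `x` with `co x = z`.  By `shrinking`
`‖f - f ∘ P_N‖ → 0` (`x - P_N x` has zero coordinates below `N`, norm `≤ ‖x‖`), so
`φ f = lim φ (f ∘ P_N) = lim f (∑_{k<N} z_k e_k) = f x` (`tail_tendsto`).
-/

open scoped ENNReal NNReal Topology
open Function Filter

namespace DHsp

namespace ESp

variable {Φ : SFun} {h : NormF Φ}

/-- One step: a normalised vector supported in `[N, q)` on which `f` is larger than `ε`. -/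
theorem step_h53 (f : ESp Φ h →L[ℝ] ℝ) {ε : ℝ} (hε : 0 < ε)
    (hcon : ∀ N : ℕ, ∃ x : ESp Φ h, (∀ i < N, co x i = 0) ∧ ε * ‖x‖ < |f x|) (N : ℕ) :
    ∃ w : ℕ × ESp Φ h, N < w.1 ∧ (∀ i, co w.2 i ≠ 0 → N ≤ i ∧ i < w.1) ∧ ‖w.2‖ = 1 ∧
      ε < f w.2 := by
  obtain ⟨x, hx0, hx⟩ := hcon N
  have hxpos : 0 < ‖x‖ := by
    rcases (norm_nonneg x).eq_or_lt with h1 | h1
    · have h2 : x = 0 := norm_eq_zero.1 h1.symm
      rw [h2] at hx
      simp at hx
    · exact h1
  -- normalise and change the sign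
  obtain ⟨y, hy0, hy1, hy⟩ : ∃ y : ESp Φ h, (∀ i < N, co y i = 0) ∧ ‖y‖ = 1 ∧ ε < f y := by
    obtain ⟨σ, hσ, hσ'⟩ : ∃ σ : ℝ, |σ| = 1 ∧ σ * f x = |f x| := by
      rcases le_total 0 (f x) with h1 | h1
      · exact ⟨1, by simp, by rw [abs_of_nonneg h1, one_mul]⟩
      · exact ⟨-1, by simp, by rw [abs_of_nonpos h1, neg_one_mul]⟩
    refine ⟨(σ * ‖x‖⁻¹) • x, fun i hi => ?_, ?_, ?_⟩
    · rw [co_smul, hx0 i hi, mul_zero]
    · rw [norm_smul, Real.norm_eq_abs, abs_mul, hσ, one_mul, abs_of_nonneg (by positivity),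
        inv_mul_cancel₀ hxpos.ne']
    · rw [map_smul, smul_eq_mul]
      have h2 : σ * ‖x‖⁻¹ * f x = |f x| * ‖x‖⁻¹ := by
        rw [← hσ']; ring
      rw [h2, ← div_eq_mul_inv, lt_div_iff₀ hxpos]
      exact hx
  -- truncate
  have ht := tail_tendsto y
  have hf : Tendsto (fun n => f (∑ k ∈ Finset.range n, co y k • (e k : ESp Φ h))) atTop
      (𝓝 (f y)) := (f.continuous.tendsto y).comp ht
  obtain ⟨q, hq1, hq2⟩ := ((hf.eventually_const_lt hy).and (eventually_gt_atTop N)).exists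
  set v : ESp Φ h := ∑ k ∈ Finset.range q, co y k • (e k : ESp Φ h) with hv
  have hcov : ∀ i, co v i = if i < q then co y i else 0 := by
    intro i
    rw [hv, co_sum_e]
    simp only [Finset.mem_range]
  have hvle : ‖v‖ ≤ 1 := by
    rw [← hy1]
    apply norm_le_norm_of_abs_le_abs
    intro i
    rw [co_abs, co_abs, hcov]
    split_ifs
    · exact le_rfl
    · simp
  have hvpos : 0 < ‖v‖ := by
    rcases (norm_nonneg v).eq_or_lt with h1 | h1
    · have h2 : v = 0 := norm_eq_zero.1 h1.symm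
      rw [h2, map_zero] at hq1
      exact absurd hq1 (not_lt.2 hε.le)
    · exact h1
  refine ⟨(q, ‖v‖⁻¹ • v), hq2, fun i hi => ?_, ?_, ?_⟩
  · simp only at hi
    rw [co_smul, hcov] at hi
    by_cases h1 : i < q
    · rw [if_pos h1] at hi
      refine ⟨?_, h1⟩
      by_contra h2
      exact hi (by rw [hy0 i (not_le.1 h2), mul_zero])
    · exact absurd (by rw [if_neg h1, mul_zero]) hi
  · simp only
    rw [norm_smul, norm_inv, norm_norm, inv_mul_cancel₀ hvpos.ne']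
  · simp only
    rw [map_smul, smul_eq_mul]
    have h3 : 1 ≤ ‖v‖⁻¹ := (one_le_inv₀ hvpos).2 hvle
    calc ε < f v := hq1
      _ = 1 * f v := (one_mul _).symm
      _ ≤ ‖v‖⁻¹ * f v := mul_le_mul_of_nonneg_right h3 (hε.le.trans hq1.le)

/-- The basis is shrinking. -/
theorem shrinking (H : Hyp Φ) (f : ESp Φ h →L[ℝ] ℝ) {ε : ℝ} (hε : 0 < ε) :
    ∃ N : ℕ, ∀ x : ESp Φ h, (∀ i < N, co x i = 0) → |f x| ≤ ε * ‖x‖ := by
  by_contra hcon
  push Not at hcon
  choose nx hnx using step_h53 f hε hcon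
  let p : ℕ → ℕ := fun k => Nat.rec 0 (fun _ a => (nx a).1) k
  have hp : ∀ k, p (k + 1) = (nx (p k)).1 := fun k => rfl
  have hpm : StrictMono p := strictMono_nat_of_lt_succ fun k => by rw [hp]; exact (hnx _).1
  let x : ℕ → ESp Φ h := fun k => (nx (p k)).2
  have hx1 : ∀ k, ‖x k‖ = 1 := fun k => (hnx (p k)).2.2.1
  have hxf : ∀ k, ε < f (x k) := fun k => (hnx (p k)).2.2.2
  have hsupp : ∀ k i, co (x k) i ≠ 0 → p k ≤ i ∧ i < p (k + 1) := by
    intro k i hi
    rw [hp]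
    exact (hnx (p k)).2.1 i hi
  have hdis : ∀ k l i, k < l → co (x k) i = 0 ∨ co (x l) i = 0 := by
    intro k l i hkl
    by_contra h1
    push Not at h1
    have h2 := hsupp k i h1.1
    have h3 := hsupp l i h1.2
    have h4 : p (k + 1) ≤ p l := hpm.monotone hkl
    omega
  have hxd : Pairwise fun m n => |x m| ⊓ |x n| = 0 := by
    intro m n hmn
    rw [disj_iff]
    intro i
    rcases lt_or_gt_of_ne hmn with h1 | h1
    · exact hdis m n i h1
    · exact (hdis n m i h1).symm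
  obtain ⟨φ, hφ, C, hC, hts⟩ := two_sided H.upper H.lower x hx1 hxd
  obtain ⟨M, hM⟩ := exists_nat_gt (‖f‖ * C / ε)
  obtain ⟨n₀, hn₀⟩ := H.growB 1 M
  set K : ℕ := n₀ + 1 with hK
  have hcard := enorm_sum_e_card (Φ := Φ) (h := h) (fun _ => 1) (Finset.range K)
    (φ := fun k => k) (fun _ _ hij => hij) (by simp)
  have h5 : ∀ m : ℕ, m = K → Φ (Fin m) (fun _ => 1) = Φ (Fin K) (fun _ => 1) := by
    rintro _ rfl
    rfl
  rw [h5 _ (Finset.card_range K)] at hcard
  set L : ℝ := ‖∑ k ∈ Finset.range K, (1 : ℝ) • (e k : ESp Φ h)‖ with hL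
  have hML : (M : ℝ) * L ≤ K := by
    have h3 := hn₀ K (Nat.le_succ n₀)
    rw [pow_one, ← hcard] at h3
    have h4 := ENNReal.toReal_mono (ENNReal.natCast_ne_top K) h3
    rwa [ENNReal.toReal_mul, ENNReal.toReal_natCast, ENNReal.toReal_natCast, toReal_enorm] at h4
  have hLpos : 0 < L := by
    have h3 : (1 : ℝ≥0∞) ≤ ‖∑ k ∈ Finset.range K, (1 : ℝ) • (e k : ESp Φ h)‖ₑ := by
      rw [hcard]
      exact (le_iSup (fun _ : Fin K => (1 : ℝ≥0∞)) ⟨0, Nat.succ_pos n₀⟩).trans (h.sup_le _)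
    have h4 := ENNReal.toReal_mono enorm_ne_top h3
    rw [ENNReal.toReal_one, toReal_enorm] at h4
    linarith
  have h6 : (K : ℝ) * ε ≤ ‖f‖ * (C * L) := by
    have h7 : (K : ℝ) * ε ≤ f (∑ k ∈ Finset.range K, (1 : ℝ) • x (φ k)) := by
      rw [map_sum]
      calc (K : ℝ) * ε = ∑ _i ∈ Finset.range K, ε := by
            rw [Finset.sum_const, Finset.card_range, nsmul_eq_mul]
        _ ≤ _ := Finset.sum_le_sum fun i _ => by
            rw [one_smul]
            exact (hxf (φ i)).le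
    refine h7.trans ((le_abs_self _).trans ((f.le_opNorm _).trans ?_))
    exact mul_le_mul_of_nonneg_left (hts (fun _ => 1) (Finset.range K)).1 (norm_nonneg _)
  have h8 : ‖f‖ * C < M * ε := by
    rwa [div_lt_iff₀ hε] at hM
  have h9 : (M : ℝ) * L * ε ≤ ‖f‖ * (C * L) :=
    (mul_le_mul_of_nonneg_right hML hε.le).trans h6
  have h10 : ‖f‖ * C * L < M * ε * L := mul_lt_mul_of_pos_right h8 hLpos
  nlinarith

end ESp

end DHsp
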