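import Pool.Agent.Helper13.DH.SpRefl1
import Pool.Agent.Helper13.DH.SpRefl2

/-!
# Block DR-R : the space is reflexive

`lam k = (Φ (Fin k) 1).toReal` is `‖∑_{i<k} e_i‖` (`enorm_sum_e_card`).

`bddComplete`: let the partial sums of `∑ z_k e_k` be bounded by `C`.  Then `z` is in the space:
`Φ |z| ≤ C` by `Good.cont` (increasing truncations).  If the norms of the tails `Φ (tl n z)` (they
decrease) do not tend to 0 there is `ε > 0` with `ε < Φ (tl n z)` for all `n`; by `Good.cont` there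
are successive finite intervals `I_k = [p_k,p_{k+1})` such that `u_k = ∑_{i ∈ I_k} z_i e_i` has norm
`> ε`; these are pairwise disjoint and every finite sum of them has norm `≤ C` (truncation of `z`).
`x_k = u_k/‖u_k‖` is normalised and disjoint, so by `two_sided` for a subsequence
`ε ‖∑_{k∈s} e_k‖ ≤ ‖∑_{k∈s} ‖u_{φ k}‖ e_k‖ ≤ C₁ ‖∑_{k∈s} u_{φ k}‖ ≤ C₁ C`, for all finite `s`
(unconditionality: `HasSolidNorm`), which contradicts `growA`.

`shrinking`: otherwise there are `ε > 0` and for every `N` a vector `x` with `co x i = 0` for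
`i < N`, `‖x‖ = 1`, `|f x| > ε`; replace `f x` by its absolute value (`±x`) and `x` by a finitely
supported vector (`tail_tendsto`, continuity of `f`; normalise), so there is a disjoint normalised
sequence `x_k` with `f x_k > ε/2`.  By `two_sided` for a subsequence
`K ε/2 ≤ f (∑_{k<K} x_{φ k}) ≤ ‖f‖ C ‖∑_{k<K} e_k‖`, which contradicts `growB 1 M` for `M` large
(`‖∑_{k<K} e_k‖ = lam K`, `M lam K ≤ K`, and `0 < K`).

`reflexive`: let `z_k = φ (e_k^*)`, `e_k^* = coordinate functional`.  For every `f`,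
`f (∑_{k<N} z_k e_k) = φ (∑_{k<N} f(e_k) e_k^*) = φ (f ∘ P_N)`, `P_N x = ∑_{k<N} co x k • e k`,
`‖P_N‖ ≤ 1`, so by Hahn-Banach (`exists_dual_vector` or `NormedSpace.norm_le_dual_bound`)
`‖∑_{k<N} z_k e_k‖ ≤ ‖φ‖`.  `bddComplete` gives `x` with `co x = z`.  By `shrinking`
`‖f - f ∘ P_N‖ → 0` (`x - P_N x` has zero coordinates below `N`, norm `≤ ‖x‖`), so
`φ f = lim φ (f ∘ P_N) = lim f (∑_{k<N} z_k e_k) = f x` (`tail_tendsto`).
-/

open scoped ENNReal NNReal Topology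
open Function Filter

namespace DHsp

namespace ESp

variable {Φ : SFun} {h : NormF Φ}

/-- The coordinate functional. -/
noncomputable def cf11 (k : ℕ) : ESp Φ h →L[ℝ] ℝ :=
  LinearMap.mkContinuous ((LinearMap.proj k : (ℕ → ℝ) →ₗ[ℝ] ℝ).comp co) 1 fun x => by
    rw [one_mul, Real.norm_eq_abs]
    exact abs_co_le x k

theorem cf11_apply (k : ℕ) (x : ESp Φ h) : cf11 k x = co x k := rfl

theorem trunc11_le (x : ESp Φ h) (N : ℕ) :
    ‖∑ k ∈ Finset.range N, co x k • (e k : ESp Φ h)‖ ≤ ‖x‖ := by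
  have h1 : ‖∑ k ∈ Finset.range N, co x k • (e k : ESp Φ h)‖ₑ ≤ ‖x‖ₑ := by
    rw [enorm_def, enorm_def]
    apply h.toGood.le
    intro i
    rw [co_sum_e]
    split_ifs
    · exact le_rfl
    · simp
  rwa [enorm_le_iff_norm_le] at h1

theorem sub_trunc11_le (x : ESp Φ h) (N : ℕ) :
    ‖x - ∑ k ∈ Finset.range N, co x k • (e k : ESp Φ h)‖ ≤ ‖x‖ := by
  have h1 : ‖x - ∑ k ∈ Finset.range N, co x k • (e k : ESp Φ h)‖ₑ ≤ ‖x‖ₑ := by
    rw [enorm_sub_sum, enorm_def]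
    apply h.toGood.le
    intro i
    unfold tl
    split_ifs
    · exact le_rfl
    · exact zero_le
  rwa [enorm_le_iff_norm_le] at h1

theorem co_sub_trunc11 (x : ESp Φ h) (N i : ℕ) (hi : i < N) :
    co (x - ∑ k ∈ Finset.range N, co x k • (e k : ESp Φ h)) i = 0 := by
  rw [map_sub, Pi.sub_apply, co_sum_e, if_pos (Finset.mem_range.2 hi), sub_self]

/-- `f ∘ P_N` -/
noncomputable def gN11 (f : ESp Φ h →L[ℝ] ℝ) (N : ℕ) : ESp Φ h →L[ℝ] ℝ :=
  ∑ k ∈ Finset.range N, f (e k) • cf11 k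

theorem gN11_apply (f : ESp Φ h →L[ℝ] ℝ) (N : ℕ) (x : ESp Φ h) :
    gN11 f N x = f (∑ k ∈ Finset.range N, co x k • (e k : ESp Φ h)) := by
  unfold gN11
  rw [sum_apply, map_sum]
  refine Finset.sum_congr rfl fun k _ => ?_
  rw [smul_apply, map_smul, cf11_apply, smul_eq_mul, smul_eq_mul, mul_comm]

theorem gN11_norm (f : ESp Φ h →L[ℝ] ℝ) (N : ℕ) : ‖gN11 f N‖ ≤ ‖f‖ := by
  refine ContinuousLinearMap.opNorm_le_bound _ (norm_nonneg _) fun x => ?_
  rw [gN11_apply]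
  refine (f.le_opNorm _).trans ?_
  exact mul_le_mul_of_nonneg_left (trunc11_le x N) (norm_nonneg _)

theorem gN11_tendsto (H : Hyp Φ) (f : ESp Φ h →L[ℝ] ℝ) :
    Tendsto (fun N => gN11 f N) atTop (𝓝 f) := by
  rw [Metric.tendsto_atTop]
  intro ε hε
  obtain ⟨N₀, hN₀⟩ := shrinking H f (half_pos hε)
  refine ⟨N₀, fun N hN => ?_⟩
  rw [dist_comm, dist_eq_norm]
  refine lt_of_le_of_lt ?_ (half_lt_self hε)
  refine ContinuousLinearMap.opNorm_le_bound _ (half_pos hε).le fun x => ?_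
  rw [sub_apply, gN11_apply, ← map_sub, Real.norm_eq_abs]
  refine (hN₀ _ fun i hi => co_sub_trunc11 x N i (hi.trans_le hN)).trans ?_
  exact mul_le_mul_of_nonneg_left (sub_trunc11_le x N) (half_pos hε).le

theorem reflexive (H : Hyp Φ) (φ : (ESp Φ h →L[ℝ] ℝ) →L[ℝ] ℝ) :
    ∃ x : ESp Φ h, ∀ f : ESp Φ h →L[ℝ] ℝ, φ f = f x := by
  have key : ∀ (f : ESp Φ h →L[ℝ] ℝ) (N : ℕ),
      f (∑ k ∈ Finset.range N, φ (cf11 k) • (e k : ESp Φ h)) = φ (gN11 f N) := by
    intro f N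
    unfold gN11
    rw [map_sum, map_sum]
    refine Finset.sum_congr rfl fun k _ => ?_
    rw [map_smul, map_smul, smul_eq_mul, smul_eq_mul, mul_comm]
  have hb : ∀ N : ℕ, ‖∑ k ∈ Finset.range N, φ (cf11 k) • (e k : ESp Φ h)‖ ≤ ‖φ‖ := by
    intro N
    refine NormedSpace.norm_le_dual_bound ℝ _ (norm_nonneg φ) fun f => ?_
    rw [key]
    refine (φ.le_opNorm _).trans ?_
    exact mul_le_mul_of_nonneg_left (gN11_norm f N) (norm_nonneg _)
  obtain ⟨x, hx⟩ := bddComplete H (fun k => φ (cf11 k)) ‖φ‖ hb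
  refine ⟨x, fun f => ?_⟩
  have h1 : Tendsto (fun N => φ (gN11 f N)) atTop (𝓝 (φ f)) :=
    (φ.continuous.tendsto f).comp (gN11_tendsto H f)
  have h2 : Tendsto (fun N => f (∑ k ∈ Finset.range N, co x k • (e k : ESp Φ h))) atTop
      (𝓝 (f x)) := (f.continuous.tendsto x).comp (tail_tendsto x)
  refine tendsto_nhds_unique h1 (h2.congr fun N => ?_)
  rw [hx]
  exact key f N

theorem reflexive' (H : Hyp Φ) :
    Function.Surjective (NormedSpace.inclusionInDoubleDual ℝ (ESp Φ h)) := by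
  intro φ
  obtain ⟨x, hx⟩ := reflexive H φ
  refine ⟨x, ?_⟩
  ext f
  rw [NormedSpace.dual_def]
  exact (hx f).symm

end ESp

end DHsp
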