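import Pool.Agent.Helper13.DH.SpHyp

/-!
# Block DR-R : the space is reflexive

`lam k = (Φ (Fin k) 1).toReal` is `‖∑_{i<k} e_i‖` (`enorm_sum_e_card`).

`bddComplete`: let the partial sums of `∑ z_k e_k` be bounded by `C`.  Then `z` is in the space:
`Φ |z| ≤ C` by `Good.cont` (increasing truncations).  If the norms of the tails `Φ (tl n z)` (they
decrease) do not tend to 0 there is `ε > 0` with `ε < Φ (tl n z)` for all `n`; by `Good.cont` there
are successive finite intervals `I_k = [p_k,p_{k+1})` such that `u_k = ∑_{i ∈ I_k} z_i e_i` has norm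
`> ε`; these are pairwise disjoint and every finite sum of them has norm `≤ C` (truncation of `z`).
`x_k = u_k/‖u_k‖` is normalised and disjoint, so by `two_sided` for a subsequence
`ε ‖∑_{k∈s} e_k‖ ≤ ‖∑_{k∈s} ‖u_{φ k}‖ e_k‖ ≤ C₁ ‖∑_{k∈s} u_{φ k}‖ ≤ C₁ C`, for all finite `s`
(unconditionality: `HasSolidNorm`), which contradicts `growA`.

`shrinking`: otherwise there are `ε > 0` and for every `N` a vector `x` with `co x i = 0` for
`i < N`, `‖x‖ = 1`, `|f x| > ε`; replace `f x` by its absolute value (`±x`) and `x` by a finitely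
supported vector (`tail_tendsto`, continuity of `f`; normalise), so there is a disjoint normalised
sequence `x_k` with `f x_k > ε/2`.  By `two_sided` for a subsequence
`K ε/2 ≤ f (∑_{k<K} x_{φ k}) ≤ ‖f‖ C ‖∑_{k<K} e_k‖`, which contradicts `growB 1 M` for `M` large
(`‖∑_{k<K} e_k‖ = lam K`, `M lam K ≤ K`, and `0 < K`).

`reflexive`: let `z_k = φ (e_k^*)`, `e_k^* = coordinate functional`.  For every `f`,
`f (∑_{k<N} z_k e_k) = φ (∑_{k<N} f(e_k) e_k^*) = φ (f ∘ P_N)`, `P_N x = ∑_{k<N} co x k • e k`,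
`‖P_N‖ ≤ 1`, so by Hahn-Banach (`exists_dual_vector` or `NormedSpace.norm_le_dual_bound`)
`‖∑_{k<N} z_k e_k‖ ≤ ‖φ‖`.  `bddComplete` gives `x` with `co x = z`.  By `shrinking`
`‖f - f ∘ P_N‖ → 0` (`x - P_N x` has zero coordinates below `N`, norm `≤ ‖x‖`), so
`φ f = lim φ (f ∘ P_N) = lim f (∑_{k<N} z_k e_k) = f x` (`tail_tendsto`).
-/

open scoped ENNReal NNReal Topology
open Function Filter

namespace DHsp

namespace ESp

variable {Φ : SFun} {h : NormF Φ}

/-- truncation to an interval -/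
noncomputable def iv47 (p q : ℕ) (z : ℕ → ℝ) : ℕ → ℝ≥0∞ :=
  fun i => if p ≤ i ∧ i < q then ‖z i‖ₑ else 0

theorem iv47_sum (z : ℕ → ℝ) (p q : ℕ) :
    ‖∑ k ∈ Finset.Ico p q, z k • (e k : ESp Φ h)‖ₑ = Φ ℕ (iv47 p q z) := by
  rw [enorm_def]
  congr 1
  funext i
  rw [co_sum_e]
  unfold iv47
  simp only [Finset.mem_Ico]
  split_ifs <;> simp

theorem iv47_mono (z : ℕ → ℝ) {p p' q q' : ℕ} (hp : p' ≤ p) (hq : q ≤ q') (i : ℕ) :
    iv47 p q z i ≤ iv47 p' q' z i := by
  unfold iv47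
  split_ifs with h1 h2 h2
  · exact le_rfl
  · omega
  · exact zero_le
  · exact le_rfl

theorem iv47_iSup (h : NormF Φ) (p : ℕ) (z : ℕ → ℝ) : Φ ℕ (tl p z) ≤ ⨆ q, Φ ℕ (iv47 p q z) := by
  have h1 : tl p z = fun i => ⨆ q, iv47 p q z i := by
    funext i
    apply le_antisymm
    · refine le_trans ?_ (le_iSup (fun q => iv47 p q z i) (i + 1))
      unfold tl iv47
      split_ifs with h1 h2 h2
      · exact le_rfl
      · exact absurd ⟨h1, Nat.lt_succ_self i⟩ h2
      · exact zero_le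
      · exact le_rfl
    · refine iSup_le fun q => ?_
      unfold tl iv47
      split_ifs with h1 h2 h2
      · exact le_rfl
      · exact absurd h1.1 h2
      · exact zero_le
      · exact le_rfl
  rw [h1]
  exact h.toGood.cont (fun q => iv47 p q z) fun q q' hqq' i => iv47_mono z le_rfl hqq' i

/-- The basis is boundedly complete. -/
theorem bddComplete (H : Hyp Φ) (z : ℕ → ℝ) (C : ℝ)
    (hz : ∀ N : ℕ, ‖∑ k ∈ Finset.range N, z k • (e k : ESp Φ h)‖ ≤ C) :
    ∃ x : ESp Φ h, co x = z := by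
  classical
  have hC : ∀ N, Φ ℕ (iv47 0 N z) ≤ ENNReal.ofReal C := by
    intro N
    have h1 := iv47_sum (Φ := Φ) (h := h) z 0 N
    rw [← h1, ← Finset.range_eq_Ico, ← ofReal_norm]
    exact ENNReal.ofReal_le_ofReal (hz N)
  have htot : Φ ℕ (tl 0 z) ≤ ENNReal.ofReal C := (iv47_iSup h 0 z).trans (iSup_le hC)
  have htl0 : tl 0 z = fun i => ‖z i‖ₑ := by
    funext i
    simp [tl]
  have hfin : Φ ℕ (fun i => ‖z i‖ₑ) ≠ ⊤ := by
    rw [← htl0]
    exact ne_top_of_le_ne_top ENNReal.ofReal_ne_top htot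
  by_contra hcon
  have hnt : ¬ Tendsto (fun n => Φ ℕ (tl n z)) atTop (𝓝 0) := by
    intro ht
    exact hcon ⟨mk z hfin ht, co_mk z hfin ht⟩
  -- a lower bound for the tails
  obtain ⟨ε, hε, hεtop, hlow⟩ : ∃ ε : ℝ≥0∞, 0 < ε ∧ ε ≠ ⊤ ∧ ∀ n, ε < Φ ℕ (tl n z) := by
    rw [ENNReal.tendsto_nhds_zero] at hnt
    push Not at hnt
    obtain ⟨δ, hδ, hfr⟩ := hnt
    have hall : ∀ n, δ < Φ ℕ (tl n z) := by
      intro n
      rw [Filter.frequently_atTop] at hfr
      obtain ⟨m, hm, hm'⟩ := hfr n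
      exact hm'.trans_le (h.toGood.le (tl_anti hm z))
    exact ⟨δ, hδ, (hall 0).ne_top, hall⟩
  have hstep : ∀ p, ∃ q, p < q ∧ ε < Φ ℕ (iv47 p q z) := by
    intro p
    obtain ⟨q, hq⟩ := lt_iSup_iff.1 ((hlow p).trans_le (iv47_iSup h p z))
    refine ⟨q, ?_, hq⟩
    by_contra hle
    have : Φ ℕ (iv47 p q z) = 0 := h.toGood.eq_zero fun i => by
      unfold iv47
      rw [if_neg]
      rintro ⟨h1, h2⟩
      omega
    rw [this] at hq
    exact not_lt_zero hq
  choose nx hnx hnx' using hstep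
  let p : ℕ → ℕ := fun k => Nat.rec 0 (fun _ a => nx a) k
  have hp : ∀ k, p (k + 1) = nx (p k) := fun k => rfl
  have hpm : StrictMono p := strictMono_nat_of_lt_succ fun k => by rw [hp]; exact hnx _
  let u : ℕ → ESp Φ h := fun k => ∑ i ∈ Finset.Ico (p k) (p (k + 1)), z i • e i
  have hun : ∀ k, ε < ‖u k‖ₑ := by
    intro k
    have h1 := iv47_sum (Φ := Φ) (h := h) z (p k) (p (k + 1))
    change ε < ‖∑ i ∈ Finset.Ico (p k) (p (k + 1)), z i • (e i : ESp Φ h)‖ₑ
    rw [h1, hp]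
    exact hnx' _
  have hcou : ∀ k i, co (u k) i = if i ∈ Finset.Ico (p k) (p (k + 1)) then z i else 0 :=
    fun k i => co_sum_e z _ i
  have hdis : ∀ k l i, k < l → i ∈ Finset.Ico (p k) (p (k + 1)) →
      i ∉ Finset.Ico (p l) (p (l + 1)) := by
    intro k l i hkl hi hi'
    rw [Finset.mem_Ico] at hi hi'
    have : p (k + 1) ≤ p l := hpm.monotone hkl
    omega
  have hdis' : ∀ k l, k ≠ l → ∀ i, co (u k) i = 0 ∨ co (u l) i = 0 := by
    intro k l hkl i
    rw [hcou, hcou]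
    by_cases h1 : i ∈ Finset.Ico (p k) (p (k + 1))
    · by_cases h2 : i ∈ Finset.Ico (p l) (p (l + 1))
      · rcases lt_or_gt_of_ne hkl with h3 | h3
        · exact absurd h2 (hdis k l i h3 h1)
        · exact absurd h1 (hdis l k i h3 h2)
      · right; rw [if_neg h2]
    · left; rw [if_neg h1]
  have hun0 : ∀ k, ‖u k‖ ≠ 0 := by
    intro k hk
    have h1 := hun k
    rw [← ofReal_norm, hk, ENNReal.ofReal_zero] at h1
    exact not_lt_zero h1
  let x : ℕ → ESp Φ h := fun k => ‖u k‖⁻¹ • u k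
  have hx1 : ∀ k, ‖x k‖ = 1 := by
    intro k
    change ‖‖u k‖⁻¹ • u k‖ = 1
    rw [norm_smul, norm_inv, norm_norm, inv_mul_cancel₀ (hun0 k)]
  have hxd : Pairwise fun m n => |x m| ⊓ |x n| = 0 := by
    intro m n hmn
    rw [disj_iff]
    intro i
    change co (‖u m‖⁻¹ • u m) i = 0 ∨ co (‖u n‖⁻¹ • u n) i = 0
    rw [co_smul, co_smul]
    rcases hdis' m n hmn i with h1 | h1
    · left; rw [h1, mul_zero]
    · right; rw [h1, mul_zero]
  obtain ⟨φ, hφ, C₁, hC₁, hts⟩ := two_sided H.upper H.lower x hx1 hxd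
  -- the upper bound
  have hub : ∀ s : Finset ℕ, ‖∑ k ∈ s, ‖u (φ k)‖ • x (φ k)‖ ≤ C := by
    intro s
    have h1 : ∑ k ∈ s, ‖u (φ k)‖ • x (φ k) = ∑ k ∈ s, u (φ k) := by
      refine Finset.sum_congr rfl fun k _ => ?_
      change ‖u (φ k)‖ • (‖u (φ k)‖⁻¹ • u (φ k)) = u (φ k)
      rw [smul_smul, mul_inv_cancel₀ (hun0 _), one_smul]
    rw [h1]
    have hC0 : 0 ≤ C := (norm_nonneg _).trans (hz 0)
    have h2 : ‖∑ k ∈ s, u (φ k)‖ₑ ≤ ENNReal.ofReal C := by
      rw [enorm_def]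
      refine le_trans (h.toGood.le fun i => ?_) htot
      rw [htl0]
      simp only
      rw [co_sum]
      by_cases hi : ∃ k ∈ s, i ∈ Finset.Ico (p (φ k)) (p (φ k + 1))
      · obtain ⟨k, hk, hki⟩ := hi
        have h3 : ∑ l ∈ s, co (u (φ l)) i = co (u (φ k)) i := by
          apply Finset.sum_eq_single_of_mem k hk
          intro l _ hl
          rcases hdis' (φ l) (φ k) (hφ.injective.ne hl) i with h4 | h4
          · exact h4
          · rw [hcou, if_pos hki] at h4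
            rw [hcou]
            split_ifs
            · exact h4
            · rfl
        rw [h3, hcou, if_pos hki]
      · push Not at hi
        have h3 : ∑ l ∈ s, co (u (φ l)) i = 0 := by
          apply Finset.sum_eq_zero
          intro l hl
          rw [hcou, if_neg (hi l hl)]
        rw [h3]
        simp
    have h3 := ENNReal.toReal_mono ENNReal.ofReal_ne_top h2
    rwa [toReal_enorm, ENNReal.toReal_ofReal hC0] at h3
  -- the lower bound
  obtain ⟨M, hM⟩ := exists_nat_gt ((C₁ * C) / ε.toReal)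
  obtain ⟨n, hn⟩ := H.growA M
  have hε' : 0 < ε.toReal := ENNReal.toReal_pos hε.ne' hεtop
  have h1 := (hts (fun k => ‖u (φ k)‖) (Finset.range n)).2
  have h2 : ε * Φ (Fin n) (fun _ => 1) ≤
      ‖∑ k ∈ Finset.range n, ‖u (φ k)‖ • (e k : ESp Φ h)‖ₑ := by
    have h3 := enorm_sum_e_card (Φ := Φ) (h := h) (fun _ => 1) (Finset.range n)
      (φ := fun k => k) (fun _ _ hij => hij) (by simp)
    have h5 : ∀ m : ℕ, m = n → Φ (Fin m) (fun _ => 1) = Φ (Fin n) (fun _ => 1) := by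
      rintro _ rfl
      rfl
    rw [h5 _ (Finset.card_range n)] at h3
    rw [← h3, enorm_sum_e (φ := fun k => k) _ _ (fun _ _ hij => hij),
      enorm_sum_e (φ := fun k => k) _ _ (fun _ _ hij => hij), ← h.toGood.smul _ hεtop]
    apply h.toGood.le
    intro k
    split_ifs
    · have h6 := (hun (φ k)).le
      rw [← ofReal_norm] at h6
      simpa [Real.enorm_eq_ofReal (norm_nonneg (u (φ k)))] using h6
    · simp
  have h3 : ε.toReal * M ≤ C₁ * C := by
    have h4 : ε * M ≤ ‖∑ k ∈ Finset.range n, ‖u (φ k)‖ • (e k : ESp Φ h)‖ₑ := by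
      refine le_trans ?_ h2
      gcongr
    have h5 := ENNReal.toReal_mono enorm_ne_top h4
    rw [ENNReal.toReal_mul, ENNReal.toReal_natCast, toReal_enorm] at h5
    refine h5.trans (h1.trans ?_)
    exact mul_le_mul_of_nonneg_left (hub _) hC₁.le
  rw [div_lt_iff₀ hε'] at hM
  linarith

end ESp

end DHsp
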