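import Pool.Agent.Helper13.DH.SpHyp

/-!
# Block DR-M : spreading models

`sum_fin_e`: from `enorm_sum_e` (or domination).
`spreading_equiv`: coordinate functionals are continuous (`abs_co_le`), so `x` is coordinatewise
null; `two_sided_null` gives `φ`, `A`.  For `k, a, ε` take `m` from `hN` and the indices
`n i = φ (i + m) ≥ m`; `‖∑ a_i x_{φ(i+m)}‖` is comparable with `‖∑ a_i e_{i+m}‖ = ‖∑ a_i e_i‖`
(write a sum over `Fin k` as a sum over `Finset.range`, or over the image of `i ↦ i+m`, with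
coefficients `a' j = a (j-m)`).  Let `ε → 0`.
`unbounded`: `growA`, `enorm_sum_e_card`.
`not_lp_est`: `k^{1/p} ≤ C lam k` for all `k`, so `k ≤ C^p lam(k)^p ≤ C^p lam(k)^m` with a natural
number `m ≥ p` (`1 ≤ lam k` for `k ≥ 1`), which contradicts `growB m M` for `M > C^p`.
-/

open scoped ENNReal NNReal Topology
open Function Filter

namespace DHsp

namespace ESp

variable {Φ : SFun} {h : NormF Φ}

theorem h46_fin_le {k : ℕ} (a : Fin k → ℝ) (m n : Fin k → ℕ) (hm : Injective m)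
    (hn : Injective n) :
    ‖∑ i, a i • (e (m i) : ESp Φ h)‖ₑ ≤ ‖∑ i, a i • (e (n i) : ESp Φ h)‖ₑ := by
  classical
  have hco : ∀ (l : Fin k → ℕ) (_ : Injective l) (i : Fin k),
      co (∑ i, a i • (e (l i) : ESp Φ h)) (l i) = a i := by
    intro l hl i
    rw [map_sum, Finset.sum_apply]
    simp only [co_smul, co_e, Pi.single_apply, mul_ite, mul_one, mul_zero, hl.eq_iff]
    simp
  have hco0 : ∀ (j : ℕ), (∀ i, m i ≠ j) → co (∑ i, a i • (e (m i) : ESp Φ h)) j = 0 := by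
    intro j hj
    rw [map_sum, Finset.sum_apply]
    apply Finset.sum_eq_zero
    intro i _
    rw [co_smul, co_e, Pi.single_apply, if_neg (fun h3 => hj i h3.symm), mul_zero]
  have h3 : ∀ j, co (∑ i, a i • (e (m i) : ESp Φ h)) j ≠ 0 → ∃ i, m i = j := by
    intro j hj
    by_contra hne
    push Not at hne
    exact hj (hco0 j hne)
  rw [enorm_def, enorm_def]
  refine h.toGood.mono (fun j => if hj : ∃ i, m i = j then n hj.choose else 0) ?_ ?_
  · intro j hj l hl hjl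
    have hj' := h3 j (by simpa using hj)
    have hl' := h3 l (by simpa using hl)
    simp only [dif_pos hj', dif_pos hl'] at hjl
    have h4 := hn hjl
    have h5 : m hj'.choose = m hl'.choose := by rw [h4]
    rw [hj'.choose_spec, hl'.choose_spec] at h5
    exact h5
  · intro j
    by_cases hj : ∃ i, m i = j
    · simp only [dif_pos hj]
      have h4 := hco m hm hj.choose
      rw [hj.choose_spec] at h4
      rw [hco n hn, h4]
    · push Not at hj
      rw [hco0 j hj]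
      simp

theorem sum_fin_e {k : ℕ} (a : Fin k → ℝ) (n : Fin k → ℕ) (hn : Injective n) :
    ‖∑ i, a i • (e (n i) : ESp Φ h)‖ = ‖∑ i, a i • (e i.val : ESp Φ h)‖ := by
  rw [← toReal_enorm, ← toReal_enorm]
  congr 1
  exact le_antisymm (h46_fin_le a n Fin.val hn Fin.val_injective)
    (h46_fin_le a Fin.val n Fin.val_injective hn)

theorem weak_null_e (H : Hyp Φ) (f : ESp Φ h →L[ℝ] ℝ) :
    Tendsto (fun n => f (e n)) atTop (𝓝 0) := weak_null H.growB f

theorem h46_enorm_ones (k : ℕ) :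
    ‖∑ i : Fin k, (e i.val : ESp Φ h)‖ₑ = Φ (Fin k) (fun _ => 1) := by
  have h1 := enorm_sum_e_card (Φ := Φ) (h := h) (fun _ => 1) (Finset.range k)
    (φ := fun j => j) (fun _ _ hij => hij) (fun i _ => by simp)
  rw [Finset.card_range] at h1
  rw [← h1, Finset.sum_range]
  simp

theorem unbounded (H : Hyp Φ) (C : ℝ) : ∃ k : ℕ, C < ‖∑ i : Fin k, (e i.val : ESp Φ h)‖ := by
  obtain ⟨M, hM⟩ := exists_nat_gt C
  obtain ⟨n, hn⟩ := H.growA M
  refine ⟨n, lt_of_lt_of_le hM ?_⟩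
  rw [← h46_enorm_ones (h := h)] at hn
  have h1 := ENNReal.toReal_mono enorm_ne_top hn
  rwa [ENNReal.toReal_natCast, toReal_enorm] at h1

theorem not_lp_est (H : Hyp Φ) (p : ℝ) (hp : 1 ≤ p) (C : ℝ) :
    ∃ k : ℕ, C * ‖∑ i : Fin k, (e i.val : ESp Φ h)‖ < (k : ℝ) ^ (1 / p) := by
  set C' : ℝ := max C 1 with hC'
  have hC1 : 1 ≤ C' := le_max_right _ _
  obtain ⟨M, hM⟩ := exists_nat_gt (C' ^ p)
  obtain ⟨n₀, hn₀⟩ := H.growB ⌈p⌉₊ M
  refine ⟨n₀ + 1, ?_⟩
  have h1 := hn₀ (n₀ + 1) (Nat.le_succ n₀)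
  set L : ℝ := ‖∑ i : Fin (n₀ + 1), (e i.val : ESp Φ h)‖ with hL
  have hLe : ‖∑ i : Fin (n₀ + 1), (e i.val : ESp Φ h)‖ₑ = Φ (Fin (n₀ + 1)) (fun _ => 1) :=
    h46_enorm_ones (n₀ + 1)
  have hL1 : 1 ≤ L := by
    have h3 : (1 : ℝ≥0∞) ≤ ‖∑ i : Fin (n₀ + 1), (e i.val : ESp Φ h)‖ₑ := by
      rw [hLe]
      exact (le_iSup (fun _ : Fin (n₀ + 1) => (1 : ℝ≥0∞)) ⟨0, Nat.succ_pos n₀⟩).trans
        (h.sup_le _)
    have h4 := ENNReal.toReal_mono enorm_ne_top h3
    rwa [ENNReal.toReal_one, toReal_enorm] at h4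
  have h2 : (M : ℝ) * L ^ ⌈p⌉₊ ≤ ((n₀ + 1 : ℕ) : ℝ) := by
    rw [← hLe] at h1
    have h4 := ENNReal.toReal_mono (ENNReal.natCast_ne_top (n₀ + 1)) h1
    rwa [ENNReal.toReal_mul, ENNReal.toReal_natCast, ENNReal.toReal_natCast, ENNReal.toReal_pow,
      toReal_enorm] at h4
  have hL0 : 0 ≤ L := by linarith
  have hC0 : 0 ≤ C' := by linarith
  have hp0 : 0 < p := by linarith
  have h3 : (C' * L) ^ p < ((n₀ + 1 : ℕ) : ℝ) := by
    rw [Real.mul_rpow hC0 hL0]
    calc C' ^ p * L ^ p ≤ C' ^ p * L ^ ⌈p⌉₊ := by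
          apply mul_le_mul_of_nonneg_left _ (Real.rpow_nonneg hC0 p)
          rw [← Real.rpow_natCast L ⌈p⌉₊]
          exact Real.rpow_le_rpow_of_exponent_le hL1 (Nat.le_ceil p)
      _ < M * L ^ ⌈p⌉₊ := by
          apply mul_lt_mul_of_pos_right hM
          positivity
      _ ≤ _ := h2
  have h4 := Real.rpow_lt_rpow (Real.rpow_nonneg (mul_nonneg hC0 hL0) p) h3
    (inv_pos.2 hp0)
  rw [Real.rpow_rpow_inv (mul_nonneg hC0 hL0) hp0.ne'] at h4
  rw [one_div]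
  refine lt_of_le_of_lt ?_ h4
  exact mul_le_mul_of_nonneg_right (le_max_left _ _) hL0

end ESp

end DHsp
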