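import Pool.Agent.Helper13.DH.SpBasis

/-!
# MP_6ad661_an, block DH-S3 : norms of finite sums of disjoint vectors

`enorm_sum`: `∑_{k∈s} a_k x_k` with pairwise disjoint supports: `|∑ a_k x_k|(i)` equals
`|a_k| |x_k i|` for the unique `k ∈ s` with `x_k i ≠ 0` (and `0` if there is none).
`≤`: domination by `i ↦ (k(i), i)`; `≥`: domination by `(k,i) ↦ i`, injective on the support.

`enorm_sum_e`: the same for unit vectors.

`two_sided`: for `x` normalised and disjoint, from `UpperEst` (with `K = ↥s` or `K = Fin ..`; the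
functional on `K × I` is compared with the one on `ℕ × ℕ` by domination) and `LowerEst`.
-/

open scoped ENNReal NNReal Topology
open Function Filter

namespace DHsp

namespace ESp

variable {Φ : SFun} {h : NormF Φ}

theorem co_sum_disj (x : ℕ → ESp Φ h) (hx : Pairwise fun m n => |x m| ⊓ |x n| = 0)
    (a : ℕ → ℝ) (s : Finset ℕ) {k i : ℕ} (hk : k ∈ s) (hi : co (x k) i ≠ 0) :
    co (∑ k ∈ s, a k • x k) i = a k * co (x k) i := by
  rw [co_sum]
  simp only [co_smul]
  apply Finset.sum_eq_single_of_mem k hk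
  intro l _ hl
  have h1 := (disj_iff (x l) (x k)).1 (hx hl) i
  rcases h1 with h1 | h1
  · rw [h1, mul_zero]
  · exact absurd h1 hi

theorem enorm_sum (x : ℕ → ESp Φ h) (hx : Pairwise fun m n => |x m| ⊓ |x n| = 0)
    (a : ℕ → ℝ) (s : Finset ℕ) :
    ‖∑ k ∈ s, a k • x k‖ₑ
      = Φ (ℕ × ℕ) (fun u => (if u.1 ∈ s then ‖a u.1‖ₑ else 0) * ‖co (x u.1) u.2‖ₑ) := by
  classical
  rw [enorm_def]
  apply le_antisymm
  · refine h.toGood.mono (fun i => ((if hi : ∃ k ∈ s, co (x k) i ≠ 0 then hi.choose else 0), i))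
      ?_ ?_
    · intro i _ j _ hij
      exact (Prod.mk.inj hij).2
    · intro i
      by_cases hi : ∃ k ∈ s, co (x k) i ≠ 0
      · simp only [dif_pos hi]
        have h1 := hi.choose_spec
        rw [if_pos h1.1, co_sum_disj x hx a s h1.1 h1.2, enorm_mul]
      · have h0 : co (∑ k ∈ s, a k • x k) i = 0 := by
          rw [co_sum]
          simp only [co_smul]
          apply Finset.sum_eq_zero
          intro k hk
          have : co (x k) i = 0 := by
            by_contra hne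
            exact hi ⟨k, hk, hne⟩
          rw [this, mul_zero]
        rw [h0]
        simp
  · refine h.toGood.mono (fun u => u.2) ?_ ?_
    · rintro ⟨k, i⟩ hu ⟨l, j⟩ hv hij
      simp only [Set.mem_ofPred_eq, ne_eq, mul_eq_zero, not_or] at hu hv hij
      subst hij
      have h1 : k = l := by
        by_contra hne
        rcases (disj_iff (x k) (x l)).1 (hx hne) i with h2 | h2
        · exact hu.2 (by rw [h2]; simp)
        · exact hv.2 (by rw [h2]; simp)
      rw [h1]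
    · rintro ⟨k, i⟩
      by_cases hk : k ∈ s
      · by_cases hi : co (x k) i = 0
        · simp [hi]
        · simp only [if_pos hk]
          rw [co_sum_disj x hx a s hk hi, enorm_mul]
      · simp [hk]

theorem enorm_sum_e (a : ℕ → ℝ) (s : Finset ℕ) {φ : ℕ → ℕ} (hφ : Injective φ) :
    ‖∑ k ∈ s, a k • (e (φ k) : ESp Φ h)‖ₑ = Φ ℕ (fun k => if k ∈ s then ‖a k‖ₑ else 0) := by
  classical
  have h1 : ∀ k, co (∑ k ∈ s, a k • (e (φ k) : ESp Φ h)) (φ k) = if k ∈ s then a k else 0 := by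
    intro k
    rw [co_sum]
    simp only [co_smul, co_e, Pi.single_apply, mul_ite, mul_one, mul_zero, hφ.eq_iff]
    rw [Finset.sum_ite_eq]
  have h2 : ∀ i, (∀ k ∈ s, φ k ≠ i) → co (∑ k ∈ s, a k • (e (φ k) : ESp Φ h)) i = 0 := by
    intro i hi
    rw [co_sum]
    apply Finset.sum_eq_zero
    intro k hk
    rw [co_smul, co_e, Pi.single_apply, if_neg (fun h3 => hi k hk h3.symm), mul_zero]
  rw [enorm_def]
  apply le_antisymm
  · refine h.toGood.mono (Function.invFun φ) ?_ ?_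
    · intro i hi j hj hij
      have h3 : ∀ i, co (∑ k ∈ s, a k • (e (φ k) : ESp Φ h)) i ≠ 0 → φ (Function.invFun φ i) = i := by
        intro i hi
        have : ∃ k, φ k = i := by
          by_contra hne
          push Not at hne
          exact hi (h2 i fun k _ => hne k)
        exact Function.invFun_eq this
      have hi' : co (∑ k ∈ s, a k • (e (φ k) : ESp Φ h)) i ≠ 0 := by simpa using hi
      have hj' : co (∑ k ∈ s, a k • (e (φ k) : ESp Φ h)) j ≠ 0 := by simpa using hj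
      rw [← h3 i hi', ← h3 j hj', hij]
    · intro i
      by_cases hi : ∃ k ∈ s, φ k = i
      · obtain ⟨k, hk, rfl⟩ := hi
        rw [Function.leftInverse_invFun hφ k, h1 k, if_pos hk, if_pos hk]
      · push Not at hi
        rw [h2 i hi]
        simp
  · refine h.toGood.mono φ hφ.injOn fun k => ?_
    rw [h1 k]
    split_ifs <;> simp

theorem upper_sum {C : ℝ≥0∞}
    (hU : ∀ {K I : Type} [Finite K] (a : K → ℝ≥0∞) (d : K → I → ℝ≥0∞),
      (∀ k, Φ I (d k) ≤ 1) → Φ (K × I) (fun u => a u.1 * d u.1 u.2) ≤ C * Φ K a)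
    (y : ℕ → ESp Φ h) (hn : ∀ n, ‖y n‖ = 1)
    (hx : Pairwise fun m n => |y m| ⊓ |y n| = 0) (a : ℕ → ℝ) (s : Finset ℕ) :
    ‖∑ k ∈ s, a k • y k‖ₑ ≤ C * ‖∑ k ∈ s, a k • (e k : ESp Φ h)‖ₑ := by
  rw [enorm_sum y hx a s, enorm_sum_e (φ := fun k => k) a s (fun _ _ hij => hij)]
  have h0 := hU (K := Fin (s.sup id + 1)) (I := ℕ)
    (fun k => if (k : ℕ) ∈ s then ‖a k‖ₑ else 0) (fun k i => ‖co (y k) i‖ₑ)
    (fun k => by
      have h1 := enorm_def (y k)
      rw [← h1, ← ofReal_norm, hn]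
      simp)
  refine (le_trans ?_ h0).trans ?_
  · refine h.toGood.mono (fun u => (Fin.ofNat (s.sup id + 1) u.1, u.2)) ?_ ?_
    · rintro ⟨k, i⟩ hu ⟨l, j⟩ hv hij
      simp only [Set.mem_ofPred_eq, ne_eq, mul_eq_zero, not_or] at hu hv
      have hk : k ∈ s := by
        by_contra hk
        exact hu.1 (if_neg hk)
      have hl : l ∈ s := by
        by_contra hl
        exact hv.1 (if_neg hl)
      have hk' : k < s.sup id + 1 := Nat.lt_succ_of_le (Finset.le_sup (f := id) hk)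
      have hl' : l < s.sup id + 1 := Nat.lt_succ_of_le (Finset.le_sup (f := id) hl)
      have h3 := (Prod.mk.inj hij).1
      have h4 := congrArg Fin.val h3
      simp only [Fin.ofNat, Nat.mod_eq_of_lt hk', Nat.mod_eq_of_lt hl'] at h4
      have h5 : i = j := (Prod.mk.inj hij).2
      rw [h4, h5]
    · rintro ⟨k, i⟩
      by_cases hk : k ∈ s
      · have hk' : k < s.sup id + 1 := Nat.lt_succ_of_le (Finset.le_sup (f := id) hk)
        simp only [Fin.ofNat, Nat.mod_eq_of_lt hk', le_refl]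
      · simp [hk]
  · gcongr
    exact h.toGood.mono Fin.val Fin.val_injective.injOn fun k => le_rfl

/-- Two-sided estimate along a subsequence. -/
theorem two_sided (hU : UpperEst Φ) (hL : LowerEst Φ) (x : ℕ → ESp Φ h) (hn : ∀ n, ‖x n‖ = 1)
    (hx : Pairwise fun m n => |x m| ⊓ |x n| = 0) :
    ∃ φ : ℕ → ℕ, StrictMono φ ∧ ∃ C : ℝ, 0 < C ∧ ∀ (a : ℕ → ℝ) (s : Finset ℕ),
      ‖∑ k ∈ s, a k • x (φ k)‖ ≤ C * ‖∑ k ∈ s, a k • (e k : ESp Φ h)‖ ∧
      ‖∑ k ∈ s, a k • (e k : ESp Φ h)‖ ≤ C * ‖∑ k ∈ s, a k • x (φ k)‖ := by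
  classical
  obtain ⟨C, hC, hU'⟩ := hU
  have hv : ∀ n, Φ ℕ (fun i => ‖co (x n) i‖ₑ) = 1 := by
    intro n
    have h1 := enorm_def (x n)
    rw [← h1, ← ofReal_norm, hn]
    simp
  obtain ⟨c, hc, φ, hφ, hlow⟩ := hL (fun n i => ‖co (x n) i‖ₑ) (fun n => (hv n).le)
    (fun n => by rw [hv n]; simp)
  have hx' : Pairwise fun m n => |x (φ m)| ⊓ |x (φ n)| = 0 :=
    fun m n hmn => hx (hφ.injective.ne hmn)
  set c' : ℝ≥0∞ := min c 1 with hc'
  have hc0 : c' ≠ 0 := by
    rw [hc']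
    intro h0
    rcases min_eq_iff.1 h0 with ⟨h1, _⟩ | ⟨h1, _⟩
    · exact hc h1
    · exact one_ne_zero h1
  have hct : c' ≠ ⊤ := ne_top_of_le_ne_top ENNReal.one_ne_top (min_le_right _ _)
  refine ⟨φ, hφ, C.toReal + c'⁻¹.toReal + 1, by positivity, fun a s => ⟨?_, ?_⟩⟩
  · have h1 := upper_sum hU' (fun k => x (φ k)) (fun k => hn _) hx' a s
    have h2 := ENNReal.toReal_mono (ENNReal.mul_ne_top hC enorm_ne_top) h1
    rw [ENNReal.toReal_mul, toReal_enorm, toReal_enorm] at h2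
    refine h2.trans ?_
    gcongr
    have : 0 ≤ c'⁻¹.toReal := ENNReal.toReal_nonneg
    linarith
  · have h1 : c' * ‖∑ k ∈ s, a k • (e k : ESp Φ h)‖ₑ ≤ ‖∑ k ∈ s, a k • x (φ k)‖ₑ := by
      rw [enorm_sum (fun k => x (φ k)) hx' a s,
        enorm_sum_e (φ := fun k => k) a s (fun _ _ hij => hij)]
      refine le_trans ?_ (hlow (fun k => if k ∈ s then ‖a k‖ₑ else 0) ?_ ?_)
      · gcongr
        exact min_le_left _ _
      · intro m
        split_ifs
        · exact enorm_ne_top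
        · exact ENNReal.zero_ne_top
      · apply s.finite_toSet.subset
        intro m hm
        by_contra hms
        exact hm (if_neg hms)
    have h2 : ‖∑ k ∈ s, a k • (e k : ESp Φ h)‖ₑ ≤ c'⁻¹ * ‖∑ k ∈ s, a k • x (φ k)‖ₑ := by
      calc ‖∑ k ∈ s, a k • (e k : ESp Φ h)‖ₑ
          = c'⁻¹ * (c' * ‖∑ k ∈ s, a k • (e k : ESp Φ h)‖ₑ) := by
            rw [← mul_assoc, ENNReal.inv_mul_cancel hc0 hct, one_mul]
        _ ≤ _ := by gcongr
    have h3 := ENNReal.toReal_mono
      (ENNReal.mul_ne_top (ENNReal.inv_ne_top.2 hc0) enorm_ne_top) h2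
    rw [ENNReal.toReal_mul, toReal_enorm, toReal_enorm] at h3
    refine h3.trans ?_
    gcongr
    have : 0 ≤ C.toReal := ENNReal.toReal_nonneg
    linarith

end ESp

end DHsp
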