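import Pool.Agent.Helper13.DH.Cq

/-!
# MP_6ad661_an, block DH-J : the splitting lemma

Strong induction on `R - j`.  If `R ≤ j` then `Q (j,R) = 0`.  Otherwise
`Q (j,R) = max (P j R) (Q (j+1,R))` (`Q_succ`).

For `Q (j+1,R)`: the induction hypothesis at `(j+1,R)` with the same `δ`
(`N(j+1,R;d_k) ≤ N(j,R;d_k) ≤ δ`), and monotonicity: `σ'_{j+1} ≤ σ'_j`, `D_{j+1} ≤ D_j`,
`ε'_{j+1} ≤ ε'_j`, `Q_mono`, `N_mono` and `top b (D_{j+1} δ) a ≤ top b (D_j δ) a`.

For `P j R`: by `P_le` it is enough to bound `κ_j^{r+1} 𝒯^r H_j (blk b a d)`, `r ≤ q_j`.  Use `Cq`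
with `δ' = ν_j δ` (`lem2`: `𝒯^l N(j+1,R)(d_k) ≤ ν_j N(j+1,R;d_k) ≤ ν_j δ`, `l ≤ r ≤ 2 q_j`) and
`D = D_j δ ≥ D_{j+1} (ν_j δ) σ'_{j+1}^{r}` (`D_cond`, `r ≤ q_j`).  Then
`κ_j^{r+1} 𝒯^r H_j (top b D a) ≤ P j R (top b D a) ≤ Q (j,R) (top b D a)`, the same for `d_k`, and
`𝒯^l N(j+1,R)(top b D a) ≤ ν_j N(j+1,R)(top b D a) ≤ ν_j N(j,R)(top b D a)`.
Constants: `σ_j σ'_{j+1}^r ≤ σ'_j` (`σ_cond`), `ν_j σ'_{j+1}^r(ε_j + 2 r η_j E_j) ≤ ε'_j`.
-/

open scoped ENNReal NNReal
open Function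

namespace DHsp

variable {S : Sys}

theorem split (p : Par S) (j R : ℕ) : SplitAt S p j R := by
  induction hn : R - j using Nat.strong_induction_on generalizing j R with
  | _ n ih =>
  subst hn
  intro β K I _ b a d δ hδ
  rcases Nat.lt_or_ge j R with hjR | hjR
  swap
  · rw [S.Q_self hjR]
    exact zero_le
  have hTop : ∀ (Φ : SFun), Good Φ → Φ _ (top b (p.D (j + 1) * δ) a) ≤ Φ _ (top b (p.D j * δ) a) :=
    fun Φ hΦ => hΦ.le fun u => top_mono b (mul_le_mul_left (D_anti p (Nat.le_succ j)) δ) a u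
  rw [S.Q_succ hjR]
  apply max_le
  · -- the functionals of type `j`
    apply S.P_le
    intro r hr
    have h1 := Cq p j R (fun s t h1 h2 h3 => ih (t - s) (by omega) s t rfl) r (by omega) b a d
      (p.ν j * δ) (p.D j * δ)
      (fun k l hl => (lem2 p j R (by omega) (d k)).trans (by
        gcongr
        exact (N_mono (Nat.le_succ j) le_rfl (d k)).trans (hδ k))) (by
      calc p.D (j + 1) * (p.ν j * δ) * p.σ' (j + 1) ^ r
          ≤ p.D (j + 1) * (p.ν j * δ) * p.σ' (j + 1) ^ S.q j := by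
            gcongr
            exact p.σ'_one _
        _ = (p.D (j + 1) * p.ν j * p.σ' (j + 1) ^ S.q j) * δ := by ring
        _ ≤ p.D j * δ := by gcongr; exact p.D_cond j)
    set A := ((S.TT j R)^[r] (S.H j)) _ (top b (p.D j * δ) a) with hA
    set Bk := ⨆ k, a k * ((S.TT j R)^[r] (S.H j)) I (d k) with hBk
    set W := S.N j R _ (top b (p.D j * δ) a) with hW
    have hκ : S.κ j ^ (r + 1) ≤ 1 := pow_le_one₀ zero_le (p.κ_le j)
    have hσ : p.σ j * p.σ' (j + 1) ^ r ≤ p.σ' j := by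
      refine le_trans ?_ (p.σ_cond j)
      gcongr
      exact p.σ'_one _
    have hA' : S.κ j ^ (r + 1) * A ≤ S.Q (j, R) _ (top b (p.D j * δ) a) :=
      (S.le_P hr _).trans (S.P_le_Q le_rfl hjR _)
    have hB' : S.κ j ^ (r + 1) * Bk ≤ ⨆ k, a k * S.Q (j, R) I (d k) := by
      rw [hBk, ENNReal.mul_iSup]
      refine iSup_mono fun k => ?_
      rw [mul_left_comm]
      gcongr
      exact (S.le_P hr _).trans (S.P_le_Q le_rfl hjR _)
    have hM : (⨆ l ∈ Finset.range (r + 1), ((S.TT j R)^[l] (S.N (j + 1) R)) _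
        (top b (p.D j * δ) a)) ≤ p.ν j * W := by
      refine iSup₂_le fun l hl => ?_
      rw [Finset.mem_range] at hl
      refine (lem2 p j R (by omega) _).trans ?_
      gcongr
      exact N_mono (Nat.le_succ j) le_rfl _
    calc S.κ j ^ (r + 1) * ((S.TT j R)^[r] (S.H j)) _ (blk b a d)
        ≤ S.κ j ^ (r + 1) * (p.σ j * p.σ' (j + 1) ^ r * max A Bk
          + p.σ' (j + 1) ^ r * (p.ε j + 2 * r * p.η j * p.E j) * (p.ν j * W)) := by
          gcongr
          exact h1.trans (by gcongr)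
      _ = (p.σ j * p.σ' (j + 1) ^ r) * (S.κ j ^ (r + 1) * max A Bk)
          + S.κ j ^ (r + 1) * (p.σ' (j + 1) ^ r * (p.ε j + 2 * r * p.η j * p.E j) * (p.ν j * W)) := by
          ring
      _ ≤ p.σ' j * max (S.Q (j, R) _ (top b (p.D j * δ) a)) (⨆ k, a k * S.Q (j, R) I (d k))
          + p.ε' j * W := by
          apply add_le_add
          · apply mul_le_mul' hσ
            rcases le_total A Bk with h | h
            · rw [max_eq_right h]
              exact hB'.trans (le_max_right _ _)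
            · rw [max_eq_left h]
              exact hA'.trans (le_max_left _ _)
          · calc S.κ j ^ (r + 1) * (p.σ' (j + 1) ^ r * (p.ε j + 2 * r * p.η j * p.E j)
                * (p.ν j * W))
                ≤ 1 * (p.σ' (j + 1) ^ S.q j * (p.ε j + 2 * S.q j * p.η j * p.E j)
                * (p.ν j * W)) := by
                  gcongr
                  exact p.σ'_one _
              _ = (p.ν j * (p.σ' (j + 1) ^ S.q j * (p.ε j + 2 * S.q j * p.η j * p.E j))) * W := by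
                  ring
              _ ≤ p.ε' j * W := by gcongr; exact p.ε_cond j
  · have h1 := ih (R - (j + 1)) (by omega) (j + 1) R rfl b a d δ
      (fun k => (N_mono (Nat.le_succ j) le_rfl (d k)).trans (hδ k))
    refine h1.trans ?_
    have h2 : S.Q (j + 1, R) _ (top b (p.D (j + 1) * δ) a) ≤
        S.Q (j, R) _ (top b (p.D j * δ) a) :=
      (hTop _ (good_Q p _)).trans (Q_mono (Nat.le_succ j) le_rfl _)
    have h3 : (⨆ k, a k * S.Q (j + 1, R) I (d k)) ≤ ⨆ k, a k * S.Q (j, R) I (d k) :=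
      iSup_mono fun k => by
        gcongr
        exact Q_mono (Nat.le_succ j) le_rfl _
    have h4 : S.N (j + 1) R _ (top b (p.D (j + 1) * δ) a) ≤
        S.N j R _ (top b (p.D j * δ) a) :=
      (hTop _ (good_N p _ _)).trans (N_mono (Nat.le_succ j) le_rfl _)
    exact add_le_add (mul_le_mul' (σ'_anti p (Nat.le_succ j)) (max_le_max h2 h3))
      (mul_le_mul' (p.ε'_anti (Nat.le_succ j)) h4)

end DHsp
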