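import Pool.Agent.Helper13.DH.Split

/-!
# MP_6ad661_an, block DH-K : the upper estimate

Use `split p 1 R` with `β = Empty`, `δ = 1`.  `blk b a d` on `Empty ⊕ (K × I)` is equivalent (by
`Good.mono` with `Sum.inr`) to `a∘d` on `K × I`, and `top b (D₁ * 1) a` is dominated by `D₁ a` on
`K` (so `Q (1,R) (top ..) ≤ D₁ Q (1,R) a`, `N 1 R (top ..) ≤ D₁ N 1 R a`; `D₁ ≠ ⊤`).
`sup_k a_k Q (1,R) d_k ≤ sup_k a_k ≤ NN a` since `Q (1,R) d_k ≤ NN d_k ≤ 1`.  Hence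
`N 1 R (a∘d) ≤ (1 + σ'₁ (D₁ + 1) + ε'₁ D₁) NN a`; also `sup (a∘d) ≤ sup a ≤ NN a`.
-/

open scoped ENNReal NNReal
open Function

namespace DHsp

variable {S : Sys}

theorem upper (p : Par S) : UpperEst S.NN := by
  refine ⟨1 + p.σ' 1 * (p.D 1 + 1) + p.ε' 1 * p.D 1, ?_, ?_⟩
  · exact ENNReal.add_ne_top.2 ⟨ENNReal.add_ne_top.2 ⟨ENNReal.one_ne_top,
      ENNReal.mul_ne_top (p.σ'_top 1) (ENNReal.add_ne_top.2 ⟨p.D_top 1, ENNReal.one_ne_top⟩)⟩,
      ENNReal.mul_ne_top (p.ε'_top 1) (p.D_top 1)⟩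
  intro K I _ a d hd
  set b : Empty → ℝ≥0∞ := fun e => e.elim with hb
  have htop : ∀ {Φ : SFun}, Good Φ → Φ (Empty ⊕ K) (top b (p.D 1 * 1) a) ≤ p.D 1 * Φ K a := by
    intro Φ hΦ
    refine hΦ.mono_mul (p.D_top 1) (Sum.elim (fun e : Empty => e.elim) id) ?_ ?_
    · rintro (e | k) _ (e' | k') _ h
      · exact e.elim
      · exact e.elim
      · exact e'.elim
      · simpa using h
    · rintro (e | k)
      · exact e.elim
      · simp [top]
  have hsup : (⨆ k, a k) ≤ S.NN K a := sup_le_NN S a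
  refine iSup_le fun R => max_le ?_ ?_
  · refine iSup_le fun u => ?_
    have h1 : d u.1 u.2 ≤ 1 := (le_iSup (d u.1) u.2).trans ((sup_le_NN S (d u.1)).trans (hd u.1))
    calc a u.1 * d u.1 u.2 ≤ a u.1 * 1 := by gcongr
      _ = a u.1 := mul_one _
      _ ≤ ⨆ k, a k := le_iSup a u.1
      _ ≤ S.NN K a := hsup
      _ = 1 * S.NN K a := (one_mul _).symm
      _ ≤ (1 + p.σ' 1 * (p.D 1 + 1) + p.ε' 1 * p.D 1) * S.NN K a := by
          gcongr
          rw [add_assoc]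
          exact le_self_add
  · have h1 : S.Q (1, R) (K × I) (fun u => a u.1 * d u.1 u.2) ≤
        S.Q (1, R) (Empty ⊕ (K × I)) (blk b a d) :=
      (good_Q p (1, R)).mono Sum.inr Sum.inr_injective.injOn fun u => le_rfl
    have h2 := split p 1 R b a d 1 fun k => (N_le_NN S le_rfl R (d k)).trans (hd k)
    have h3 : S.Q (1, R) _ (top b (p.D 1 * 1) a) ≤ p.D 1 * S.NN K a :=
      (htop (good_Q p (1, R))).trans (by gcongr; exact Q_le_NN S le_rfl R a)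
    have h4 : S.N 1 R _ (top b (p.D 1 * 1) a) ≤ p.D 1 * S.NN K a :=
      (htop (good_N p 1 R)).trans (by gcongr; exact N_le_NN S le_rfl R a)
    have h5 : (⨆ k, a k * S.Q (1, R) I (d k)) ≤ S.NN K a := by
      refine iSup_le fun k => ?_
      have h6 : S.Q (1, R) I (d k) ≤ 1 := (Q_le_NN S le_rfl R (d k)).trans (hd k)
      calc a k * S.Q (1, R) I (d k) ≤ a k * 1 := by gcongr
        _ = a k := mul_one _
        _ ≤ ⨆ k, a k := le_iSup a k
        _ ≤ S.NN K a := hsup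
    have h6 : max (S.Q (1, R) _ (top b (p.D 1 * 1) a)) (⨆ k, a k * S.Q (1, R) I (d k)) ≤
        (p.D 1 + 1) * S.NN K a := by
      rw [add_mul, one_mul]
      exact max_le (h3.trans le_self_add) (h5.trans le_add_self)
    calc S.Q (1, R) (K × I) (fun u => a u.1 * d u.1 u.2)
        ≤ p.σ' 1 * max (S.Q (1, R) _ (top b (p.D 1 * 1) a)) (⨆ k, a k * S.Q (1, R) I (d k))
          + p.ε' 1 * S.N 1 R _ (top b (p.D 1 * 1) a) := h1.trans h2
      _ ≤ p.σ' 1 * ((p.D 1 + 1) * S.NN K a) + p.ε' 1 * (p.D 1 * S.NN K a) := by gcongr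
      _ = (p.σ' 1 * (p.D 1 + 1) + p.ε' 1 * p.D 1) * S.NN K a := by ring
      _ ≤ (1 + p.σ' 1 * (p.D 1 + 1) + p.ε' 1 * p.D 1) * S.NN K a := by
          gcongr
          exact le_add_self

end DHsp
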